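import Pool.Agent.Lib.BLP.Props

/-!
Project BLP (MP_ef2672), row R23: Claim A (helper25).
-/

set_option autoImplicit false

open Complex MeasureTheory Finset Set Filter Topology

namespace Pool.Agent.BLP

open Pool.Agent.KL

noncomputable section

namespace CLAaux

lemma S0_le {n : ℕ} (hn : 1 ≤ n) : S0 n ≤ n := by
  have hn' : (0 : ℝ) < n := by exact_mod_cast hn
  have hx : 0 ≤ Real.pi / (2 * n) := by positivity
  have hx2 : Real.pi / (2 * n) ≤ Real.pi / 2 := by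
    have h1 : (1 : ℝ) ≤ n := by exact_mod_cast hn
    apply div_le_div_of_nonneg_left Real.pi_pos.le (by norm_num)
    linarith
  have h := Real.mul_le_sin hx hx2
  have h2 : 2 / Real.pi * (Real.pi / (2 * n)) = 1 / n := by
    field_simp
  rw [h2] at h
  unfold S0
  have h3 : 0 < 1 / (n : ℝ) := by positivity
  calc 1 / Real.sin (Real.pi / (2 * n)) ≤ 1 / (1 / (n : ℝ)) := one_div_le_one_div_of_le h3 h
    _ = n := by simp

lemma le_S0 {n : ℕ} (hn : 1 ≤ n) : (n : ℝ) / 2 ≤ S0 n := by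
  have hn' : (0 : ℝ) < n := by exact_mod_cast hn
  have hx : 0 < Real.pi / (2 * n) := by positivity
  have hs : Real.sin (Real.pi / (2 * n)) ≤ Real.pi / (2 * n) := Real.sin_le hx.le
  have hx2 : Real.pi / (2 * n) < Real.pi := by
    have h1 : (1 : ℝ) ≤ n := by exact_mod_cast hn
    rw [div_lt_iff₀ (by positivity)]
    nlinarith [Real.pi_pos]
  have hs0 : 0 < Real.sin (Real.pi / (2 * n)) := Real.sin_pos_of_pos_of_lt_pi hx hx2
  have h4 : Real.pi / (2 * n) ≤ 2 / n := by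
    rw [div_le_div_iff₀ (by positivity) hn']
    nlinarith [Real.pi_le_four]
  unfold S0
  rw [le_div_iff₀ hs0]
  calc (n : ℝ) / 2 * Real.sin (Real.pi / (2 * n)) ≤ n / 2 * (2 / n) :=
        mul_le_mul_of_nonneg_left (hs.trans h4) (by positivity)
    _ = 1 := by field_simp

lemma coefA_nonneg (p : Polynomial ℝ) : 0 ≤ coefA p :=
  Finset.sum_nonneg fun _ _ => abs_nonneg _

/-- the numerical comparison -/
lemma num {D x : ℝ} (hD : 0 ≤ D) (hx : 10 ^ 13 + 10 ^ 12 * (D + 6) ≤ x) :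
    40 * x ^ 3 * Real.exp (9 * x + D) ≤ Real.exp (1 / 10 ^ 12 * x ^ 2) := by
  have hx1 : 1 ≤ x := by
    have : (0 : ℝ) ≤ 10 ^ 12 * (D + 6) := by positivity
    have h2 : (1 : ℝ) ≤ 10 ^ 13 := by norm_num
    linarith
  have hx0 : 0 ≤ x := by linarith
  have h1 : x ^ 3 / 6 ≤ Real.exp x := by
    have := Real.pow_div_factorial_le_exp x hx0 3
    simpa [Nat.factorial] using this
  have h2 : (240 : ℝ) ≤ Real.exp 6 := by
    have h3 := Real.exp_one_gt_d9
    have h4 : Real.exp 6 = Real.exp 1 ^ 6 := by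
      rw [← Real.exp_nat_mul]
      norm_num
    rw [h4]
    calc (240 : ℝ) ≤ (2.7 : ℝ) ^ 6 := by norm_num
      _ ≤ Real.exp 1 ^ 6 := by
        apply pow_le_pow_left₀ (by norm_num)
        linarith
  have h3 : 40 * x ^ 3 ≤ Real.exp 6 * Real.exp x := by
    have h5 : 40 * x ^ 3 = 240 * (x ^ 3 / 6) := by ring
    rw [h5]
    exact mul_le_mul h2 h1 (by positivity) (Real.exp_pos _).le
  calc 40 * x ^ 3 * Real.exp (9 * x + D) ≤ Real.exp 6 * Real.exp x * Real.exp (9 * x + D) :=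
        mul_le_mul_of_nonneg_right h3 (Real.exp_pos _).le
    _ = Real.exp (10 * x + (D + 6)) := by
        rw [← Real.exp_add, ← Real.exp_add]
        congr 1
        ring
    _ ≤ Real.exp (1 / 10 ^ 12 * x ^ 2) := by
        apply Real.exp_le_exp.2
        have h6 : (10 ^ 13 + 10 ^ 12 * (D + 6)) * x ≤ x * x := mul_le_mul_of_nonneg_right hx hx0
        have h7 : (D + 6) * 1 ≤ (D + 6) * x := mul_le_mul_of_nonneg_left hx1 (by linarith)
        have h8 : 1 / 10 ^ 12 * ((10 ^ 13 + 10 ^ 12 * (D + 6)) * x) = 10 * x + (D + 6) * x := by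
          ring
        have h9 : 1 / 10 ^ 12 * ((10 ^ 13 + 10 ^ 12 * (D + 6)) * x) ≤ 1 / 10 ^ 12 * (x * x) :=
          mul_le_mul_of_nonneg_left h6 (by norm_num)
        have h10 : 1 / 10 ^ 12 * (x * x) = 1 / 10 ^ 12 * x ^ 2 := by ring
        linarith

lemma weight_bd {n : ℕ} (hn : 2 ≤ n) (W : WINC n) {M : ℝ}
    (hM : M ≤ Real.exp (2 * n)) {Ψ : ℂ → ℂ} (b1 : ∀ y : ℝ, ‖Ψ ((y : ℂ) * I)‖ ≤ 2 * M)
    (b2 : ∀ y : ℝ, (|y| ≤ 998 / 1000 ∨ 999 / 1000 ≤ |y|) → ‖Ψ ((y : ℂ) * I)‖ ≤ 2)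
    (far : ∀ s : ℂ, 0 ≤ s.re → s ≠ 0 → ‖Ψ s‖ ≤ (‖s‖ ^ (2 * n - 1))⁻¹) (y : ℝ) :
    (1 - chr n y - chr n (-y)) * ‖Ψ ((y : ℂ) * I)‖ ≤ 8 * (1 + y ^ 2)⁻¹ := by
  have hw0 : 0 ≤ 1 - chr n y - chr n (-y) := by linarith [W.le_one y]
  have hw1 : 1 - chr n y - chr n (-y) ≤ 1 := by linarith [W.nonneg y, W.nonneg (-y)]
  have hN : 0 ≤ ‖Ψ ((y : ℂ) * I)‖ := norm_nonneg _
  have small : |y| ≤ 1 → (1 - chr n y - chr n (-y)) * ‖Ψ ((y : ℂ) * I)‖ ≤ 4 →
      (1 - chr n y - chr n (-y)) * ‖Ψ ((y : ℂ) * I)‖ ≤ 8 * (1 + y ^ 2)⁻¹ := by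
    intro h1 h2
    have h3 : y ^ 2 ≤ 1 := by
      rw [← sq_abs]
      nlinarith [abs_nonneg y]
    refine h2.trans ?_
    rw [← div_eq_mul_inv, le_div_iff₀ (by positivity)]
    linarith
  have two : ‖Ψ ((y : ℂ) * I)‖ ≤ 2 → (1 - chr n y - chr n (-y)) * ‖Ψ ((y : ℂ) * I)‖ ≤ 4 := by
    intro h
    calc _ ≤ 1 * 2 := mul_le_mul hw1 h hN (by norm_num)
      _ ≤ 4 := by norm_num
  rcases le_total (|y|) (998 / 1000) with h | h
  · exact small (by linarith) (two (b2 y (Or.inl h)))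
  rcases le_total (|y|) (999 / 1000) with h' | h'
  · refine small (by linarith) ?_
    have hnear := W.near y h h'
    have h3 : ‖Ψ ((y : ℂ) * I)‖ ≤ 2 * Real.exp (2 * n) := (b1 y).trans (by linarith)
    calc _ ≤ 2 * Real.exp (-(2 * n)) * (2 * Real.exp (2 * n)) :=
          mul_le_mul hnear h3 hN (by positivity)
      _ = 4 * (Real.exp (-(2 * n)) * Real.exp (2 * n)) := by ring
      _ = 4 := by
          rw [← Real.exp_add]
          simp
  rcases le_total (|y|) 1 with h'' | h''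
  · exact small h'' (two (b2 y (Or.inr h')))
  · have hy0 : ((y : ℂ) * I) ≠ 0 := by
      intro h0
      have h1 : ‖(y : ℂ) * I‖ = 0 := by rw [h0, norm_zero]
      rw [norm_mul, Complex.norm_I, Complex.norm_real, Real.norm_eq_abs, mul_one] at h1
      linarith
    have h1 := far ((y : ℂ) * I) (by simp) hy0
    rw [norm_mul, Complex.norm_I, Complex.norm_real, Real.norm_eq_abs, mul_one] at h1
    have h2 : |y| ^ 2 ≤ |y| ^ (2 * n - 1) := pow_le_pow_right₀ h'' (by omega)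
    have hy2 : 1 ≤ y ^ 2 := by
      rw [← sq_abs]
      nlinarith
    rw [sq_abs] at h2
    have h3 : (|y| ^ (2 * n - 1))⁻¹ ≤ (y ^ 2)⁻¹ := inv_anti₀ (by linarith) h2
    have h4 : (y ^ 2)⁻¹ ≤ 8 * (1 + y ^ 2)⁻¹ := by
      rw [← div_eq_mul_inv, le_div_iff₀ (by positivity), inv_mul_le_iff₀ (by linarith)]
      linarith
    calc _ ≤ 1 * ‖Ψ ((y : ℂ) * I)‖ := mul_le_mul_of_nonneg_right hw1 hN
      _ ≤ 8 * (1 + y ^ 2)⁻¹ := by
        rw [one_mul]
        exact (h1.trans h3).trans h4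

lemma G_bd {n : ℕ} (hn : 2 ≤ n) (W : WINC n) {M : ℝ}
    (hM : M ≤ Real.exp (2 * n)) {Ψ : ℂ → ℂ} (b1 : ∀ y : ℝ, ‖Ψ ((y : ℂ) * I)‖ ≤ 2 * M)
    (b2 : ∀ y : ℝ, (|y| ≤ 998 / 1000 ∨ 999 / 1000 ≤ |y|) → ‖Ψ ((y : ℂ) * I)‖ ≤ 2)
    (far : ∀ s : ℂ, 0 ≤ s.re → s ≠ 0 → ‖Ψ s‖ ≤ (‖s‖ ^ (2 * n - 1))⁻¹) :
    (2 * Real.pi)⁻¹ * (∫ y : ℝ, (1 - chr n y - chr n (-y)) * ‖Ψ ((y : ℂ) * I)‖) ≤ 4 := by
  have h1 : ∫ y : ℝ, (1 - chr n y - chr n (-y)) * ‖Ψ ((y : ℂ) * I)‖ ≤
      ∫ y : ℝ, 8 * (1 + y ^ 2)⁻¹ := by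
    refine integral_mono_of_nonneg (Eventually.of_forall fun y => ?_)
      (integrable_inv_one_add_sq.const_mul 8)
      (Eventually.of_forall fun y => weight_bd hn W hM b1 b2 far y)
    exact mul_nonneg (by linarith [W.le_one y]) (norm_nonneg _)
  rw [integral_const_mul, integral_univ_inv_one_add_sq] at h1
  have hpi := Real.pi_pos
  calc _ ≤ (2 * Real.pi)⁻¹ * (8 * Real.pi) := mul_le_mul_of_nonneg_left h1 (by positivity)
    _ = 4 := by
      field_simp
      norm_num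

/-- the combination of the numbers -/
lemma comb {n : ℕ} {D M e u P2 th J S E : ℝ} (hn : 1 ≤ n) (hD : 0 ≤ D)
    (hx : 10 ^ 13 + 10 ^ 12 * (D + 6) ≤ √(n : ℝ))
    (hM : M ≤ Real.exp (1 / 10 ^ 12 * n)) (he : e = 1 / √(n : ℝ)) (hS : S ≤ n)
    (hP2 : Real.exp (-(4 * e * S) - D) / n ≤ P2) (hu : 0 ≤ u) (hE : E = Real.exp (-(e * u)))
    (ht0 : 0 ≤ th) (ht1 : th ≤ 1) (ht2 : 408 / 100 * n ≤ u → 1 - th ≤ Real.exp (-(7 / 10 ^ 5 * n)))
    (hJ1 : |J| ≤ 5 * M * Real.exp (-(3 * e * u)))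
    (hJ2 : u ≤ 408 / 100 * n → |J| ≤ M * Real.exp (-(2 / 10 ^ 12 * n))) :
    -(e / 8 * E * P2) + J ≤ th * J := by
  have hn' : (0 : ℝ) < n := by exact_mod_cast hn
  have hs0 : 0 < √(n : ℝ) := Real.sqrt_pos.2 hn'
  have hs2 : √(n : ℝ) ^ 2 = n := Real.sq_sqrt hn'.le
  have he0 : 0 < e := by rw [he]; positivity
  have hen : e * n = √(n : ℝ) := by
    rw [he]
    field_simp
    exact hs2.symm
  set x := √(n : ℝ) with hxdef
  have hnum := num hD hx
  rw [hs2] at hnum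
  -- lower bound for P2
  have hP : Real.exp (-(4 * x) - D) / n ≤ P2 := by
    refine le_trans ?_ hP2
    apply div_le_div_of_nonneg_right _ hn'.le
    apply Real.exp_le_exp.2
    have : e * S ≤ e * n := mul_le_mul_of_nonneg_left hS he0.le
    rw [hen] at this
    linarith
  have hP0 : 0 < P2 := lt_of_lt_of_le (by positivity) hP
  have hE0 : 0 < E := by rw [hE]; exact Real.exp_pos _
  have h1t : 0 ≤ 1 - th := by linarith
  -- it suffices
  suffices hsuf : (1 - th) * |J| ≤ e / 8 * E * P2 by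
    have := mul_le_mul_of_nonneg_left (le_abs_self J) h1t
    linarith
  have hx3 : x ^ 3 = n * x := by
    rw [← hs2]
    ring
  have he8 : e / 8 * (Real.exp (-(4 * x) - D) / n) = Real.exp (-(4 * x) - D) / (8 * x ^ 3) := by
    rw [hx3, he]
    field_simp
  have hlow : E * (Real.exp (-(4 * x) - D) / (8 * x ^ 3)) ≤ e / 8 * E * P2 := by
    rw [← he8]
    calc _ = e / 8 * E * (Real.exp (-(4 * x) - D) / n) := by ring
      _ ≤ _ := mul_le_mul_of_nonneg_left hP (by positivity)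
  refine le_trans ?_ hlow
  have hx3p : 0 < 8 * x ^ 3 := by positivity
  rcases le_total u (408 / 100 * n) with hc | hc
  · -- near
    have h1 : (1 - th) * |J| ≤ 1 * (M * Real.exp (-(2 / 10 ^ 12 * n))) :=
      mul_le_mul (by linarith) (hJ2 hc) (abs_nonneg _) (by norm_num)
    have h2 : M * Real.exp (-(2 / 10 ^ 12 * n)) ≤ Real.exp (-(1 / 10 ^ 12 * n)) := by
      calc _ ≤ Real.exp (1 / 10 ^ 12 * n) * Real.exp (-(2 / 10 ^ 12 * n)) :=
            mul_le_mul_of_nonneg_right hM (Real.exp_pos _).le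
        _ = _ := by
            rw [← Real.exp_add]
            congr 1
            ring
    have h3 : Real.exp (-(408 / 100 * x)) ≤ E := by
      rw [hE]
      apply Real.exp_le_exp.2
      have : e * u ≤ e * (408 / 100 * n) := mul_le_mul_of_nonneg_left hc he0.le
      have h4 : e * (408 / 100 * n) = 408 / 100 * (e * n) := by ring
      rw [h4, hen] at this
      linarith
    have h5 : Real.exp (-(1 / 10 ^ 12 * n)) * (8 * x ^ 3) ≤
        Real.exp (-(408 / 100 * x)) * Real.exp (-(4 * x) - D) := by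
      have h6 : 8 * x ^ 3 * Real.exp (9 * x + D) ≤ Real.exp (1 / 10 ^ 12 * n) := by
        refine le_trans ?_ hnum
        apply mul_le_mul_of_nonneg_right _ (Real.exp_pos _).le
        nlinarith [pow_pos hs0 3]
      have h7 : Real.exp (-(1 / 10 ^ 12 * n)) * (8 * x ^ 3) =
          (8 * x ^ 3 * Real.exp (9 * x + D)) * (Real.exp (-(1 / 10 ^ 12 * n)) *
            Real.exp (-(9 * x + D))) := by
        have : Real.exp (9 * x + D) * Real.exp (-(9 * x + D)) = 1 := by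
          rw [← Real.exp_add]
          simp
        calc _ = Real.exp (-(1 / 10 ^ 12 * n)) * (8 * x ^ 3) * 1 := by ring
          _ = Real.exp (-(1 / 10 ^ 12 * n)) * (8 * x ^ 3) *
            (Real.exp (9 * x + D) * Real.exp (-(9 * x + D))) := by rw [this]
          _ = _ := by ring
      rw [h7]
      calc _ ≤ Real.exp (1 / 10 ^ 12 * n) * (Real.exp (-(1 / 10 ^ 12 * n)) *
            Real.exp (-(9 * x + D))) := mul_le_mul_of_nonneg_right h6 (by positivity)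
        _ = Real.exp (-(9 * x + D)) := by
            rw [← mul_assoc, ← Real.exp_add]
            simp
        _ ≤ Real.exp (-(408 / 100 * x)) * Real.exp (-(4 * x) - D) := by
            rw [← Real.exp_add]
            apply Real.exp_le_exp.2
            linarith
    have h8 : Real.exp (-(1 / 10 ^ 12 * n)) ≤ Real.exp (-(408 / 100 * x)) *
        (Real.exp (-(4 * x) - D) / (8 * x ^ 3)) := by
      rw [← mul_div_assoc, le_div_iff₀ hx3p]
      exact h5
    calc _ ≤ Real.exp (-(1 / 10 ^ 12 * n)) := by linarith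
      _ ≤ _ := h8
      _ ≤ _ := mul_le_mul_of_nonneg_right h3 (by positivity)
  · -- far
    have h1 : (1 - th) * |J| ≤ Real.exp (-(7 / 10 ^ 5 * n)) * (5 * M * Real.exp (-(3 * e * u))) :=
      mul_le_mul (ht2 hc) hJ1 (abs_nonneg _) (Real.exp_pos _).le
    have h2 : Real.exp (-(3 * e * u)) ≤ E := by
      rw [hE]
      apply Real.exp_le_exp.2
      have : 0 ≤ e * u := by positivity
      linarith
    have h3 : Real.exp (-(7 / 10 ^ 5 * n)) * (5 * M) ≤ 5 * Real.exp (-(1 / 10 ^ 12 * n)) := by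
      calc _ = 5 * (M * Real.exp (-(7 / 10 ^ 5 * n))) := by ring
        _ ≤ 5 * (Real.exp (1 / 10 ^ 12 * n) * Real.exp (-(7 / 10 ^ 5 * n))) := by
            have := mul_le_mul_of_nonneg_right hM (Real.exp_pos (-(7 / 10 ^ 5 * (n : ℝ)))).le
            linarith
        _ = 5 * Real.exp (1 / 10 ^ 12 * n + -(7 / 10 ^ 5 * n)) := by rw [← Real.exp_add]
        _ ≤ _ := by
            have : Real.exp (1 / 10 ^ 12 * n + -(7 / 10 ^ 5 * n)) ≤
                Real.exp (-(1 / 10 ^ 12 * n)) := by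
              apply Real.exp_le_exp.2
              have : 0 < (n : ℝ) := hn'
              linarith
            linarith
    have h5 : 5 * Real.exp (-(1 / 10 ^ 12 * n)) ≤ Real.exp (-(4 * x) - D) / (8 * x ^ 3) := by
      rw [le_div_iff₀ hx3p]
      have h7 : 5 * Real.exp (-(1 / 10 ^ 12 * n)) * (8 * x ^ 3) =
          (40 * x ^ 3 * Real.exp (9 * x + D)) * (Real.exp (-(1 / 10 ^ 12 * n)) *
            Real.exp (-(9 * x + D))) := by
        have : Real.exp (9 * x + D) * Real.exp (-(9 * x + D)) = 1 := by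
          rw [← Real.exp_add]
          simp
        calc _ = Real.exp (-(1 / 10 ^ 12 * n)) * (40 * x ^ 3) * 1 := by ring
          _ = Real.exp (-(1 / 10 ^ 12 * n)) * (40 * x ^ 3) *
            (Real.exp (9 * x + D) * Real.exp (-(9 * x + D))) := by rw [this]
          _ = _ := by ring
      rw [h7]
      calc _ ≤ Real.exp (1 / 10 ^ 12 * n) * (Real.exp (-(1 / 10 ^ 12 * n)) *
            Real.exp (-(9 * x + D))) := mul_le_mul_of_nonneg_right hnum (by positivity)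
        _ = Real.exp (-(9 * x + D)) := by
            rw [← mul_assoc, ← Real.exp_add]
            simp
        _ ≤ Real.exp (-(4 * x) - D) := by
            apply Real.exp_le_exp.2
            linarith
    calc _ ≤ Real.exp (-(7 / 10 ^ 5 * n)) * (5 * M * Real.exp (-(3 * e * u))) := h1
      _ = Real.exp (-(7 / 10 ^ 5 * n)) * (5 * M) * Real.exp (-(3 * e * u)) := by ring
      _ ≤ 5 * Real.exp (-(1 / 10 ^ 12 * n)) * Real.exp (-(3 * e * u)) :=
          mul_le_mul_of_nonneg_right h3 (Real.exp_pos _).le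
      _ ≤ Real.exp (-(4 * x) - D) / (8 * x ^ 3) * E :=
          mul_le_mul h5 h2 (Real.exp_pos _).le (by positivity)
      _ = _ := by ring

end CLAaux

open CLAaux

/-- **Claim A.** -/
theorem cla (hwin : WIN) (hqd : QD) (hsn : SNEG) (hsj : SJB) (hth : THE) (hb1 : BND1)
    (hb2 : BND2) : CLA := by
  intro p hp
  obtain ⟨ε1, hε1, H1⟩ := hb1 p hp
  obtain ⟨D, n1, hD, H2⟩ := hb2 p hp.zero hp.one.le
  obtain ⟨C, hC, H3⟩ := hsn D 4 hD (by norm_num)
  obtain ⟨n2, H4⟩ := hsj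
  have hA := coefA_nonneg p
  have hp1 := hp.one
  refine ⟨min (min ε1 1) (min (1 / (2 * p.coeff 1)) (1 / (2 * 10 ^ 12 * (coefA p + 1)))),
    lt_min (lt_min hε1 one_pos) (lt_min (by positivity) (by positivity)), ?_⟩
  intro ε hε0 hε
  have e1 : ε ≤ ε1 := hε.trans ((min_le_left _ _).trans (min_le_left _ _))
  have e2 : ε ≤ 1 := hε.trans ((min_le_left _ _).trans (min_le_right _ _))
  have e3 : ε ≤ 1 / (2 * p.coeff 1) := hε.trans ((min_le_right _ _).trans (min_le_left _ _))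
  have e4 : ε ≤ 1 / (2 * 10 ^ 12 * (coefA p + 1)) :=
    hε.trans ((min_le_right _ _).trans (min_le_right _ _))
  rw [le_div_iff₀ (by positivity)] at e3 e4
  have e5 : 2 * ε * coefA p ≤ 1 / 10 ^ 12 := by
    rw [le_div_iff₀ (by norm_num)]
    nlinarith
  refine ⟨C, max (max 4 n1) (max n2 ⌈(10 ^ 13 + 10 ^ 12 * (D + 6)) ^ 2⌉₊), hC, ?_⟩
  intro n hn hev h Ψ hΨ u hu
  have m1 : 4 ≤ n := (le_max_left _ _).trans ((le_max_left _ _).trans hn)
  have m2 : n1 ≤ n := (le_max_right _ _).trans ((le_max_left _ _).trans hn)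
  have m3 : n2 ≤ n := (le_max_left _ _).trans ((le_max_right _ _).trans hn)
  have m4 : ⌈(10 ^ 13 + 10 ^ 12 * (D + 6)) ^ 2⌉₊ ≤ n :=
    (le_max_right _ _).trans ((le_max_right _ _).trans hn)
  have hn1 : 1 ≤ n := by omega
  have hn' : (0 : ℝ) < n := by exact_mod_cast hn1
  have hx : 10 ^ 13 + 10 ^ 12 * (D + 6) ≤ √(n : ℝ) :=
    Real.le_sqrt_of_sq_le ((Nat.le_ceil _).trans (by exact_mod_cast m4))
  obtain ⟨C0, hC0⟩ := hΨ.pw
  obtain ⟨B1, B2⟩ := H1 ε hε0 e1 n m1 hev h Ψ hΨ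
  -- S'
  have hS0 := S0_le hn1
  have hS1 := le_S0 hn1
  have hεp : n * ε * p.coeff 1 ≤ n / 2 := by
    have : ε * p.coeff 1 ≤ 1 / 2 := by linarith
    calc n * ε * p.coeff 1 = n * (ε * p.coeff 1) := by ring
      _ ≤ n * (1 / 2) := mul_le_mul_of_nonneg_left this hn'.le
      _ = _ := by ring
  have hεp0 : 0 ≤ n * ε * p.coeff 1 := by positivity
  have hS' : n * ε * p.coeff 1 ≤ S0 n := hεp.trans hS1
  obtain ⟨P1, P2, -⟩ := H2 ε hε0 e2 n m2 hev h Ψ hΨ hS'
  have hSn : 0 ≤ S0 n - n * ε * p.coeff 1 := by linarith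
  -- M
  have hMle : Real.exp (2 * n * ε * coefA p) ≤ Real.exp (1 / 10 ^ 12 * n) := by
    apply Real.exp_le_exp.2
    calc 2 * n * ε * coefA p = (2 * ε * coefA p) * n := by ring
      _ ≤ _ := mul_le_mul_of_nonneg_right e5 hn'.le
  have hMle2 : Real.exp (2 * n * ε * coefA p) ≤ Real.exp (2 * n) := by
    refine hMle.trans (Real.exp_le_exp.2 ?_)
    nlinarith
  have hM1 : 1 ≤ Real.exp (2 * n * ε * coefA p) := Real.one_le_exp (by positivity)
  have W := hwin n hn1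
  have he : 0 < ee n := by
    unfold ee
    positivity
  have hlog : 0 ≤ Real.log n := Real.log_nonneg (by exact_mod_cast hn1)
  have hu0 : 0 ≤ u := by
    refine le_trans ?_ hu
    positivity
  have G := G_bd (by omega) W hMle2 B1 B2 hΨ.far
  have Q := hqd Ψ C0 hC0 (chr n) W.cont W.nonneg W.le_one (ee n) 4 he G u hu0
  have N := H3 n hn1 (S0 n - n * ε * p.coeff 1) _ _ hSn P1 P2 u hu
  obtain ⟨J1, J2⟩ := H4 n m3 hev _ C0 Ψ hM1 hC0 B1 hΨ.far
  obtain ⟨T1, T2⟩ := hth n hn1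
  have K := comb (J := SJ (chr n) Ψ (ee n) u) (u := u) (th := thet n u) hn1 hD hx hMle
    (e := ee n) rfl (by linarith : S0 n - n * ε * p.coeff 1 ≤ n) P2 hu0 rfl (T1 u hu0).1
    (T1 u hu0).2 (T2 u) (J1 u hu0) (J2 u hu0)
  linarith

end

end Pool.Agent.BLP
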