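import Pool.Agent.Lib.BLP.Props
import Pool.Agent.Lib.KL.Limit

/-!
Project BLP (MP_ef2672), row R29: the end of the proof (helper76).
-/

open Complex MeasureTheory Finset Set Filter Topology

namespace Pool.Agent.BLP

open Pool.Agent.KL Pool.Agent.Lib.MP_ef2672_gt_Tauber

noncomputable section

namespace FIN1x

/-- polynomial times `exp (C sqrt n)` against an exponential -/
lemma ev_small (k : ℕ) (C : ℝ) {a δ : ℝ} (ha : 0 < a) (hδ : 0 < δ) :
    ∀ᶠ n : ℕ in atTop, (n : ℝ) ^ k * Real.exp (C * √(n : ℝ) - a * n) ≤ δ := by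
  have h1 : Tendsto (fun n : ℕ => (k * (Real.log n / √(n : ℝ)) * (1 / √(n : ℝ)) +
      C * (1 / √(n : ℝ)) - a)) atTop (𝓝 (k * 0 * 0 + C * 0 - a)) :=
    (((tendsto_log_div_sqrt.const_mul _).mul tendsto_inv_sqrt).add
      (tendsto_inv_sqrt.const_mul _)).sub_const _
  have h2 : Tendsto (fun n : ℕ => (n : ℝ) * (k * (Real.log n / √(n : ℝ)) * (1 / √(n : ℝ)) +
      C * (1 / √(n : ℝ)) - a)) atTop atBot := by
    refine Tendsto.atTop_mul_neg (by linarith : (k : ℝ) * 0 * 0 + C * 0 - a < 0)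
      tendsto_natCast_atTop_atTop h1
  have h3 := Real.tendsto_exp_atBot.comp h2
  filter_upwards [h3.eventually_lt_const hδ, eventually_gt_atTop 0] with n hn hn0
  have h0 : (0 : ℝ) < n := by exact_mod_cast hn0
  have hs : 0 < √(n : ℝ) := Real.sqrt_pos.2 h0
  refine le_trans (le_of_eq ?_) hn.le
  simp only [Function.comp]
  have h4 : (n : ℝ) ^ k = Real.exp (k * Real.log n) := by
    rw [Real.exp_nat_mul, Real.exp_log h0]
  rw [h4, ← Real.exp_add]
  congr 1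
  have h5 : √(n : ℝ) * √(n : ℝ) = n := Real.mul_self_sqrt h0.le
  have h6 : (n : ℝ) * (1 / √(n : ℝ)) = √(n : ℝ) := by
    field_simp
    nlinarith
  have h7 : (n : ℝ) * (Real.log n / √(n : ℝ) * (1 / √(n : ℝ))) = Real.log n := by
    calc (n : ℝ) * (Real.log n / √(n : ℝ) * (1 / √(n : ℝ)))
        = (√(n : ℝ) * √(n : ℝ)) * (Real.log n / √(n : ℝ) * (1 / √(n : ℝ))) := by rw [h5]
      _ = Real.log n := by field_simp
  calc k * Real.log n + (C * √(n : ℝ) - a * n) =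
      k * ((n : ℝ) * (Real.log n / √(n : ℝ) * (1 / √(n : ℝ)))) + (C * ((n : ℝ) * (1 / √(n : ℝ))) - a * n) := by
        rw [h6, h7]
    _ = _ := by ring

/-- the radius, asymptotically -/
lemma ev_radius (C : ℝ) {g : ℝ} (hg : 0 < g) :
    ∀ᶠ n : ℕ in atTop, 2 * S0 n + √(n : ℝ) * (C + 2 * Real.log n) ≤ (4 / Real.pi + g) * n := by
  have h1 : Tendsto (fun n : ℕ => 2 * ((n : ℝ) * Real.sin (Real.pi / (2 * n)))⁻¹ +
      (C * (1 / √(n : ℝ)) + 2 * (Real.log n / √(n : ℝ)))) atTop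
      (𝓝 (2 * (Real.pi / 2)⁻¹ + (C * 0 + 2 * 0))) :=
    ((tendsto_sin.inv₀ (by positivity)).const_mul _).add
      ((tendsto_inv_sqrt.const_mul _).add (tendsto_log_div_sqrt.const_mul _))
  have h2 : 2 * (Real.pi / 2)⁻¹ + (C * 0 + 2 * 0) < 4 / Real.pi + g := by
    have : 2 * (Real.pi / 2)⁻¹ + (C * 0 + 2 * 0) = 4 / Real.pi := by
      field_simp
      ring
    linarith
  filter_upwards [h1.eventually_lt_const h2, eventually_gt_atTop 1] with n hn hn1
  have h0 : (0 : ℝ) < n := by exact_mod_cast (by omega : 0 < n)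
  have hs : 0 < √(n : ℝ) := Real.sqrt_pos.2 h0
  have hsin : 0 < Real.sin (Real.pi / (2 * n)) := by
    apply Real.sin_pos_of_pos_of_lt_pi (by positivity)
    have : (1 : ℝ) < n := by exact_mod_cast hn1
    rw [div_lt_iff₀ (by positivity)]
    nlinarith [Real.pi_pos]
  have h3 := mul_le_mul_of_nonneg_right hn.le h0.le
  refine le_trans (le_of_eq ?_) h3
  have h5 : √(n : ℝ) * √(n : ℝ) = n := Real.mul_self_sqrt h0.le
  have h6 : (1 / √(n : ℝ)) * n = √(n : ℝ) := by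
    field_simp
    nlinarith
  have h7 : (Real.log n / √(n : ℝ)) * n = √(n : ℝ) * Real.log n := by
    calc (Real.log n / √(n : ℝ)) * n = (Real.log n / √(n : ℝ)) * (√(n : ℝ) * √(n : ℝ)) := by rw [h5]
      _ = _ := by field_simp
  calc 2 * S0 n + √(n : ℝ) * (C + 2 * Real.log n)
      = 2 * S0 n + (C * √(n : ℝ) + 2 * (√(n : ℝ) * Real.log n)) := by ring
    _ = 2 * S0 n + (C * ((1 / √(n : ℝ)) * n) + 2 * ((Real.log n / √(n : ℝ)) * n)) := by
        rw [h6, h7]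
    _ = _ := by
        rw [S0]
        field_simp

lemma S0_ge {n : ℕ} (hn : 1 < n) : 2 / Real.pi * n ≤ S0 n := by
  have h0 : (0 : ℝ) < n := by exact_mod_cast (by omega : 0 < n)
  have hsin : 0 < Real.sin (Real.pi / (2 * n)) := by
    apply Real.sin_pos_of_pos_of_lt_pi (by positivity)
    have : (1 : ℝ) < n := by exact_mod_cast hn
    rw [div_lt_iff₀ (by positivity)]
    nlinarith [Real.pi_pos]
  have h1 : Real.sin (Real.pi / (2 * n)) ≤ Real.pi / (2 * n) := Real.sin_le (by positivity)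
  rw [S0, le_div_iff₀ hsin]
  calc 2 / Real.pi * n * Real.sin (Real.pi / (2 * n)) ≤ 2 / Real.pi * n * (Real.pi / (2 * n)) := by
        gcongr
    _ = 1 := by
        field_simp

lemma S0_le {n : ℕ} (hn : 1 < n) : S0 n ≤ n := by
  have h0 : (0 : ℝ) < n := by exact_mod_cast (by omega : 0 < n)
  have h1 : (1 : ℝ) ≤ n := by exact_mod_cast hn.le
  have h2 : 2 / Real.pi * (Real.pi / (2 * n)) ≤ Real.sin (Real.pi / (2 * n)) := by
    apply Real.mul_le_sin (by positivity)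
    rw [div_le_div_iff₀ (by positivity) (by positivity)]
    nlinarith [Real.pi_pos]
  have h3 : 2 / Real.pi * (Real.pi / (2 * n)) = 1 / n := by
    field_simp
  rw [h3] at h2
  rw [S0]
  calc 1 / Real.sin (Real.pi / (2 * n)) ≤ 1 / (1 / (n : ℝ)) :=
        one_div_le_one_div_of_le (by positivity) h2
    _ = n := by rw [one_div_one_div]

lemma coefA_nonneg (p : Polynomial ℝ) : 0 ≤ coefA p := sum_nonneg fun _ _ => abs_nonneg _

lemma lv_smul {N : ℕ} (A : Matrix (Fin N) (Fin N) ℝ) (t : ℝ) (w : Fin N → ℤ) :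
    lv (t • A) w = t • lv A w := by
  rw [lv, lv, Matrix.smul_mulVec]

lemma nsq_smul {N : ℕ} (t : ℝ) (x : Fin N → ℝ) : nsq (t • x) = t ^ 2 * nsq x := by
  rw [nsq, nsq, mul_sum]
  refine sum_congr rfl fun i _ => ?_
  rw [Pi.smul_apply, smul_eq_mul, mul_pow]

lemma nsq_zero {N : ℕ} : nsq (0 : Fin N → ℝ) = 0 := by
  simp [nsq]

lemma l_rho {κ η : ℝ} (hκ : 0 < κ) (hκ1 : κ ≤ 1) (hη : η ≤ κ / 16) :
    Real.exp (-(κ / 8)) ≤ 1 - η := by
  have h0 := Real.add_one_le_exp (κ / 8)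
  have hp : 0 < Real.exp (κ / 8) := Real.exp_pos _
  have h1 : 1 ≤ (κ / 8 + 1) * (1 - κ / 16) := by nlinarith
  have h2 : (κ / 8 + 1) * (1 - κ / 16) ≤ Real.exp (κ / 8) * (1 - κ / 16) :=
    mul_le_mul_of_nonneg_right h0 (by linarith)
  have h3 : Real.exp (κ / 8) * (1 - κ / 16) ≤ Real.exp (κ / 8) * (1 - η) :=
    mul_le_mul_of_nonneg_left (by linarith) hp.le
  rw [Real.exp_neg, inv_le_iff_one_le_mul₀ hp]
  linarith [mul_comm (Real.exp (κ / 8)) (1 - η)]

lemma l_i {δ ρ1 P gg : ℝ} (hρ : 1 < ρ1) (hgg : gg = (1 - 1 / ρ1) / 2)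
    (hδ : δ ≤ (1 - 1 / ρ1) / 2) (hP : 1 ≤ P) : P + gg ≤ (1 - δ) * P * ρ1 := by
  have h5 : gg * ρ1 = (ρ1 - 1) / 2 := by
    rw [hgg]
    field_simp
  have h6 : (ρ1 + 1) / 2 ≤ (1 - δ) * ρ1 := by
    have : (1 - gg) * ρ1 ≤ (1 - δ) * ρ1 := by
      apply mul_le_mul_of_nonneg_right _ (by linarith)
      rw [hgg]
      linarith
    linarith [sub_mul 1 gg ρ1, one_mul ρ1]
  have hgg0 : 0 ≤ gg := by
    rw [hgg]
    have : 1 / ρ1 ≤ 1 := by
      rw [div_le_one (by linarith)]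
      exact hρ.le
    linarith
  have h7 : gg ≤ (ρ1 - 1) / 2 := by
    rw [← h5]
    exact le_mul_of_one_le_right hgg0 hρ.le
  have h8 : P * ((ρ1 + 1) / 2) ≤ P * ((1 - δ) * ρ1) :=
    mul_le_mul_of_nonneg_left h6 (by linarith)
  have h9 : 1 * ((ρ1 - 1) / 2) ≤ P * ((ρ1 - 1) / 2) :=
    mul_le_mul_of_nonneg_right hP (by linarith)
  have h10 : P * ((ρ1 + 1) / 2) = P + P * ((ρ1 - 1) / 2) := by ring
  have h11 : (1 - δ) * P * ρ1 = P * ((1 - δ) * ρ1) := by ring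
  linarith

lemma l_ii {P g η δ : ℝ} (hP0 : 0 ≤ P) (hP : P ≤ 4 / 3) (hg : 0 ≤ g) (hη0 : 0 ≤ η)
    (hη : η ≤ g / 4) (hδ0 : 0 ≤ δ) (hδ : δ ≤ g / 8) :
    P + g / 2 - 2 * g ≤ (1 - η) * ((1 - δ) * P) := by
  have h4 : 1 - (1 - η) * (1 - δ) ≤ g := by
    have : 0 ≤ η * δ := by positivity
    linarith [show 1 - (1 - η) * (1 - δ) = η + δ - η * δ by ring]
  have h5 : P * (1 - (1 - η) * (1 - δ)) ≤ 4 / 3 * g :=
    calc P * (1 - (1 - η) * (1 - δ)) ≤ P * g := mul_le_mul_of_nonneg_left h4 hP0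
      _ ≤ 4 / 3 * g := mul_le_mul_of_nonneg_right hP hg
  have h6 : (1 - η) * ((1 - δ) * P) = P - P * (1 - (1 - η) * (1 - δ)) := by ring
  linarith

lemma l_min {δ n q : ℝ} (hδ : δ ≤ 1 / 20) (hn : 0 ≤ n)
    (h : (1 - δ) * (4 / Real.pi) * n < Real.pi * q) : 9 / 100 * (4 * n) ≤ q := by
  have hpi := Real.pi_pos
  have h3 : Real.pi ^ 2 ≤ 10 := by
    have := Real.pi_lt_d2
    nlinarith
  have h5 : (19 / 20) * (4 / Real.pi) ≤ (1 - δ) * (4 / Real.pi) :=
    mul_le_mul_of_nonneg_right (by linarith) (by positivity)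
  have h7 : (19 / 20 : ℝ) * (4 / Real.pi) = 19 / 5 / Real.pi := by
    field_simp
    norm_num
  have h4 : Real.pi * (36 / 100) ≤ (1 - δ) * (4 / Real.pi) := by
    refine le_trans ?_ h5
    rw [h7, le_div_iff₀ hpi]
    linarith [show Real.pi * (36 / 100) * Real.pi = Real.pi ^ 2 * (36 / 100) by ring]
  have h6 := mul_le_mul_of_nonneg_right h4 hn
  have h8 : Real.pi * (9 / 100 * (4 * n)) ≤ Real.pi * q := by
    linarith [show Real.pi * (9 / 100 * (4 * n)) = Real.pi * (36 / 100) * n by ring]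
  exact le_of_mul_le_mul_left h8 hpi

end FIN1x

open FIN1x in
/-- **R29.** -/
theorem fin1 (hPF : PFR) (hINC : INC) (hPHI : PHI) (hGLUE : GLUE) (hB1 : BND1) (hB2 : BND2)
    (hCLA : CLA) (hLPS : LPS) (hTEST : TEST) (hSUM : SUMB) (hTB : TB) : FIN1 := by
  obtain ⟨p, hp⟩ := hPHI
  obtain ⟨κ, hκ, hκ1, hinc⟩ := hINC (4975 / 10000) (9995 / 10000) (9 / 100) (by norm_num)
    (by norm_num) (by norm_num) (by norm_num) (by norm_num)
  obtain ⟨ε1, hε1, hb1⟩ := hB1 p hp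
  obtain ⟨ε2, hε2, hcla⟩ := hCLA p hp
  obtain ⟨D, n1, hD, hb2⟩ := hB2 p hp.zero hp.one.le
  obtain ⟨n5, hsum⟩ := hSUM
  have hA := coefA_nonneg p
  have hpi := Real.pi_pos
  have hp1 := hp.one
  -- the choice of `ε`
  obtain ⟨ε, hε⟩ : ∃ ε : ℝ, ε = min (min ε1 ε2) (min (min 1 (1 / (4 * p.coeff 1)))
      (min (κ / (8 * (coefA p + 1))) (1 / (2000 * (coefA p + 1))))) := ⟨_, rfl⟩
  have hε0 : 0 < ε := by
    rw [hε]
    positivity
  have e1 : ε ≤ ε1 := by rw [hε]; exact (min_le_left _ _).trans (min_le_left _ _)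
  have e2 : ε ≤ ε2 := by rw [hε]; exact (min_le_left _ _).trans (min_le_right _ _)
  have e3 : ε ≤ 1 := by
    rw [hε]; exact (min_le_right _ _).trans ((min_le_left _ _).trans (min_le_left _ _))
  have e4 : ε * p.coeff 1 ≤ 1 / 4 := by
    have h : ε ≤ 1 / (4 * p.coeff 1) := by
      rw [hε]; exact (min_le_right _ _).trans ((min_le_left _ _).trans (min_le_right _ _))
    rw [le_div_iff₀ (by positivity)] at h
    linarith
  have e5 : 2 * ε * coefA p ≤ κ / 4 := by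
    have h : ε ≤ κ / (8 * (coefA p + 1)) := by
      rw [hε]; exact (min_le_right _ _).trans ((min_le_right _ _).trans (min_le_left _ _))
    rw [le_div_iff₀ (by positivity)] at h
    linarith [show ε * (8 * (coefA p + 1)) = 8 * (ε * coefA p) + 8 * ε by ring,
      show 2 * ε * coefA p = 2 * (ε * coefA p) by ring]
  have e6 : 2 * ε * coefA p ≤ 1 / 1000 := by
    have h : ε ≤ 1 / (2000 * (coefA p + 1)) := by
      rw [hε]; exact (min_le_right _ _).trans ((min_le_right _ _).trans (min_le_right _ _))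
    rw [le_div_iff₀ (by positivity)] at h
    linarith [show ε * (2000 * (coefA p + 1)) = 2000 * (ε * coefA p) + 2000 * ε by ring,
      show 2 * ε * coefA p = 2 * (ε * coefA p) by ring]
  clear hε
  obtain ⟨C3, n3, hC3, hcla3⟩ := hcla ε hε0.le e2
  -- the gain
  obtain ⟨g, hg⟩ : ∃ g : ℝ, g = ε * p.coeff 1 := ⟨_, rfl⟩
  have hg0 : 0 < g := by rw [hg]; positivity
  have hg4 : g ≤ 1 / 4 := by rw [hg]; exact e4
  -- `ρ1`
  obtain ⟨ρ1, hρ1⟩ : ∃ ρ1 : ℝ, ρ1 = Real.exp (κ / 16) := ⟨_, rfl⟩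
  have hρ11 : 1 < ρ1 := by
    rw [hρ1]
    exact Real.one_lt_exp_iff.2 (by positivity)
  obtain ⟨C4, n4, hC4, htb⟩ := hTB ρ1 hρ11
  -- `ρ`
  obtain ⟨η, hη⟩ : ∃ η : ℝ, η = min (g / 4) (κ / 16) := ⟨_, rfl⟩
  have hη0 : 0 < η := by rw [hη]; positivity
  have hη1 : η ≤ g / 4 := by rw [hη]; exact min_le_left _ _
  have hη2 : η ≤ κ / 16 := by rw [hη]; exact min_le_right _ _
  obtain ⟨ρ, hρ⟩ : ∃ ρ : ℝ, ρ = 1 - η := ⟨_, rfl⟩
  have hρ9 : 9 / 10 ≤ ρ := by rw [hρ]; linarith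
  have hρle : ρ ≤ 1 := by rw [hρ]; linarith
  have hρ0 : 0 < ρ := by linarith
  have hρlog : Real.exp (-(κ / 8)) ≤ ρ := by
    rw [hρ]
    exact l_rho hκ hκ1 hη2
  -- `δ`
  obtain ⟨δ, hδ⟩ : ∃ δ : ℝ, δ = min (min ((1 - 1 / ρ1) / 2) (g / 8)) (1 / 20) := ⟨_, rfl⟩
  have hρ1inv : 1 / ρ1 < 1 := by
    rw [div_lt_one (by linarith)]
    exact hρ11
  have hδ0 : 0 < δ := by
    rw [hδ]
    have : 0 < (1 - 1 / ρ1) / 2 := by linarith
    positivity
  have hδ1 : δ ≤ (1 - 1 / ρ1) / 2 := by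
    rw [hδ]; exact (min_le_left _ _).trans (min_le_left _ _)
  have hδ2 : δ ≤ g / 8 := by
    rw [hδ]; exact (min_le_left _ _).trans (min_le_right _ _)
  have hδ3 : δ ≤ 1 / 20 := by rw [hδ]; exact min_le_right _ _
  -- large `n`
  have hlogρ : 0 < Real.log (1 / ρ) := by
    apply Real.log_pos
    rw [lt_div_iff₀ hρ0, hρ]
    linarith
  have hpi4 : Real.pi < 4 := by linarith [Real.pi_lt_d2]
  have hpi3 : 3 < Real.pi := Real.pi_gt_three
  obtain ⟨gg, hgg⟩ : ∃ gg : ℝ, gg = (1 - 1 / ρ1) / 2 := ⟨_, rfl⟩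
  have hgg0 : 0 < gg := by rw [hgg]; linarith
  have ev1 := ev_radius C4 hgg0
  have ev2 := ev_radius C3 (show 0 < g / 2 by linarith)
  have ev3 := ev_small 2 C4 (a := κ) (δ := 1 / 100) hκ (by norm_num)
  have ev4 := ev_small 0 0 (a := 1) (δ := 1 / 100) (by norm_num) (by norm_num)
  have ev5 := ev_small 1 6 (a := 2 * Real.log (1 / ρ)) (δ := 1 / (10 * Real.exp D))
    (by positivity) (by positivity)
  obtain ⟨n0, hn0⟩ := eventually_atTop.1 ((((ev1.and ev2).and (ev3.and ev4)).and ev5).and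
    (eventually_ge_atTop (n1 + n3 + n4 + n5 + 4)))
  refine ⟨δ, n0, hδ0, fun n hn he A hdet => ?_⟩
  obtain ⟨⟨⟨⟨hv1, hv2⟩, hv3, hv4⟩, hv5⟩, hnn⟩ := hn0 n hn
  by_contra hcon
  push Not at hcon
  have hn4 : 4 ≤ n := by omega
  have hnR : (0 : ℝ) < n := by exact_mod_cast (by omega : 0 < n)
  have hn1R : (1 : ℝ) ≤ n := by exact_mod_cast (by omega : 1 ≤ n)
  have hPFA := hPF _ A hdet
  have hdet0 : A.det ≠ 0 := by
    intro h
    rw [h, abs_zero] at hdet
    exact zero_ne_one hdet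
  -- (i)
  have hi : ∀ w : Fin (4 * n) → ℤ, w ≠ 0 →
      (2 * S0 n + √(n : ℝ) * (C4 + 2 * Real.log n)) / ρ1 ≤ Real.pi * qf A w := by
    intro w hw
    refine le_trans ?_ (hcon w hw).le
    rw [div_le_iff₀ (by linarith)]
    refine hv1.trans ?_
    -- `(4/π + gg) n ≤ (1-δ) (4/π) n ρ1`
    have h1 : (4 / Real.pi + gg) ≤ (1 - δ) * (4 / Real.pi) * ρ1 := by
      refine l_i hρ11 hgg hδ1 ?_
      rw [le_div_iff₀ hpi]
      linarith
    calc (4 / Real.pi + gg) * n ≤ (1 - δ) * (4 / Real.pi) * ρ1 * n := by gcongr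
      _ = (1 - δ) * (4 / Real.pi) * n * ρ1 := by ring
  -- (ii)
  have hii : ∀ w : Fin (4 * n) → ℤ, w ≠ 0 →
      2 * (S0 n - n * ε * p.coeff 1) + √(n : ℝ) * (C3 + 2 * Real.log n) ≤
        ρ * Real.pi * qf A w := by
    intro w hw
    have h0 : 2 * (S0 n - n * ε * p.coeff 1) + √(n : ℝ) * (C3 + 2 * Real.log n) ≤
        (4 / Real.pi + g / 2) * n - 2 * (n * g) := by
      rw [hg]
      rw [hg] at hv2
      linarith
    have h1 : (4 / Real.pi + g / 2) - 2 * g ≤ ρ * ((1 - δ) * (4 / Real.pi)) := by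
      rw [hρ]
      refine l_ii (by positivity) ?_ hg0.le hη0.le hη1 hδ0.le hδ2
      exact div_le_div_of_nonneg_left (by norm_num) (by norm_num) hpi3.le
    have h2 := mul_le_mul_of_nonneg_left (hcon w hw).le hρ0.le
    have h3 := mul_le_mul_of_nonneg_right h1 hnR.le
    linarith [show ρ * ((1 - δ) * (4 / Real.pi) * n) = ρ * ((1 - δ) * (4 / Real.pi)) * n by ring,
      show ρ * (Real.pi * qf A w) = ρ * Real.pi * qf A w by ring,
      show (4 / Real.pi + g / 2 - 2 * g) * n = (4 / Real.pi + g / 2) * n - 2 * (n * g) by ring]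
  -- the lattice data
  have hmin : ∀ w : Fin (4 * n) → ℤ, w ≠ 0 → (9 / 100 : ℝ) * (4 * n : ℕ) ≤ qf A w := by
    intro w hw
    have h1 := l_min hδ3 hnR.le (hcon w hw)
    push_cast
    exact h1
  have hT := htb n (by omega) he A hdet hPFA hi
  obtain ⟨h, Ψ, hΨ⟩ := hGLUE n hn4 he ε hε0.le p hp e6
  obtain ⟨hbd, -⟩ := hb1 ε hε0.le e1 n hn4 he h Ψ hΨ
  obtain ⟨C, hPW⟩ := hΨ.pw
  have hM1 : 1 ≤ Real.exp (2 * n * ε * coefA p) := Real.one_le_exp (by positivity)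
  have hincA := hinc (4 * n) A (by omega) hPFA hmin
  obtain ⟨b, hb⟩ : ∃ b : (Fin (4 * n) → ℤ) → ℝ, b = fun w => if w = 0 then 0 else
      (2 * n - 1).factorial * ((ρ * Real.pi * qf A w) ^ (2 * n - 1))⁻¹ *
    (thet n (ρ * Real.pi * qf A w) * SJ (chr n) Ψ (ee n) (ρ * Real.pi * qf A w)) := ⟨_, rfl⟩
  have hb0 : b 0 = 0 := by rw [hb]; simp
  have hbw : ∀ w, w ≠ 0 → b w = (2 * n - 1).factorial * ((ρ * Real.pi * qf A w) ^ (2 * n - 1))⁻¹ *
    (thet n (ρ * Real.pi * qf A w) * SJ (chr n) Ψ (ee n) (ρ * Real.pi * qf A w)) := by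
    intro w hw
    rw [hb]
    simp [hw]
  obtain ⟨hbs, hbsum⟩ := hsum n (by omega) he A hPFA hdet0 κ hκ hκ1
    (fun τ v h1 h2 h3 h4 => hincA τ v h1 h2 h3 h4) (Real.exp (2 * n * ε * coefA p)) C ρ Ψ hM1 hPW
    hbd hΨ.far hρ9 hρle b hb0 hbw
  obtain ⟨F, hFP, hFI, hFS, hF0, hF2, hFint⟩ := hTEST n hn4 he ε p h Ψ hΨ
  -- the linear programming inequality
  set t : ℝ := √(Real.pi * ρ) with ht
  have ht2 : t ^ 2 = Real.pi * ρ := Real.sq_sqrt (by positivity)
  have ht0 : 0 < t := Real.sqrt_pos.2 (by positivity)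
  have hdetB : (t • A).det = (Real.pi * ρ) ^ (2 * n) * A.det := by
    rw [Matrix.det_smul, Fintype.card_fin, ← ht2, ← pow_mul]
    congr 2
    ring
  have hdetB0 : (t • A).det ≠ 0 := by
    rw [hdetB]
    exact mul_ne_zero (by positivity) hdet0
  have hlp := hLPS (4 * n) F hFP hFI (t • A) hdetB0 b hbs hb0 (by
    intro w hw
    have hU : nsq (lv (t • A) w) = ρ * Real.pi * qf A w := by
      rw [lv_smul, nsq_smul, ht2, qf]
      ring
    have hq0 : 0 < qf A w := by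
      refine lt_of_lt_of_le ?_ (hmin w hw)
      positivity
    have hz : lv (t • A) w ≠ 0 := by
      intro h0
      rw [h0, nsq_zero] at hU
      have : 0 < ρ * Real.pi * qf A w := by positivity
      linarith
    rw [hFS _ hz, hU, hbw w hw]
    refine mul_le_mul_of_nonneg_left ?_ (by positivity)
    exact hcla3 n (by omega) he h Ψ hΨ _ (hii w hw))
  have habs : |(t • A).det| = (Real.pi * ρ) ^ (2 * n) := by
    rw [hdetB, abs_mul, hdet, mul_one, abs_of_pos (by positivity)]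
  rw [habs, hFint, mul_pow] at hlp
  -- the bound of the sum
  have hMle : Real.exp (2 * n * ε * coefA p) ≤ Real.exp (κ / 4 * n) := by
    apply Real.exp_le_exp.2
    calc 2 * n * ε * coefA p = (2 * ε * coefA p) * n := by ring
      _ ≤ κ / 4 * n := mul_le_mul_of_nonneg_right e5 hnR.le
  have hρinv : (ρ ^ (2 * n))⁻¹ ≤ Real.exp (κ / 4 * n) := by
    have h1 : Real.exp (-(κ / 8)) ^ (2 * n) ≤ ρ ^ (2 * n) :=
      pow_le_pow_left₀ (Real.exp_pos _).le hρlog _
    have h2 : Real.exp (-(κ / 8)) ^ (2 * n) = (Real.exp (κ / 4 * n))⁻¹ := by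
      rw [← Real.exp_nat_mul, ← Real.exp_neg]
      congr 1
      push_cast
      ring
    rw [h2] at h1
    rw [inv_le_comm₀ (by positivity) (Real.exp_pos _)]
    exact h1
  have hTle : TT A ≤ Real.exp (κ / 8 * n + C4 * √(n : ℝ)) := by
    refine hT.trans (le_of_eq ?_)
    rw [hρ1, ← Real.exp_nat_mul, ← Real.exp_add]
    congr 1
    push_cast
    ring
  have hTT0 : 0 < TT A := lt_of_lt_of_le one_pos hPFA.one_le
  have hsmall1 : 10 * (n : ℝ) ^ 2 * Real.exp (2 * n * ε * coefA p) * TT A * (ρ ^ (2 * n))⁻¹ *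
      (Real.exp (-(2 * κ * n)) + Real.exp (-(4 * n))) ≤ 1 / 5 := by
    have h1 : Real.exp (-(2 * κ * n)) + Real.exp (-(4 * (n : ℝ))) ≤ 2 * Real.exp (-(2 * κ * n)) := by
      have : Real.exp (-(4 * (n : ℝ))) ≤ Real.exp (-(2 * κ * n)) := by
        apply Real.exp_le_exp.2
        have := mul_le_mul_of_nonneg_right hκ1 hnR.le
        linarith [show 2 * κ * n = 2 * (κ * n) by ring]
      linarith
    calc 10 * (n : ℝ) ^ 2 * Real.exp (2 * n * ε * coefA p) * TT A * (ρ ^ (2 * n))⁻¹ *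
      (Real.exp (-(2 * κ * n)) + Real.exp (-(4 * n)))
        ≤ 10 * (n : ℝ) ^ 2 * Real.exp (κ / 4 * n) * Real.exp (κ / 8 * n + C4 * √(n : ℝ)) *
          Real.exp (κ / 4 * n) * (2 * Real.exp (-(2 * κ * n))) := by gcongr
      _ = 20 * ((n : ℝ) ^ 2 * (Real.exp (κ / 4 * n) * Real.exp (κ / 8 * n + C4 * √(n : ℝ)) *
          Real.exp (κ / 4 * n) * Real.exp (-(2 * κ * n)))) := by ring
      _ ≤ 20 * ((n : ℝ) ^ 2 * Real.exp (C4 * √(n : ℝ) - κ * n)) := by
          gcongr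
          rw [← Real.exp_add, ← Real.exp_add, ← Real.exp_add]
          apply Real.exp_le_exp.2
          have : 0 ≤ κ * n := by positivity
          linarith
      _ ≤ 20 * (1 / 100) := by gcongr
      _ = 1 / 5 := by norm_num
  have hsmall2 : 8 * Real.exp (2 * n * ε * coefA p) * (1 / 2) ^ (2 * n) ≤ 8 / 100 := by
    have h1 : (1 / 2 : ℝ) ^ (2 * n) ≤ Real.exp (-(5 / 4 * n)) := by
      have h2 : (1 / 2 : ℝ) ^ (2 * n) = (1 / 4) ^ n := by
        rw [pow_mul]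
        norm_num
      have h3 : (1 / 4 : ℝ) ≤ Real.exp (-(5 / 4)) := by
        have h4 : Real.exp (5 / 4) ≤ 4 := by
          have h5 := Real.exp_one_lt_d9
          have h6 : Real.exp (5 / 4) ^ 4 = Real.exp 1 ^ 5 := by
            rw [← Real.exp_nat_mul, ← Real.exp_nat_mul]
            norm_num
          have h7 : Real.exp 1 ^ 5 ≤ 4 ^ 4 := by
            have h8 : Real.exp 1 ^ 5 ≤ (2.75 : ℝ) ^ 5 :=
              pow_le_pow_left₀ (Real.exp_pos _).le (by linarith) _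
            refine h8.trans (by norm_num)
          by_contra hc
          push Not at hc
          have : (4 : ℝ) ^ 4 < Real.exp (5 / 4) ^ 4 := pow_lt_pow_left₀ hc (by norm_num) (by norm_num)
          linarith
        rw [Real.exp_neg, one_div]
        exact inv_anti₀ (Real.exp_pos _) h4
      rw [h2]
      calc (1 / 4 : ℝ) ^ n ≤ (Real.exp (-(5 / 4))) ^ n := pow_le_pow_left₀ (by norm_num) h3 _
        _ = _ := by
          rw [← Real.exp_nat_mul]
          congr 1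
          ring
    calc 8 * Real.exp (2 * n * ε * coefA p) * (1 / 2) ^ (2 * n)
        ≤ 8 * Real.exp (κ / 4 * n) * Real.exp (-(5 / 4 * n)) := by gcongr
      _ = 8 * (Real.exp (κ / 4 * n) * Real.exp (-(5 / 4 * n))) := by ring
      _ ≤ 8 * ((n : ℝ) ^ 0 * Real.exp (0 * √(n : ℝ) - 1 * n)) := by
          rw [pow_zero, one_mul, ← Real.exp_add]
          gcongr
          have : κ * n ≤ 1 * n := by gcongr
          linarith
      _ ≤ 8 * (1 / 100) := by gcongr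
      _ = 8 / 100 := by norm_num
  have hsumle : ∑' w, b w ≤ 1 := by linarith
  -- the value
  have hp1n : n * ε * p.coeff 1 ≤ S0 n := by
    have h1 := S0_ge (n := n) (by omega)
    have h2 : (1 : ℝ) / 4 ≤ 2 / Real.pi := by
      rw [div_le_div_iff₀ (by norm_num) hpi]
      linarith
    calc n * ε * p.coeff 1 = (ε * p.coeff 1) * n := by ring
      _ ≤ (1 / 4) * n := by gcongr
      _ ≤ 2 / Real.pi * n := by gcongr
      _ ≤ S0 n := h1
  obtain ⟨-, -, hval⟩ := hb2 ε hε0.le e3 n (by omega) he h Ψ hΨ hp1n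
  have hval2 : Real.exp (-(6 * √(n : ℝ)) - D) / n ≤ (Ψ ((3 * ee n : ℝ) : ℂ)).re := by
    refine le_trans ?_ hval
    refine div_le_div_of_nonneg_right (Real.exp_le_exp.2 ?_) hnR.le
    have h1 : ee n * (S0 n - n * ε * p.coeff 1) ≤ √(n : ℝ) := by
      have h2 : S0 n - n * ε * p.coeff 1 ≤ n := by
        have := S0_le (n := n) (by omega)
        have : 0 ≤ n * ε * p.coeff 1 := by positivity
        linarith
      have hs : 0 < √(n : ℝ) := Real.sqrt_pos.2 hnR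
      calc ee n * (S0 n - n * ε * p.coeff 1) ≤ ee n * n := by
            have : 0 ≤ ee n := by rw [ee]; positivity
            gcongr
        _ = √(n : ℝ) := by
            have h5 : √(n : ℝ) * √(n : ℝ) = n := Real.mul_self_sqrt hnR.le
            calc ee n * n = 1 / √(n : ℝ) * (√(n : ℝ) * √(n : ℝ)) := by rw [ee, h5]
              _ = _ := by field_simp
    linarith
  -- contradiction
  have hR : (Ψ ((3 * ee n : ℝ) : ℂ)).re / 2 ≤ ρ ^ (2 * n) * 3 := by
    have h1 : Real.pi ^ (2 * n) * ((Ψ ((3 * ee n : ℝ) : ℂ)).re / 2) ≤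
        Real.pi ^ (2 * n) * (ρ ^ (2 * n) * 3) := by
      refine hlp.trans ?_
      rw [← mul_assoc]
      have : F 0 + ∑' w, b w ≤ 3 := by linarith
      gcongr
    exact le_of_mul_le_mul_left h1 (by positivity)
  have hE : Real.exp (-(6 * √(n : ℝ)) - D) ≤ 6 * n * ρ ^ (2 * n) := by
    have h1 := hval2.trans (show (Ψ ((3 * ee n : ℝ) : ℂ)).re ≤ ρ ^ (2 * n) * 6 by linarith)
    rw [div_le_iff₀ hnR] at h1
    linarith
  have hρe : ρ ^ (2 * n) = Real.exp (-(2 * Real.log (1 / ρ) * n)) := by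
    rw [← Real.exp_log hρ0, ← Real.exp_nat_mul, Real.exp_log hρ0]
    congr 1
    rw [one_div, Real.log_inv]
    push_cast
    ring
  have hfin : 1 ≤ 6 * Real.exp D * ((n : ℝ) ^ 1 * Real.exp (6 * √(n : ℝ) -
      2 * Real.log (1 / ρ) * n)) := by
    have h1 : Real.exp (-(6 * √(n : ℝ)) - D) * (Real.exp D * Real.exp (6 * √(n : ℝ))) = 1 := by
      rw [← Real.exp_add, ← Real.exp_add]
      have : -(6 * √(n : ℝ)) - D + (D + 6 * √(n : ℝ)) = 0 := by ring
      rw [this, Real.exp_zero]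
    calc (1 : ℝ) = Real.exp (-(6 * √(n : ℝ)) - D) * (Real.exp D * Real.exp (6 * √(n : ℝ))) := h1.symm
      _ ≤ 6 * n * ρ ^ (2 * n) * (Real.exp D * Real.exp (6 * √(n : ℝ))) := by gcongr
      _ = _ := by
          have hs : Real.exp (6 * √(n : ℝ) - 2 * Real.log (1 / ρ) * n) =
              Real.exp (6 * √(n : ℝ)) * Real.exp (-(2 * Real.log (1 / ρ) * n)) := by
            rw [sub_eq_add_neg, Real.exp_add]
          rw [hρe, hs, pow_one]
          ring
  have hfin2 : 6 * Real.exp D * ((n : ℝ) ^ 1 * Real.exp (6 * √(n : ℝ) -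
      2 * Real.log (1 / ρ) * n)) ≤ 6 * Real.exp D * (1 / (10 * Real.exp D)) := by
    gcongr
  have hfin3 : 6 * Real.exp D * (1 / (10 * Real.exp D)) = 6 / 10 := by
    field_simp
  rw [hfin3] at hfin2
  linarith

end

end Pool.Agent.BLP
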