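import Pool.Agent.Lib.BLP.Props

/-!
Project BLP (MP_ef2672), row R06: `K` belongs to the Paley-Wiener class.
-/

open Complex Finset Set

namespace Pool.Agent.BLP

open Pool.Agent.KL

namespace KPWx

lemma norm_aeval_le (p : Polynomial ℝ) {w : ℂ} (hw : ‖w‖ ≤ 1) :
    ‖(Polynomial.aeval w p : ℂ)‖ ≤ coefA p := by
  rw [Polynomial.aeval_eq_sum_range]
  refine (norm_sum_le _ _).trans (Finset.sum_le_sum fun k _ => ?_)
  rw [norm_smul, norm_pow, Real.norm_eq_abs]
  calc |p.coeff k| * ‖w‖ ^ k ≤ |p.coeff k| * 1 :=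
        mul_le_mul_of_nonneg_left (pow_le_one₀ (norm_nonneg _) hw) (abs_nonneg _)
    _ = |p.coeff k| := mul_one _

lemma coefA_nonneg (p : Polynomial ℝ) : 0 ≤ coefA p :=
  Finset.sum_nonneg fun _ _ => abs_nonneg _

lemma add_one_ne {z : ℂ} (hz : 0 ≤ z.re) : z + 1 ≠ 0 := by
  intro h
  have := congrArg Complex.re h
  simp at this
  linarith

lemma norm_inv_le {z : ℂ} (hz : 0 ≤ z.re) : ‖1 / (z + 1)‖ ≤ 1 := by
  rw [norm_div, norm_one]
  refine div_le_one_of_le₀ ?_ (norm_nonneg _)
  calc (1 : ℝ) ≤ (z + 1).re := by simp; exact hz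
    _ ≤ ‖z + 1‖ := Complex.re_le_norm _

lemma sub_zt_ne {n j : ℕ} (hj : j < n) {z : ℂ} (hz : 0 ≤ z.re) : z - zt n j ≠ 0 := by
  intro h
  have := congrArg Complex.re h
  have h2 := zt_re_neg hj
  rw [Complex.sub_re, Complex.zero_re] at this
  linarith

lemma prod_ne {n : ℕ} {z : ℂ} (hz : 0 ≤ z.re) : ∏ j ∈ range n, (z - zt n j) ≠ 0 :=
  Finset.prod_ne_zero_iff.2 fun _ hj => sub_zt_ne (Finset.mem_range.1 hj) hz

/-- one factor -/
lemma factor {n j : ℕ} (hj : j < n) {z : ℂ} (hz : 0 ≤ z.re) :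
    Real.cos (psi n j) / (Real.cos (psi n j) + 2) * (1 + ‖z‖) ≤ ‖z - zt n j‖ := by
  have hc := cos_psi_pos hj
  have h1 : Real.cos (psi n j) ≤ ‖z - zt n j‖ := by
    calc Real.cos (psi n j) ≤ (z - zt n j).re := by
          rw [Complex.sub_re, zt_re]
          linarith
      _ ≤ ‖z - zt n j‖ := Complex.re_le_norm _
  have h2 : ‖z‖ - 1 ≤ ‖z - zt n j‖ := by
    have := norm_sub_norm_le z (zt n j)
    rwa [norm_zt] at this
  rw [div_mul_eq_mul_div, div_le_iff₀ (by linarith)]
  nlinarith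

lemma prod_lower {n : ℕ} (hn : 2 ≤ n) {z : ℂ} (hz : 0 ≤ z.re) :
    (∏ j ∈ range n, (Real.cos (psi n j) / (Real.cos (psi n j) + 2))) * (1 + ‖z‖ ^ 2) ≤
      ‖∏ j ∈ range n, (z - zt n j)‖ := by
  rw [norm_prod]
  have h0 : ∀ j ∈ range n, 0 ≤ Real.cos (psi n j) / (Real.cos (psi n j) + 2) := fun j hj => by
    have hc := cos_psi_pos (Finset.mem_range.1 hj)
    positivity
  have h1 : ∏ j ∈ range n, (Real.cos (psi n j) / (Real.cos (psi n j) + 2) * (1 + ‖z‖)) ≤
      ∏ j ∈ range n, ‖z - zt n j‖ := by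
    refine Finset.prod_le_prod (fun j hj => ?_) fun j hj => factor (Finset.mem_range.1 hj) hz
    exact mul_nonneg (h0 j hj) (by positivity)
  refine le_trans ?_ h1
  rw [Finset.prod_mul_distrib, Finset.prod_const, Finset.card_range]
  refine mul_le_mul_of_nonneg_left ?_ (Finset.prod_nonneg h0)
  have hz0 := norm_nonneg z
  calc 1 + ‖z‖ ^ 2 ≤ (1 + ‖z‖) ^ 2 := by nlinarith
    _ ≤ (1 + ‖z‖) ^ n := pow_le_pow_right₀ (by linarith) hn

end KPWx

open KPWx

theorem kpw : KPW := by
  intro n hn _ ε hε p _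
  have hD : 0 < ∏ j ∈ range n, (Real.cos (psi n j) / (Real.cos (psi n j) + 2)) :=
    Finset.prod_pos fun j hj => by
      have hc := cos_psi_pos (Finset.mem_range.1 hj)
      positivity
  refine ⟨Real.exp (n * ε * coefA p) /
    ∏ j ∈ range n, (Real.cos (psi n j) / (Real.cos (psi n j) + 2)), ?_, ?_, ?_, ?_⟩
  · unfold Kf
    have h1 : ContinuousOn (fun z : ℂ => 1 / (z + 1)) {z : ℂ | 0 ≤ z.re} := by
      refine continuousOn_const.div (by fun_prop) fun z hz => add_one_ne hz
    refine ContinuousOn.div ?_ (by fun_prop) fun z hz => prod_ne hz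
    refine Complex.continuous_exp.comp_continuousOn ?_
    refine continuousOn_const.mul ?_
    exact (Polynomial.continuous_aeval p).comp_continuousOn h1
  · unfold Kf
    have h1 : DifferentiableOn ℂ (fun z : ℂ => 1 / (z + 1)) {z : ℂ | 0 < z.re} := by
      refine (differentiableOn_const _).div (by fun_prop) fun z hz => add_one_ne (le_of_lt hz)
    refine DifferentiableOn.div ?_ (by fun_prop) fun z hz => prod_ne (le_of_lt hz)
    refine Complex.differentiable_exp.comp_differentiableOn ?_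
    refine (differentiableOn_const _).mul ?_
    exact (Polynomial.differentiable_aeval p).comp_differentiableOn h1
  · intro z hz
    unfold Kf
    rw [norm_div, div_div]
    have h1 : ‖Complex.exp ((n : ℂ) * (ε : ℂ) * (Polynomial.aeval (1 / (z + 1)) p : ℂ))‖ ≤
        Real.exp (n * ε * coefA p) := by
      rw [Complex.norm_exp]
      refine Real.exp_le_exp.2 ((Complex.re_le_norm _).trans ?_)
      rw [norm_mul, norm_mul, Complex.norm_natCast, Complex.norm_real, Real.norm_of_nonneg hε]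
      exact mul_le_mul_of_nonneg_left (norm_aeval_le p (norm_inv_le hz)) (by positivity)
    exact div_le_div₀ (Real.exp_pos _).le h1 (by positivity) (prod_lower hn hz)
  · intro z hz
    unfold Kf
    rw [map_div₀, ← Complex.exp_conj]
    congr 1
    · congr 1
      rw [map_mul, map_mul, Complex.conj_natCast, Complex.conj_ofReal, ← Polynomial.aeval_conj]
      congr 2
      simp
    · rw [prod_conj]
end Pool.Agent.BLP
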