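import Pool.Agent.Lib.BLP.Props

/-! R09: `Psi2` is analytic in the unit disc. -/

open Complex MeasureTheory Finset Set Filter Topology

namespace Pool.Agent.BLP

open Pool.Agent.KL

namespace P2ANx

/-- holomorphic dependence of an integral on a parameter -/
theorem holo_int {F : ℂ → ℝ → ℂ} {z₀ : ℂ} {R : ℝ} (hR : 0 < R) {b : ℝ → ℝ} (hb : Integrable b)
    (hm : ∀ z ∈ Metric.ball z₀ R, AEStronglyMeasurable (F z) volume)
    (hd : ∀ t, DifferentiableOn ℂ (fun z => F z t) (Metric.ball z₀ R))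
    (hbd : ∀ t, ∀ z ∈ Metric.ball z₀ R, ‖F z t‖ ≤ b t) :
    DifferentiableAt ℂ (fun z => ∫ t, F z t) z₀ := by
  have hz0 : z₀ ∈ Metric.ball z₀ R := Metric.mem_ball_self hR
  have hder : ∀ t, ∀ z ∈ Metric.ball z₀ R,
      HasDerivAt (fun z => F z t) (deriv (fun z => F z t) z) z := fun t z hz =>
    ((hd t).differentiableAt (Metric.isOpen_ball.mem_nhds hz)).hasDerivAt
  have hmd : AEStronglyMeasurable (fun t => deriv (fun z => F z t) z₀) volume := by
    -- limit of difference quotients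
    have hseq : Tendsto (fun k : ℕ => ((R / 2 / ((k : ℝ) + 1) : ℝ) : ℂ)) atTop (𝓝[≠] 0) := by
      rw [tendsto_nhdsWithin_iff]
      constructor
      · have h1 : Tendsto (fun k : ℕ => R / 2 / ((k : ℝ) + 1)) atTop (𝓝 0) := by
          have := (tendsto_one_div_add_atTop_nhds_zero_nat (𝕜 := ℝ)).const_mul (R / 2)
          rw [mul_zero] at this
          refine this.congr fun k => ?_
          ring
        have h2 := (Complex.continuous_ofReal.tendsto 0).comp h1
        rw [Complex.ofReal_zero] at h2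
        exact h2
      · refine Eventually.of_forall fun k => ?_
        have : (R / 2 / ((k : ℝ) + 1) : ℝ) ≠ 0 := by positivity
        exact Complex.ofReal_ne_zero.2 this
    refine aestronglyMeasurable_of_tendsto_ae (u := atTop)
      (f := fun (k : ℕ) t => ((R / 2 / ((k : ℝ) + 1) : ℝ) : ℂ)⁻¹ *
        (F (z₀ + ((R / 2 / ((k : ℝ) + 1) : ℝ) : ℂ)) t - F z₀ t)) (fun k => ?_)
      (Eventually.of_forall fun t => ?_)
    · refine AEStronglyMeasurable.const_mul ((hm _ ?_).sub (hm _ hz0)) _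
      rw [Metric.mem_ball, dist_eq_norm, add_sub_cancel_left, Complex.norm_real, Real.norm_eq_abs,
        abs_of_nonneg (by positivity)]
      have h1 : (1 : ℝ) ≤ (k : ℝ) + 1 := by
        have := Nat.cast_nonneg (α := ℝ) k
        linarith
      calc R / 2 / ((k : ℝ) + 1) ≤ R / 2 / 1 := by gcongr
        _ < R := by linarith
    · exact ((hder t z₀ hz0).tendsto_slope_zero).comp hseq
  have hbound : ∀ t, ∀ z ∈ Metric.ball z₀ (R / 2), ‖deriv (fun z => F z t) z‖ ≤ b t / (R / 3) := by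
    intro t z hz
    have hsub : Metric.closedBall z (R / 3) ⊆ Metric.ball z₀ R := by
      intro y hy
      rw [Metric.mem_closedBall] at hy
      rw [Metric.mem_ball] at hz ⊢
      linarith [dist_triangle y z z₀]
    refine Complex.norm_deriv_le_of_forall_mem_sphere_norm_le (by positivity) ?_ fun y hy =>
      hbd t y (hsub (Metric.sphere_subset_closedBall hy))
    refine DifferentiableOn.diffContOnCl ?_
    refine (hd t).mono (fun y hy => hsub ?_)
    exact Metric.closure_ball_subset_closedBall hy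
  have hFi : Integrable (F z₀) := hb.mono' (hm z₀ hz0) (Eventually.of_forall fun t => hbd t z₀ hz0)
  have key := hasDerivAt_integral_of_dominated_loc_of_deriv_le (μ := (volume : Measure ℝ))
    (F := F) (F' := fun z t => deriv (fun z => F z t) z) (x₀ := z₀) (s := Metric.ball z₀ (R / 2))
    (bound := fun t => b t / (R / 3)) (Metric.ball_mem_nhds z₀ (by positivity))
    (by
      filter_upwards [Metric.ball_mem_nhds z₀ hR] with z hz
      exact hm z hz) hFi hmd (Eventually.of_forall hbound) (hb.div_const _)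
    (Eventually.of_forall fun t z hz => hder t z (Metric.ball_subset_ball (by linarith) hz))
  exact key.2.differentiableAt

/-- lower bound of one factor -/
lemma fac_low {a : ℂ} {δ : ℝ} (hδ : 0 < δ) (hδ1 : δ ≤ 1) (h1 : δ ≤ a.re) (h2 : ‖a‖ ≤ 2) (t : ℝ) :
    δ ^ 2 / 17 * (1 + t ^ 2) ≤ ‖a ^ 2 + (t : ℂ) ^ 2‖ := by
  have e : a ^ 2 + (t : ℂ) ^ 2 = (a + t * I) * (a - t * I) := by
    linear_combination ((t : ℂ) ^ 2) * Complex.I_sq
  rw [e, norm_mul]
  have hre1 : δ ≤ ‖a + t * I‖ := by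
    refine h1.trans ?_
    have := Complex.re_le_norm (a + t * I)
    simpa using this
  have hre2 : δ ≤ ‖a - t * I‖ := by
    refine h1.trans ?_
    have := Complex.re_le_norm (a - t * I)
    simpa using this
  have hti : ‖(t : ℂ) * I‖ = |t| := by simp
  have hl1 : |t| - 2 ≤ ‖a + t * I‖ := by
    have h3 : ‖(t : ℂ) * I‖ ≤ ‖a + t * I‖ + ‖a‖ := by
      have : (t : ℂ) * I = (a + t * I) - a := by ring
      conv_lhs => rw [this]
      exact norm_sub_le _ _
    rw [hti] at h3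
    linarith
  have hl2 : |t| - 2 ≤ ‖a - t * I‖ := by
    have h3 : ‖(t : ℂ) * I‖ ≤ ‖a‖ + ‖a - t * I‖ := by
      have : (t : ℂ) * I = a - (a - t * I) := by ring
      conv_lhs => rw [this]
      exact norm_sub_le _ _
    rw [hti] at h3
    linarith
  have hd2 : δ ^ 2 ≤ 1 := by nlinarith
  by_cases ht : |t| ≤ 4
  · have ht2 : t ^ 2 ≤ 16 := by
      rw [← sq_abs]
      nlinarith [abs_nonneg t]
    calc δ ^ 2 / 17 * (1 + t ^ 2) ≤ δ ^ 2 / 17 * 17 := by gcongr; linarith
      _ = δ * δ := by ring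
      _ ≤ _ := mul_le_mul hre1 hre2 hδ.le (norm_nonneg _)
  · push Not at ht
    have h3 : |t| / 2 ≤ ‖a + t * I‖ := by linarith
    have h4 : |t| / 2 ≤ ‖a - t * I‖ := by linarith
    have ht2 : 16 ≤ t ^ 2 := by
      rw [← sq_abs]
      nlinarith
    calc δ ^ 2 / 17 * (1 + t ^ 2) ≤ 1 / 17 * (1 + t ^ 2) := by gcongr
      _ ≤ t ^ 2 / 4 := by linarith
      _ = (|t| / 2) * (|t| / 2) := by rw [← sq_abs]; ring
      _ ≤ _ := mul_le_mul h3 h4 (by positivity) (norm_nonneg _)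

lemma re_one_sub {n j : ℕ} {s : ℂ} {r : ℝ} (hs : ‖s‖ ≤ r) : 1 - r ≤ (1 - zt n j * s).re := by
  have h1 : (zt n j * s).re ≤ ‖zt n j * s‖ := Complex.re_le_norm _
  rw [norm_mul, norm_zt, one_mul] at h1
  rw [Complex.sub_re, Complex.one_re]
  linarith

lemma norm_one_sub {n j : ℕ} {s : ℂ} (hs : ‖s‖ ≤ 1) : ‖1 - zt n j * s‖ ≤ 2 := by
  refine (norm_sub_le _ _).trans ?_
  rw [norm_mul, norm_zt, one_mul, norm_one]
  linarith

lemma fac_low' {n j : ℕ} {s : ℂ} {r : ℝ} (hr0 : 0 ≤ r) (hr : r < 1) (hs : ‖s‖ ≤ r) (t : ℝ) :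
    (1 - r) ^ 2 / 17 * (1 + t ^ 2) ≤ ‖(1 - zt n j * s) ^ 2 + (t : ℂ) ^ 2‖ :=
  fac_low (by linarith) (by linarith) (re_one_sub hs) (norm_one_sub (by linarith)) t

/-- the denominators of `e(s,t)` -/
lemma den_low {s : ℂ} {r : ℝ} (hs : ‖s‖ ≤ r) (t : ℝ) :
    1 - r ≤ ‖1 + s + (t : ℂ) * I‖ ∧ 1 - r ≤ ‖1 + s - (t : ℂ) * I‖ := by
  have h0 : -r ≤ s.re := by
    have := Complex.abs_re_le_norm s
    have := abs_le.1 (this.trans hs)
    linarith
  constructor
  · have := Complex.re_le_norm (1 + s + (t : ℂ) * I)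
    have h1 : (1 + s + (t : ℂ) * I).re = 1 + s.re := by simp
    linarith
  · have := Complex.re_le_norm (1 + s - (t : ℂ) * I)
    have h1 : (1 + s - (t : ℂ) * I).re = 1 + s.re := by simp
    linarith

/-- a polynomial is bounded on balls -/
lemma poly_bd (p : Polynomial ℝ) (R : ℝ) : ∃ M : ℝ, 0 ≤ M ∧ ∀ w : ℂ, ‖w‖ ≤ R →
    ‖(Polynomial.aeval w p : ℂ)‖ ≤ M := by
  have hc : Continuous fun w : ℂ => ‖(Polynomial.aeval w p : ℂ)‖ := by
    exact (Polynomial.continuous_aeval p).norm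
  obtain ⟨M, hM⟩ := (isCompact_closedBall (0 : ℂ) R).bddAbove_image hc.continuousOn
  refine ⟨max M 0, le_max_right _ _, fun w hw => le_trans (hM ⟨w, ?_, rfl⟩) (le_max_left _ _)⟩
  simpa using hw

lemma eF_bd (p : Polynomial ℝ) {r : ℝ} (hr : r < 1) : ∃ M : ℝ, 0 ≤ M ∧ ∀ (s : ℂ) (t : ℝ),
    ‖s‖ ≤ r → ‖eF p s t‖ ≤ M := by
  obtain ⟨M, hM0, hM⟩ := poly_bd p (1 / (1 - r))
  refine ⟨M + M, by linarith, fun s t hs => ?_⟩
  have hd := den_low hs t
  have hs1 : ‖s‖ ≤ 1 := by linarith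
  have h1r : 0 < 1 - r := by linarith
  unfold eF
  refine (norm_add_le _ _).trans (add_le_add (hM _ ?_) (hM _ ?_))
  · rw [norm_div]
    exact div_le_div₀ zero_le_one hs1 h1r hd.1
  · rw [norm_div]
    exact div_le_div₀ zero_le_one hs1 h1r hd.2

lemma den_ne {s : ℂ} (hs : ‖s‖ < 1) (t : ℝ) :
    1 + s + (t : ℂ) * I ≠ 0 ∧ 1 + s - (t : ℂ) * I ≠ 0 := by
  have h := den_low (s := s) le_rfl t
  constructor
  · intro h0
    rw [h0, norm_zero] at h
    linarith [h.1]
  · intro h0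
    rw [h0, norm_zero] at h
    linarith [h.2]

lemma prod_ne {n : ℕ} {s : ℂ} (hs : ‖s‖ < 1) (t : ℝ) :
    ∏ j ∈ range n, ((1 - zt n j * s) ^ 2 + (t : ℂ) ^ 2) ≠ 0 := by
  refine Finset.prod_ne_zero_iff.2 fun j _ h0 => ?_
  have h := fac_low' (n := n) (j := j) (norm_nonneg s) hs le_rfl t
  rw [h0, norm_zero] at h
  have : 0 < (1 - ‖s‖) ^ 2 / 17 * (1 + t ^ 2) := by
    have : 0 < 1 - ‖s‖ := by linarith
    positivity
  linarith

lemma Ef_cont_t (n : ℕ) (ε : ℝ) (p : Polynomial ℝ) {s : ℂ} (hs : ‖s‖ < 1) :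
    Continuous fun t : ℝ => Ef n ε p s t := by
  unfold Ef eF
  refine Continuous.div ?_ (by fun_prop) fun t => prod_ne hs t
  refine Complex.continuous_exp.comp (continuous_const.mul (Continuous.add ?_ ?_))
  · exact (Polynomial.continuous_aeval p).comp
      (Continuous.div continuous_const (by fun_prop) fun t => (den_ne hs t).1)
  · exact (Polynomial.continuous_aeval p).comp
      (Continuous.div continuous_const (by fun_prop) fun t => (den_ne hs t).2)

lemma Ef_diff_s (n : ℕ) (ε : ℝ) (p : Polynomial ℝ) (t : ℝ) {s : ℂ} (hs : ‖s‖ < 1) :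
    DifferentiableAt ℂ (fun s => Ef n ε p s t) s := by
  unfold Ef eF
  refine DifferentiableAt.div ?_ (by fun_prop) (prod_ne hs t)
  refine DifferentiableAt.cexp (DifferentiableAt.const_mul (DifferentiableAt.add ?_ ?_) _)
  · exact DifferentiableAt.comp (g := fun w : ℂ => (Polynomial.aeval w p : ℂ)) s
      (Polynomial.differentiable_aeval p).differentiableAt
      (DifferentiableAt.div (by fun_prop) (by fun_prop) (den_ne hs t).1)
  · exact DifferentiableAt.comp (g := fun w : ℂ => (Polynomial.aeval w p : ℂ)) s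
      (Polynomial.differentiable_aeval p).differentiableAt
      (DifferentiableAt.div (by fun_prop) (by fun_prop) (den_ne hs t).2)

lemma Ef_bd (n : ℕ) (hn : 1 ≤ n) (ε : ℝ) (p : Polynomial ℝ) {r : ℝ} (hr0 : 0 ≤ r) (hr : r < 1) :
    ∃ C : ℝ, ∀ (s : ℂ) (t : ℝ), ‖s‖ ≤ r → ‖Ef n ε p s t‖ ≤ C * (1 + t ^ 2)⁻¹ := by
  obtain ⟨M, hM0, hM⟩ := eF_bd p hr
  have h1r : 0 < 1 - r := by linarith
  set c : ℝ := (1 - r) ^ 2 / 17 with hc
  have hc0 : 0 < c := by positivity
  refine ⟨Real.exp (n * |ε| * M) * (c ^ n)⁻¹, fun s t hs => ?_⟩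
  have h1 : ‖Complex.exp ((n : ℂ) * (ε : ℂ) * eF p s t)‖ ≤ Real.exp (n * |ε| * M) := by
    refine (Complex.norm_exp_le_exp_norm _).trans (Real.exp_le_exp.2 ?_)
    rw [norm_mul, norm_mul, Complex.norm_natCast, Complex.norm_real, Real.norm_eq_abs]
    have := hM s t hs
    gcongr
  have h2 : c ^ n * (1 + t ^ 2) ≤ ‖∏ j ∈ range n, ((1 - zt n j * s) ^ 2 + (t : ℂ) ^ 2)‖ := by
    rw [norm_prod]
    calc c ^ n * (1 + t ^ 2) ≤ c ^ n * (1 + t ^ 2) ^ n := by
          refine mul_le_mul_of_nonneg_left ?_ (by positivity)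
          calc (1 + t ^ 2) = (1 + t ^ 2) ^ 1 := (pow_one _).symm
            _ ≤ (1 + t ^ 2) ^ n := pow_le_pow_right₀ (by nlinarith [sq_nonneg t]) hn
      _ = ∏ _j ∈ range n, (c * (1 + t ^ 2)) := by rw [prod_const, card_range, mul_pow]
      _ ≤ _ := Finset.prod_le_prod (fun j _ => by positivity) fun j _ => fac_low' hr0 hr hs t
  have h3 : 0 < c ^ n * (1 + t ^ 2) := by positivity
  unfold Ef
  rw [norm_div]
  calc _ ≤ Real.exp (n * |ε| * M) / (c ^ n * (1 + t ^ 2)) :=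
        div_le_div₀ (Real.exp_pos _).le h1 h3 h2
    _ = _ := by rw [div_eq_mul_inv, mul_inv]; ring

end P2ANx

open P2ANx in
theorem p2an : P2AN := by
  intro n hn _ ε _ p _ s hs
  rw [Metric.mem_ball, dist_zero_right] at hs
  set R : ℝ := (1 - ‖s‖) / 2 with hR
  have hR0 : 0 < R := by linarith
  have hin : ∀ z ∈ Metric.ball s R, ‖z‖ ≤ ‖s‖ + R := by
    intro z hz
    rw [Metric.mem_ball, dist_eq_norm] at hz
    have : z = s + (z - s) := by ring
    rw [this]
    exact (norm_add_le _ _).trans (by linarith)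
  have hlt : ‖s‖ + R < 1 := by rw [hR]; linarith
  obtain ⟨C, hC⟩ := Ef_bd n (by omega) ε p (r := ‖s‖ + R) (by positivity) hlt
  have key : DifferentiableAt ℂ (fun z => ∫ t, Ef n ε p z t) s := by
    refine holo_int hR0 (b := fun t => C * (1 + t ^ 2)⁻¹) (integrable_inv_one_add_sq.const_mul C)
      (fun z hz => (Ef_cont_t n ε p ((hin z hz).trans_lt hlt)).aestronglyMeasurable)
      (fun t z hz => (Ef_diff_s n ε p t ((hin z hz).trans_lt hlt)).differentiableWithinAt)
      (fun t z hz => hC z t (hin z hz))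
  exact (key.const_mul _).differentiableWithinAt

end Pool.Agent.BLP
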