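import Pool.Agent.Lib.BLP.Props
import Pool.Agent.Lib.KL.Pos

/-!
Project BLP, row R26: the test function (helper44).
-/

set_option autoImplicit false

open MeasureTheory Set

namespace Pool.Agent.BLP

open Pool.Agent.KL

namespace TESTx

lemma SnF_scale (q : ℝ → ℝ) (G e u : ℝ) (hG : G ≠ 0) :
    SnF q e u = G * SnF (fun v => q v / G) e u := by
  unfold SnF
  rw [← intervalIntegral.integral_const_mul]
  refine intervalIntegral.integral_congr fun v _ => ?_
  change Real.exp (-(3 * e * v)) * q v * fE e (u - v) =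
    G * (Real.exp (-(3 * e * v)) * (q v / G) * fE e (u - v))
  field_simp

lemma lap_real {Φ : ℂ → ℂ} (hP : PWC Φ) {s : ℝ} (hs : 0 < s) :
    ∫ u in Ioi (0 : ℝ), gPW Φ u * Real.exp (-(s * u)) = (Φ (s : ℂ)).re := by
  rw [← hP.lap (s : ℂ) (by simpa using hs)]
  have h1 : ∀ u : ℝ, ((gPW Φ u : ℝ) : ℂ) * Complex.exp (-((s : ℂ) * (u : ℂ))) =
      ((gPW Φ u * Real.exp (-(s * u)) : ℝ) : ℂ) := by
    intro u
    push_cast
    rfl
  simp only [h1]
  rw [integral_complex_ofReal, Complex.ofReal_re]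

end TESTx

open TESTx in
theorem test (hPW : PW2) : TEST := by
  intro n hn _ ε p h Ψ H
  obtain ⟨C, hC⟩ := H.pw
  have hW := hPW Ψ C hC
  have he0 : 0 < ee n := by
    unfold ee
    have : (0 : ℝ) < n := by
      have : 0 < n := by omega
      exact_mod_cast this
    positivity
  have he1 : ee n ≤ 1 := by
    unfold ee
    have h1 : (1 : ℝ) ≤ n := by
      have : 1 ≤ n := by omega
      exact_mod_cast this
    have h2 : 1 ≤ √(n : ℝ) := Real.one_le_sqrt.2 h1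
    rw [div_le_one (by linarith)]
    exact h2
  -- scaling
  obtain ⟨G, hG⟩ : ∃ G : ℝ, G = 1 + (2 * Real.pi)⁻¹ * ∫ y : ℝ, ‖Ψ ((y : ℂ) * Complex.I)‖ :=
    ⟨_, rfl⟩
  have hI0 : 0 ≤ ∫ y : ℝ, ‖Ψ ((y : ℂ) * Complex.I)‖ :=
    integral_nonneg fun y => norm_nonneg _
  have hG0 : 0 < G := by
    rw [hG]
    have : 0 ≤ (2 * Real.pi)⁻¹ * ∫ y : ℝ, ‖Ψ ((y : ℂ) * Complex.I)‖ := by positivity
    linarith
  have hq : Continuous fun v => gPW Ψ v / G := hW.cont.div_const G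
  have hb : ∀ u, 0 ≤ u → |gPW Ψ u / G| ≤ 1 := by
    intro u _
    rw [abs_div, abs_of_pos hG0, div_le_one hG0, hG]
    have := hW.bd u
    linarith
  have hP : ∀ s, 0 < s → ∫ u in Ioi (0 : ℝ), gPW Ψ u / G * Real.exp (-(s * u)) =
      (Ψ (s : ℂ)).re / G := by
    intro s hs
    rw [← lap_real hW hs, ← integral_div]
    refine integral_congr_ae (Filter.Eventually.of_forall fun u => ?_)
    change gPW Ψ u / G * Real.exp (-(s * u)) = gPW Ψ u * Real.exp (-(s * u)) / G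
    ring
  obtain ⟨hSc, hSi, ⟨D, hSb⟩, hSL, hS3⟩ :=
    sn_key (P := fun s => (Ψ (s : ℂ)).re / G) he0 hq hb hP
  have hsc : SnF (gPW Ψ) (ee n) = fun u => G * SnF (fun v => gPW Ψ v / G) (ee n) u :=
    funext fun u => SnF_scale _ _ _ _ hG0.ne'
  have hL : ∀ l, 0 < l → ∫ u in Ioi 0, SnF (gPW Ψ) (ee n) u * Real.exp (-(l * u)) =
      ((l + 3 * ee n) ^ (2 * n - 1))⁻¹ *
        (∫ v in Ioi 0, h v ^ 2 * Real.exp (-(2 / (l + 3 * ee n) * v))) *
        (2 * ee n / (l + 2 * ee n) - ee n / 2 / (l + ee n)) := by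
    intro l hl
    have h1 : (Ψ ((l + 3 * ee n : ℝ) : ℂ)).re = ((l + 3 * ee n) ^ (2 * n - 1))⁻¹ *
        (∫ v in Ioi 0, h v ^ 2 * Real.exp (-(2 / (l + 3 * ee n) * v))) := by
      rw [H.lap (l + 3 * ee n) (by linarith), Complex.ofReal_re]
    rw [← h1, hsc]
    have h2 : ∫ u in Ioi (0 : ℝ), G * SnF (fun v => gPW Ψ v / G) (ee n) u * Real.exp (-(l * u)) =
        G * ∫ u in Ioi (0 : ℝ), SnF (fun v => gPW Ψ v / G) (ee n) u * Real.exp (-(l * u)) := by
      rw [← integral_const_mul]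
      refine integral_congr_ae (Filter.Eventually.of_forall fun u => ?_)
      exact mul_assoc _ _ _
    rw [h2, hSL l hl.le]
    field_simp
  have hS3' : ∫ u in Ioi 0, SnF (gPW Ψ) (ee n) u = (Ψ ((3 * ee n : ℝ) : ℂ)).re / 2 := by
    rw [hsc, integral_const_mul, hS3]
    field_simp
  obtain ⟨F, hF, hFi, hFS, hF0, hFI⟩ := pos_key_fin (n := n) (by omega)
    (h := h) (S := SnF (gPW Ψ) (ee n)) he0 H.hc.measurable H.hi
    (by rw [hsc]; exact (hSc.const_mul G).continuousOn)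
    (by rw [hsc]; exact hSi.const_mul G)
    ⟨G * D, fun u hu => by
      rw [hsc, abs_mul, abs_of_pos hG0]
      exact mul_le_mul_of_nonneg_left (hSb u hu) hG0.le⟩ hL
  have hI : 0 ≤ ∫ v in Ioi (0 : ℝ), h v ^ 2 := integral_nonneg fun v => sq_nonneg _
  refine ⟨F, hF, hFi, fun z hz => ?_, ?_, ?_, ?_⟩
  · have h1 : 0 < nsq z := by
      obtain ⟨i, hi⟩ := Function.ne_iff.1 hz
      have h2 : z i ^ 2 ≤ nsq z :=
        Finset.single_le_sum (f := fun i => z i ^ 2) (fun j _ => sq_nonneg _) (Finset.mem_univ i)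
      have h3 : 0 < z i ^ 2 := by
        have : z i ≠ 0 := hi
        positivity
      linarith
    have h2 : nsq z ^ (2 * n - 1) * F z = (2 * n - 1).factorial * SnF (gPW Ψ) (ee n) (nsq z) :=
      hFS z hz
    have h3 : nsq z ^ (2 * n - 1) ≠ 0 := (pow_pos h1 _).ne'
    rw [mul_right_comm, ← h2]
    field_simp
  · rw [hF0]
    positivity
  · rw [hF0]
    have := H.h1
    nlinarith
  · rw [hFI, hS3']

end Pool.Agent.BLP
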