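import Pool.Agent.Lib.BLP.Props

/-!
Project BLP (MP_ef2672), row R07 (helper60): `(1 / 2π) ∫ |K(iy)|² dy ≤ 1`.
-/

open Complex MeasureTheory Finset Set

namespace Pool.Agent.BLP

open Pool.Agent.KL

namespace W0Bx

/-- `∏ |i y - ζ_j|² = 1 + y^(2n)`. -/
lemma norm_prod {n : ℕ} (hn : 0 < n) (he : Even n) (y : ℝ) :
    ‖∏ j ∈ range n, ((y : ℂ) * I - zt n j)‖ ^ 2 = 1 + y ^ (2 * n) := by
  have h1 := prod_zt_mul hn he ((y : ℂ) * I)
  have h2 : ‖∏ j ∈ range n, ((y : ℂ) * I + zt n j)‖ = ‖∏ j ∈ range n, ((y : ℂ) * I - zt n j)‖ := by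
    have h3 := prod_conj n ((y : ℂ) * I)
    have h4 : ∏ j ∈ range n, ((starRingEnd ℂ) ((y : ℂ) * I) - zt n j) =
        ∏ j ∈ range n, ((y : ℂ) * I + zt n j) := by
      have h5 : ∀ j ∈ range n, ((starRingEnd ℂ) ((y : ℂ) * I) - zt n j) =
          (-1) * ((y : ℂ) * I + zt n j) := by
        intro j _
        rw [map_mul, Complex.conj_ofReal, Complex.conj_I]
        ring
      rw [prod_congr rfl h5, prod_mul_distrib, prod_const, card_range, he.neg_one_pow, one_mul]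
    rw [← h4, h3, Complex.norm_conj]
  have h6 : ‖((y : ℂ) * I) ^ (2 * n) + 1‖ = 1 + y ^ (2 * n) := by
    have h7 : ((y : ℂ) * I) ^ (2 * n) + 1 = ((1 + y ^ (2 * n) : ℝ) : ℂ) := by
      rw [mul_pow, pow_mul I, Complex.I_sq, he.neg_one_pow, mul_one]
      push_cast
      ring
    rw [h7, Complex.norm_real, Real.norm_of_nonneg]
    have : 0 ≤ y ^ (2 * n) := (even_two_mul n).pow_nonneg y
    positivity
  rw [← h6, ← h1, norm_mul, h2, sq]

lemma norm_aeval_le (p : Polynomial ℝ) {w : ℂ} (hw : ‖w‖ ≤ 1) :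
    ‖(Polynomial.aeval w p : ℂ)‖ ≤ coefA p := by
  rw [Polynomial.aeval_eq_sum_range]
  refine (norm_sum_le _ _).trans ?_
  unfold coefA
  refine Finset.sum_le_sum fun k _ => ?_
  rw [norm_smul, Real.norm_eq_abs, norm_pow]
  exact mul_le_of_le_one_right (abs_nonneg _) (pow_le_one₀ (norm_nonneg _) hw)

lemma arg_eq {y : ℝ} (hy : y ≠ 0) :
    (1 : ℂ) / ((y : ℂ) * I + 1) = (((-1 / y : ℝ) : ℂ) * I) / (1 + ((-1 / y : ℝ) : ℂ) * I) := by
  have hy' : (y : ℂ) ≠ 0 := by exact_mod_cast hy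
  have h1 : (y : ℂ) * I + 1 ≠ 0 := by
    intro h
    have := congrArg Complex.re h
    simp at this
  have h2 : 1 + ((-1 / y : ℝ) : ℂ) * I ≠ 0 := by
    intro h
    have := congrArg Complex.re h
    simp at this
  rw [div_eq_div_iff h1 h2]
  push_cast
  field_simp
  linear_combination (y : ℂ) * Complex.I_sq

lemma norm_arg_le (y : ℝ) : ‖(1 : ℂ) / ((y : ℂ) * I + 1)‖ ≤ 1 := by
  rw [norm_div, norm_one]
  have h1 : 1 ≤ ‖(y : ℂ) * I + 1‖ := by
    have := Complex.abs_re_le_norm ((y : ℂ) * I + 1)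
    simpa using this
  rw [div_le_one (by linarith)]
  exact h1

/-- The pointwise bound. -/
lemma pointwise {n : ℕ} (hn : 4 ≤ n) (he : Even n) {ε : ℝ} (hε : 0 ≤ ε) {p : Polynomial ℝ}
    (hp : HP p) (hA : 2 * ε * coefA p ≤ 1 / 1000) {y : ℝ} (hy : y ≠ 0) :
    ‖Kf n ε p ((y : ℂ) * I)‖ ^ 2 ≤ 2 * (1 + y ^ 2)⁻¹ := by
  have hy2 : 0 < y ^ 2 := by positivity
  obtain ⟨R, hR⟩ : ∃ R : ℝ, R = (Polynomial.aeval ((1 : ℂ) / ((y : ℂ) * I + 1)) p : ℂ).re := ⟨_, rfl⟩
  have hK : ‖Kf n ε p ((y : ℂ) * I)‖ ^ 2 = Real.exp (2 * n * ε * R) / (1 + y ^ (2 * n)) := by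
    unfold Kf
    rw [norm_div, div_pow, norm_prod (by omega) he, Complex.norm_exp, ← Real.exp_nat_mul, hR]
    congr 2
    have h1 : ((n : ℂ) * (ε : ℂ) * (Polynomial.aeval ((1 : ℂ) / ((y : ℂ) * I + 1)) p : ℂ)).re =
        n * ε * (Polynomial.aeval ((1 : ℂ) / ((y : ℂ) * I + 1)) p : ℂ).re := by
      have h2 : ((n : ℂ) * (ε : ℂ)) = ((n * ε : ℝ) : ℂ) := by push_cast; rfl
      rw [h2, Complex.re_ofReal_mul]
    rw [h1]
    push_cast
    ring
  have hpow : ∀ {k : ℕ}, 0 < k → 1 ≤ y ^ 2 → y ^ 2 ≤ (y ^ 2) ^ k := by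
    intro k hk h1
    calc y ^ 2 = (y ^ 2) ^ 1 := (pow_one _).symm
      _ ≤ (y ^ 2) ^ k := pow_le_pow_right₀ h1 hk
  have hy2n : 0 ≤ y ^ (2 * n) := (even_two_mul n).pow_nonneg y
  rw [hK, ← div_eq_mul_inv]
  by_cases hr : |(-1 / y : ℝ)| ≤ 998 / 1000 ∨ 999 / 1000 ≤ |(-1 / y : ℝ)|
  · -- the exponential is at most one
    have h1 := hp.sign _ hr
    rw [← arg_eq hy, ← hR] at h1
    have h2 : Real.exp (2 * n * ε * R) ≤ 1 := by
      rw [Real.exp_le_one_iff]
      exact mul_nonpos_of_nonneg_of_nonpos (by positivity) h1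
    calc Real.exp (2 * n * ε * R) / (1 + y ^ (2 * n)) ≤ 1 / (1 + y ^ (2 * n)) := by
          gcongr
      _ ≤ 2 / (1 + y ^ 2) := by
          rw [div_le_div_iff₀ (by positivity) (by positivity)]
          rcases le_or_gt (y ^ 2) 1 with h | h
          · linarith
          · have := hpow (k := n) (by omega) h.le
            rw [← pow_mul] at this
            linarith
  · -- `1 / 0.999 < |y|`
    rw [not_or, not_le, not_le] at hr
    have h1 : |(-1 / y : ℝ)| = 1 / |y| := by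
      rw [abs_div, abs_neg, abs_one]
    rw [h1] at hr
    have hya : 0 < |y| := abs_pos.mpr hy
    have h2 : 1000 / 999 < |y| := by
      have h3 := hr.2
      rw [div_lt_iff₀ hya] at h3
      linarith
    have h3 : R ≤ coefA p := by
      rw [hR]
      exact (Complex.re_le_norm _).trans (norm_aeval_le p (norm_arg_le y))
    have h4 : Real.exp (2 * n * ε * R) ≤ |y| ^ n := by
      have h5 : 2 * n * ε * R ≤ n * (1 / 1000) := by
        have h6 : 2 * ε * R ≤ 2 * ε * coefA p := mul_le_mul_of_nonneg_left h3 (by positivity)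
        calc 2 * n * ε * R = n * (2 * ε * R) := by ring
          _ ≤ n * (1 / 1000) := mul_le_mul_of_nonneg_left (h6.trans hA) (Nat.cast_nonneg n)
      have h7 : Real.exp (1 / 1000) ≤ |y| := by
        refine le_trans ?_ h2.le
        have h8 := Real.one_sub_le_exp_neg (1 / 1000)
        have h9 : Real.exp (1 / 1000) * Real.exp (-(1 / 1000)) = 1 := by
          rw [← Real.exp_add]
          simp
        have h10 := Real.exp_pos (1 / 1000 : ℝ)
        rw [le_div_iff₀ (by norm_num)]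
        nlinarith
      calc Real.exp (2 * n * ε * R) ≤ Real.exp (n * (1 / 1000)) := Real.exp_le_exp.mpr h5
        _ = Real.exp (1 / 1000) ^ n := Real.exp_nat_mul _ _
        _ ≤ |y| ^ n := pow_le_pow_left₀ (Real.exp_pos _).le h7 n
    have h5 : y ^ (2 * n) = |y| ^ n * |y| ^ n := by
      rw [← pow_add, ← two_mul, (even_two_mul n).pow_abs]
    have h6 : y ^ 2 ≤ |y| ^ n := by
      rw [← sq_abs]
      exact pow_le_pow_right₀ (by linarith) (by omega)
    have h7 : (1 : ℝ) ≤ y ^ 2 := by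
      rw [← sq_abs]
      exact one_le_pow₀ (by linarith)
    rw [div_le_div_iff₀ (by positivity) (by positivity), h5]
    have h8 : 0 < |y| ^ n := by positivity
    calc Real.exp (2 * n * ε * R) * (1 + y ^ 2) ≤ |y| ^ n * (2 * |y| ^ n) := by
          refine mul_le_mul h4 ?_ (by positivity) h8.le
          linarith
      _ ≤ 2 * (1 + |y| ^ n * |y| ^ n) := by
          nlinarith

end W0Bx

open W0Bx

theorem w0b : W0B := by
  intro n hn he ε hε p hp hA
  have h1 : ∫ y : ℝ, ‖Kf n ε p ((y : ℂ) * I)‖ ^ 2 ≤ ∫ y : ℝ, 2 * (1 + y ^ 2)⁻¹ := by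
    refine integral_mono_of_nonneg (Filter.Eventually.of_forall fun y => sq_nonneg _)
      (integrable_inv_one_add_sq.const_mul 2) ?_
    have h2 : ∀ᵐ y : ℝ, y ≠ 0 := by
      rw [ae_iff]
      simp
    filter_upwards [h2] with y hy
    exact pointwise hn he hε hp hA hy
  rw [integral_const_mul, integral_univ_inv_one_add_sq] at h1
  rw [inv_mul_le_iff₀ (by positivity), mul_one]
  exact h1

end Pool.Agent.BLP
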