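import Pool.Agent.Lib.BLP.Defs

/-!
Project BLP (MP_ef2672): the exact statements of the rows (helper76).
A row `XXX` is closed by `theorem xxx : XXX` (or with the listed earlier Props as hypotheses) in
`Lib/BLP/XXX.lean`, namespace `Pool.Agent.BLP`.
-/

open Complex MeasureTheory Finset Set

namespace Pool.Agent.BLP

open Pool.Agent.KL Pool.Agent.Lib.MP_ef2672_gt_Tauber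

noncomputable section

/-- R01. Poisson summation for shifted Gaussians (with the summability). -/
def POI : Prop := ∀ (N : ℕ) (A : Matrix (Fin N) (Fin N) ℝ), A.det ≠ 0 → ∀ c : ℝ, 0 < c →
  ∀ b y : Fin N → ℝ,
    Summable (fun w : Fin N → ℤ => Real.exp (-(Real.pi * c * nsq (lv A w - b)))) ∧
    ∑' w : Fin N → ℤ, Complex.exp (-((Real.pi * c * nsq (lv A w - b) : ℝ) : ℂ) -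
        2 * Real.pi * I * (dt (lv A w) y : ℝ)) =
      ((|A.det|⁻¹ * c ^ (-((N : ℝ) / 2)) : ℝ) : ℂ) *
      ∑' m : Fin N → ℤ, Complex.exp (-((Real.pi / c * nsq (lv (dual A) m + y) : ℝ) : ℂ) -
        2 * Real.pi * I * (dt b (lv (dual A) m + y) : ℝ))

/-- The facts (P0)-(P3) for one lattice of determinant one. -/
structure PF {N : ℕ} (A : Matrix (Fin N) (Fin N) ℝ) : Prop where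
  sum : ∀ c : ℝ, 0 < c → ∀ b : Fin N → ℝ,
    Summable fun w : Fin N → ℤ => Real.exp (-(Real.pi * c * nsq (lv A w - b)))
  sumd : ∀ c : ℝ, 0 < c → ∀ b : Fin N → ℝ,
    Summable fun m : Fin N → ℤ => Real.exp (-(Real.pi * c * nsq (lv (dual A) m - b)))
  one_le : 1 ≤ TT A
  p1 : ∀ s : ℝ, 0 < s → s ≤ 1 →
    ∑' w : Fin N → ℤ, Real.exp (-(Real.pi * s * qf A w)) ≤ s ^ (-((N : ℝ) / 2)) * TT A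
  p1d : ∀ s : ℝ, 0 < s → s ≤ 1 →
    ∑' m : Fin N → ℤ, Real.exp (-(Real.pi * s * qf (dual A) m)) ≤ s ^ (-((N : ℝ) / 2)) * TT A
  p2 : ∀ y : Fin N → ℝ,
    ∑' m : Fin N → ℤ, Real.exp (-(Real.pi * nsq (lv (dual A) m - y))) ≤ TT A
  p3 : ∀ τ : ℝ, 0 < τ → ∀ (v : ℝ) (a : Fin N → ℝ),
    ‖∑' w : Fin N → ℤ, Complex.exp (-((2 * Real.pi * τ * nsq (lv A w - (1 / 2 : ℝ) • a) : ℝ) : ℂ) -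
      2 * Real.pi * I * (v * dt (lv A w) a : ℝ))‖ ≤
    (2 * τ) ^ (-((N : ℝ) / 2)) *
      ∑' m : Fin N → ℤ, Real.exp (-(Real.pi / (2 * τ) * nsq (lv (dual A) m - v • a)))
  th_le : ∀ τ v : ℝ, 0 < τ → τ ≤ 1 → ‖th A ((τ : ℂ) + (v : ℂ) * I)‖ ≤ τ ^ (-((N : ℝ) / 2)) * TT A

/-- R02 (from POI). -/
def PFR : Prop := ∀ (N : ℕ) (A : Matrix (Fin N) (Fin N) ℝ), |A.det| = 1 → PF A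

/-- R03. The incoherence lemma. -/
def INC : Prop := ∀ τ0 v0 m0 : ℝ, 0 < τ0 → τ0 < 1 / 2 → 1 / 2 ≤ v0 → v0 < 1 → 0 < m0 →
  ∃ κ : ℝ, 0 < κ ∧ κ ≤ 1 ∧ ∀ (N : ℕ) (A : Matrix (Fin N) (Fin N) ℝ), 1 ≤ N → PF A →
    (∀ w : Fin N → ℤ, w ≠ 0 → m0 * N ≤ qf A w) → ∀ τ v : ℝ, 0 < τ → τ ≤ τ0 → 1 / 2 ≤ v → v ≤ v0 →
    ‖th A ((τ : ℂ) + (v : ℂ) * I)‖ ^ 2 ≤ 2 * Real.exp (-(κ * N)) * (τ ^ N)⁻¹ * TT A ^ 2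

/-- R04. The polynomial. -/
def PHI : Prop := ∃ p : Polynomial ℝ, HP p

/-- R05a. Shift of the line and vanishing. -/
def PW1 : Prop := ∀ (Φ : ℂ → ℂ) (C : ℝ), PWH Φ C →
  (∀ σ : ℝ, 0 ≤ σ → ∀ u : ℝ, ∫ y : ℝ, Φ ((σ : ℂ) + (y : ℂ) * I) *
      Complex.exp ((u : ℂ) * ((σ : ℂ) + (y : ℂ) * I)) =
    ∫ y : ℝ, Φ ((y : ℂ) * I) * Complex.exp ((u : ℂ) * ((y : ℂ) * I))) ∧
  ∀ u : ℝ, u ≤ 0 → ∫ y : ℝ, Φ ((y : ℂ) * I) * Complex.exp ((u : ℂ) * ((y : ℂ) * I)) = 0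

/-- The conclusions of the Paley-Wiener lemma. -/
structure PWC (Φ : ℂ → ℂ) : Prop where
  cont : Continuous (gPW Φ)
  neg : ∀ u : ℝ, u ≤ 0 → gPW Φ u = 0
  eq : ∀ u : ℝ, ((gPW Φ u : ℝ) : ℂ) = (2 * (Real.pi : ℂ))⁻¹ *
    ∫ y : ℝ, Φ ((y : ℂ) * I) * Complex.exp ((u : ℂ) * ((y : ℂ) * I))
  bd : ∀ u : ℝ, |gPW Φ u| ≤ (2 * Real.pi)⁻¹ * ∫ y : ℝ, ‖Φ ((y : ℂ) * I)‖
  lap : ∀ s : ℂ, 0 < s.re →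
    ∫ u in Ioi (0 : ℝ), ((gPW Φ u : ℝ) : ℂ) * Complex.exp (-(s * (u : ℂ))) = Φ s
  sqi : IntegrableOn (fun u => gPW Φ u ^ 2) (Ioi 0)
  sq : ∀ σ : ℝ, 0 ≤ σ → ∫ u in Ioi (0 : ℝ), gPW Φ u ^ 2 * Real.exp (-(2 * σ * u)) =
    (2 * Real.pi)⁻¹ * ∫ y : ℝ, ‖Φ ((σ : ℂ) + (y : ℂ) * I)‖ ^ 2

/-- R05b (from PW1). -/
def PW2 : Prop := ∀ (Φ : ℂ → ℂ) (C : ℝ), PWH Φ C → PWC Φ

/-- R06. -/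
def KPW : Prop := ∀ n : ℕ, 2 ≤ n → Even n → ∀ ε : ℝ, 0 ≤ ε → ∀ p : Polynomial ℝ, p.coeff 0 = 0 →
  ∃ C : ℝ, PWH (Kf n ε p) C

/-- R07. -/
def W0B : Prop := ∀ n : ℕ, 4 ≤ n → Even n → ∀ ε : ℝ, 0 ≤ ε → ∀ p : Polynomial ℝ, HP p →
  2 * ε * coefA p ≤ 1 / 1000 → (2 * Real.pi)⁻¹ * ∫ y : ℝ, ‖Kf n ε p ((y : ℂ) * I)‖ ^ 2 ≤ 1

/-- R08. -/
def LAPW : Prop := ∀ h : ℝ → ℝ, Continuous h → IntegrableOn (fun v => h v ^ 2) (Ioi 0) →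
  DifferentiableOn ℂ (Wf h) {z : ℂ | 0 < z.re} ∧ ContinuousOn (Wf h) {z : ℂ | 0 ≤ z.re} ∧
  (∀ z : ℂ, 0 ≤ z.re → ‖Wf h z‖ ≤ ∫ v in Ioi (0 : ℝ), h v ^ 2) ∧
  ∀ z : ℂ, Wf h ((starRingEnd ℂ) z) = (starRingEnd ℂ) (Wf h z)

/-- R09. -/
def P2AN : Prop := ∀ n : ℕ, 2 ≤ n → Even n → ∀ ε : ℝ, 0 ≤ ε → ∀ p : Polynomial ℝ, p.coeff 0 = 0 →
  DifferentiableOn ℂ (Psi2 n ε p) (Metric.ball 0 1)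

/-- R10 (from PW2, KPW). -/
def EQS : Prop := ∀ n : ℕ, 2 ≤ n → Even n → ∀ ε : ℝ, 0 ≤ ε → ∀ p : Polynomial ℝ, p.coeff 0 = 0 →
  ∀ s : ℝ, 0 < s → s < 1 → Psi1 n (gPW (Kf n ε p)) s = Psi2 n ε p s

/-- R11 (from PW2, KPW, W0B, LAPW, P2AN, EQS). -/
def GLUE : Prop := ∀ n : ℕ, 4 ≤ n → Even n → ∀ ε : ℝ, 0 ≤ ε → ∀ p : Polynomial ℝ, HP p →
  2 * ε * coefA p ≤ 1 / 1000 → ∃ (h : ℝ → ℝ) (Ψ : ℂ → ℂ), PsiH n ε p h Ψ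

/-- R12. -/
def EST2 : Prop := ∀ p : Polynomial ℝ, p.coeff 0 = 0 → ∃ A2 : ℝ, 0 ≤ A2 ∧ ∀ y t : ℝ, |y| ≤ 1 →
  (eF p ((y : ℂ) * I) t).re ≤
    2 * (Polynomial.aeval ((y : ℂ) * I / (1 + (y : ℂ) * I)) p : ℂ).re + A2 * (t ^ 2 / (1 + t ^ 2))

/-- R13. -/
def EST3 : Prop := ∀ p : Polynomial ℝ, p.coeff 0 = 0 → ∃ A3 : ℝ, 0 ≤ A3 ∧ ∀ s t : ℝ, 0 ≤ s → s ≤ 1 →
  ‖eF p (s : ℂ) t - ((2 * p.coeff 1 * s / (1 + t ^ 2) : ℝ) : ℂ)‖ ≤ A3 * s ^ 2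

/-- R14 (from EST2). -/
def BND1 : Prop := ∀ p : Polynomial ℝ, HP p → ∃ ε1 : ℝ, 0 < ε1 ∧ ∀ ε : ℝ, 0 ≤ ε → ε ≤ ε1 →
  ∀ n : ℕ, 4 ≤ n → Even n → ∀ (h : ℝ → ℝ) (Ψ : ℂ → ℂ), PsiH n ε p h Ψ →
    (∀ y : ℝ, ‖Ψ ((y : ℂ) * I)‖ ≤ 2 * Real.exp (2 * n * ε * coefA p)) ∧
    ∀ y : ℝ, (|y| ≤ 998 / 1000 ∨ 999 / 1000 ≤ |y|) → ‖Ψ ((y : ℂ) * I)‖ ≤ 2

/-- R15 (from EST3). -/
def BND2 : Prop := ∀ p : Polynomial ℝ, p.coeff 0 = 0 → 0 ≤ p.coeff 1 → ∃ (D : ℝ) (n1 : ℕ), 0 ≤ D ∧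
  ∀ ε : ℝ, 0 ≤ ε → ε ≤ 1 → ∀ n : ℕ, n1 ≤ n → Even n → ∀ (h : ℝ → ℝ) (Ψ : ℂ → ℂ),
    PsiH n ε p h Ψ → n * ε * p.coeff 1 ≤ S0 n →
    (Ψ ((ee n : ℝ) : ℂ)).re ≤
      1 / 2 * Real.exp (-(2 * ee n * (S0 n - n * ε * p.coeff 1)) + D) ∧
    Real.exp (-(4 * ee n * (S0 n - n * ε * p.coeff 1)) - D) / n ≤ (Ψ ((2 * ee n : ℝ) : ℂ)).re ∧
    Real.exp (-(6 * ee n * (S0 n - n * ε * p.coeff 1)) - D) / n ≤ (Ψ ((3 * ee n : ℝ) : ℂ)).re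

/-- R16. Phragmen-Lindelof. -/
def PLS : Prop := ∀ n : ℕ, 2 ≤ n → Even n → ∀ (M C : ℝ) (Ψ : ℂ → ℂ), 1 ≤ M → PWH Ψ C →
  (∀ y : ℝ, ‖Ψ ((y : ℂ) * I)‖ ≤ 2 * M) →
  (∀ s : ℂ, 0 ≤ s.re → s ≠ 0 → ‖Ψ s‖ ≤ (‖s‖ ^ (2 * n - 1))⁻¹) →
  ∀ s : ℂ, 0 ≤ s.re → ‖Ψ s‖ * ‖Bf n s‖ ^ 2 ≤ 4 * M * ‖1 + s‖

/-- R17. Lower bounds for `B`. -/
def BLOW : Prop := (∀ n : ℕ, 2 ≤ n → Even n → ∀ x y : ℝ, 0 ≤ x →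
    1 ≤ ‖Bf n ((x : ℂ) + (y : ℂ) * I)‖) ∧
  ∃ n0 : ℕ, ∀ n : ℕ, n0 ≤ n → Even n → ∀ y : ℝ, 9975 / 10000 ≤ y → y ≤ 9995 / 10000 →
    Real.exp (412 / 10 ^ 12 * n) ≤ ‖Bf n (((1 / 10 ^ 10 : ℝ) : ℂ) + (y : ℂ) * I)‖ ^ 2

/-- R18. The window. -/
structure WINC (n : ℕ) : Prop where
  diff : Differentiable ℂ (chip n)
  cont : Continuous (chr n)
  shift : ∀ x y : ℝ, ‖chip n ((y : ℂ) - (x : ℂ) * I)‖ ≤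
    Real.exp (5 * 10 ^ 7 * n * x ^ 2) * chr n y
  real : ∀ y : ℝ, chip n (y : ℂ) = ((chr n y : ℝ) : ℂ)
  nonneg : ∀ y : ℝ, 0 ≤ chr n y
  le_one : ∀ y : ℝ, chr n y + chr n (-y) ≤ 1
  near : ∀ y : ℝ, 998 / 1000 ≤ |y| → |y| ≤ 999 / 1000 →
    1 - chr n y - chr n (-y) ≤ 2 * Real.exp (-(2 * n))
  far : ∀ y : ℝ, (y ≤ 9975 / 10000 ∨ 9995 / 10000 ≤ y) → chr n y ≤ Real.exp (-(4 * n))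

def WIN : Prop := ∀ n : ℕ, 1 ≤ n → WINC n

/-- R19 (from PW2). The decomposition of `S`. -/
def QD : Prop := ∀ (Φ : ℂ → ℂ) (C : ℝ), PWH Φ C → ∀ w : ℝ → ℝ, Continuous w → (∀ y, 0 ≤ w y) →
  (∀ y, w y + w (-y) ≤ 1) → ∀ e G : ℝ, 0 < e →
  (2 * Real.pi)⁻¹ * (∫ y : ℝ, (1 - w y - w (-y)) * ‖Φ ((y : ℂ) * I)‖) ≤ G → ∀ u : ℝ, 0 ≤ u →
  SnF (gPW Φ) e u ≤ 2 * e * Real.exp (-(2 * e * u)) * (Φ (e : ℂ)).re -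
    e / 2 * Real.exp (-(e * u)) * (Φ ((2 * e : ℝ) : ℂ)).re +
    9 / 4 * G * Real.exp (-(3 * e * u)) + SJ w Φ e u

/-- R20. The sign. -/
def SNEG : Prop := ∀ D G : ℝ, 0 ≤ D → 0 ≤ G → ∃ C : ℝ, 0 ≤ C ∧ ∀ n : ℕ, 1 ≤ n →
  ∀ S P1 P2 : ℝ, 0 ≤ S → P1 ≤ 1 / 2 * Real.exp (-(2 * ee n * S) + D) →
  Real.exp (-(4 * ee n * S) - D) / n ≤ P2 →
  ∀ u : ℝ, 2 * S + √(n : ℝ) * (C + 2 * Real.log n) ≤ u →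
  2 * ee n * Real.exp (-(2 * ee n * u)) * P1 - ee n / 2 * Real.exp (-(ee n * u)) * P2 +
    9 / 4 * G * Real.exp (-(3 * ee n * u)) ≤ -(ee n / 8 * Real.exp (-(ee n * u)) * P2)

/-- R21 (from WIN, PLS, BLOW). The bounds (6.2), (6.3). -/
def SJB : Prop := ∃ n2 : ℕ, ∀ n : ℕ, n2 ≤ n → Even n → ∀ (M C : ℝ) (Ψ : ℂ → ℂ), 1 ≤ M → PWH Ψ C →
  (∀ y : ℝ, ‖Ψ ((y : ℂ) * I)‖ ≤ 2 * M) →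
  (∀ s : ℂ, 0 ≤ s.re → s ≠ 0 → ‖Ψ s‖ ≤ (‖s‖ ^ (2 * n - 1))⁻¹) →
  (∀ u : ℝ, 0 ≤ u → |SJ (chr n) Ψ (ee n) u| ≤ 5 * M * Real.exp (-(3 * ee n * u))) ∧
  ∀ u : ℝ, 0 ≤ u → u ≤ 408 / 100 * n →
    |SJ (chr n) Ψ (ee n) u| ≤ M * Real.exp (-(2 / 10 ^ 12 * n))

/-- R22. -/
def THE : Prop := ∀ n : ℕ, 1 ≤ n → (∀ u : ℝ, 0 ≤ u → 0 ≤ thet n u ∧ thet n u ≤ 1) ∧
  ∀ u : ℝ, 408 / 100 * n ≤ u → 1 - thet n u ≤ Real.exp (-(7 / 10 ^ 5 * n))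

/-- R23 (from WIN, QD, SNEG, SJB, THE, BND1, BND2). Claim A. -/
def CLA : Prop := ∀ p : Polynomial ℝ, HP p → ∃ ε2 : ℝ, 0 < ε2 ∧ ∀ ε : ℝ, 0 ≤ ε → ε ≤ ε2 →
  ∃ (C3 : ℝ) (n3 : ℕ), 0 ≤ C3 ∧ ∀ n : ℕ, n3 ≤ n → Even n → ∀ (h : ℝ → ℝ) (Ψ : ℂ → ℂ),
    PsiH n ε p h Ψ → ∀ u : ℝ,
    2 * (S0 n - n * ε * p.coeff 1) + √(n : ℝ) * (C3 + 2 * Real.log n) ≤ u →
    SnF (gPW Ψ) (ee n) u ≤ thet n u * SJ (chr n) Ψ (ee n) u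

/-- R24 (from QD, SNEG, BND1, BND2). The baseline. -/
def BAS : Prop := ∀ p : Polynomial ℝ, HP p → ∃ (C3 : ℝ) (n3 : ℕ), 0 ≤ C3 ∧
  ∀ n : ℕ, n3 ≤ n → Even n → ∀ (h : ℝ → ℝ) (Ψ : ℂ → ℂ), PsiH n 0 p h Ψ → ∀ u : ℝ,
    2 * S0 n + √(n : ℝ) * (C3 + 2 * Real.log n) ≤ u →
    SnF (gPW Ψ) (ee n) u ≤
      -(ee n / 8 * Real.exp (-(ee n * u)) * (Ψ ((2 * ee n : ℝ) : ℂ)).re)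

/-- R25. The linear programming inequality with a summable majorant. -/
def LPS : Prop := ∀ (N : ℕ) (F : (Fin N → ℝ) → ℝ), PosDef F → Integrable F →
  ∀ A : Matrix (Fin N) (Fin N) ℝ, A.det ≠ 0 → ∀ b : (Fin N → ℤ) → ℝ, Summable b → b 0 = 0 →
  (∀ w : Fin N → ℤ, w ≠ 0 → F (lv A w) ≤ b w) → ∫ z, F z ≤ |A.det| * (F 0 + ∑' w, b w)

/-- R26 (from PW2). The test function. -/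
def TEST : Prop := ∀ n : ℕ, 4 ≤ n → Even n → ∀ (ε : ℝ) (p : Polynomial ℝ) (h : ℝ → ℝ) (Ψ : ℂ → ℂ),
  PsiH n ε p h Ψ → ∃ F : (Fin (4 * n) → ℝ) → ℝ, PosDef F ∧ Integrable F ∧
    (∀ z, z ≠ 0 → F z = (2 * n - 1).factorial * (nsq z ^ (2 * n - 1))⁻¹ *
      SnF (gPW Ψ) (ee n) (nsq z)) ∧
    0 ≤ F 0 ∧ F 0 ≤ 2 ∧ ∫ z, F z = Real.pi ^ (2 * n) * ((Ψ ((3 * ee n : ℝ) : ℂ)).re / 2)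

/-- R27. The lattice sum of the packet part (7.2). -/
def SUMB : Prop := ∃ n5 : ℕ, ∀ n : ℕ, n5 ≤ n → Even n → ∀ A : Matrix (Fin (4 * n)) (Fin (4 * n)) ℝ,
  PF A → A.det ≠ 0 → ∀ κ : ℝ, 0 < κ → κ ≤ 1 →
  (∀ τ v : ℝ, 0 < τ → τ ≤ 4975 / 10000 → 1 / 2 ≤ v → v ≤ 9995 / 10000 →
    ‖th A ((τ : ℂ) + (v : ℂ) * I)‖ ^ 2 ≤
      2 * Real.exp (-(κ * (4 * n : ℕ))) * (τ ^ (4 * n))⁻¹ * TT A ^ 2) →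
  ∀ (M C ρ : ℝ) (Ψ : ℂ → ℂ), 1 ≤ M → PWH Ψ C → (∀ y : ℝ, ‖Ψ ((y : ℂ) * I)‖ ≤ 2 * M) →
  (∀ s : ℂ, 0 ≤ s.re → s ≠ 0 → ‖Ψ s‖ ≤ (‖s‖ ^ (2 * n - 1))⁻¹) → 9 / 10 ≤ ρ → ρ ≤ 1 →
  ∀ b : (Fin (4 * n) → ℤ) → ℝ, b 0 = 0 →
  (∀ w, w ≠ 0 → b w = (2 * n - 1).factorial * ((ρ * Real.pi * qf A w) ^ (2 * n - 1))⁻¹ *
    (thet n (ρ * Real.pi * qf A w) * SJ (chr n) Ψ (ee n) (ρ * Real.pi * qf A w))) →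
  Summable b ∧ ∑' w, b w ≤ 10 * n ^ 2 * M * TT A * (ρ ^ (2 * n))⁻¹ *
    (Real.exp (-(2 * κ * n)) + Real.exp (-(4 * n))) + 8 * M * (1 / 2) ^ (2 * n)

/-- R28 (from GLUE, BND2, BAS, LPS, TEST, PF). The bound (7.3) for `T`. -/
def TB : Prop := ∀ ρ1 : ℝ, 1 < ρ1 → ∃ (C4 : ℝ) (n4 : ℕ), 0 ≤ C4 ∧ ∀ n : ℕ, n4 ≤ n → Even n →
  ∀ A : Matrix (Fin (4 * n)) (Fin (4 * n)) ℝ, |A.det| = 1 → PF A →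
  (∀ w : Fin (4 * n) → ℤ, w ≠ 0 →
    (2 * S0 n + √(n : ℝ) * (C4 + 2 * Real.log n)) / ρ1 ≤ Real.pi * qf A w) →
  TT A ≤ ρ1 ^ (2 * n) * Real.exp (C4 * √(n : ℝ))

/-- R29 (from everything). -/
def FIN1 : Prop := ∃ (δ : ℝ) (n0 : ℕ), 0 < δ ∧ ∀ n : ℕ, n0 ≤ n → Even n →
  ∀ A : Matrix (Fin (4 * n)) (Fin (4 * n)) ℝ, |A.det| = 1 →
  ∃ w : Fin (4 * n) → ℤ, w ≠ 0 ∧ Real.pi * qf A w ≤ (1 - δ) * (4 / Real.pi) * n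

/-- R30 (from FIN1). -/
def FIN2 : Prop := ∃ (ε0 : ℝ) (n0 : ℕ), 0 < ε0 ∧ ∀ n : ℕ, n0 ≤ n → Even n →
  c (4 * n) ≤ 1 / Real.pi ^ 2 - ε0

/-- R31 (from FIN2). -/
def FIN3 : Prop := ∃ ε0 : ℝ, 0 < ε0 ∧ Filter.limsup c Filter.atTop ≤ 1 / Real.pi ^ 2 - ε0 ∧
  ∀ᶠ d : ℕ in Filter.atTop, c d ≤ 1 / Real.pi ^ 2 - ε0

end

end Pool.Agent.BLP
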