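import Pool.Agent.Lib.LPX.Row3
import Pool.Agent.Lib.BLP.Props

/-!
BLP project, (5.5) (helper58): growth of the Butterworth polynomial `B` off the imaginary axis, near
the frequencies `0.9975 ≤ y ≤ 0.9995`.
-/

open Complex Finset Filter Topology Set
open scoped Real

namespace Pool.Agent.BLP

open KL LPX

namespace Bgrowx

/-- `|1 + i y e^(i t)|^2`. -/
noncomputable def bq (y t : ℝ) : ℝ := 1 + y ^ 2 - 2 * y * Real.sin t

/-- The group delay kernel. -/
noncomputable def bf (y t : ℝ) : ℝ := Real.cos t / bq y t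

theorem bq_ge {y : ℝ} (hy : 0 ≤ y) (t : ℝ) : (1 - y) ^ 2 ≤ bq y t := by
  have := Real.sin_le_one t
  rw [bq]
  nlinarith

theorem bq_le {y : ℝ} (hy : 0 ≤ y) (hy1 : y ≤ 1) (t : ℝ) : bq y t ≤ 4 := by
  have := Real.neg_one_le_sin t
  rw [bq]
  nlinarith

theorem bq_pos {y : ℝ} (hy : 0 ≤ y) (hy1 : y < 1) (t : ℝ) : 0 < bq y t := by
  have := bq_ge hy t
  have h2 : 0 < (1 - y) ^ 2 := by
    have : 0 < 1 - y := by linarith
    positivity
  linarith

theorem bq_deriv (y t : ℝ) : HasDerivAt (bq y) (-(2 * y * Real.cos t)) t := by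
  have := ((Real.hasDerivAt_sin t).const_mul (2 * y)).const_sub (1 + y ^ 2)
  exact this

theorem bH_deriv {y : ℝ} (hy : 0 ≤ y) (hy1 : y < 1) (t : ℝ) :
    HasDerivAt (fun t => Real.log (bq y t)) (-(2 * y) * bf y t) t := by
  have h := (bq_deriv y t).log (bq_pos hy hy1 t).ne'
  refine h.congr_deriv ?_
  rw [bf]
  ring

theorem bf_deriv {y : ℝ} (hy : 0 ≤ y) (hy1 : y < 1) (t : ℝ) :
    HasDerivAt (bf y) ((-Real.sin t * bq y t - Real.cos t * -(2 * y * Real.cos t)) / bq y t ^ 2) t :=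
  (Real.hasDerivAt_cos t).div (bq_deriv y t) (bq_pos hy hy1 t).ne'

theorem bf_lip {y : ℝ} (hy : 0 ≤ y) (hy1 : y < 1) (s t : ℝ) :
    |bf y s - bf y t| ≤ 6 / (1 - y) ^ 4 * |s - t| := by
  have h1 : 0 < 1 - y := by linarith
  have h := Convex.norm_image_sub_le_of_norm_hasDerivWithin_le (f := bf y)
    (f' := fun t => (-Real.sin t * bq y t - Real.cos t * -(2 * y * Real.cos t)) / bq y t ^ 2)
    (s := Set.univ) (C := 6 / (1 - y) ^ 4) (x := t) (y := s)
    (fun x _ => (bf_deriv hy hy1 x).hasDerivWithinAt) ?_ convex_univ (Set.mem_univ _)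
    (Set.mem_univ _)
  · simpa [Real.norm_eq_abs] using h
  · intro x _
    have hq := bq_pos hy hy1 x
    have hq4 := bq_le hy hy1.le x
    have hqg := bq_ge hy x
    rw [Real.norm_eq_abs, abs_div, abs_of_pos (show 0 < bq y x ^ 2 by positivity)]
    have hn : |-Real.sin x * bq y x - Real.cos x * -(2 * y * Real.cos x)| ≤ 6 := by
      have hs := Real.abs_sin_le_one x
      have hc : Real.cos x ^ 2 ≤ 1 := Real.cos_sq_le_one x
      have hc0 : 0 ≤ Real.cos x ^ 2 := sq_nonneg _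
      have e1 : |Real.sin x * bq y x| ≤ 4 := by
        rw [abs_mul, abs_of_pos hq]
        calc |Real.sin x| * bq y x ≤ 1 * 4 := mul_le_mul hs hq4 hq.le zero_le_one
          _ = 4 := one_mul 4
      rw [abs_le] at e1 ⊢
      have e2 : 0 ≤ y * Real.cos x ^ 2 := by positivity
      have e3 : y * Real.cos x ^ 2 ≤ 1 := by nlinarith
      constructor <;> nlinarith [e1.1, e1.2]
    have hd : (1 - y) ^ 4 ≤ bq y x ^ 2 := by
      have : (1 - y) ^ 4 = ((1 - y) ^ 2) ^ 2 := by ring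
      rw [this]
      exact pow_le_pow_left₀ (by positivity) hqg 2
    exact div_le_div₀ (by norm_num) hn (by positivity) hd

/-- One cell of the Riemann sum. -/
theorem cell {y : ℝ} (hy : 0 < y) (hy1 : y < 1) {h : ℝ} (hh : 0 < h) (a : ℝ) :
    (Real.log (bq y (a - h / 2)) - Real.log (bq y (a + h / 2))) / (2 * y) -
      6 / (1 - y) ^ 4 * h ^ 2 / 2 ≤ h * bf y a := by
  have h0 : 0 < 1 - y := by linarith
  obtain ⟨x, hx, hs⟩ := exists_hasDerivAt_eq_slope (fun t => Real.log (bq y t))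
    (fun t => -(2 * y) * bf y t) (show a - h / 2 < a + h / 2 by linarith)
    (fun t _ => (bH_deriv hy.le hy1 t).continuousAt.continuousWithinAt)
    (fun t _ => bH_deriv hy.le hy1 t)
  have e1 : a + h / 2 - (a - h / 2) = h := by ring
  rw [e1, eq_div_iff hh.ne'] at hs
  have h2 := bf_lip hy.le hy1 x a
  have h3 : |x - a| ≤ h / 2 := by
    rw [abs_le]
    constructor <;> linarith [hx.1, hx.2]
  have h4 : bf y x - bf y a ≤ 6 / (1 - y) ^ 4 * (h / 2) :=
    (le_abs_self _).trans (h2.trans (mul_le_mul_of_nonneg_left h3 (by positivity)))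
  have h5 : (Real.log (bq y (a - h / 2)) - Real.log (bq y (a + h / 2))) / (2 * y) = h * bf y x := by
    rw [div_eq_iff (by positivity)]
    linarith
  rw [h5]
  nlinarith [mul_le_mul_of_nonneg_left h4 hh.le]

theorem sum_bf {y : ℝ} (hy : 0 < y) (hy1 : y < 1) {n : ℕ} (hn : 0 < n) :
    (n : ℝ) / (π * y) * Real.log ((1 + y) / (1 - y)) - 3 * π / (1 - y) ^ 4 ≤
      ∑ j ∈ range n, bf y (psi n j) := by
  have h0 : 0 < 1 - y := by linarith
  have hn' : (0 : ℝ) < n := by exact_mod_cast hn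
  have hpi := Real.pi_pos
  set h : ℝ := π / n with hh
  have hpos : 0 < h := by positivity
  have h1 := Finset.sum_le_sum fun j (_ : j ∈ range n) => cell hy hy1 hpos (psi n j)
  rw [Finset.sum_sub_distrib, ← Finset.sum_div, ← Finset.mul_sum, Finset.sum_const,
    Finset.card_range, nsmul_eq_mul] at h1
  have h2 : ∑ j ∈ range n, (Real.log (bq y (psi n j - h / 2)) - Real.log (bq y (psi n j + h / 2))) =
      2 * Real.log ((1 + y) / (1 - y)) := by
    have e : ∀ j ∈ range n, Real.log (bq y (psi n j - h / 2)) - Real.log (bq y (psi n j + h / 2)) =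
        (fun k : ℕ => Real.log (bq y (-(π / 2) + π * k / n))) j -
        (fun k : ℕ => Real.log (bq y (-(π / 2) + π * k / n))) (j + 1) := by
      intro j _
      have e1 : psi n j - h / 2 = -(π / 2) + π * j / n := by
        rw [psi, hh]
        field_simp
        ring
      have e2 : psi n j + h / 2 = -(π / 2) + π * ((j + 1 : ℕ) : ℝ) / n := by
        rw [psi, hh]
        push_cast
        field_simp
        ring
      rw [e1, e2]
    rw [Finset.sum_congr rfl e, Finset.sum_range_sub']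
    have e3 : -(π / 2) + π * ((0 : ℕ) : ℝ) / n = -(π / 2) := by simp
    have e4 : -(π / 2) + π * (n : ℝ) / n = π / 2 := by
      rw [mul_div_assoc, div_self hn'.ne']
      ring
    simp only [e3, e4, bq, Real.sin_neg, Real.sin_pi_div_two]
    have e5 : 1 + y ^ 2 - 2 * y * -1 = (1 + y) ^ 2 := by ring
    have e6 : 1 + y ^ 2 - 2 * y * 1 = (1 - y) ^ 2 := by ring
    rw [e5, e6, Real.log_pow, Real.log_pow, Real.log_div (by positivity) h0.ne']
    push_cast
    ring
  rw [h2] at h1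
  have h3 : (n : ℝ) / (π * y) * Real.log ((1 + y) / (1 - y)) - 3 * π / (1 - y) ^ 4 =
      (n / π) * (2 * Real.log ((1 + y) / (1 - y)) / (2 * y) -
        n * (6 / (1 - y) ^ 4 * h ^ 2 / 2)) := by
    rw [hh]
    field_simp
    ring
  rw [h3]
  calc (n / π) * (2 * Real.log ((1 + y) / (1 - y)) / (2 * y) - n * (6 / (1 - y) ^ 4 * h ^ 2 / 2))
      ≤ (n / π) * (h * ∑ j ∈ range n, bf y (psi n j)) :=
        mul_le_mul_of_nonneg_left h1 (by positivity)
    _ = ∑ j ∈ range n, bf y (psi n j) := by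
        rw [hh]
        field_simp

theorem r4q_eq_bq (n j : ℕ) (x y : ℝ) :
    r4q n j x y = bq y (psi n j) + 2 * x * Real.cos (psi n j) + x ^ 2 := by
  rw [r4q, bq]
  linear_combination (x ^ 2 + y ^ 2) * Real.sin_sq_add_cos_sq (psi n j)

theorem factor {n j : ℕ} (hj : j < n) {x y : ℝ} (hx : 0 ≤ x) (hy : 0 ≤ y) (hy1 : y < 1) {c : ℝ}
    (hc : x / (1 - y) ^ 2 ≤ c) :
    r4q n j 0 y * Real.exp (2 * x * (1 - c) * bf y (psi n j)) ≤ r4q n j x y := by
  have h0 : 0 < 1 - y := by linarith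
  have hq := bq_pos hy hy1 (psi n j)
  have hcos := (cos_psi_pos hj).le
  have hcos1 := Real.cos_le_one (psi n j)
  have hf : 0 ≤ bf y (psi n j) := div_nonneg hcos hq.le
  have hf1 : x * bf y (psi n j) ≤ c := by
    refine le_trans ?_ hc
    rw [div_eq_mul_inv]
    refine mul_le_mul_of_nonneg_left ?_ hx
    rw [bf, ← one_div]
    exact div_le_div₀ zero_le_one hcos1 (by positivity) (bq_ge hy _)
  have h1 := r4_log (t := 2 * (x * bf y (psi n j))) (by positivity)
  have h2 : Real.exp (2 * x * (1 - c) * bf y (psi n j)) ≤ 1 + 2 * (x * bf y (psi n j)) := by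
    refine le_trans (Real.exp_le_exp.2 ?_) h1
    have : 0 ≤ x * bf y (psi n j) := by positivity
    nlinarith
  rw [r4q_eq_bq, r4q_eq_bq]
  have h3 : bq y (psi n j) * bf y (psi n j) = Real.cos (psi n j) := by
    rw [bf]
    field_simp
  calc (bq y (psi n j) + 2 * 0 * Real.cos (psi n j) + 0 ^ 2) *
        Real.exp (2 * x * (1 - c) * bf y (psi n j))
      = bq y (psi n j) * Real.exp (2 * x * (1 - c) * bf y (psi n j)) := by ring
    _ ≤ bq y (psi n j) * (1 + 2 * (x * bf y (psi n j))) := mul_le_mul_of_nonneg_left h2 hq.le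
    _ = bq y (psi n j) + 2 * x * Real.cos (psi n j) := by
        linear_combination (2 * x) * h3
    _ ≤ bq y (psi n j) + 2 * x * Real.cos (psi n j) + x ^ 2 := by nlinarith [sq_nonneg x]

theorem log_799 : (6.6 : ℝ) ≤ Real.log 799 := by
  rw [Real.le_log_iff_exp_le (by norm_num)]
  have h1 : Real.exp 6.6 ^ 5 ≤ (799 : ℝ) ^ 5 := by
    rw [← Real.exp_nat_mul]
    have e : ((5 : ℕ) : ℝ) * 6.6 = ((33 : ℕ) : ℝ) * 1 := by norm_num
    rw [e, Real.exp_nat_mul]
    calc Real.exp 1 ^ 33 ≤ (2.7182818286 : ℝ) ^ 33 :=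
          pow_le_pow_left₀ (Real.exp_pos 1).le Real.exp_one_lt_d9.le 33
      _ ≤ (799 : ℝ) ^ 5 := by norm_num
  exact (pow_le_pow_iff_left₀ (Real.exp_pos _).le (by norm_num) (by norm_num)).1 h1

theorem log_y {y : ℝ} (h1 : 0.9975 ≤ y) (h2 : y ≤ 0.9995) :
    2.1 ≤ 1 / (π * y) * Real.log ((1 + y) / (1 - y)) := by
  have hpi := Real.pi_pos
  have h0 : 0 < 1 - y := by linarith
  have hy : 0 < y := by linarith
  have e1 : (799 : ℝ) ≤ (1 + y) / (1 - y) := by
    rw [le_div_iff₀ h0]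
    linarith
  have e2 : (6.6 : ℝ) ≤ Real.log ((1 + y) / (1 - y)) :=
    log_799.trans (Real.log_le_log (by norm_num) e1)
  have e3 : π * y ≤ 3.1416 := by
    have := Real.pi_lt_d4
    nlinarith
  rw [one_div, ← div_eq_inv_mul, le_div_iff₀ (by positivity)]
  nlinarith

end Bgrowx

open Bgrowx

/-- **(5.5)**: `|B(kap + iy)|^2 ≥ exp(4.12 kap n)` for `kap = 10^(-10)`, `0.9975 ≤ y ≤ 0.9995`, `n`
large. -/
theorem b_growth : ∃ n0 : ℕ, ∀ n : ℕ, n0 ≤ n → Even n → ∀ y : ℝ, 0.9975 ≤ y → y ≤ 0.9995 →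
    Real.exp (4.12 * (10 : ℝ)⁻¹ ^ 10 * n) ≤
      ‖∏ j ∈ range n, (1 - zt n j * ((((10 : ℝ)⁻¹ ^ 10 : ℝ) : ℂ) + y * I))‖ ^ 2 := by
  refine ⟨10 ^ 17, fun n hn he y hy1 hy2 => ?_⟩
  have hn1 : (10 : ℝ) ^ 17 ≤ n := by exact_mod_cast hn
  have hn0 : 0 < n := lt_of_lt_of_le (by norm_num) hn
  have h0 : 0 < 1 - y := by linarith
  have hy : 0 < y := by linarith
  have hyl : y < 1 := by linarith
  set k : ℝ := (10 : ℝ)⁻¹ ^ 10 with hk
  have hk0 : 0 ≤ k := by rw [hk]; positivity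
  rw [← r4phi_eq]
  have hc : k / (1 - y) ^ 2 ≤ 0.001 := by
    rw [div_le_iff₀ (by positivity)]
    have : (0.0005 : ℝ) ^ 2 ≤ (1 - y) ^ 2 := pow_le_pow_left₀ (by norm_num) (by linarith) 2
    rw [hk]
    norm_num at this ⊢
    linarith
  have h1 : r4phi n 0 y * Real.exp (2 * k * (1 - 0.001) * ∑ j ∈ range n, bf y (psi n j)) ≤
      r4phi n k y := by
    rw [Finset.mul_sum, Real.exp_sum, r4phi, r4phi, ← Finset.prod_mul_distrib]
    refine Finset.prod_le_prod (fun j hj => ?_) fun j hj => factor (Finset.mem_range.1 hj) hk0 hy.le hyl hc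
    exact mul_nonneg (r4q_pos (Finset.mem_range.1 hj) le_rfl y).le (Real.exp_pos _).le
  refine le_trans ?_ h1
  rw [r4phi_zero hn0 he]
  have h2 : Real.exp (4.12 * k * n) ≤
      Real.exp (2 * k * (1 - 0.001) * ∑ j ∈ range n, bf y (psi n j)) := by
    rw [Real.exp_le_exp]
    have h3 := sum_bf hy hyl hn0
    have h4 : (2.1 : ℝ) * n ≤ (n : ℝ) / (π * y) * Real.log ((1 + y) / (1 - y)) := by
      have := mul_le_mul_of_nonneg_left (log_y hy1 hy2) (Nat.cast_nonneg n : (0 : ℝ) ≤ n)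
      calc (2.1 : ℝ) * n = n * 2.1 := by ring
        _ ≤ n * (1 / (π * y) * Real.log ((1 + y) / (1 - y))) := this
        _ = _ := by ring
    have h5 : 3 * π / (1 - y) ^ 4 ≤ 0.01 * n := by
      have e1 : (0.0005 : ℝ) ^ 4 ≤ (1 - y) ^ 4 := pow_le_pow_left₀ (by norm_num) (by linarith) 4
      rw [div_le_iff₀ (by positivity)]
      have e2 := Real.pi_lt_four
      have e3 : 0.01 * (10 : ℝ) ^ 17 * (0.0005 : ℝ) ^ 4 ≤ 0.01 * n * (1 - y) ^ 4 := by
        gcongr
      have e4 : (12 : ℝ) ≤ 0.01 * (10 : ℝ) ^ 17 * (0.0005 : ℝ) ^ 4 := by norm_num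
      linarith
    have h6 : (2.08 : ℝ) * n ≤ ∑ j ∈ range n, bf y (psi n j) := by linarith
    calc 4.12 * k * n ≤ 2 * k * (1 - 0.001) * (2.08 * n) := by
          have : 0 ≤ k * n := by positivity
          nlinarith
      _ ≤ 2 * k * (1 - 0.001) * ∑ j ∈ range n, bf y (psi n j) :=
          mul_le_mul_of_nonneg_left h6 (by positivity)
  have h7 : (1 : ℝ) ≤ 1 + y ^ (2 * n) := by
    have : 0 ≤ y ^ (2 * n) := by positivity
    linarith
  calc Real.exp (4.12 * k * n) = 1 * Real.exp (4.12 * k * n) := (one_mul _).symm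
    _ ≤ _ := mul_le_mul h7 h2 (Real.exp_pos _).le (by positivity)

/-- `|B(x+iy)|` increases with `x ≥ 0`. -/
theorem norm_B_ge {n : ℕ} (hn : 0 < n) (he : Even n) {x : ℝ} (hx : 0 ≤ x) (y : ℝ) :
    1 + y ^ (2 * n) ≤ ‖∏ j ∈ range n, (1 - zt n j * (x + y * I))‖ ^ 2 := by
  rw [← r4phi_zero hn he, ← r4phi_eq, r4phi, r4phi]
  refine Finset.prod_le_prod (fun j hj => (r4q_pos (Finset.mem_range.1 hj) le_rfl y).le)
    fun j hj => ?_
  rw [Bgrowx.r4q_eq_bq, Bgrowx.r4q_eq_bq]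
  have := cos_psi_pos (Finset.mem_range.1 hj)
  nlinarith [mul_nonneg hx this.le, sq_nonneg x]

/-- **R17**. -/
theorem blow : BLOW := by
  refine ⟨fun n hn he x y hx => ?_, ?_⟩
  · have h := norm_B_ge (by omega) he hx y
    have h2 : (0 : ℝ) ≤ y ^ (2 * n) := by
      rw [pow_mul]
      positivity
    rw [Bf]
    by_contra hcon
    rw [not_le] at hcon
    have h3 : ‖∏ j ∈ range n, (1 - zt n j * (x + y * I))‖ ^ 2 < 1 :=
      pow_lt_one₀ (norm_nonneg _) hcon (by norm_num)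
    linarith
  · obtain ⟨n0, h0⟩ := b_growth
    refine ⟨n0, fun n hn he y h1 h2 => ?_⟩
    have h := h0 n hn he y (by linarith) (by linarith)
    have e1 : (4.12 * (10 : ℝ)⁻¹ ^ 10 : ℝ) = 412 / 10 ^ 12 := by norm_num
    have e2 : ((10 : ℝ)⁻¹ ^ 10 : ℝ) = 1 / 10 ^ 10 := by norm_num
    rw [e1, e2] at h
    exact h

end Pool.Agent.BLP
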