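import Pool.Agent.Lib.BLP.Props

/-!
Project BLP (MP_ef2672), row R08: the Laplace transform of `h^2` (helper48).
-/

open Complex MeasureTheory Finset Set

namespace Pool.Agent.BLP

noncomputable section

theorem lapw_norm (h : ℝ → ℝ) (z : ℂ) (v : ℝ) :
    ‖((h v ^ 2 : ℝ) : ℂ) * Complex.exp (-(z * (v : ℂ)))‖ = h v ^ 2 * Real.exp (-(z.re * v)) := by
  rw [norm_mul, Complex.norm_real, Complex.norm_exp, Real.norm_eq_abs, abs_of_nonneg (sq_nonneg _)]
  congr 2
  simp

theorem lapw_le (h : ℝ → ℝ) {z : ℂ} (hz : 0 ≤ z.re) {v : ℝ} (hv : 0 < v) :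
    ‖((h v ^ 2 : ℝ) : ℂ) * Complex.exp (-(z * (v : ℂ)))‖ ≤ h v ^ 2 := by
  rw [lapw_norm]
  have h1 : Real.exp (-(z.re * v)) ≤ 1 := by
    apply Real.exp_le_one_iff.mpr
    have := mul_nonneg hz hv.le
    linarith
  have h2 := sq_nonneg (h v)
  nlinarith

theorem lapw_meas (h : ℝ → ℝ) (hc : Continuous h) (z : ℂ) :
    AEStronglyMeasurable (fun v : ℝ => ((h v ^ 2 : ℝ) : ℂ) * Complex.exp (-(z * (v : ℂ))))
      (volume.restrict (Ioi 0)) := by
  apply Continuous.aestronglyMeasurable
  fun_prop

theorem lapw_deriv (h : ℝ → ℝ) (hc : Continuous h) (hi : IntegrableOn (fun v => h v ^ 2) (Ioi 0))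
    {z : ℂ} (hz : 0 < z.re) : DifferentiableAt ℂ (Wf h) z := by
  have hint : Integrable (fun v : ℝ => ((h v ^ 2 : ℝ) : ℂ) * Complex.exp (-(z * (v : ℂ))))
      (volume.restrict (Ioi 0)) := by
    refine Integrable.mono' hi (lapw_meas h hc z) ?_
    filter_upwards [ae_restrict_mem measurableSet_Ioi] with v hv
    exact lapw_le h hz.le hv
  have hd := hasDerivAt_integral_of_dominated_loc_of_deriv_le
    (μ := volume.restrict (Ioi (0 : ℝ)))
    (F := fun (w : ℂ) (v : ℝ) => ((h v ^ 2 : ℝ) : ℂ) * Complex.exp (-(w * (v : ℂ))))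
    (F' := fun (w : ℂ) (v : ℝ) => ((h v ^ 2 : ℝ) : ℂ) *
      (Complex.exp (-(w * (v : ℂ))) * (-(v : ℂ))))
    (x₀ := z) (s := Metric.ball z (z.re / 2)) (bound := fun v => h v ^ 2 * (2 / z.re))
    (Metric.ball_mem_nhds z (by positivity))
    (Filter.Eventually.of_forall fun w => lapw_meas h hc w) hint
    (by
      apply Continuous.aestronglyMeasurable
      fun_prop)
    (by
      filter_upwards [ae_restrict_mem measurableSet_Ioi] with v hv w hw
      have hv0 : (0 : ℝ) < v := hv
      have hre : z.re / 2 < w.re := by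
        have h1 : |(w - z).re| ≤ ‖w - z‖ := Complex.abs_re_le_norm _
        have h2 : ‖w - z‖ < z.re / 2 := by
          rw [Metric.mem_ball, dist_eq_norm] at hw
          exact hw
        have h3 := abs_lt.mp (lt_of_le_of_lt h1 h2)
        rw [Complex.sub_re] at h3
        linarith [h3.1]
      rw [norm_mul, norm_mul, Complex.norm_real, Complex.norm_exp, Real.norm_eq_abs,
        abs_of_nonneg (sq_nonneg _), norm_neg, Complex.norm_real, Real.norm_eq_abs,
        abs_of_pos hv0]
      apply mul_le_mul_of_nonneg_left _ (sq_nonneg _)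
      have h4 : (-(w * (v : ℂ))).re = -(w.re * v) := by simp
      rw [h4]
      have h5 : Real.exp (-(w.re * v)) ≤ Real.exp (-(z.re / 2 * v)) := by
        apply Real.exp_le_exp.mpr
        nlinarith
      have h6 : Real.exp (-(z.re / 2 * v)) * (z.re / 2 * v) ≤ 1 := by
        have h7 : z.re / 2 * v + 1 ≤ Real.exp (z.re / 2 * v) := Real.add_one_le_exp _
        rw [Real.exp_neg, inv_mul_le_iff₀ (Real.exp_pos _)]
        linarith
      calc Real.exp (-(w.re * v)) * v ≤ Real.exp (-(z.re / 2 * v)) * v :=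
            mul_le_mul_of_nonneg_right h5 hv0.le
        _ = Real.exp (-(z.re / 2 * v)) * (z.re / 2 * v) * (2 / z.re) := by
            field_simp
        _ ≤ 1 * (2 / z.re) := mul_le_mul_of_nonneg_right h6 (by positivity)
        _ = 2 / z.re := one_mul _)
    (hi.mul_const _)
    (by
      filter_upwards with v w _
      have h1 : HasDerivAt (fun w : ℂ => -(w * (v : ℂ))) (-(v : ℂ)) w := by
        have h2 := ((hasDerivAt_id w).mul_const (-(v : ℂ)))
        simpa using h2
      exact h1.cexp.const_mul _)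
  exact hd.2.differentiableAt

/-- R08. -/
theorem lapw : LAPW := by
  intro h hc hi
  refine ⟨fun z hz => (lapw_deriv h hc hi hz).differentiableWithinAt, ?_, ?_, ?_⟩
  · apply continuousOn_of_dominated (bound := fun v => h v ^ 2)
    · exact fun z _ => lapw_meas h hc z
    · intro z hz
      filter_upwards [ae_restrict_mem measurableSet_Ioi] with v hv
      exact lapw_le h hz hv
    · exact hi
    · filter_upwards with v
      fun_prop
  · intro z hz
    apply norm_integral_le_of_norm_le hi
    filter_upwards [ae_restrict_mem measurableSet_Ioi] with v hv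
    exact lapw_le h hz hv
  · intro z
    unfold Wf
    rw [← integral_conj]
    congr 1
    ext v
    rw [map_mul, Complex.conj_ofReal, ← Complex.exp_conj, map_neg, map_mul, Complex.conj_ofReal]

end

end Pool.Agent.BLP
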