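import Pool.Agent.Lib.BLP.Props

/-!
BLP (MP_ef2672_gt), section 7: averages of positive definite functions over a lattice
(helper46).
-/

open MeasureTheory Filter Topology
open Pool.Agent.KL Pool.Agent.KL.LPaux

namespace Pool.Agent.BLP

variable {N : ℕ}

/-- The inequality for the lattice `ℤ^N`, with a summable majorant off zero. -/
theorem integral_le_maj {g : (Fin N → ℝ) → ℝ} {ν : Measure (Fin N → ℝ)} [IsFiniteMeasure ν]
    (hg : ∀ z, g z = ∫ w, Real.cos (dot w z) ∂ν) (hI : Integrable g)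
    {b : (Fin N → ℤ) → ℝ} (hb : Summable b) (hb0 : b 0 = 0)
    (hgb : ∀ w : Fin N → ℤ, w ≠ 0 → g (ι w) ≤ b w) : ∫ z, g z ≤ g 0 + ∑' w, b w := by
  have hTI := integrable_T hI
  set s : (Fin N → ℤ) → ℝ := fun w => Tm (T g) (ι w) - T g (ι w) - Tm g (ι w) with hs
  have hsum : HasSum s ((∫ z, g z) - (∫ z, g z) - ∫ z, g z) := by
    have h1 := ((hasSum_Tm hTI).sub (hasSum_T hI)).sub (hasSum_Tm hI)
    rw [integral_T hI] at h1
    exact h1
  have hlim := (tendsto_avg s hsum.summable).add (tendsto_avg b hb)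
  rw [hsum.tsum_eq] at hlim
  have hlow : ∀ᶠ m : ℕ in atTop,
      -g 0 ≤ (∑ x ∈ box N m, ∑ y ∈ box N m, s (x - y)) / (m : ℝ) ^ N +
        (∑ x ∈ box N m, ∑ y ∈ box N m, b (x - y)) / (m : ℝ) ^ N := by
    filter_upwards [eventually_gt_atTop 0] with m hm
    rw [← add_div, le_div_iff₀ (by positivity)]
    have h1 := positivity_sum hg (box N m)
    have h2 : ∑ x ∈ box N m, ∑ y ∈ box N m, (g (ι (x - y)) - T g (ι (x - y)) -
        Tm g (ι (x - y)) + Tm (T g) (ι (x - y))) =
        ∑ x ∈ box N m, ∑ y ∈ box N m, g (ι (x - y)) +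
          ∑ x ∈ box N m, ∑ y ∈ box N m, s (x - y) := by
      rw [← Finset.sum_add_distrib]
      refine Finset.sum_congr rfl fun x _ => ?_
      rw [← Finset.sum_add_distrib]
      refine Finset.sum_congr rfl fun y _ => ?_
      simp only [hs]
      ring
    have h3 : ∑ x ∈ box N m, ∑ y ∈ box N m, g (ι (x - y)) ≤ (m : ℝ) ^ N * g 0 +
        ∑ x ∈ box N m, ∑ y ∈ box N m, b (x - y) := by
      have h4 : ∀ x ∈ box N m, ∑ y ∈ box N m, g (ι (x - y)) ≤
          g 0 + ∑ y ∈ box N m, b (x - y) := by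
        intro x hx
        rw [← Finset.add_sum_erase _ _ hx, ← Finset.add_sum_erase (box N m) (fun y => b (x - y)) hx]
        have h5 : ∑ y ∈ (box N m).erase x, g (ι (x - y)) ≤
            ∑ y ∈ (box N m).erase x, b (x - y) := by
          refine Finset.sum_le_sum fun y hy => hgb _ ?_
          rw [sub_ne_zero]
          exact (Finset.ne_of_mem_erase hy).symm
        have h6 : ι (x - x) = (0 : Fin N → ℝ) := by
          funext i
          simp [ι]
        rw [h6]
        simp only [sub_self, hb0]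
        linarith
      calc ∑ x ∈ box N m, ∑ y ∈ box N m, g (ι (x - y)) ≤
          ∑ x ∈ box N m, (g 0 + ∑ y ∈ box N m, b (x - y)) := Finset.sum_le_sum h4
        _ = (m : ℝ) ^ N * g 0 + ∑ x ∈ box N m, ∑ y ∈ box N m, b (x - y) := by
            rw [Finset.sum_add_distrib, Finset.sum_const, card_box, nsmul_eq_mul]
            push_cast
            ring
    rw [h2] at h1
    linarith
  have := ge_of_tendsto hlim hlow
  linarith

/-- **(7.1)** The averaging inequality for a lattice `A ℤ^N`. -/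
theorem lattice_integral_le {F : (Fin N → ℝ) → ℝ} (hF : PosDef F) (hI : Integrable F)
    (A : Matrix (Fin N) (Fin N) ℝ) (hA : A.det ≠ 0)
    {b : (Fin N → ℤ) → ℝ} (hb : Summable b) (hb0 : b 0 = 0)
    (hgb : ∀ w : Fin N → ℤ, w ≠ 0 → F (A.mulVec fun i => (w i : ℝ)) ≤ b w) :
    (∫ z, F z) / |A.det| ≤ F 0 + ∑' w, b w := by
  obtain ⟨ν, hν, h⟩ := posDef_comp hF A
  obtain ⟨hgI, hg⟩ := comp_matrix hI A hA
  have h1 := integral_le_maj (g := fun z => F (A.mulVec z)) (ν := ν) h hgI hb hb0 hgb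
  rw [hg] at h1
  simp only [Matrix.mulVec_zero] at h1
  rwa [div_eq_inv_mul]

/-- The double sums of a positive definite function are nonnegative. -/
theorem posDef_sum {F : (Fin N → ℝ) → ℝ} (hF : PosDef F) (X : Finset (Fin N → ℤ)) :
    0 ≤ ∑ x ∈ X, ∑ y ∈ X, F (ι (x - y)) := by
  obtain ⟨ν, hν, h⟩ := hF
  have hi : ∀ z : Fin N → ℝ, Integrable (fun w => Real.cos (dot w z)) ν := fun z => by
    simpa using integrable_cos_mul (ν := ν) (stronglyMeasurable_const (b := (1 : ℝ))) (B := 1)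
      (fun _ => by simp) z
  have h0 : ∀ z, F z = ∫ w, Real.cos (dot w z) ∂ν := h
  simp only [h0]
  have h1 : ∑ x ∈ X, ∑ y ∈ X, ∫ w, Real.cos (dot w (ι (x - y))) ∂ν =
      ∫ w, ∑ x ∈ X, ∑ y ∈ X, Real.cos (dot w (ι (x - y))) ∂ν := by
    rw [integral_finsetSum _ fun x _ => integrable_finsetSum _ fun y _ => hi _]
    refine Finset.sum_congr rfl fun x _ => ?_
    rw [integral_finsetSum _ fun y _ => hi _]
  rw [h1]
  refine integral_nonneg fun w => ?_
  have h2 : ∑ x ∈ X, ∑ y ∈ X, Real.cos (dot w (ι (x - y))) =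
      (∑ x ∈ X, Real.cos (dot w (ι x))) ^ 2 + (∑ x ∈ X, Real.sin (dot w (ι x))) ^ 2 := by
    rw [← sum_cos_sub]
    refine Finset.sum_congr rfl fun x _ => ?_
    refine Finset.sum_congr rfl fun y _ => ?_
    rw [ι_sub, dot_sub]
  simp only [Pi.zero_apply]
  rw [h2]
  positivity

/-- For a positive definite function which is nonpositive off zero on `ℤ^N`, the absolute
values off zero sum up to at most the value at zero. -/
theorem sum_neg_le_int {g : (Fin N → ℝ) → ℝ} (hF : PosDef g)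
    (hneg : ∀ w : Fin N → ℤ, w ≠ 0 → g (ι w) ≤ 0) (X : Finset (Fin N → ℤ)) (hX : 0 ∉ X) :
    ∑ w ∈ X, -g (ι w) ≤ g 0 := by
  have hlim : Tendsto (fun m : ℕ => ∑ w ∈ X, -g (ι w) * (cnt N m w / (m : ℝ) ^ N)) atTop
      (𝓝 (∑ w ∈ X, -g (ι w) * 1)) :=
    tendsto_finsetSum _ fun w _ => (tendsto_cnt w).const_mul _
  simp only [mul_one] at hlim
  refine le_of_tendsto hlim ?_
  filter_upwards [eventually_gt_atTop 0] with m hm
  have hm0 : (0 : ℝ) < (m : ℝ) ^ N := by positivity
  have h1 := posDef_sum hF (box N m)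
  have h4 : ∀ x ∈ box N m, ∑ y ∈ box N m, g (ι (x - y)) ≤
      g 0 + ∑ w ∈ X, if x - w ∈ box N m then g (ι w) else 0 := by
    intro x hx
    rw [← Finset.add_sum_erase _ _ hx]
    have h6 : ι (x - x) = (0 : Fin N → ℝ) := by
      funext i
      simp [ι]
    rw [h6]
    have h7 : ∑ y ∈ (box N m).erase x, g (ι (x - y)) =
        ∑ w ∈ ((box N m).erase x).image (fun y => x - y), g (ι w) := by
      rw [Finset.sum_image]
      intro a _ b _ hab
      exact sub_right_injective hab
    rw [h7, ← Finset.sum_filter]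
    refine add_le_add le_rfl ?_
    have hsub : X.filter (fun w => x - w ∈ box N m) ⊆
        ((box N m).erase x).image (fun y => x - y) := by
      intro w hw
      rw [Finset.mem_filter] at hw
      rw [Finset.mem_image]
      refine ⟨x - w, ?_, by abel⟩
      rw [Finset.mem_erase]
      refine ⟨?_, hw.2⟩
      intro h8
      apply hX
      have : w = 0 := by
        have := congrArg (fun z => x - z) h8
        simpa using this
      rw [← this]
      exact hw.1
    rw [← Finset.sum_sdiff hsub]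
    have h8 : ∑ w ∈ ((box N m).erase x).image (fun y => x - y) \
        X.filter (fun w => x - w ∈ box N m), g (ι w) ≤ 0 := by
      refine Finset.sum_nonpos fun w hw => hneg w ?_
      rw [Finset.mem_sdiff, Finset.mem_image] at hw
      obtain ⟨⟨y, hy, rfl⟩, -⟩ := hw
      rw [sub_ne_zero]
      exact (Finset.ne_of_mem_erase hy).symm
    linarith
  have h5 : ∑ x ∈ box N m, ∑ y ∈ box N m, g (ι (x - y)) ≤
      (m : ℝ) ^ N * g 0 + ∑ w ∈ X, g (ι w) * cnt N m w := by
    refine (Finset.sum_le_sum h4).trans (le_of_eq ?_)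
    rw [Finset.sum_add_distrib, Finset.sum_const, card_box, nsmul_eq_mul, Finset.sum_comm]
    push_cast
    congr 1
    refine Finset.sum_congr rfl fun w _ => ?_
    rw [← Finset.sum_filter, Finset.sum_const, nsmul_eq_mul, mul_comm]
    rfl
  have h6 : ∑ w ∈ X, -g (ι w) * (cnt N m w / (m : ℝ) ^ N) =
      (-∑ w ∈ X, g (ι w) * cnt N m w) / (m : ℝ) ^ N := by
    rw [← Finset.sum_neg_distrib, Finset.sum_div]
    refine Finset.sum_congr rfl fun w _ => ?_
    ring
  rw [h6, div_le_iff₀ hm0]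
  linarith

/-- The same for a lattice `A ℤ^N`. -/
theorem sum_neg_le {F : (Fin N → ℝ) → ℝ} (hF : PosDef F) (A : Matrix (Fin N) (Fin N) ℝ)
    (hneg : ∀ w : Fin N → ℤ, w ≠ 0 → F (A.mulVec fun i => (w i : ℝ)) ≤ 0)
    (X : Finset (Fin N → ℤ)) (hX : 0 ∉ X) :
    ∑ w ∈ X, -F (A.mulVec fun i => (w i : ℝ)) ≤ F 0 := by
  have h := sum_neg_le_int (posDef_comp hF A) hneg X hX
  simp only [Matrix.mulVec_zero] at h
  exact h

/-- R25. -/
theorem lps : LPS := by
  intro N F hF hI A hA b hb hb0 hgb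
  have h := lattice_integral_le hF hI A hA hb hb0 hgb
  have h2 : 0 < |A.det| := abs_pos.2 hA
  rw [div_le_iff₀ h2] at h
  linarith

end Pool.Agent.BLP
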