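import Mathlib

/-!
# BEYOND LP, (6.4): the incomplete Gamma integral

`theta n u = (integral over (0, 0.495) of p ^ (2 n - 2) exp (- p u)) * u ^ (2 n - 1) / (2 n - 2)!`
lies in `(0, 1)` and `1 - theta n u <= exp (- 9 n / 10 ^ 5)` for `u >= 4.08 n`.
-/

namespace Pool.BLP

open MeasureTheory Set

/-- the incomplete Gamma integral, exponent `k`, end point `b` -/
noncomputable def thk (k : ℕ) (b u : ℝ) : ℝ :=
  (∫ p in (0 : ℝ)..b, p ^ k * Real.exp (-(p * u))) * u ^ (k + 1) / (Nat.factorial k : ℝ)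

/-- (6.4) -/
noncomputable def theta (n : ℕ) (u : ℝ) : ℝ :=
  (∫ p in (0 : ℝ)..(495 / 1000), p ^ (2 * n - 2) * Real.exp (-(p * u))) * u ^ (2 * n - 1) /
    (Nat.factorial (2 * n - 2) : ℝ)

theorem theta_eq_thk {n : ℕ} (hn : 1 ≤ n) (u : ℝ) :
    theta n u = thk (2 * n - 2) (495 / 1000) u := by
  unfold theta thk
  rw [show 2 * n - 1 = 2 * n - 2 + 1 by omega]

theorem integral_full (k : ℕ) {u : ℝ} (hu : 0 < u) :
    ∫ p in Ioi (0 : ℝ), p ^ k * Real.exp (-(p * u)) = (Nat.factorial k : ℝ) / u ^ (k + 1) := by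
  have h := Real.integral_rpow_mul_exp_neg_mul_Ioi (a := (k : ℝ) + 1) (r := u) (by positivity) hu
  rw [Real.Gamma_nat_eq_factorial] at h
  have h2 : ∫ p in Ioi (0 : ℝ), p ^ k * Real.exp (-(p * u)) =
      ∫ t in Ioi (0 : ℝ), t ^ ((k : ℝ) + 1 - 1) * Real.exp (-(u * t)) := by
    refine setIntegral_congr_fun measurableSet_Ioi fun t _ => ?_
    simp only [add_sub_cancel_right, Real.rpow_natCast]
    rw [mul_comm t u]
  rw [h2, h]
  have h3 : (1 / u) ^ ((k : ℝ) + 1) = 1 / u ^ (k + 1) := by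
    rw [show ((k : ℝ) + 1) = ((k + 1 : ℕ) : ℝ) by push_cast; ring, Real.rpow_natCast,
      one_div_pow]
  rw [h3]
  ring

theorem integrableOn_full (k : ℕ) {u : ℝ} (hu : 0 < u) :
    IntegrableOn (fun p : ℝ => p ^ k * Real.exp (-(p * u))) (Ioi 0) := by
  by_contra h
  have h1 := integral_full k hu
  rw [integral_undef h] at h1
  have : 0 < (Nat.factorial k : ℝ) / u ^ (k + 1) := by positivity
  linarith

theorem one_sub_thk (k : ℕ) {b u : ℝ} (hb : 0 ≤ b) (hu : 0 < u) :
    1 - thk k b u = (∫ p in Ioi b, p ^ k * Real.exp (-(p * u))) * u ^ (k + 1) /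
      (Nat.factorial k : ℝ) := by
  have hI := integrableOn_full k hu
  have hsplit : ∫ p in Ioi (0 : ℝ), p ^ k * Real.exp (-(p * u)) =
      (∫ p in (0 : ℝ)..b, p ^ k * Real.exp (-(p * u))) +
        ∫ p in Ioi b, p ^ k * Real.exp (-(p * u)) := by
    rw [intervalIntegral.integral_of_le hb, ← setIntegral_union _ measurableSet_Ioi
      (hI.mono_set Ioc_subset_Ioi_self) (hI.mono_set (Ioi_subset_Ioi hb)),
      Ioc_union_Ioi_eq_Ioi hb]
    rw [Set.disjoint_left]
    intro x hx hx'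
    have e1 : x ≤ b := hx.2
    have e2 : b < x := hx'
    linarith
  rw [integral_full k hu] at hsplit
  have hk : (Nat.factorial k : ℝ) ≠ 0 := by positivity
  have hu' : u ^ (k + 1) ≠ 0 := by positivity
  have e1 : (∫ p in (0 : ℝ)..b, p ^ k * Real.exp (-(p * u))) =
      (Nat.factorial k : ℝ) / u ^ (k + 1) - ∫ p in Ioi b, p ^ k * Real.exp (-(p * u)) := by
    linarith
  unfold thk
  rw [e1]
  field_simp
  ring_nf

theorem thk_pos (k : ℕ) {b u : ℝ} (hb : 0 < b) (hu : 0 < u) : 0 < thk k b u := by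
  unfold thk
  have h1 : 0 < ∫ p in (0 : ℝ)..b, p ^ k * Real.exp (-(p * u)) := by
    refine intervalIntegral.intervalIntegral_pos_of_pos_on ?_ ?_ hb
    · exact (by fun_prop : Continuous fun p : ℝ => p ^ k * Real.exp (-(p * u))).intervalIntegrable
        _ _
    · intro x hx
      have : 0 < x := hx.1
      positivity
  positivity

theorem thk_le_one (k : ℕ) {b u : ℝ} (hb : 0 ≤ b) (hu : 0 < u) : thk k b u ≤ 1 := by
  have h := one_sub_thk k hb hu
  have h2 : 0 ≤ ∫ p in Ioi b, p ^ k * Real.exp (-(p * u)) := by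
    refine setIntegral_nonneg measurableSet_Ioi fun p hp => ?_
    have : 0 < p := lt_of_le_of_lt hb hp
    positivity
  have h3 : 0 ≤ (∫ p in Ioi b, p ^ k * Real.exp (-(p * u))) * u ^ (k + 1) /
      (Nat.factorial k : ℝ) := by positivity
  linarith

theorem thk_lt_one (k : ℕ) {b u : ℝ} (hb : 0 ≤ b) (hu : 0 < u) : thk k b u < 1 := by
  have h := one_sub_thk k hb hu
  have hI := (integrableOn_full k hu).mono_set (Ioi_subset_Ioi hb)
  have h2 : 0 < ∫ p in Ioi b, p ^ k * Real.exp (-(p * u)) := by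
    rw [setIntegral_pos_iff_support_of_nonneg_ae _ hI]
    · have : Function.support (fun p : ℝ => p ^ k * Real.exp (-(p * u))) ∩ Ioi b = Ioi b := by
        apply inter_eq_right.mpr
        intro p hp
        have : 0 < p := lt_of_le_of_lt hb hp
        rw [Function.mem_support]
        positivity
      rw [this]
      simp
    · refine (ae_restrict_iff' measurableSet_Ioi).mpr (Filter.Eventually.of_forall fun p hp => ?_)
      have : 0 < p := lt_of_le_of_lt hb hp
      simp only [Pi.zero_apply]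
      positivity
  have h3 : 0 < (∫ p in Ioi b, p ^ k * Real.exp (-(p * u))) * u ^ (k + 1) /
      (Nat.factorial k : ℝ) := by positivity
  linarith

/-- Chernoff -/
theorem one_sub_thk_le (k : ℕ) {b u l : ℝ} (hb : 0 ≤ b) (hu : 0 < u) (hl : 0 ≤ l) (hl1 : l < 1) :
    1 - thk k b u ≤ Real.exp (-(l * (b * u))) * (1 / (1 - l)) ^ (k + 1) := by
  have hl' : 0 < 1 - l := by linarith
  have hu2 : 0 < (1 - l) * u := by positivity
  have hI := integrableOn_full k hu
  have hI2 := integrableOn_full k hu2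
  have h1 : ∫ p in Ioi b, p ^ k * Real.exp (-(p * u)) ≤
      ∫ p in Ioi b, Real.exp (-(l * (b * u))) * (p ^ k * Real.exp (-(p * ((1 - l) * u)))) := by
    refine setIntegral_mono_on (hI.mono_set (Ioi_subset_Ioi hb))
      ((hI2.mono_set (Ioi_subset_Ioi hb)).const_mul _) measurableSet_Ioi ?_
    intro p hp
    have hbp : b < p := hp
    have hp0 : 0 < p := lt_of_le_of_lt hb hbp
    have h2 : Real.exp (-(p * u)) ≤
        Real.exp (-(l * (b * u))) * Real.exp (-(p * ((1 - l) * u))) := by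
      rw [← Real.exp_add]
      apply Real.exp_le_exp.mpr
      have : l * (b * u) ≤ l * (p * u) := by gcongr
      nlinarith
    calc p ^ k * Real.exp (-(p * u)) ≤
        p ^ k * (Real.exp (-(l * (b * u))) * Real.exp (-(p * ((1 - l) * u)))) := by gcongr
      _ = _ := by ring
  have h2 : ∫ p in Ioi b, Real.exp (-(l * (b * u))) * (p ^ k * Real.exp (-(p * ((1 - l) * u)))) ≤
      ∫ p in Ioi (0 : ℝ), Real.exp (-(l * (b * u))) *
        (p ^ k * Real.exp (-(p * ((1 - l) * u)))) := by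
    refine setIntegral_mono_set (hI2.const_mul _) ?_
      (Filter.Eventually.of_forall (Ioi_subset_Ioi hb))
    refine (ae_restrict_iff' measurableSet_Ioi).mpr (Filter.Eventually.of_forall fun p hp => ?_)
    have : (0 : ℝ) < p := hp
    simp only [Pi.zero_apply]
    positivity
  have h3 : ∫ p in Ioi (0 : ℝ), Real.exp (-(l * (b * u))) *
        (p ^ k * Real.exp (-(p * ((1 - l) * u)))) =
      Real.exp (-(l * (b * u))) * ((Nat.factorial k : ℝ) / ((1 - l) * u) ^ (k + 1)) := by
    rw [integral_const_mul, integral_full k hu2]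
  rw [one_sub_thk k hb hu]
  have h4 := (h1.trans h2).trans_eq h3
  have hk : (0 : ℝ) < Nat.factorial k := by positivity
  have hupow : 0 < u ^ (k + 1) := by positivity
  calc (∫ p in Ioi b, p ^ k * Real.exp (-(p * u))) * u ^ (k + 1) / (Nat.factorial k : ℝ)
      ≤ (Real.exp (-(l * (b * u))) * ((Nat.factorial k : ℝ) / ((1 - l) * u) ^ (k + 1))) *
        u ^ (k + 1) / (Nat.factorial k : ℝ) := by gcongr
    _ = _ := by
      rw [mul_pow, one_div_pow]
      field_simp

theorem theta_pos {n : ℕ} (hn : 1 ≤ n) {u : ℝ} (hu : 0 < u) : 0 < theta n u := by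
  rw [theta_eq_thk hn]; exact thk_pos _ (by norm_num) hu

theorem theta_lt_one {n : ℕ} (hn : 1 ≤ n) {u : ℝ} (hu : 0 < u) : theta n u < 1 := by
  rw [theta_eq_thk hn]; exact thk_lt_one _ (by norm_num) hu

theorem one_sub_theta {n : ℕ} (hn : 1 ≤ n) {u : ℝ} (hu : 0 < u) :
    1 - theta n u = (∫ p in Ioi (495 / 1000 : ℝ), p ^ (2 * n - 2) * Real.exp (-(p * u))) *
      u ^ (2 * n - 1) / (Nat.factorial (2 * n - 2) : ℝ) := by
  rw [theta_eq_thk hn, one_sub_thk _ (by norm_num) hu, show 2 * n - 2 + 1 = 2 * n - 1 by omega]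

/-- (6.4): for `u >= 4.08 n` the tail is exponentially small -/
theorem one_sub_theta_le {n : ℕ} (hn : 1 ≤ n) {u : ℝ} (hu : 408 / 100 * (n : ℝ) ≤ u) :
    1 - theta n u ≤ Real.exp (-(9 / 100000 * n)) := by
  have hn' : (1 : ℝ) ≤ n := by exact_mod_cast hn
  have hu0 : 0 < u := by linarith
  rw [theta_eq_thk hn]
  refine (one_sub_thk_le (2 * n - 2) (l := 97 / 10000) (by norm_num) hu0 (by norm_num)
    (by norm_num)).trans ?_
  rw [show 2 * n - 2 + 1 = 2 * n - 1 by omega]
  have h1 : (1 / (1 - 97 / 10000) : ℝ) ≤ Real.exp (9748 / 1000000) := by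
    have := Real.quadratic_le_exp_of_nonneg (show (0 : ℝ) ≤ 9748 / 1000000 by norm_num)
    refine le_trans ?_ this
    norm_num
  have h2 : (1 / (1 - 97 / 10000) : ℝ) ^ (2 * n - 1) ≤ Real.exp (9748 / 1000000 * (2 * n)) := by
    calc (1 / (1 - 97 / 10000) : ℝ) ^ (2 * n - 1) ≤ (1 / (1 - 97 / 10000) : ℝ) ^ (2 * n) := by
          apply pow_le_pow_right₀ (by norm_num) (by omega)
      _ ≤ (Real.exp (9748 / 1000000)) ^ (2 * n) := by
          apply pow_le_pow_left₀ (by norm_num) h1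
      _ = _ := by
          rw [← Real.exp_nat_mul]
          congr 1
          push_cast
          ring
  calc Real.exp (-(97 / 10000 * (495 / 1000 * u))) * (1 / (1 - 97 / 10000)) ^ (2 * n - 1)
      ≤ Real.exp (-(97 / 10000 * (495 / 1000 * u))) * Real.exp (9748 / 1000000 * (2 * n)) := by
        gcongr
    _ = Real.exp (-(97 / 10000 * (495 / 1000 * u)) + 9748 / 1000000 * (2 * n)) := by
        rw [Real.exp_add]
    _ ≤ _ := by
        apply Real.exp_le_exp.mpr
        linarith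

end Pool.BLP
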