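import Pool.Agent.Lib.BLP.Win2
import Pool.Agent.Lib.BLP.Gam
import Pool.Agent.Lib.BLP.Props

/-!
# BEYOND LP, rows R18 (WIN) and R22 (THE)
-/

namespace Pool.Agent.BLP

open MeasureTheory Complex Set

theorem gp_eq (n : ℕ) : Pool.BLP.gp n = 5 * 10 ^ 7 * n := by
  unfold Pool.BLP.gp; norm_num

theorem chr_eq (n : ℕ) (y : ℝ) : chr n y = Pool.BLP.chiP n y := by
  unfold chr Pool.BLP.chiP
  rw [gp_eq, show (5 * 10 ^ 7 * n : ℝ) = n * (5 * 10 ^ 7) by ring]
  congr 1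
  refine intervalIntegral.integral_congr fun x _ => ?_
  congr 1
  ring

theorem chr_eq' (n : ℕ) : chr n = Pool.BLP.chiP n := funext (chr_eq n)

theorem chip_eq (n : ℕ) (z : ℂ) : chip n z = Pool.BLP.chiC n z := by
  unfold chip Pool.BLP.chiC
  rw [gp_eq, show (5 * 10 ^ 7 * n : ℝ) = n * (5 * 10 ^ 7) by ring]
  congr 1
  refine intervalIntegral.integral_congr fun x _ => ?_
  congr 1
  push_cast
  ring

theorem chip_eq' (n : ℕ) : chip n = Pool.BLP.chiC n := funext (chip_eq n)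

/-- R18. -/
theorem win : WIN := by
  intro n hn
  refine ⟨?_, ?_, ?_, ?_, ?_, ?_, ?_, ?_⟩
  · rw [chip_eq']; exact Pool.BLP.differentiable_chiC n
  · rw [chr_eq']; exact Pool.BLP.continuous_chiP n
  · intro x y
    have h := Pool.BLP.norm_chiC_le n y (-x)
    rw [chip_eq, chr_eq]
    have e1 : ((y : ℂ) - (x : ℂ) * I) = (y : ℂ) + ((-x : ℝ) : ℂ) * I := by push_cast; ring
    rw [e1]
    refine h.trans (le_of_eq ?_)
    rw [gp_eq, neg_sq]
  · intro y; rw [chip_eq, chr_eq]; exact Pool.BLP.chiC_ofReal n y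
  · intro y; rw [chr_eq]; exact Pool.BLP.chiP_nonneg n y
  · intro y; rw [chr_eq, chr_eq]; exact Pool.BLP.chiP_add_neg_le_one hn y
  · intro y h1 h2
    rw [chr_eq, chr_eq]
    have := Pool.BLP.one_sub_chi_le hn h1 h2
    unfold Pool.BLP.chi at this
    linarith
  · intro y h; rw [chr_eq]; exact Pool.BLP.chiP_le_out hn h

/-- the mass of the window -/
theorem integrable_chr {n : ℕ} (hn : 1 ≤ n) : Integrable (chr n) := by
  rw [chr_eq']; exact Pool.BLP.integrable_chiP hn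

theorem integral_chr {n : ℕ} (hn : 1 ≤ n) : ∫ y, chr n y = 14 / 10000 := by
  rw [chr_eq']; exact Pool.BLP.integral_chiP hn

/-- the mass of the window outside `[0.9975, 0.9995]` -/
theorem integral_chr_out {n : ℕ} (hn : 1 ≤ n) :
    ∫ y in (Icc (9975 / 10000 : ℝ) (9995 / 10000))ᶜ, chr n y ≤ Real.exp (-(4 * n)) := by
  rw [chr_eq']; exact Pool.BLP.integral_chiP_out hn

/-- the mass of the window outside `[1/2, 3/2]` -/
theorem integral_chr_out' {n : ℕ} (hn : 1 ≤ n) :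
    ∫ y in (Icc (1 / 2 : ℝ) (3 / 2))ᶜ, chr n y ≤ Real.exp (-(4 * n)) := by
  refine le_trans ?_ (integral_chr_out hn)
  refine setIntegral_mono_set (integrable_chr hn).integrableOn
    (Filter.Eventually.of_forall fun y => (win n hn).nonneg y)
    (Filter.Eventually.of_forall ?_)
  intro y hy hy'
  exact hy ⟨by linarith [hy'.1], by linarith [hy'.2]⟩

/-- section 6: `|q_r| <= 4` -/
theorem integral_one_sub_chr_le {n : ℕ} (hn : 1 ≤ n) {P : ℝ → ℝ} (h0 : ∀ y, 0 ≤ P y)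
    (h1 : ∀ y, |y| ≤ 1 → ¬ (998 / 1000 < |y| ∧ |y| < 999 / 1000) → P y ≤ 4)
    (h2 : ∀ y, 998 / 1000 < |y| → |y| < 999 / 1000 → P y ≤ 2 * Real.exp (2 * n))
    (h3 : ∀ y, 1 ≤ |y| → P y ≤ 4 / y ^ 2) :
    ∫ y, (1 - chr n y - chr n (-y)) * P y ≤ 8 * Real.pi := by
  have h := Pool.BLP.integral_one_sub_chi_le hn h0 h1 h2 h3
  refine le_trans (le_of_eq ?_) h
  refine integral_congr_ae (Filter.Eventually.of_forall fun y => ?_)
  change (1 - chr n y - chr n (-y)) * P y = (1 - Pool.BLP.chi n y) * P y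
  unfold Pool.BLP.chi
  rw [chr_eq, chr_eq]
  ring

/-- for `PsiH`: `(1 / 2 pi) * integral of (1 - chi) |Psi| <= 4` when the bounds of `BND1` hold and
`2 eps A <= 2` -/
theorem q_r_le {n : ℕ} (hn : 2 ≤ n) {ε : ℝ} {p : Polynomial ℝ} (hA : 2 * ε * coefA p ≤ 2)
    {Ψ : ℂ → ℂ}
    (hb : ∀ y : ℝ, ‖Ψ ((y : ℂ) * I)‖ ≤ 2 * Real.exp (2 * n * ε * coefA p))
    (hb2 : ∀ y : ℝ, (|y| ≤ 998 / 1000 ∨ 999 / 1000 ≤ |y|) → ‖Ψ ((y : ℂ) * I)‖ ≤ 2)
    (far : ∀ s : ℂ, 0 ≤ s.re → s ≠ 0 → ‖Ψ s‖ ≤ (‖s‖ ^ (2 * n - 1))⁻¹) :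
    (2 * Real.pi)⁻¹ * (∫ y : ℝ, (1 - chr n y - chr n (-y)) * ‖Ψ ((y : ℂ) * I)‖) ≤ 4 := by
  have h := integral_one_sub_chr_le (n := n) (by omega)
    (P := fun y : ℝ => ‖Ψ ((y : ℂ) * I)‖) (fun y => norm_nonneg _) ?_ ?_ ?_
  · have hpi := Real.pi_pos
    rw [inv_mul_le_iff₀ (by positivity)]
    linarith
  · intro y _ hJ
    have : |y| ≤ 998 / 1000 ∨ 999 / 1000 ≤ |y| := by
      by_contra hcon
      rw [not_or, not_le, not_le] at hcon
      exact hJ hcon
    have := hb2 y this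
    linarith
  · intro y _ _
    refine (hb y).trans ?_
    have : (2 * n * ε * coefA p : ℝ) ≤ 2 * n := by
      have hn' : (0 : ℝ) ≤ n := Nat.cast_nonneg n
      nlinarith
    have := Real.exp_le_exp.mpr this
    linarith
  · intro y hy
    have hy0 : 0 < |y| := by linarith
    have hne : (y : ℂ) * I ≠ 0 := by
      refine mul_ne_zero ?_ I_ne_zero
      rw [Ne, Complex.ofReal_eq_zero]
      intro h0; rw [h0, abs_zero] at hy0; exact lt_irrefl _ hy0
    have h1 := far ((y : ℂ) * I) (by simp) hne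
    have hnorm : ‖(y : ℂ) * I‖ = |y| := by simp
    rw [hnorm] at h1
    refine h1.trans ?_
    have h2 : |y| ^ 2 ≤ |y| ^ (2 * n - 1) := pow_le_pow_right₀ hy (by omega)
    rw [← sq_abs y]
    have h3 : (|y| ^ (2 * n - 1))⁻¹ ≤ (|y| ^ 2)⁻¹ := inv_anti₀ (by positivity) h2
    refine h3.trans ?_
    rw [div_eq_mul_inv]
    have : 0 < (|y| ^ 2)⁻¹ := by positivity
    linarith

theorem thet_eq (n : ℕ) (u : ℝ) : thet n u = Pool.BLP.theta n u := by
  unfold thet Pool.BLP.theta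
  ring

/-- R22. -/
theorem the : THE := by
  intro n hn
  refine ⟨?_, ?_⟩
  · intro u hu
    rcases eq_or_lt_of_le hu with h | h
    · rw [← h]
      have : thet n 0 = 0 := by
        unfold thet
        rw [zero_pow (by omega)]
        simp
      rw [this]
      exact ⟨le_rfl, zero_le_one⟩
    · rw [thet_eq]
      exact ⟨(Pool.BLP.theta_pos hn h).le, (Pool.BLP.theta_lt_one hn h).le⟩
  · intro u hu
    rw [thet_eq]
    refine (Pool.BLP.one_sub_theta_le hn hu).trans (Real.exp_le_exp.mpr ?_)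
    have : (0 : ℝ) ≤ n := Nat.cast_nonneg n
    linarith

end Pool.Agent.BLP
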