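import Mathlib
import Pool.Agent.Lib.BLP.Props
import Pool.Agent.Lib.BLP.WinW

/-!
# Beyond LP (MP_ef2672), section 7.2: the sum of the packet over the lattice

Abstract form: `a x = ρ π |x|²` for the nonzero lattice vectors `x`, `M y = χ₊(y) Ψ(iy) k(iy)`.
-/

set_option autoImplicit false

namespace Pool.Agent.BLP

open MeasureTheory Set Filter Topology Complex

namespace LS

/-- The packet `S_J(U) = Re (1/π) ∫ M(y) e^(-(3e - iy) U) dy`. -/
noncomputable def SJ (M : ℝ → ℂ) (e U : ℝ) : ℝ :=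
  (1 / Real.pi) * (∫ y : ℝ, M y * cexp (-((((3 * e : ℝ) : ℂ) - (y : ℂ) * I)) * U)).re

/-- The incomplete Gamma weight. -/
noncomputable def theta (n : ℕ) (p2 U : ℝ) : ℝ :=
  (∫ p in (0 : ℝ)..p2, p ^ (2 * n - 2) * Real.exp (-(p * U))) * U ^ (2 * n - 1) /
    ((2 * n - 2).factorial : ℝ)

/-- The theta sum over the nonzero vectors. -/
noncomputable def TH {ι : Type} (a : ι → ℝ) (t : ℂ) : ℂ := ∑' x, cexp (-t * a x)

/-- The majorant at the point with `U = a x`. -/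
noncomputable def bx (n : ℕ) (M : ℝ → ℂ) (e p2 U : ℝ) : ℝ :=
  ((2 * n - 1).factorial : ℝ) * (U ^ (2 * n - 1))⁻¹ * theta n p2 U * SJ M e U

lemma bx_eq (n : ℕ) (hn : 1 ≤ n) (M : ℝ → ℂ) (e p2 U : ℝ) (hU : 0 < U) :
    bx n M e p2 U = (2 * n - 1 : ℝ) *
      (∫ p in (0 : ℝ)..p2, p ^ (2 * n - 2) * Real.exp (-(p * U))) * SJ M e U := by
  unfold bx theta
  have h1 : (2 * n - 1).factorial = (2 * n - 1) * (2 * n - 2).factorial := by
    have : 2 * n - 1 = (2 * n - 2) + 1 := by omega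
    rw [this, Nat.factorial_succ]
  have h2 : (((2 * n - 1 : ℕ)) : ℝ) = 2 * n - 1 := by
    rw [Nat.cast_sub (by omega)]
    push_cast
    ring
  rw [h1, Nat.cast_mul, h2]
  have h3 : ((2 * n - 2).factorial : ℝ) ≠ 0 := by exact_mod_cast (Nat.factorial_pos _).ne'
  have h4 : U ^ (2 * n - 1) ≠ 0 := (pow_pos hU _).ne'
  generalize (∫ p in (0 : ℝ)..p2, p ^ (2 * n - 2) * Real.exp (-(p * U))) = X
  generalize SJ M e U = Y
  generalize ((2 * n - 2).factorial : ℝ) = f at h3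
  generalize U ^ (2 * n - 1) = w at h4
  field_simp

/-- The measure on the pairs `(p, y)`. -/
noncomputable def mu (p2 : ℝ) : Measure (ℝ × ℝ) :=
  ((volume : Measure ℝ).restrict (Ioc 0 p2)).prod volume

lemma int_pow (n : ℕ) (p2 : ℝ) :
    Integrable (fun p : ℝ => ((p ^ (2 * n - 2) : ℝ) : ℂ)) ((volume : Measure ℝ).restrict (Ioc 0 p2)) := by
  have h1 : IntegrableOn (fun p : ℝ => ((p ^ (2 * n - 2) : ℝ) : ℂ)) (Icc 0 p2) :=
    (Continuous.continuousOn (by fun_prop)).integrableOn_compact isCompact_Icc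
  exact h1.mono_set Ioc_subset_Icc_self

lemma int_base (n : ℕ) (p2 : ℝ) (M : ℝ → ℂ) (hM : Integrable M) :
    Integrable (fun z : ℝ × ℝ => ((z.1 ^ (2 * n - 2) : ℝ) : ℂ) * M z.2) (mu p2) :=
  (int_pow n p2).mul_prod hM

lemma ae_pos (p2 : ℝ) : ∀ᵐ z ∂(mu p2), z.1 ∈ Ioc (0 : ℝ) p2 := by
  have h1 : ∀ᵐ p ∂((volume : Measure ℝ).restrict (Ioc 0 p2)), p ∈ Ioc (0 : ℝ) p2 :=
    ae_restrict_mem measurableSet_Ioc
  exact Measure.quasiMeasurePreserving_fst.ae h1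

/-- The exponential factor. -/
noncomputable def ex (e U : ℝ) (z : ℝ × ℝ) : ℂ :=
  cexp (-((((z.1 + 3 * e : ℝ) : ℂ) - (z.2 : ℂ) * I)) * U)

lemma norm_ex (e U : ℝ) (z : ℝ × ℝ) : ‖ex e U z‖ = Real.exp (-((z.1 + 3 * e) * U)) := by
  unfold ex
  rw [Complex.norm_exp]
  congr 1
  simp
  ring

lemma cont_ex (e U : ℝ) : Continuous (ex e U) := by
  unfold ex
  fun_prop

lemma int_term (n : ℕ) (p2 : ℝ) (M : ℝ → ℂ) (hM : Integrable M) (e U : ℝ) (he : 0 < e)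
    (hU : 0 < U) :
    Integrable (fun z : ℝ × ℝ => ex e U z * (((z.1 ^ (2 * n - 2) : ℝ) : ℂ) * M z.2)) (mu p2) := by
  refine (int_base n p2 M hM).bdd_mul (c := 1) (cont_ex e U).aestronglyMeasurable ?_
  filter_upwards [ae_pos p2] with z hz
  rw [norm_ex, Real.exp_le_one_iff]
  have : 0 < z.1 := hz.1
  have : 0 < (z.1 + 3 * e) * U := by positivity
  linarith

lemma norm_int_term (n : ℕ) (p2 : ℝ) (M : ℝ → ℂ) (hM : Integrable M) (e U : ℝ)
    (he : 0 < e) (hU : 0 < U) :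
    ∫ z, ‖ex e U z * (((z.1 ^ (2 * n - 2) : ℝ) : ℂ) * M z.2)‖ ∂(mu p2) ≤
      Real.exp (-(3 * e * U)) * ∫ z, ‖((z.1 ^ (2 * n - 2) : ℝ) : ℂ) * M z.2‖ ∂(mu p2) := by
  rw [← integral_const_mul]
  refine integral_mono_ae (int_term n p2 M hM e U he hU).norm
    ((int_base n p2 M hM).norm.const_mul _) ?_
  filter_upwards [ae_pos p2] with z hz
  rw [norm_mul, norm_ex]
  have h1 : 0 < z.1 := hz.1
  have h2 : Real.exp (-((z.1 + 3 * e) * U)) ≤ Real.exp (-(3 * e * U)) := by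
    rw [Real.exp_le_exp]
    have : 0 < z.1 * U := by positivity
    linarith
  gcongr

lemma int_term_eq (n : ℕ) (p2 : ℝ) (hp2 : 0 ≤ p2) (M : ℝ → ℂ) (e U : ℝ) :
    ∫ z, ex e U z * (((z.1 ^ (2 * n - 2) : ℝ) : ℂ) * M z.2) ∂(mu p2) =
      ((∫ p in (0 : ℝ)..p2, p ^ (2 * n - 2) * Real.exp (-(p * U)) : ℝ) : ℂ) *
        ∫ y : ℝ, M y * cexp (-((((3 * e : ℝ) : ℂ) - (y : ℂ) * I)) * U) := by
  have e1 : (fun z : ℝ × ℝ => ex e U z * (((z.1 ^ (2 * n - 2) : ℝ) : ℂ) * M z.2)) =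
      fun z : ℝ × ℝ => ((z.1 ^ (2 * n - 2) * Real.exp (-(z.1 * U)) : ℝ) : ℂ) *
        (M z.2 * cexp (-((((3 * e : ℝ) : ℂ) - (z.2 : ℂ) * I)) * U)) := by
    funext z
    unfold ex
    have e2 : cexp (-((((z.1 + 3 * e : ℝ) : ℂ) - (z.2 : ℂ) * I)) * U) =
        ((Real.exp (-(z.1 * U)) : ℝ) : ℂ) * cexp (-((((3 * e : ℝ) : ℂ) - (z.2 : ℂ) * I)) * U) := by
      rw [ofReal_exp, ← Complex.exp_add]
      congr 1
      push_cast
      ring
    rw [e2]
    push_cast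
    ring
  rw [e1, mu]
  have h := integral_prod_mul (μ := (volume : Measure ℝ).restrict (Ioc 0 p2)) (ν := volume)
    (fun p : ℝ => ((p ^ (2 * n - 2) * Real.exp (-(p * U)) : ℝ) : ℂ))
    (fun y : ℝ => M y * cexp (-((((3 * e : ℝ) : ℂ) - (y : ℂ) * I)) * U))
  rw [h, integral_complex_ofReal, intervalIntegral.integral_of_le hp2]

/-- **(7.2a)** -/
theorem sum_bx {ι : Type} [Countable ι] (n : ℕ) (hn : 1 ≤ n) (a : ι → ℝ) (ha : ∀ x, 0 < a x)
    (e p2 : ℝ) (he : 0 < e) (hp2 : 0 ≤ p2) (hs : Summable fun x => Real.exp (-(3 * e * a x)))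
    (M : ℝ → ℂ) (hM : Integrable M) :
    HasSum (fun x => bx n M e p2 (a x)) ((2 * n - 1 : ℝ) * ((1 / Real.pi) *
      (∫ z, TH a (((z.1 + 3 * e : ℝ) : ℂ) - (z.2 : ℂ) * I) *
        (((z.1 ^ (2 * n - 2) : ℝ) : ℂ) * M z.2) ∂(mu p2)).re)) := by
  have h1 := hasSum_integral_of_summable_integral_norm (μ := mu p2)
    (F := fun x z => ex e (a x) z * (((z.1 ^ (2 * n - 2) : ℝ) : ℂ) * M z.2))
    (fun x => int_term n p2 M hM e (a x) he (ha x)) (by
      refine Summable.of_nonneg_of_le (fun x => integral_nonneg fun z => norm_nonneg _)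
        (fun x => norm_int_term n p2 M hM e (a x) he (ha x)) (hs.mul_right _))
  have e1 : (∫ z, ∑' x, ex e (a x) z * (((z.1 ^ (2 * n - 2) : ℝ) : ℂ) * M z.2) ∂(mu p2)) =
      ∫ z, TH a (((z.1 + 3 * e : ℝ) : ℂ) - (z.2 : ℂ) * I) *
        (((z.1 ^ (2 * n - 2) : ℝ) : ℂ) * M z.2) ∂(mu p2) := by
    refine integral_congr_ae (Eventually.of_forall fun z => ?_)
    beta_reduce
    rw [tsum_mul_right]
    rfl
  rw [e1] at h1
  have h2 := (h1.mapL reCLM).mul_left ((2 * n - 1 : ℝ) * (1 / Real.pi))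
  have e2 : (fun x => (2 * n - 1 : ℝ) * (1 / Real.pi) *
      reCLM (∫ z, ex e (a x) z * (((z.1 ^ (2 * n - 2) : ℝ) : ℂ) * M z.2) ∂(mu p2))) =
      fun x => bx n M e p2 (a x) := by
    funext x
    rw [int_term_eq n p2 hp2, bx_eq n hn M e p2 (a x) (ha x), SJ, reCLM_apply, re_ofReal_mul]
    ring
  rw [e2, reCLM_apply, mul_assoc] at h2
  exact h2

lemma beta_int (n : ℕ) (hn : 1 ≤ n) (c p2 : ℝ) (hc : 0 < c) (hp2 : 0 ≤ p2) :
    (2 * n - 1 : ℝ) * ∫ p in (0 : ℝ)..p2, p ^ (2 * n - 2) * ((p + c) ^ (2 * n))⁻¹ ≤ 1 / c := by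
  have hn' : (0 : ℝ) < 2 * n - 1 := by
    have : (1 : ℝ) ≤ n := by exact_mod_cast hn
    linarith
  have hder : ∀ p ∈ uIcc 0 p2, HasDerivAt (fun p : ℝ => (p / (p + c)) ^ (2 * n - 1) /
      ((2 * n - 1 : ℝ) * c)) (p ^ (2 * n - 2) * ((p + c) ^ (2 * n))⁻¹) p := by
    intro p hp
    rw [uIcc_of_le hp2, mem_Icc] at hp
    have hpc : p + c ≠ 0 := by
      have : 0 < p + c := by linarith [hp.1]
      exact this.ne'
    have h1 : HasDerivAt (fun p : ℝ => p / (p + c)) ((1 * (p + c) - p * 1) / (p + c) ^ 2) p :=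
      (hasDerivAt_id p).div ((hasDerivAt_id p).add_const c) hpc
    have h2 := (h1.pow (2 * n - 1)).div_const ((2 * n - 1 : ℝ) * c)
    refine HasDerivAt.congr_deriv (f := fun p : ℝ => (p / (p + c)) ^ (2 * n - 1) /
      ((2 * n - 1 : ℝ) * c)) h2 ?_
    have e1 : ((2 * n - 1 : ℕ) : ℝ) = 2 * n - 1 := by
      rw [Nat.cast_sub (by omega)]; push_cast; ring
    have e2 : 2 * n - 1 - 1 = 2 * n - 2 := by omega
    rw [e1, e2, div_pow]
    have e3 : (p + c) ^ (2 * n) = (p + c) ^ (2 * n - 2) * (p + c) ^ 2 := by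
      rw [← pow_add]; congr 1; omega
    rw [e3]
    have h3 : (p + c) ^ (2 * n - 2) ≠ 0 := pow_ne_zero _ hpc
    field_simp
    ring
  have hcont : ContinuousOn (fun p : ℝ => p ^ (2 * n - 2) * ((p + c) ^ (2 * n))⁻¹) (uIcc 0 p2) := by
    refine ContinuousOn.mul (by fun_prop) (ContinuousOn.inv₀ (by fun_prop) ?_)
    intro p hp
    rw [uIcc_of_le hp2, mem_Icc] at hp
    have : 0 < p + c := by linarith [hp.1]
    positivity
  rw [intervalIntegral.integral_eq_sub_of_hasDerivAt hder hcont.intervalIntegrable]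
  have h0 : ((0 : ℝ) / (0 + c)) ^ (2 * n - 1) = 0 := by
    rw [zero_div, zero_pow (by omega)]
  rw [h0, zero_div, sub_zero]
  have h1 : (p2 / (p2 + c)) ^ (2 * n - 1) ≤ 1 := by
    refine pow_le_one₀ (by positivity) ?_
    rw [div_le_one (by positivity)]
    linarith
  calc (2 * n - 1 : ℝ) * ((p2 / (p2 + c)) ^ (2 * n - 1) / ((2 * n - 1 : ℝ) * c)) =
      (p2 / (p2 + c)) ^ (2 * n - 1) / c := by field_simp
    _ ≤ 1 / c := by gcongr

lemma pow_int (n : ℕ) (hn : 1 ≤ n) (p2 : ℝ) :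
    (2 * n - 1 : ℝ) * ∫ p in (0 : ℝ)..p2, p ^ (2 * n - 2) = p2 ^ (2 * n - 1) := by
  have hn' : (0 : ℝ) < 2 * n - 1 := by
    have : (1 : ℝ) ≤ n := by exact_mod_cast hn
    linarith
  rw [integral_pow]
  have e1 : ((2 * n - 2 : ℕ) : ℝ) + 1 = 2 * n - 1 := by
    rw [Nat.cast_sub (by omega)]; push_cast; ring
  have e2 : 2 * n - 2 + 1 = 2 * n - 1 := by omega
  rw [e1, e2, zero_pow (by omega), sub_zero]
  field_simp

/-- **(7.2b)** -/
theorem sum_bx_le {ι : Type} [Countable ι] (n : ℕ) (hn : 1 ≤ n) (a : ι → ℝ) (ha : ∀ x, 0 < a x)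
    (e p2 : ℝ) (he : 0 < e) (hp2 : 0 ≤ p2) (hs : Summable fun x => Real.exp (-(3 * e * a x)))
    (M : ℝ → ℂ) (hM : Integrable M) (B : ℝ → ℝ) (hB0 : ∀ y, 0 ≤ B y)
    (hB : Integrable fun y => ‖M y‖ * B y)
    (hTH : ∀ p ∈ Ioc 0 p2, ∀ y : ℝ, ‖TH a (((p + 3 * e : ℝ) : ℂ) - (y : ℂ) * I)‖ ≤
      B y * ((p + 3 * e) ^ (2 * n))⁻¹ + 1) :
    Summable (fun x => bx n M e p2 (a x)) ∧
    |∑' x, bx n M e p2 (a x)| ≤ (1 / Real.pi) * (1 / (3 * e)) * (∫ y, ‖M y‖ * B y) +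
      (1 / Real.pi) * p2 ^ (2 * n - 1) * ∫ y, ‖M y‖ := by
  have h := sum_bx n hn a ha e p2 he hp2 hs M hM
  refine ⟨h.summable, ?_⟩
  rw [h.tsum_eq]
  have hn' : (0 : ℝ) < 2 * n - 1 := by
    have : (1 : ℝ) ≤ n := by exact_mod_cast hn
    linarith
  have hpi := Real.pi_pos
  have hce : 0 < 3 * e := by positivity
  -- the majorant
  have hg1 : Integrable (fun p : ℝ => p ^ (2 * n - 2) * ((p + 3 * e) ^ (2 * n))⁻¹)
      ((volume : Measure ℝ).restrict (Ioc 0 p2)) := by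
    have h1 : IntegrableOn (fun p : ℝ => p ^ (2 * n - 2) * ((p + 3 * e) ^ (2 * n))⁻¹) (Icc 0 p2) := by
      refine ContinuousOn.integrableOn_compact isCompact_Icc ?_
      refine ContinuousOn.mul (by fun_prop) (ContinuousOn.inv₀ (by fun_prop) ?_)
      intro p hp
      have : 0 < p + 3 * e := by linarith [hp.1]
      positivity
    exact h1.mono_set Ioc_subset_Icc_self
  have hg2 : Integrable (fun p : ℝ => p ^ (2 * n - 2))
      ((volume : Measure ℝ).restrict (Ioc 0 p2)) := by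
    have h1 : IntegrableOn (fun p : ℝ => p ^ (2 * n - 2)) (Icc 0 p2) :=
      (Continuous.continuousOn (by fun_prop)).integrableOn_compact isCompact_Icc
    exact h1.mono_set Ioc_subset_Icc_self
  have hG : Integrable (fun z : ℝ × ℝ => (z.1 ^ (2 * n - 2) * ((z.1 + 3 * e) ^ (2 * n))⁻¹) *
      (‖M z.2‖ * B z.2) + z.1 ^ (2 * n - 2) * ‖M z.2‖) (mu p2) :=
    (hg1.mul_prod hB).add (hg2.mul_prod hM.norm)
  have h1 : ‖∫ z, TH a (((z.1 + 3 * e : ℝ) : ℂ) - (z.2 : ℂ) * I) *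
        (((z.1 ^ (2 * n - 2) : ℝ) : ℂ) * M z.2) ∂(mu p2)‖ ≤
      ∫ z : ℝ × ℝ, ((z.1 ^ (2 * n - 2) * ((z.1 + 3 * e) ^ (2 * n))⁻¹) *
      (‖M z.2‖ * B z.2) + z.1 ^ (2 * n - 2) * ‖M z.2‖) ∂(mu p2) := by
    refine norm_integral_le_of_norm_le hG ?_
    filter_upwards [ae_pos p2] with z hz
    have h2 := hTH z.1 hz z.2
    have h3 : 0 < z.1 := hz.1
    rw [norm_mul, norm_mul, norm_real, Real.norm_of_nonneg (by positivity)]
    calc ‖TH a (((z.1 + 3 * e : ℝ) : ℂ) - (z.2 : ℂ) * I)‖ * (z.1 ^ (2 * n - 2) * ‖M z.2‖) ≤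
        (B z.2 * ((z.1 + 3 * e) ^ (2 * n))⁻¹ + 1) * (z.1 ^ (2 * n - 2) * ‖M z.2‖) := by gcongr
      _ = _ := by ring
  have h4 : ∫ z : ℝ × ℝ, ((z.1 ^ (2 * n - 2) * ((z.1 + 3 * e) ^ (2 * n))⁻¹) *
      (‖M z.2‖ * B z.2) + z.1 ^ (2 * n - 2) * ‖M z.2‖) ∂(mu p2) =
      (∫ p in (0 : ℝ)..p2, p ^ (2 * n - 2) * ((p + 3 * e) ^ (2 * n))⁻¹) * (∫ y, ‖M y‖ * B y) +
      (∫ p in (0 : ℝ)..p2, p ^ (2 * n - 2)) * ∫ y, ‖M y‖ := by
    have i1 : Integrable (fun z : ℝ × ℝ => (z.1 ^ (2 * n - 2) * ((z.1 + 3 * e) ^ (2 * n))⁻¹) *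
      (‖M z.2‖ * B z.2)) (mu p2) := hg1.mul_prod hB
    have i2 : Integrable (fun z : ℝ × ℝ => z.1 ^ (2 * n - 2) * ‖M z.2‖) (mu p2) :=
      hg2.mul_prod hM.norm
    rw [integral_add i1 i2, mu]
    have j1 := integral_prod_mul (μ := (volume : Measure ℝ).restrict (Ioc 0 p2)) (ν := volume)
      (fun p : ℝ => p ^ (2 * n - 2) * ((p + 3 * e) ^ (2 * n))⁻¹) (fun y : ℝ => ‖M y‖ * B y)
    have j2 := integral_prod_mul (μ := (volume : Measure ℝ).restrict (Ioc 0 p2)) (ν := volume)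
      (fun p : ℝ => p ^ (2 * n - 2)) (fun y : ℝ => ‖M y‖)
    rw [j1, j2, intervalIntegral.integral_of_le hp2, intervalIntegral.integral_of_le hp2]
  rw [h4] at h1
  have hIB : 0 ≤ ∫ y, ‖M y‖ * B y := integral_nonneg fun y => mul_nonneg (norm_nonneg _) (hB0 y)
  have hIM : 0 ≤ ∫ y, ‖M y‖ := integral_nonneg fun y => norm_nonneg _
  have k1 := beta_int n hn (3 * e) p2 hce hp2
  have k2 := pow_int n hn p2
  set Z := ∫ z, TH a (((z.1 + 3 * e : ℝ) : ℂ) - (z.2 : ℂ) * I) *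
        (((z.1 ^ (2 * n - 2) : ℝ) : ℂ) * M z.2) ∂(mu p2) with hZ
  rw [abs_mul, abs_mul, abs_of_pos hn', abs_of_pos (by positivity : (0 : ℝ) < 1 / Real.pi)]
  calc (2 * n - 1 : ℝ) * (1 / Real.pi * |Z.re|) ≤ (2 * n - 1 : ℝ) * (1 / Real.pi * ‖Z‖) := by
        have := abs_re_le_norm Z
        gcongr
    _ ≤ (2 * n - 1 : ℝ) * (1 / Real.pi *
      ((∫ p in (0 : ℝ)..p2, p ^ (2 * n - 2) * ((p + 3 * e) ^ (2 * n))⁻¹) * (∫ y, ‖M y‖ * B y) +
      (∫ p in (0 : ℝ)..p2, p ^ (2 * n - 2)) * ∫ y, ‖M y‖)) := by gcongr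
    _ = (1 / Real.pi) * ((2 * n - 1 : ℝ) *
        ∫ p in (0 : ℝ)..p2, p ^ (2 * n - 2) * ((p + 3 * e) ^ (2 * n))⁻¹) * (∫ y, ‖M y‖ * B y) +
        (1 / Real.pi) * ((2 * n - 1 : ℝ) * ∫ p in (0 : ℝ)..p2, p ^ (2 * n - 2)) * ∫ y, ‖M y‖ := by
        ring
    _ ≤ _ := by
        rw [k2]
        gcongr

/-- The form with two bounds, on `J₁` and outside. -/
theorem sum_bx_le' {ι : Type} [Countable ι] (n : ℕ) (hn : 1 ≤ n) (a : ι → ℝ) (ha : ∀ x, 0 < a x)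
    (e p2 : ℝ) (he : 0 < e) (hp2 : 0 ≤ p2) (hs : Summable fun x => Real.exp (-(3 * e * a x)))
    (M : ℝ → ℂ) (hM : Integrable M) (J : Set ℝ) (hJ : MeasurableSet J) (B₁ B₂ : ℝ) (hB₁ : 0 ≤ B₁)
    (hB₂ : 0 ≤ B₂)
    (h1 : ∀ p ∈ Ioc 0 p2, ∀ y ∈ J, ‖TH a (((p + 3 * e : ℝ) : ℂ) - (y : ℂ) * I)‖ ≤
      B₁ * ((p + 3 * e) ^ (2 * n))⁻¹ + 1)
    (h2 : ∀ p ∈ Ioc 0 p2, ∀ y : ℝ, ‖TH a (((p + 3 * e : ℝ) : ℂ) - (y : ℂ) * I)‖ ≤
      B₂ * ((p + 3 * e) ^ (2 * n))⁻¹ + 1) :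
    Summable (fun x => bx n M e p2 (a x)) ∧
    |∑' x, bx n M e p2 (a x)| ≤ (1 / Real.pi) * (1 / (3 * e)) *
      (B₁ * (∫ y in J, ‖M y‖) + B₂ * ∫ y in Jᶜ, ‖M y‖) +
      (1 / Real.pi) * p2 ^ (2 * n - 1) * ∫ y, ‖M y‖ := by
  classical
  set B : ℝ → ℝ := fun y => J.indicator (fun _ => B₁) y + Jᶜ.indicator (fun _ => B₂) y with hB
  have hBJ : ∀ y ∈ J, B y = B₁ := by
    intro y hy
    simp only [hB]
    rw [indicator_of_mem hy, indicator_of_notMem (Set.notMem_compl_iff.mpr hy), add_zero]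
  have hBJ' : ∀ y, y ∉ J → B y = B₂ := by
    intro y hy
    simp only [hB]
    rw [indicator_of_notMem hy, indicator_of_mem (by exact hy), zero_add]
  have hB0 : ∀ y, 0 ≤ B y := by
    intro y
    by_cases hy : y ∈ J
    · rw [hBJ y hy]; exact hB₁
    · rw [hBJ' y hy]; exact hB₂
  have e1 : (fun y => ‖M y‖ * B y) = fun y => J.indicator (fun y => B₁ * ‖M y‖) y +
      Jᶜ.indicator (fun y => B₂ * ‖M y‖) y := by
    funext y
    by_cases hy : y ∈ J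
    · rw [hBJ y hy, indicator_of_mem hy, indicator_of_notMem (Set.notMem_compl_iff.mpr hy)]; ring
    · rw [hBJ' y hy, indicator_of_notMem hy, indicator_of_mem (by exact hy)]; ring
  have i1 : Integrable (J.indicator fun y => B₁ * ‖M y‖) := (hM.norm.const_mul B₁).indicator hJ
  have i2 : Integrable (Jᶜ.indicator fun y => B₂ * ‖M y‖) :=
    (hM.norm.const_mul B₂).indicator hJ.compl
  have hBi : Integrable fun y => ‖M y‖ * B y := by
    rw [e1]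
    exact i1.add i2
  have h := sum_bx_le n hn a ha e p2 he hp2 hs M hM B hB0 hBi (by
    intro p hp y
    by_cases hy : y ∈ J
    · rw [hBJ y hy]; exact h1 p hp y hy
    · rw [hBJ' y hy]; exact h2 p hp y)
  have e2 : ∫ y, ‖M y‖ * B y = B₁ * (∫ y in J, ‖M y‖) + B₂ * ∫ y in Jᶜ, ‖M y‖ := by
    rw [e1, integral_add i1 i2, integral_indicator hJ, integral_indicator hJ.compl,
      integral_const_mul, integral_const_mul]
  rw [e2] at h
  exact h

/-! ### The row SUMB -/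

lemma qf_pos {N : ℕ} (A : Matrix (Fin N) (Fin N) ℝ) (hA : A.det ≠ 0) (w : Fin N → ℤ)
    (hw : w ≠ 0) : 0 < qf A w := by
  have h0 : 0 ≤ qf A w := by
    unfold qf nsq
    exact Finset.sum_nonneg fun i _ => sq_nonneg _
  refine lt_of_le_of_ne h0 fun h => hw ?_
  have h1 : ∀ i, lv A w i = 0 := by
    intro i
    unfold qf nsq at h
    have h2 := (Finset.sum_eq_zero_iff_of_nonneg (fun i _ => sq_nonneg (lv A w i))).1 h.symm i
      (Finset.mem_univ i)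
    exact pow_eq_zero_iff (two_ne_zero) |>.1 h2
  have h3 : A.mulVec (fun j => (w j : ℝ)) = A.mulVec 0 := by
    rw [Matrix.mulVec_zero]
    funext i
    exact h1 i
  have h4 := Matrix.mulVec_injective_of_isUnit ((Matrix.isUnit_iff_isUnit_det A).2 hA.isUnit) h3
  funext i
  have h5 := congrFun h4 i
  simpa using h5

lemma qf_zero {N : ℕ} (A : Matrix (Fin N) (Fin N) ℝ) : qf A 0 = 0 := by
  unfold qf lv nsq
  have : (fun j : Fin N => (((0 : Fin N → ℤ) j : ℤ) : ℝ)) = 0 := by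
    funext j
    simp
  rw [this, Matrix.mulVec_zero]
  simp

lemma th_summable {N : ℕ} (A : Matrix (Fin N) (Fin N) ℝ) (hA : PF A) (t : ℂ) (ht : 0 < t.re) :
    Summable fun w : Fin N → ℤ => cexp (-(Real.pi * t * (qf A w : ℝ))) := by
  refine Summable.of_norm ?_
  have h := hA.sum t.re ht 0
  refine h.congr fun w => ?_
  rw [Complex.norm_exp]
  congr 1
  simp [qf]

lemma th_conj {N : ℕ} (A : Matrix (Fin N) (Fin N) ℝ) (τ v : ℝ) :
    ‖th A ((τ : ℂ) - (v : ℂ) * I)‖ = ‖th A ((τ : ℂ) + (v : ℂ) * I)‖ := by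
  have h : th A ((τ : ℂ) - (v : ℂ) * I) = (starRingEnd ℂ) (th A ((τ : ℂ) + (v : ℂ) * I)) := by
    unfold th
    rw [Complex.conj_tsum]
    refine tsum_congr fun w => ?_
    rw [← Complex.exp_conj]
    congr 1
    simp only [map_neg, map_mul, map_add, conj_ofReal, conj_I]
    ring
  rw [h, Complex.norm_conj]

/-- the theta sum without the zero vector -/
lemma TH_eq {N : ℕ} (A : Matrix (Fin N) (Fin N) ℝ) (hA : PF A) (ρ : ℝ) (hρ : 0 < ρ) (t : ℂ)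
    (ht : 0 < t.re) :
    TH (fun w : {w : Fin N → ℤ // w ≠ 0} => ρ * Real.pi * qf A w) t = th A (ρ * t) - 1 := by
  have h1 : Summable fun w : Fin N → ℤ => cexp (-(Real.pi * (ρ * t) * (qf A w : ℝ))) :=
    th_summable A hA _ (by simpa using mul_pos hρ ht)
  have h2 := h1.tsum_subtype_add_tsum_subtype_compl {w : Fin N → ℤ | w ≠ 0}
  have h3 : ∑' w : ({w : Fin N → ℤ | w ≠ 0}ᶜ : Set (Fin N → ℤ)),
      cexp (-(Real.pi * (ρ * t) * (qf A (w : Fin N → ℤ) : ℝ))) = 1 := by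
    have e : ({w : Fin N → ℤ | w ≠ 0}ᶜ : Set (Fin N → ℤ)) = {0} := by
      ext w
      simp
    rw [e, tsum_singleton (0 : Fin N → ℤ) (fun w => cexp (-(Real.pi * (ρ * t) * (qf A w : ℝ)))),
      qf_zero]
    simp
  rw [h3] at h2
  unfold th
  rw [← h2, add_sub_cancel_right]
  unfold TH
  refine tsum_congr fun w => ?_
  congr 1
  push_cast
  ring

lemma norm_kf (e y : ℝ) (he : 0 < e) : ‖kf e ((y : ℂ) * I)‖ ≤ 9 / 4 := by
  unfold kf
  have h1 : e ≤ ‖(e : ℂ) - (y : ℂ) * I‖ := by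
    have := abs_re_le_norm ((e : ℂ) - (y : ℂ) * I)
    simp at this
    rwa [abs_of_pos he] at this
  have h2 : 2 * e ≤ ‖2 * (e : ℂ) - (y : ℂ) * I‖ := by
    have := abs_re_le_norm (2 * (e : ℂ) - (y : ℂ) * I)
    simp at this
    rwa [abs_of_pos he] at this
  have h3 : ‖-(2 * (e : ℂ)) / ((e : ℂ) - (y : ℂ) * I)‖ ≤ 2 := by
    rw [norm_div, norm_neg, norm_mul, norm_real, Real.norm_of_nonneg he.le]
    rw [div_le_iff₀ (by linarith)]
    simp
    linarith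
  have h4 : ‖(e : ℂ) / 2 / (2 * (e : ℂ) - (y : ℂ) * I)‖ ≤ 1 / 4 := by
    rw [norm_div, norm_div, norm_real, Real.norm_of_nonneg he.le]
    rw [div_le_iff₀ (by linarith)]
    simp
    linarith
  calc _ ≤ _ := norm_add_le _ _
    _ ≤ 2 + 1 / 4 := add_le_add h3 h4
    _ = 9 / 4 := by norm_num

lemma cont_axis {Ψ : ℂ → ℂ} {C : ℝ} (h : PWH Ψ C) : Continuous fun y : ℝ => Ψ ((y : ℂ) * I) := by
  refine h.cont.comp_continuous (by fun_prop) fun y => ?_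
  show 0 ≤ ((y : ℂ) * I).re
  simp

lemma cont_kf (e : ℝ) (he : 0 < e) : Continuous fun y : ℝ => kf e ((y : ℂ) * I) := by
  unfold kf
  refine Continuous.add ?_ ?_
  · refine Continuous.div (by fun_prop) (by fun_prop) fun y h => ?_
    have := congrArg re h
    simp at this
    linarith
  · refine Continuous.div (by fun_prop) (by fun_prop) fun y h => ?_
    have := congrArg re h
    simp at this
    linarith

lemma int_axis {Ψ : ℂ → ℂ} {C : ℝ} (h : PWH Ψ C) : Integrable fun y : ℝ => Ψ ((y : ℂ) * I) := by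
  refine Integrable.mono' (integrable_inv_one_add_sq.const_mul C)
    (cont_axis h).aestronglyMeasurable (Eventually.of_forall fun y => ?_)
  refine (h.bd _ (by simp)).trans (le_of_eq ?_)
  have : ‖(y : ℂ) * I‖ = |y| := by simp
  rw [this, sq_abs, div_eq_mul_inv]

/-- the integral on the axis -/
lemma int_axis_le {Ψ : ℂ → ℂ} {C M : ℝ} {n : ℕ} (hn : 2 ≤ n) (hM : 1 ≤ M) (h : PWH Ψ C)
    (h1 : ∀ y : ℝ, ‖Ψ ((y : ℂ) * I)‖ ≤ 2 * M)
    (h2 : ∀ s : ℂ, 0 ≤ s.re → s ≠ 0 → ‖Ψ s‖ ≤ (‖s‖ ^ (2 * n - 1))⁻¹) :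
    ∫ y : ℝ, ‖Ψ ((y : ℂ) * I)‖ ≤ 4 * Real.pi * M := by
  have h3 : ∀ y : ℝ, ‖Ψ ((y : ℂ) * I)‖ ≤ 4 * M * (1 + y ^ 2)⁻¹ := by
    intro y
    have hp : 0 < 1 + y ^ 2 := by positivity
    rcases le_or_gt |y| 1 with hy | hy
    · refine (h1 y).trans ?_
      have h4 : y ^ 2 ≤ 1 := by
        rw [← sq_abs]
        exact pow_le_one₀ (abs_nonneg y) hy
      rw [← div_eq_mul_inv, le_div_iff₀ hp]
      nlinarith
    · have hy0 : y ≠ 0 := by
        intro h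
        rw [h, abs_zero] at hy
        linarith
      have h4 := h2 ((y : ℂ) * I) (by simp) (by simpa using hy0)
      have h5 : ‖(y : ℂ) * I‖ = |y| := by simp
      rw [h5] at h4
      have h6 : |y| ^ 2 ≤ |y| ^ (2 * n - 1) := pow_le_pow_right₀ hy.le (by omega)
      refine h4.trans ?_
      have h7 : 0 < |y| ^ 2 := by positivity
      calc (|y| ^ (2 * n - 1))⁻¹ ≤ (|y| ^ 2)⁻¹ := inv_anti₀ h7 h6
        _ ≤ 4 * M * (1 + y ^ 2)⁻¹ := by
            rw [← div_eq_mul_inv, le_div_iff₀ hp, sq_abs, inv_mul_le_iff₀ (by positivity)]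
            have h8 : 1 ≤ y ^ 2 := by
              rw [← sq_abs]
              exact one_le_pow₀ hy.le
            nlinarith
  calc ∫ y : ℝ, ‖Ψ ((y : ℂ) * I)‖ ≤ ∫ y : ℝ, 4 * M * (1 + y ^ 2)⁻¹ :=
        integral_mono (int_axis h).norm (integrable_inv_one_add_sq.const_mul _) h3
    _ = 4 * Real.pi * M := by
        rw [integral_const_mul, integral_univ_inv_one_add_sq]
        ring

end LS

open LS in
/-- **Row R27 (7.2).** -/
theorem sumb : SUMB := by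
  have hW : WIN := win
  refine ⟨1500000, fun n hn _ A hPF hdet κ hκ hκ1 hinc M C ρ Ψ hM hPW hΨ1 hΨ2 hρ hρ1 b hb0 hb => ?_⟩
  have hn1 : 1 ≤ n := by omega
  have hW' := hW n hn1
  have hnr : (1500000 : ℝ) ≤ n := by exact_mod_cast hn
  have hn0 : (0 : ℝ) < n := by linarith
  obtain ⟨e, he⟩ : ∃ e : ℝ, e = ee n := ⟨_, rfl⟩
  have hsq : 0 < √(n : ℝ) := Real.sqrt_pos.2 hn0
  have he0 : 0 < e := by rw [he, ee]; positivity
  have hsq1 : 1200 ≤ √(n : ℝ) := by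
    rw [show (1200 : ℝ) = √(1200 ^ 2) by rw [Real.sqrt_sq (by norm_num)]]
    exact Real.sqrt_le_sqrt (by linarith)
  have he1 : 3 * e ≤ 25 / 10000 := by
    rw [he, ee]
    have : 1 / √(n : ℝ) ≤ 1 / 1200 := one_div_le_one_div_of_le (by norm_num) hsq1
    linarith
  have hρ0 : 0 < ρ := by linarith
  have hpi := Real.pi_pos
  obtain ⟨p2, hp2⟩ : ∃ p2 : ℝ, p2 = 495 / 1000 := ⟨_, rfl⟩
  have hp20 : 0 ≤ p2 := by rw [hp2]; norm_num
  set a : {w : Fin (4 * n) → ℤ // w ≠ 0} → ℝ := fun w => ρ * Real.pi * qf A w with ha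
  have hapos : ∀ w, 0 < a w := fun w => by
    have := qf_pos A hdet w w.2
    positivity
  have hasum : Summable fun w => Real.exp (-(3 * e * a w)) := by
    have h1 := (hPF.sum (3 * e * ρ) (by positivity) 0).subtype {w : Fin (4 * n) → ℤ | w ≠ 0}
    refine h1.congr fun w => ?_
    simp only [Function.comp_apply, ha, qf, sub_zero]
    congr 1
    ring
  set Mf : ℝ → ℂ := fun y => (chr n y : ℂ) * Ψ ((y : ℂ) * I) * kf e ((y : ℂ) * I) with hMf
  have hchr1 : ∀ y, chr n y ≤ 1 := fun y => by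
    have h1 := hW'.le_one y
    have h2 := hW'.nonneg (-y)
    linarith
  have hMfc : Continuous Mf := by
    have h1 := hW'.cont
    have h2 := cont_axis hPW
    have h3 := cont_kf e he0
    exact ((Complex.continuous_ofReal.comp h1).mul h2).mul h3
  have hMfn : ∀ y, ‖Mf y‖ ≤ 9 / 4 * (chr n y * ‖Ψ ((y : ℂ) * I)‖) := by
    intro y
    simp only [hMf]
    rw [norm_mul, norm_mul, norm_real, Real.norm_of_nonneg (hW'.nonneg y)]
    have h1 := norm_kf e y he0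
    have h2 : 0 ≤ chr n y * ‖Ψ ((y : ℂ) * I)‖ := mul_nonneg (hW'.nonneg y) (norm_nonneg _)
    calc chr n y * ‖Ψ ((y : ℂ) * I)‖ * ‖kf e ((y : ℂ) * I)‖ ≤
        chr n y * ‖Ψ ((y : ℂ) * I)‖ * (9 / 4) := by gcongr
      _ = _ := by ring
  have hMi : Integrable Mf := by
    refine Integrable.mono' ((int_axis hPW).norm.const_mul (9 / 4)) hMfc.aestronglyMeasurable
      (Eventually.of_forall fun y => (hMfn y).trans ?_)
    have h1 := mul_le_mul_of_nonneg_right (hchr1 y) (norm_nonneg (Ψ ((y : ℂ) * I)))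
    linarith
  set J : Set ℝ := Icc (9975 / 10000) (9995 / 10000) with hJ
  have hJI : ∫ y in J, ‖Mf y‖ ≤ M := by
    have h1 : ∫ y in J, ‖Mf y‖ ≤ ∫ y in J, 9 / 2 * M := by
      refine setIntegral_mono_on hMi.norm.integrableOn ?_ measurableSet_Icc fun y _ => ?_
      · exact integrableOn_const (by rw [Real.volume_Icc]; exact ENNReal.ofReal_ne_top)
      · refine (hMfn y).trans ?_
        have h2 : chr n y * ‖Ψ ((y : ℂ) * I)‖ ≤ 1 * (2 * M) :=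
          mul_le_mul (hchr1 y) (hΨ1 y) (norm_nonneg _) zero_le_one
        linarith
    refine h1.trans ?_
    rw [setIntegral_const, Measure.real, Real.volume_Icc, ENNReal.toReal_ofReal (by norm_num),
      smul_eq_mul]
    linarith
  have hJI' : ∫ y in Jᶜ, ‖Mf y‖ ≤ 30 * M * Real.exp (-(4 * n)) := by
    have h1 : ∫ y in Jᶜ, ‖Mf y‖ ≤ ∫ y in Jᶜ, 9 / 4 * Real.exp (-(4 * n)) * ‖Ψ ((y : ℂ) * I)‖ := by
      refine setIntegral_mono_on hMi.norm.integrableOn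
        (((int_axis hPW).norm.const_mul _).integrableOn) measurableSet_Icc.compl fun y hy => ?_
      refine (hMfn y).trans ?_
      have h2 : chr n y ≤ Real.exp (-(4 * n)) := by
        refine hW'.far y ?_
        by_contra h3
        push Not at h3
        exact hy ⟨h3.1.le, h3.2.le⟩
      have h3 := mul_le_mul_of_nonneg_right h2 (norm_nonneg (Ψ ((y : ℂ) * I)))
      linarith
    refine h1.trans ?_
    have h2 : ∫ y in Jᶜ, 9 / 4 * Real.exp (-(4 * n)) * ‖Ψ ((y : ℂ) * I)‖ ≤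
        ∫ y : ℝ, 9 / 4 * Real.exp (-(4 * n)) * ‖Ψ ((y : ℂ) * I)‖ :=
      setIntegral_le_integral ((int_axis hPW).norm.const_mul _)
        (Eventually.of_forall fun y =>
          mul_nonneg (mul_nonneg (by norm_num) (Real.exp_pos _).le) (norm_nonneg _))
    refine h2.trans ?_
    rw [integral_const_mul]
    have h3 := int_axis_le (by omega) hM hPW hΨ1 hΨ2
    have h4 : Real.pi ≤ 3.15 := Real.pi_lt_d2.le
    calc 9 / 4 * Real.exp (-(4 * n)) * ∫ y : ℝ, ‖Ψ ((y : ℂ) * I)‖ ≤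
        9 / 4 * Real.exp (-(4 * n)) * (4 * Real.pi * M) := by gcongr
      _ = 9 * Real.pi * M * Real.exp (-(4 * n)) := by ring
      _ ≤ 30 * M * Real.exp (-(4 * n)) := by
          have : 9 * Real.pi * M ≤ 30 * M := by nlinarith
          gcongr
  -- the theta function
  have hT1 : 1 ≤ TT A := hPF.one_le
  have htheq : ∀ p ∈ Ioc 0 p2, ∀ y : ℝ, TH a (((p + 3 * e : ℝ) : ℂ) - (y : ℂ) * I) =
      th A (((ρ * (p + 3 * e) : ℝ) : ℂ) - ((ρ * y : ℝ) : ℂ) * I) - 1 := by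
    intro p hp y
    have hp1 : 0 < p := hp.1
    rw [ha, TH_eq A hPF ρ hρ0 _ (by
      have h1 : 0 < p + 3 * e := by positivity
      simpa using h1)]
    congr 2
    push_cast
    ring
  have hτ : ∀ p ∈ Ioc 0 p2, 0 < ρ * (p + 3 * e) ∧ ρ * (p + 3 * e) ≤ 4975 / 10000 := by
    intro p hp
    have h1 := hp.1
    have h2 := hp.2
    refine ⟨by positivity, ?_⟩
    calc ρ * (p + 3 * e) ≤ 1 * (p + 3 * e) := by gcongr
      _ ≤ 4975 / 10000 := by rw [hp2] at h2; linarith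
  have hpow : ∀ p ∈ Ioc 0 p2, ((ρ * (p + 3 * e)) ^ (2 * n))⁻¹ =
      (ρ ^ (2 * n))⁻¹ * ((p + 3 * e) ^ (2 * n))⁻¹ := by
    intro p _
    rw [mul_pow, mul_inv]
  have hB1 : ∀ p ∈ Ioc 0 p2, ∀ y ∈ J, ‖TH a (((p + 3 * e : ℝ) : ℂ) - (y : ℂ) * I)‖ ≤
      (3 / 2 * Real.exp (-(2 * κ * n)) * (ρ ^ (2 * n))⁻¹ * TT A) * ((p + 3 * e) ^ (2 * n))⁻¹ + 1 := by
    intro p hp y hy
    rw [htheq p hp y]
    obtain ⟨t1, t2⟩ := hτ p hp
    have h1 := hinc (ρ * (p + 3 * e)) (ρ * y) t1 t2 (by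
      have := hy.1
      nlinarith) (by
      have h1 := hy.2
      have h2 := hy.1
      nlinarith)
    have h2 : ‖th A (((ρ * (p + 3 * e) : ℝ) : ℂ) + ((ρ * y : ℝ) : ℂ) * I)‖ ≤
        3 / 2 * Real.exp (-(2 * κ * n)) * ((ρ * (p + 3 * e)) ^ (2 * n))⁻¹ * TT A := by
      refine (pow_le_pow_iff_left₀ (norm_nonneg _) (by positivity) two_ne_zero).1 ?_
      refine h1.trans ?_
      have e1 : (3 / 2 * Real.exp (-(2 * κ * n)) * ((ρ * (p + 3 * e)) ^ (2 * n))⁻¹ * TT A) ^ 2 =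
          9 / 4 * Real.exp (-(κ * (4 * n : ℕ))) * ((ρ * (p + 3 * e)) ^ (4 * n))⁻¹ * TT A ^ 2 := by
        have e2 : Real.exp (-(κ * (4 * n : ℕ))) = Real.exp (-(2 * κ * n)) ^ 2 := by
          rw [← Real.exp_nat_mul]
          congr 1
          push_cast
          ring
        have e3 : (ρ * (p + 3 * e)) ^ (4 * n) = ((ρ * (p + 3 * e)) ^ (2 * n)) ^ 2 := by
          rw [← pow_mul]
          congr 1
          ring
        rw [e2, e3]
        generalize (ρ * (p + 3 * e)) ^ (2 * n) = Y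
        rw [← inv_pow]
        ring
      rw [e1]
      gcongr
      norm_num
    refine (norm_sub_le _ _).trans ?_
    rw [th_conj, norm_one]
    rw [hpow p hp] at h2
    linarith
  have hB2 : ∀ p ∈ Ioc 0 p2, ∀ y : ℝ, ‖TH a (((p + 3 * e : ℝ) : ℂ) - (y : ℂ) * I)‖ ≤
      ((ρ ^ (2 * n))⁻¹ * TT A) * ((p + 3 * e) ^ (2 * n))⁻¹ + 1 := by
    intro p hp y
    rw [htheq p hp y]
    obtain ⟨t1, t2⟩ := hτ p hp
    have h1 := hPF.th_le (ρ * (p + 3 * e)) (ρ * y) t1 (by linarith)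
    have e1 : (ρ * (p + 3 * e)) ^ (-(((4 * n : ℕ) : ℝ) / 2)) = ((ρ * (p + 3 * e)) ^ (2 * n))⁻¹ := by
      rw [Real.rpow_neg t1.le, ← Real.rpow_natCast]
      congr 2
      push_cast
      ring
    rw [e1, hpow p hp] at h1
    refine (norm_sub_le _ _).trans ?_
    rw [th_conj, norm_one]
    linarith
  obtain ⟨k1, k2⟩ := sum_bx_le' n hn1 a hapos e p2 he0 hp20 hasum Mf hMi J measurableSet_Icc
    (3 / 2 * Real.exp (-(2 * κ * n)) * (ρ ^ (2 * n))⁻¹ * TT A) ((ρ ^ (2 * n))⁻¹ * TT A)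
    (by positivity) (by positivity) hB1 hB2
  -- comparison of the terms
  have hbx : ∀ w : {w : Fin (4 * n) → ℤ // w ≠ 0}, b w = bx n Mf e p2 (a w) := by
    intro w
    rw [hb w w.2]
    unfold bx
    have e1 : thet n (ρ * Real.pi * qf A w) = theta n p2 (a w) := by
      unfold thet theta
      rw [ha, hp2]
      ring
    have e2 : BLP.SJ (chr n) Ψ (ee n) (ρ * Real.pi * qf A w) = LS.SJ Mf e (a w) := by
      unfold BLP.SJ LS.SJ
      have h1 : Integrable fun y : ℝ => Mf y * cexp (-((((3 * e : ℝ) : ℂ) - (y : ℂ) * I)) * (a w : ℝ)) := by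
        refine hMi.mul_bdd (c := 1) (Continuous.aestronglyMeasurable (by fun_prop)) ?_
        refine Eventually.of_forall fun y => ?_
        rw [Complex.norm_exp, Real.exp_le_one_iff]
        have := hapos w
        simp
        positivity
      have h2 := reCLM.integral_comp_comm h1
      simp only [reCLM_apply] at h2
      rw [← h2, one_div]
      congr 1
      refine integral_congr_ae (Eventually.of_forall fun y => ?_)
      simp only [hMf, ha, he]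
      congr 2
      congr 1
      push_cast
      ring
    rw [e1, e2]
    ring
  have hsupp : Function.support b ⊆ {w : Fin (4 * n) → ℤ | w ≠ 0} := by
    intro w hw h0
    rw [h0] at hw
    exact hw hb0
  have hfun : (fun w : {w : Fin (4 * n) → ℤ // w ≠ 0} => bx n Mf e p2 (a w)) =
      b ∘ ((↑) : ({w : Fin (4 * n) → ℤ | w ≠ 0} : Set _) → (Fin (4 * n) → ℤ)) := by
    funext w
    exact (hbx w).symm
  have hHS := k1.hasSum
  rw [hfun] at hHS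
  have hHS2 := (hasSum_subtype_iff_of_support_subset hsupp).1 hHS
  refine ⟨hHS2.summable, ?_⟩
  rw [hHS2.tsum_eq, ← hfun]
  refine (le_abs_self _).trans (k2.trans ?_)
  -- numbers
  have hX0 : 0 ≤ (ρ ^ (2 * n))⁻¹ := by positivity
  have hE10 := Real.exp_pos (-(2 * κ * n))
  have hE20 := Real.exp_pos (-(4 * (n : ℝ)))
  have hE21 : Real.exp (-(4 * (n : ℝ))) ≤ 1 / 30 := by
    have h1 : Real.exp (-(4 * (n : ℝ))) * Real.exp (4 * (n : ℝ)) = 1 := by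
      rw [← Real.exp_add]
      simp
    have h2 : 30 ≤ Real.exp (4 * (n : ℝ)) := by
      have := Real.add_one_le_exp (4 * (n : ℝ))
      linarith
    rw [le_div_iff₀ (by norm_num)]
    calc Real.exp (-(4 * (n : ℝ))) * 30 ≤ Real.exp (-(4 * (n : ℝ))) * Real.exp (4 * (n : ℝ)) := by
          gcongr
      _ = 1 := h1
  have hsplit : ∫ y, ‖Mf y‖ = (∫ y in J, ‖Mf y‖) + ∫ y in Jᶜ, ‖Mf y‖ :=
    (integral_add_compl measurableSet_Icc hMi.norm).symm
  have hMall : ∫ y, ‖Mf y‖ ≤ 2 * M := by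
    rw [hsplit]
    have : 30 * M * Real.exp (-(4 * n)) ≤ 30 * M * (1 / 30) := by gcongr
    linarith
  have hpi1 : 1 / Real.pi ≤ 1 / 3 := one_div_le_one_div_of_le (by norm_num) Real.pi_gt_three.le
  have hpi0 : 0 ≤ 1 / Real.pi := by positivity
  have h3e : 1 / (3 * e) = √(n : ℝ) / 3 := by
    rw [he, ee]
    field_simp
  have hsn : √(n : ℝ) ≤ n ^ 2 := by
    have h1 : √(n : ℝ) ≤ n := by
      rw [Real.sqrt_le_iff]
      exact ⟨hn0.le, by nlinarith⟩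
    nlinarith
  have p1 : 1 / Real.pi * (1 / (3 * e)) ≤ 1 / 9 * n ^ 2 := by
    rw [h3e]
    calc 1 / Real.pi * (√(n : ℝ) / 3) ≤ 1 / 3 * (n ^ 2 / 3) := by gcongr
      _ = _ := by ring
  have p3 : 3 / 2 * Real.exp (-(2 * κ * n)) * (ρ ^ (2 * n))⁻¹ * TT A * (∫ y in J, ‖Mf y‖) +
      (ρ ^ (2 * n))⁻¹ * TT A * ∫ y in Jᶜ, ‖Mf y‖ ≤
      30 * (M * TT A * (ρ ^ (2 * n))⁻¹ * (Real.exp (-(2 * κ * n)) + Real.exp (-(4 * n)))) := by
    have q1 : 3 / 2 * Real.exp (-(2 * κ * n)) * (ρ ^ (2 * n))⁻¹ * TT A * (∫ y in J, ‖Mf y‖) ≤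
        3 / 2 * Real.exp (-(2 * κ * n)) * (ρ ^ (2 * n))⁻¹ * TT A * M := by gcongr
    have q2 : (ρ ^ (2 * n))⁻¹ * TT A * (∫ y in Jᶜ, ‖Mf y‖) ≤
        (ρ ^ (2 * n))⁻¹ * TT A * (30 * M * Real.exp (-(4 * n))) := by gcongr
    have q3 : 0 ≤ Real.exp (-(2 * κ * n)) * (ρ ^ (2 * n))⁻¹ * TT A * M := by positivity
    calc _ ≤ _ := add_le_add q1 q2
      _ ≤ _ := by
        have e1 : 3 / 2 * Real.exp (-(2 * κ * n)) * (ρ ^ (2 * n))⁻¹ * TT A * M +
          (ρ ^ (2 * n))⁻¹ * TT A * (30 * M * Real.exp (-(4 * n))) +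
          57 / 2 * (Real.exp (-(2 * κ * n)) * (ρ ^ (2 * n))⁻¹ * TT A * M) =
          30 * (M * TT A * (ρ ^ (2 * n))⁻¹ * (Real.exp (-(2 * κ * n)) + Real.exp (-(4 * n)))) := by
            ring
        linarith
  have hJ0 : 0 ≤ ∫ y in J, ‖Mf y‖ := integral_nonneg fun y => norm_nonneg _
  have hJ0' : 0 ≤ ∫ y in Jᶜ, ‖Mf y‖ := integral_nonneg fun y => norm_nonneg _
  have hT0 : 0 ≤ TT A := by linarith
  have p4 : p2 ^ (2 * n - 1) ≤ 2 * (1 / 2) ^ (2 * n) := by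
    have h1 : p2 ^ (2 * n - 1) ≤ (1 / 2) ^ (2 * n - 1) := by
      refine pow_le_pow_left₀ hp20 ?_ _
      rw [hp2]
      norm_num
    have h2 : (1 / 2 : ℝ) ^ (2 * n) = (1 / 2) ^ (2 * n - 1) * (1 / 2) := by
      rw [← pow_succ]
      congr 1
      omega
    rw [h2]
    linarith
  refine add_le_add ?_ ?_
  · calc 1 / Real.pi * (1 / (3 * e)) * (3 / 2 * Real.exp (-(2 * κ * n)) * (ρ ^ (2 * n))⁻¹ * TT A *
          (∫ y in J, ‖Mf y‖) + (ρ ^ (2 * n))⁻¹ * TT A * ∫ y in Jᶜ, ‖Mf y‖) ≤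
        1 / 9 * n ^ 2 * (30 * (M * TT A * (ρ ^ (2 * n))⁻¹ *
          (Real.exp (-(2 * κ * n)) + Real.exp (-(4 * n))))) :=
          mul_le_mul p1 p3 (by positivity) (by positivity)
      _ ≤ 10 * n ^ 2 * M * TT A * (ρ ^ (2 * n))⁻¹ *
          (Real.exp (-(2 * κ * n)) + Real.exp (-(4 * n))) := by
          have e1 : 10 * n ^ 2 * M * TT A * (ρ ^ (2 * n))⁻¹ *
            (Real.exp (-(2 * κ * n)) + Real.exp (-(4 * n))) - 1 / 9 * n ^ 2 * (30 * (M * TT A *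
              (ρ ^ (2 * n))⁻¹ * (Real.exp (-(2 * κ * n)) + Real.exp (-(4 * n))))) =
            20 / 3 * (n ^ 2 * M * TT A * (ρ ^ (2 * n))⁻¹ *
              (Real.exp (-(2 * κ * n)) + Real.exp (-(4 * n)))) := by ring
          have e2 : 0 ≤ 20 / 3 * (n ^ 2 * M * TT A * (ρ ^ (2 * n))⁻¹ *
              (Real.exp (-(2 * κ * n)) + Real.exp (-(4 * n)))) := by positivity
          linarith
  · calc 1 / Real.pi * p2 ^ (2 * n - 1) * ∫ y, ‖Mf y‖ ≤
        1 / 3 * (2 * (1 / 2) ^ (2 * n)) * (2 * M) := by gcongr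
      _ ≤ 8 * M * (1 / 2) ^ (2 * n) := by
          have : 0 ≤ M * (1 / 2) ^ (2 * n) := by positivity
          linarith

end Pool.Agent.BLP
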