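import Pool.Agent.Lib.BLP.Bgrow

/-!
BLP project, (5.4) (helper58): Phragmen-Lindelof for `Psi` in the right half plane against the square
of the Butterworth polynomial.
-/

open Complex Finset Filter Topology Set Bornology
open scoped Real

namespace Pool.Agent.BLP

open KL LPX

namespace PLx

theorem norm_le_one_add {z : ℂ} (hz : 0 ≤ z.re) : ‖z‖ ≤ ‖1 + z‖ := by
  have h := r3_norm_add hz one_pos
  rw [Complex.ofReal_one] at h
  rwa [add_comm]

theorem one_le_norm {z : ℂ} (hz : 0 ≤ z.re) : 1 ≤ ‖1 + z‖ := by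
  refine le_trans ?_ (Complex.re_le_norm _)
  rw [Complex.add_re, Complex.one_re]
  linarith

theorem ne_zero {z : ℂ} (hz : 0 ≤ z.re) : 1 + z ≠ 0 := by
  intro h
  have := one_le_norm hz
  rw [h, norm_zero] at this
  linarith

/-- `|B(iy)|^2 = 1 + y^(2n)`. -/
theorem norm_B_imag {n : ℕ} (hn : 0 < n) (he : Even n) (y : ℝ) :
    ‖∏ j ∈ range n, (1 - zt n j * (y * I))‖ ^ 2 = 1 + y ^ (2 * n) := by
  rw [← r4phi_zero hn he, r4phi_eq]
  simp only [Complex.ofReal_zero, zero_add]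

theorem axis {n : ℕ} (hn : 0 < n) (he : Even n) {Psi : ℂ → ℂ} {M : ℝ}
    (h1 : ∀ s : ℂ, 0 ≤ s.re → ‖Psi s‖ * ‖s‖ ^ (2 * n - 1) ≤ 1)
    (h2 : ∀ y : ℝ, ‖Psi (y * I)‖ ≤ M) (y : ℝ) :
    ‖Psi (y * I)‖ * ‖∏ j ∈ range n, (1 - zt n j * (y * I))‖ ^ 2 ≤
      (M + 1) * ‖1 + (y : ℂ) * I‖ := by
  have hy0 : (0 : ℝ) ≤ ((y : ℂ) * I).re := by simp
  have e0 : 1 ≤ ‖1 + (y : ℂ) * I‖ := one_le_norm hy0
  have e4 : ‖(y : ℂ) * I‖ = |y| := by
    rw [norm_mul, Complex.norm_I, mul_one, Complex.norm_real, Real.norm_eq_abs]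
  have e5 : |y| ≤ ‖1 + (y : ℂ) * I‖ := by
    rw [← e4]
    exact norm_le_one_add hy0
  have hW := h1 _ hy0
  have hM : 0 ≤ M := le_trans (norm_nonneg _) (h2 0)
  rw [norm_B_imag hn he]
  have hev : y ^ (2 * n) = |y| ^ (2 * n) := ((even_two_mul n).pow_abs y).symm
  rw [e4] at hW
  have e7 : |y| ^ (2 * n) = |y| * |y| ^ (2 * n - 1) := by
    rw [← pow_succ']
    congr 1
    omega
  calc ‖Psi (y * I)‖ * (1 + y ^ (2 * n))
      = ‖Psi (y * I)‖ + |y| * (‖Psi (y * I)‖ * |y| ^ (2 * n - 1)) := by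
        rw [hev, e7]
        ring
    _ ≤ M + |y| * 1 := add_le_add (h2 y) (mul_le_mul_of_nonneg_left hW (abs_nonneg y))
    _ ≤ M * ‖1 + (y : ℂ) * I‖ + 1 * ‖1 + (y : ℂ) * I‖ := by
        refine add_le_add ?_ (by linarith)
        calc M = M * 1 := (mul_one _).symm
          _ ≤ _ := mul_le_mul_of_nonneg_left e0 hM
    _ = _ := by ring

theorem bounded {n : ℕ} (hn : 0 < n) {Psi : ℂ → ℂ}
    (hc : ContinuousOn Psi {s : ℂ | 0 ≤ s.re}) {W0 : ℝ}
    (h1 : ∀ s : ℂ, 0 ≤ s.re → ‖Psi s‖ * ‖s‖ ^ (2 * n - 1) ≤ W0) :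
    ∃ C : ℝ, ∀ s : ℂ, 0 ≤ s.re →
      ‖Psi s * (∏ j ∈ range n, (1 - zt n j * s)) ^ 2 / (1 + s)‖ ≤ C := by
  have hK : IsCompact (Metric.closedBall (0 : ℂ) 1 ∩ {s : ℂ | 0 ≤ s.re}) :=
    (isCompact_closedBall _ _).inter_right (isClosed_le continuous_const Complex.continuous_re)
  have hcont : ContinuousOn (fun s : ℂ => Psi s * (∏ j ∈ range n, (1 - zt n j * s)) ^ 2 / (1 + s))
      (Metric.closedBall (0 : ℂ) 1 ∩ {s : ℂ | 0 ≤ s.re}) := by
    refine ContinuousOn.div ((hc.mono inter_subset_right).mul ?_) ?_ fun s hs => ne_zero hs.2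
    · exact Continuous.continuousOn (by fun_prop)
    · exact Continuous.continuousOn (by fun_prop)
  obtain ⟨C1, hC1⟩ := hK.exists_bound_of_continuousOn hcont
  refine ⟨max C1 (W0 * 4 ^ n), fun s hs => ?_⟩
  rcases le_total ‖s‖ 1 with h | h
  · exact le_trans (hC1 s ⟨by simpa [Metric.mem_closedBall] using h, hs⟩) (le_max_left _ _)
  · refine le_trans ?_ (le_max_right _ _)
    have hW := h1 s hs
    have hW0 : 0 ≤ W0 := le_trans (by positivity) hW
    have hs0 : 0 < ‖s‖ := by linarith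
    rw [norm_div, norm_mul, norm_pow]
    rw [div_le_iff₀ (lt_of_lt_of_le one_pos (one_le_norm hs))]
    calc ‖Psi s‖ * ‖∏ j ∈ range n, (1 - zt n j * s)‖ ^ 2
        ≤ ‖Psi s‖ * ((1 + ‖s‖) ^ n) ^ 2 := by
          gcongr
          exact r3_B_le n s
      _ ≤ ‖Psi s‖ * ((2 * ‖s‖) ^ n) ^ 2 := by
          gcongr
          linarith
      _ = 4 ^ n * (‖Psi s‖ * ‖s‖ ^ (2 * n - 1)) * ‖s‖ := by
          have e7 : ‖s‖ ^ (2 * n) = ‖s‖ ^ (2 * n - 1) * ‖s‖ := by
            rw [← pow_succ]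
            congr 1
            omega
          rw [← pow_mul, mul_comm n 2, mul_pow, e7, pow_mul 2 2 n]
          norm_num
          ring
      _ ≤ 4 ^ n * W0 * ‖1 + s‖ :=
          mul_le_mul (mul_le_mul_of_nonneg_left hW (by positivity)) (norm_le_one_add hs) hs0.le
            (by positivity)
      _ = W0 * 4 ^ n * ‖1 + s‖ := by ring

end PLx

open PLx

/-- **(5.4)**, abstract form. -/
theorem psi_pl {n : ℕ} (hn : 0 < n) (he : Even n) {Psi : ℂ → ℂ}
    (hc : ContinuousOn Psi {s : ℂ | 0 ≤ s.re}) (hd : DifferentiableOn ℂ Psi {s : ℂ | 0 < s.re})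
    {M : ℝ} (h1 : ∀ s : ℂ, 0 ≤ s.re → ‖Psi s‖ * ‖s‖ ^ (2 * n - 1) ≤ 1)
    (h2 : ∀ y : ℝ, ‖Psi (y * I)‖ ≤ M) {s : ℂ} (hs : 0 ≤ s.re) :
    ‖Psi s‖ * ‖∏ j ∈ range n, (1 - zt n j * s)‖ ^ 2 ≤ (M + 1) * ‖1 + s‖ := by
  obtain ⟨C, hC⟩ := bounded hn hc h1
  have key : ‖Psi s * (∏ j ∈ range n, (1 - zt n j * s)) ^ 2 / (1 + s)‖ ≤ M + 1 := by
    refine PhragmenLindelof.right_half_plane_of_bounded_on_real
      (f := fun s => Psi s * (∏ j ∈ range n, (1 - zt n j * s)) ^ 2 / (1 + s)) ?_ ?_ ?_ ?_ hs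
    · refine ⟨?_, ?_⟩
      · refine DifferentiableOn.div (hd.mul ?_) ?_ fun z hz => ne_zero (le_of_lt hz)
        · refine Differentiable.differentiableOn fun z => ?_
          refine DifferentiableAt.pow ?_ 2
          refine DifferentiableAt.fun_finsetProd fun j _ => ?_
          exact (differentiableAt_const _).sub ((differentiableAt_const _).mul differentiableAt_id)
        · exact Differentiable.differentiableOn (by fun_prop)
      · rw [Complex.closure_setOfPred_lt_re]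
        refine ContinuousOn.div (hc.mul ?_) ?_ fun z hz => ne_zero hz
        · exact Continuous.continuousOn (by fun_prop)
        · exact Continuous.continuousOn (by fun_prop)
    · refine ⟨1, by norm_num, 0, ?_⟩
      refine Asymptotics.IsBigO.of_bound C ?_
      rw [Filter.eventually_inf_principal]
      refine Filter.Eventually.of_forall fun z hz => ?_
      rw [zero_mul, Real.exp_zero, norm_one, mul_one]
      exact hC z (le_of_lt hz)
    · refine ⟨C, ?_⟩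
      rw [Filter.eventually_map]
      filter_upwards [eventually_ge_atTop (0 : ℝ)] with x hx
      exact hC x (by simpa using hx)
    · intro y
      have hy0 : (0 : ℝ) ≤ ((y : ℂ) * I).re := by simp
      show ‖Psi (y * I) * (∏ j ∈ range n, (1 - zt n j * (y * I))) ^ 2 / (1 + y * I)‖ ≤ _
      rw [norm_div, norm_mul, norm_pow, div_le_iff₀ (lt_of_lt_of_le one_pos (one_le_norm hy0))]
      exact axis hn he h1 h2 y
  rw [norm_div, norm_mul, norm_pow, div_le_iff₀ (lt_of_lt_of_le one_pos (one_le_norm hs))] at key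
  exact key

/-- **R16**. -/
theorem pls : PLS := by
  intro n hn he M C Psi hM hP h2 h1 s hs
  have h1' : ∀ s : ℂ, 0 ≤ s.re → ‖Psi s‖ * ‖s‖ ^ (2 * n - 1) ≤ 1 := by
    intro z hz
    rcases eq_or_ne z 0 with rfl | hz0
    · rw [norm_zero, zero_pow (by omega), mul_zero]
      exact zero_le_one
    · have hp : 0 < ‖z‖ ^ (2 * n - 1) := pow_pos (norm_pos_iff.2 hz0) _
      calc ‖Psi z‖ * ‖z‖ ^ (2 * n - 1) ≤ (‖z‖ ^ (2 * n - 1))⁻¹ * ‖z‖ ^ (2 * n - 1) :=
            mul_le_mul_of_nonneg_right (h1 z hz hz0) hp.le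
        _ = 1 := inv_mul_cancel₀ hp.ne'
  have h3 := psi_pl (by omega) he hP.cont hP.diff h1' h2 hs
  rw [Bf]
  refine h3.trans (mul_le_mul_of_nonneg_right (by linarith) (norm_nonneg _))

end Pool.Agent.BLP
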