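import Mathlib

/-! A Paley - Wiener lemma on the right half plane. -/

open MeasureTheory Complex Set Filter Topology

namespace Pool.BLP

/-- Hypotheses of the Paley - Wiener lemma. -/
structure PWH (Φ : ℂ → ℂ) (C0 : ℝ) : Prop where
  cont : ContinuousOn Φ {s | 0 ≤ s.re}
  anal : DifferentiableOn ℂ Φ {s | 0 < s.re}
  bd : ∀ s : ℂ, 0 ≤ s.re → ‖Φ s‖ ≤ C0 / (1 + ‖s‖ ^ 2)
  real : ∀ s : ℂ, 0 ≤ s.re → Φ ((starRingEnd ℂ) s) = (starRingEnd ℂ) (Φ s)

/-- The complex inverse transform. -/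
noncomputable def pwC (Φ : ℂ → ℂ) (u : ℝ) : ℂ :=
  1 / (2 * Real.pi) * ∫ y : ℝ, Φ (y * I) * Complex.exp (y * u * I)

/-- The real inverse transform. -/
noncomputable def pwF (Φ : ℂ → ℂ) (u : ℝ) : ℝ := (pwC Φ u).re

variable {Φ : ℂ → ℂ} {C0 : ℝ}

lemma PWH.nonneg (h : PWH Φ C0) : 0 ≤ C0 := by
  have := (norm_nonneg _).trans (h.bd 0 (by simp))
  simpa using this

lemma sq_norm_line (σ y : ℝ) : ‖(σ : ℂ) + y * I‖ ^ 2 = σ ^ 2 + y ^ 2 := by
  rw [← Complex.normSq_eq_norm_sq, Complex.normSq_add_mul_I]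

lemma PWH.line_cont (h : PWH Φ C0) {σ : ℝ} (hσ : 0 ≤ σ) :
    Continuous fun y : ℝ => Φ ((σ : ℂ) + y * I) :=
  h.cont.comp_continuous (by fun_prop) (fun y => by simp [hσ])

lemma PWH.line_bd (h : PWH Φ C0) {σ : ℝ} (hσ : 0 ≤ σ) (y : ℝ) :
    ‖Φ ((σ : ℂ) + y * I)‖ ≤ C0 / (1 + (σ ^ 2 + y ^ 2)) := by
  have := h.bd ((σ : ℂ) + y * I) (by simp [hσ])
  rwa [sq_norm_line] at this

lemma PWH.line_bd' (h : PWH Φ C0) {σ : ℝ} (hσ : 0 ≤ σ) (y : ℝ) :
    ‖Φ ((σ : ℂ) + y * I)‖ ≤ C0 * (1 + y ^ 2)⁻¹ := by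
  refine (h.line_bd hσ y).trans ?_
  rw [← div_eq_mul_inv]
  exact div_le_div_of_nonneg_left h.nonneg (by positivity) (by nlinarith [sq_nonneg σ])

lemma norm_exp_line (y u : ℝ) : ‖Complex.exp (y * u * I)‖ = 1 := by
  have := Complex.norm_exp_ofReal_mul_I (y * u)
  simpa using this

lemma PWH.line_int (h : PWH Φ C0) {σ : ℝ} (hσ : 0 ≤ σ) :
    Integrable fun y : ℝ => Φ ((σ : ℂ) + y * I) := by
  refine (integrable_inv_one_add_sq.const_mul C0).mono' (h.line_cont hσ).aestronglyMeasurable ?_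
  exact Eventually.of_forall fun y => h.line_bd' hσ y

lemma PWH.line_int_exp (h : PWH Φ C0) {σ : ℝ} (hσ : 0 ≤ σ) (u : ℝ) :
    Integrable fun y : ℝ => Φ ((σ : ℂ) + y * I) * Complex.exp (y * u * I) := by
  refine (integrable_inv_one_add_sq.const_mul C0).mono'
    ((h.line_cont hσ).mul (by fun_prop)).aestronglyMeasurable ?_
  refine Eventually.of_forall fun y => ?_
  rw [norm_mul, norm_exp_line, mul_one]
  exact h.line_bd' hσ y

/-- Shift of the line of integration. -/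
theorem PWH.shift (h : PWH Φ C0) {σ : ℝ} (hσ : 0 ≤ σ) (u : ℝ) :
    ∫ y : ℝ, Φ (y * I) * Complex.exp (y * u * I) =
      Complex.exp (σ * u) * ∫ y : ℝ, Φ ((σ : ℂ) + y * I) * Complex.exp (y * u * I) := by
  set f : ℂ → ℂ := fun s => Φ s * Complex.exp (u * s) with hf
  have hfc : ContinuousOn f {s | 0 ≤ s.re} := h.cont.mul (by fun_prop)
  have hfd : DifferentiableOn ℂ f {s | 0 < s.re} := h.anal.mul (by fun_prop)
  have hbd : ∀ (x R : ℝ), 0 ≤ x → x ≤ σ →
      ‖f ((x : ℂ) + R * I)‖ ≤ C0 * (1 + R ^ 2)⁻¹ * Real.exp (|u| * σ) := by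
    intro x R hx0 hx1
    simp only [hf, norm_mul]
    have e1 : ‖Complex.exp (u * ((x : ℂ) + R * I))‖ = Real.exp (u * x) := by
      rw [Complex.norm_exp]; simp
    rw [e1]
    refine mul_le_mul (h.line_bd' hx0 R) ?_ (Real.exp_pos _).le
      (mul_nonneg h.nonneg (by positivity))
    refine Real.exp_le_exp.2 ?_
    calc u * x ≤ |u| * x := mul_le_mul_of_nonneg_right (le_abs_self u) hx0
      _ ≤ |u| * σ := mul_le_mul_of_nonneg_left hx1 (abs_nonneg u)
  have hb0 : Tendsto (fun R : ℝ => C0 * (1 + R ^ 2)⁻¹ * Real.exp (|u| * σ) * |σ - 0|)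
      atTop (𝓝 0) := by
    have h1 : Tendsto (fun R : ℝ => (1 + R ^ 2)⁻¹) atTop (𝓝 0) :=
      tendsto_inv_atTop_zero.comp (tendsto_atTop_add_const_left _ _
        (tendsto_pow_atTop (by norm_num)))
    have h2 := (h1.const_mul C0).mul_const (Real.exp (|u| * σ))
    have h3 := h2.mul_const |σ - 0|
    simpa using h3
  have hE1 : Tendsto (fun R : ℝ => ∫ x : ℝ in (0 : ℝ)..σ, f ((x : ℂ) + (R : ℂ) * I))
      atTop (𝓝 0) := by
    refine squeeze_zero_norm (fun R => ?_) hb0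
    refine intervalIntegral.norm_integral_le_of_norm_le_const fun x hx => ?_
    rw [uIoc_of_le hσ] at hx
    exact hbd x R hx.1.le hx.2
  have hE2 : Tendsto (fun R : ℝ => ∫ x : ℝ in (0 : ℝ)..σ, f ((x : ℂ) + (-R : ℂ) * I))
      atTop (𝓝 0) := by
    refine squeeze_zero_norm (fun R => ?_) hb0
    refine intervalIntegral.norm_integral_le_of_norm_le_const fun x hx => ?_
    rw [uIoc_of_le hσ] at hx
    have := hbd x (-R) hx.1.le hx.2
    simpa using this
  have hV : ∀ {τ : ℝ}, 0 ≤ τ → Integrable (fun y : ℝ => f ((τ : ℂ) + y * I)) := by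
    intro τ hτ
    have := (h.line_int_exp hτ u).mul_const (Complex.exp (τ * u))
    refine this.congr (Eventually.of_forall fun y => ?_)
    simp only [hf]
    rw [mul_assoc, ← Complex.exp_add]
    congr 2
    ring
  have hlim : ∀ {τ : ℝ}, 0 ≤ τ → Tendsto (fun R : ℝ => ∫ y : ℝ in (-R)..R, f ((τ : ℂ) + y * I))
      atTop (𝓝 (∫ y : ℝ, f ((τ : ℂ) + y * I))) := fun hτ =>
    intervalIntegral_tendsto_integral (hV hτ) tendsto_neg_atTop_atBot tendsto_id
  have hC : ∀ R : ℝ, 0 ≤ R → (∫ x : ℝ in (0 : ℝ)..σ, f ((x : ℂ) + (-R : ℂ) * I)) -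
      (∫ x : ℝ in (0 : ℝ)..σ, f ((x : ℂ) + (R : ℂ) * I)) +
      I * (∫ y : ℝ in (-R)..R, f ((σ : ℂ) + y * I)) -
      I * (∫ y : ℝ in (-R)..R, f (((0 : ℝ) : ℂ) + y * I)) = 0 := by
    intro R hR
    have key := Complex.integral_boundary_rect_eq_zero_of_continuousOn_of_differentiableOn f
      ((0 : ℝ) + (-R : ℝ) * I) ((σ : ℝ) + (R : ℝ) * I) ?_ ?_
    · simpa using key
    · refine hfc.mono fun s hs => ?_
      rw [mem_reProdIm] at hs
      have := hs.1
      simp only [add_re, ofReal_re, mul_re, I_re, mul_zero, ofReal_im, I_im, mul_one, sub_self,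
        add_zero] at this
      rw [uIcc_of_le hσ] at this
      exact this.1
    · refine hfd.mono fun s hs => ?_
      rw [mem_reProdIm] at hs
      have := hs.1
      simp only [add_re, ofReal_re, mul_re, I_re, mul_zero, ofReal_im, I_im, mul_one, sub_self,
        add_zero] at this
      rw [min_eq_left hσ] at this
      exact this.1
  have hL := ((hE2.sub hE1).add ((hlim hσ).const_mul I)).sub ((hlim le_rfl).const_mul I)
  have hZ : Tendsto (fun R : ℝ => (∫ x : ℝ in (0 : ℝ)..σ, f ((x : ℂ) + (-R : ℂ) * I)) -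
      (∫ x : ℝ in (0 : ℝ)..σ, f ((x : ℂ) + (R : ℂ) * I)) +
      I * (∫ y : ℝ in (-R)..R, f ((σ : ℂ) + y * I)) -
      I * (∫ y : ℝ in (-R)..R, f (((0 : ℝ) : ℂ) + y * I))) atTop (𝓝 0) := by
    refine tendsto_const_nhds.congr' ?_
    filter_upwards [eventually_ge_atTop (0 : ℝ)] with R hR
    exact (hC R hR).symm
  have hfin := tendsto_nhds_unique hL hZ
  have hfin2 : (∫ y : ℝ, f (((0 : ℝ) : ℂ) + y * I)) = ∫ y : ℝ, f ((σ : ℂ) + y * I) := by
    have h1 : I * ((∫ y : ℝ, f ((σ : ℂ) + y * I)) - ∫ y : ℝ, f (((0 : ℝ) : ℂ) + y * I)) = 0 := by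
      linear_combination hfin
    rcases mul_eq_zero.1 h1 with h2 | h2
    · exact absurd h2 I_ne_zero
    · exact (sub_eq_zero.1 h2).symm
  have hl : (∫ y : ℝ, f (((0 : ℝ) : ℂ) + y * I)) =
      ∫ y : ℝ, Φ (y * I) * Complex.exp (y * u * I) := by
    refine integral_congr_ae (Eventually.of_forall fun y => ?_)
    simp only [hf, ofReal_zero, zero_add]
    congr 2
    ring
  rw [← hl, hfin2, ← integral_const_mul]
  refine integral_congr_ae (Eventually.of_forall fun y => ?_)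
  simp only [hf]
  rw [mul_left_comm, ← Complex.exp_add]
  congr 2
  ring

/-- The inverse transform is real. -/
theorem PWH.ofReal (h : PWH Φ C0) (u : ℝ) : ((pwF Φ u : ℝ) : ℂ) = pwC Φ u := by
  have h1 : (starRingEnd ℂ) (∫ y : ℝ, Φ (y * I) * Complex.exp (y * u * I)) =
      ∫ y : ℝ, Φ (y * I) * Complex.exp (y * u * I) := by
    rw [← integral_conj, ← integral_neg_eq_self]
    refine integral_congr_ae (Eventually.of_forall fun y => ?_)
    simp only [map_mul]
    rw [← h.real _ (by simp), ← Complex.exp_conj]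
    simp
  have h2 : (starRingEnd ℂ) (pwC Φ u) = pwC Φ u := by
    unfold pwC
    rw [map_mul, h1]
    congr 1
    have e : (1 / (2 * Real.pi) : ℂ) = ((1 / (2 * Real.pi) : ℝ) : ℂ) := by push_cast; rfl
    rw [e, Complex.conj_ofReal]
  exact Complex.conj_eq_iff_re.1 h2

theorem PWH.shiftF (h : PWH Φ C0) {σ : ℝ} (hσ : 0 ≤ σ) (u : ℝ) :
    ((pwF Φ u : ℝ) : ℂ) = Complex.exp (σ * u) * (1 / (2 * Real.pi) *
      ∫ y : ℝ, Φ ((σ : ℂ) + y * I) * Complex.exp (y * u * I)) := by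
  rw [h.ofReal, pwC, h.shift hσ u]
  ring

lemma norm_c : ‖(1 / (2 * Real.pi) : ℂ)‖ = 1 / (2 * Real.pi) := by
  have : (1 / (2 * Real.pi) : ℂ) = ((1 / (2 * Real.pi) : ℝ) : ℂ) := by push_cast; rfl
  rw [this, Complex.norm_real, Real.norm_of_nonneg (by positivity)]

/-- A bound on every line. -/
theorem PWH.abs_le (h : PWH Φ C0) {σ : ℝ} (hσ : 0 ≤ σ) (u : ℝ) :
    |pwF Φ u| ≤ Real.exp (σ * u) * (1 / (2 * Real.pi) *
      ∫ y : ℝ, C0 / (1 + (σ ^ 2 + y ^ 2))) := by
  have h1 : |pwF Φ u| = ‖((pwF Φ u : ℝ) : ℂ)‖ := by rw [Complex.norm_real, Real.norm_eq_abs]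
  rw [h1, h.shiftF hσ u, norm_mul, norm_mul, norm_c]
  have e1 : ‖Complex.exp ((σ : ℂ) * u)‖ = Real.exp (σ * u) := by
    rw [Complex.norm_exp]; simp
  rw [e1]
  refine mul_le_mul_of_nonneg_left (mul_le_mul_of_nonneg_left ?_ (by positivity))
    (Real.exp_pos _).le
  have hint : Integrable fun y : ℝ => C0 / (1 + (σ ^ 2 + y ^ 2)) := by
    refine (integrable_inv_one_add_sq.const_mul C0).mono' ?_ (Eventually.of_forall fun y => ?_)
    · refine (Continuous.div continuous_const (by fun_prop) fun y => ?_).aestronglyMeasurable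
      have : 0 < 1 + (σ ^ 2 + y ^ 2) := by positivity
      exact this.ne'
    · rw [Real.norm_of_nonneg (div_nonneg h.nonneg (by positivity)), ← div_eq_mul_inv]
      exact div_le_div_of_nonneg_left h.nonneg (by positivity) (by nlinarith [sq_nonneg σ])
  refine norm_integral_le_of_norm_le hint (Eventually.of_forall fun y => ?_)
  rw [norm_mul, norm_exp_line, mul_one]
  exact h.line_bd hσ y

theorem PWH.abs_le_half (h : PWH Φ C0) (u : ℝ) : |pwF Φ u| ≤ C0 / 2 := by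
  refine (h.abs_le le_rfl u).trans ?_
  have : ∀ y : ℝ, C0 / (1 + ((0 : ℝ) ^ 2 + y ^ 2)) = C0 * (1 + y ^ 2)⁻¹ := fun y => by
    rw [div_eq_mul_inv]; congr 2; ring
  simp_rw [this]
  rw [integral_const_mul, integral_univ_inv_one_add_sq, zero_mul, Real.exp_zero, one_mul]
  have := Real.pi_pos
  apply le_of_eq
  field_simp

theorem PWH.zero (h : PWH Φ C0) {u : ℝ} (hu : u ≤ 0) : pwF Φ u = 0 := by
  have hle : ∀ σ : ℝ, 0 ≤ σ → |pwF Φ u| ≤ 1 / (2 * Real.pi) *
      ∫ y : ℝ, C0 / (1 + (σ ^ 2 + y ^ 2)) := by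
    intro σ hσ
    refine (h.abs_le hσ u).trans ?_
    have h0 : 0 ≤ 1 / (2 * Real.pi) * ∫ y : ℝ, C0 / (1 + (σ ^ 2 + y ^ 2)) :=
      mul_nonneg (by positivity) (integral_nonneg fun y => div_nonneg h.nonneg (by positivity))
    have h1 : Real.exp (σ * u) ≤ 1 := Real.exp_le_one_iff.2 (mul_nonpos_of_nonneg_of_nonpos hσ hu)
    nlinarith
  have hlim : Tendsto (fun σ : ℝ => ∫ y : ℝ, C0 / (1 + (σ ^ 2 + y ^ 2))) atTop
      (𝓝 (∫ _ : ℝ, (0 : ℝ))) := by
    refine tendsto_integral_filter_of_dominated_convergence (fun y => C0 * (1 + y ^ 2)⁻¹) ?_ ?_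
      (integrable_inv_one_add_sq.const_mul C0) ?_
    · refine Eventually.of_forall fun σ => ?_
      refine (Continuous.div continuous_const (by fun_prop) fun y => ?_).aestronglyMeasurable
      have : 0 < 1 + (σ ^ 2 + y ^ 2) := by positivity
      exact this.ne'
    · refine Eventually.of_forall fun σ => Eventually.of_forall fun y => ?_
      rw [Real.norm_of_nonneg (div_nonneg h.nonneg (by positivity)), ← div_eq_mul_inv]
      exact div_le_div_of_nonneg_left h.nonneg (by positivity) (by nlinarith [sq_nonneg σ])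
    · refine Eventually.of_forall fun y => ?_
      refine Tendsto.div_atTop tendsto_const_nhds ?_
      refine tendsto_atTop_add_const_left _ _ (tendsto_atTop_add_const_right _ _
        (tendsto_pow_atTop (by norm_num)))
  have hlim2 := (hlim.const_mul (1 / (2 * Real.pi)))
  rw [integral_zero, mul_zero] at hlim2
  have h3 : |pwF Φ u| ≤ 0 := ge_of_tendsto hlim2
    ((eventually_ge_atTop (0 : ℝ)).mono fun σ hσ => hle σ hσ)
  exact abs_nonpos_iff.1 h3

theorem PWH.continuous (h : PWH Φ C0) : Continuous (pwF Φ) := by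
  unfold pwF pwC
  refine Complex.continuous_re.comp (continuous_const.mul ?_)
  have h0 : ∀ y : ℝ, Φ (y * I) = Φ (((0 : ℝ) : ℂ) + y * I) := fun y => by simp
  refine continuous_of_dominated (F := fun (u : ℝ) (y : ℝ) => Φ (y * I) *
    Complex.exp (y * u * I)) (bound := fun y => C0 * (1 + y ^ 2)⁻¹) ?_ ?_
    (integrable_inv_one_add_sq.const_mul C0) ?_
  · intro u
    have := (h.line_int_exp le_rfl u).aestronglyMeasurable
    simpa using this
  · intro u
    refine Eventually.of_forall fun y => ?_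
    rw [norm_mul, norm_exp_line, mul_one, h0]
    exact h.line_bd' le_rfl y
  · refine Eventually.of_forall fun y => ?_
    fun_prop

/-- The damped function. -/
noncomputable def dmp (Φ : ℂ → ℂ) (σ u : ℝ) : ℝ := pwF Φ u * Real.exp (-(σ * u))

lemma PWH.dmp_continuous (h : PWH Φ C0) (σ : ℝ) : Continuous (dmp Φ σ) := by
  have := h.continuous
  unfold dmp
  fun_prop

lemma PWH.dmp_eq (h : PWH Φ C0) {σ : ℝ} (hσ : 0 ≤ σ) (u : ℝ) :
    ((dmp Φ σ u : ℝ) : ℂ) = 1 / (2 * Real.pi) *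
      ∫ y : ℝ, Φ ((σ : ℂ) + y * I) * Complex.exp (y * u * I) := by
  unfold dmp
  rw [Complex.ofReal_mul, h.shiftF hσ u, Complex.ofReal_exp, mul_comm, ← mul_assoc,
    ← Complex.exp_add]
  push_cast
  rw [neg_add_cancel, Complex.exp_zero, one_mul]

lemma PWH.dmp_zero (h : PWH Φ C0) (σ : ℝ) {u : ℝ} (hu : u ≤ 0) : dmp Φ σ u = 0 := by
  unfold dmp
  rw [h.zero hu, zero_mul]

lemma PWH.dmp_integrable (h : PWH Φ C0) {σ : ℝ} (hσ : 0 < σ) : Integrable (dmp Φ σ) := by
  have h1 : IntegrableOn (dmp Φ σ) (Ioi 0) := by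
    have h2 : IntegrableOn (fun u : ℝ => C0 / 2 * Real.exp (-σ * u)) (Ioi 0) :=
      (integrableOn_exp_mul_Ioi (by linarith) 0).const_mul _
    refine Integrable.mono' h2 (h.dmp_continuous σ).aestronglyMeasurable ?_
    refine Eventually.of_forall fun u => ?_
    unfold dmp
    rw [norm_mul, Real.norm_eq_abs, Real.norm_of_nonneg (Real.exp_pos _).le, neg_mul]
    exact mul_le_mul_of_nonneg_right (h.abs_le_half u) (Real.exp_pos _).le
  have h2 : IntegrableOn (dmp Φ σ) (Iic 0) := by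
    refine (integrableOn_zero (μ := volume) (s := Iic (0 : ℝ))).congr_fun ?_ measurableSet_Iic
    intro u hu
    exact (h.dmp_zero σ hu).symm
  have h3 := h2.union h1
  rwa [Iic_union_Ioi, integrableOn_univ] at h3

/-- The Fourier side: the Laplace transform on the line of abscissa σ. -/
theorem PWH.laplace_line (h : PWH Φ C0) {σ : ℝ} (hσ : 0 < σ) (y0 : ℝ) :
    ∫ u : ℝ, ((dmp Φ σ u : ℝ) : ℂ) * Complex.exp (-(y0 * u * I)) = Φ ((σ : ℂ) + y0 * I) := by
  have hpi := Real.pi_pos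
  set f : ℝ → ℂ := fun w => Φ ((σ : ℂ) + ((2 * Real.pi * w : ℝ) : ℂ) * I) with hf
  have hfc : Continuous f := (h.line_cont hσ.le).comp (by fun_prop)
  have hfi : Integrable f := (h.line_int hσ.le).comp_mul_left' (by positivity)
  have hinv : ∀ u : ℝ, FourierTransformInv.fourierInv f u = ((dmp Φ σ u : ℝ) : ℂ) := by
    intro u
    rw [Real.fourierInv_eq', h.dmp_eq hσ.le]
    have e1 : (∫ v : ℝ, Complex.exp (((2 * Real.pi * inner ℝ v u : ℝ) : ℂ) * I) • f v) =
        ∫ v : ℝ, (fun y : ℝ => Φ ((σ : ℂ) + y * I) * Complex.exp (y * u * I))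
          ((2 * Real.pi) * v) := by
      refine integral_congr_ae (Eventually.of_forall fun v => ?_)
      simp only [hf, smul_eq_mul]
      rw [mul_comm]
      congr 2
      simp
      ring
    rw [e1, Measure.integral_comp_mul_left (fun y : ℝ => Φ ((σ : ℂ) + y * I) *
      Complex.exp (y * u * I)) (2 * Real.pi), abs_of_pos (by positivity), Complex.real_smul]
    congr 1
    push_cast
    rw [one_div]
  have hfi2 : Integrable (FourierTransform.fourier f) := by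
    have e2 : (FourierTransform.fourier f) = fun u : ℝ => ((dmp Φ σ (-u) : ℝ) : ℂ) := by
      ext u
      rw [← hinv, Real.fourierInv_eq_fourier_neg, neg_neg]
    rw [e2]
    exact ((h.dmp_integrable hσ).comp_neg).ofReal
  have key := congrFun (hfc.fourier_fourierInv_eq hfi hfi2) (y0 / (2 * Real.pi))
  rw [Real.fourier_real_eq_integral_exp_smul] at key
  have e3 : f (y0 / (2 * Real.pi)) = Φ ((σ : ℂ) + y0 * I) := by
    simp only [hf]
    congr 3
    field_simp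
  rw [← e3, ← key]
  refine integral_congr_ae (Eventually.of_forall fun u => ?_)
  simp only [smul_eq_mul]
  rw [hinv, mul_comm]
  congr 2
  push_cast
  field_simp

lemma PWH.lap_integrable (h : PWH Φ C0) {s : ℂ} (hs : 0 < s.re) :
    Integrable fun u : ℝ => ((pwF Φ u : ℝ) : ℂ) * Complex.exp (-(s * u)) := by
  refine ((h.dmp_integrable hs).norm).mono' ?_ (Eventually.of_forall fun u => ?_)
  · have := h.continuous
    exact (Continuous.mul (by fun_prop) (by fun_prop)).aestronglyMeasurable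
  · rw [norm_mul, Complex.norm_exp, Complex.norm_real]
    unfold dmp
    rw [norm_mul, Real.norm_of_nonneg (Real.exp_pos _).le]
    simp

lemma setIntegral_Ioi_of_zero {E : Type*} [NormedAddCommGroup E] [NormedSpace ℝ E] {f : ℝ → E}
    (hf : ∀ u ≤ 0, f u = 0) : ∫ u in Ioi (0 : ℝ), f u = ∫ u : ℝ, f u :=
  setIntegral_eq_integral_of_forall_compl_eq_zero fun u hu => hf u (not_lt.1 hu)

/-- The Laplace transform of the inverse transform is the function. -/
theorem PWH.laplace (h : PWH Φ C0) {s : ℂ} (hs : 0 < s.re) :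
    ∫ u in Ioi (0 : ℝ), ((pwF Φ u : ℝ) : ℂ) * Complex.exp (-(s * u)) = Φ s := by
  rw [setIntegral_Ioi_of_zero fun u hu => by rw [h.zero hu]; simp]
  have h1 := h.laplace_line hs s.im
  rw [Complex.re_add_im] at h1
  rw [← h1]
  refine integral_congr_ae (Eventually.of_forall fun u => ?_)
  simp only [dmp]
  rw [Complex.ofReal_mul, mul_assoc, Complex.ofReal_exp, ← Complex.exp_add]
  congr 2
  conv_lhs => rw [← Complex.re_add_im s]
  push_cast
  ring

theorem PWH.real_on (h : PWH Φ C0) {s : ℝ} (hs : 0 ≤ s) : (((Φ s).re : ℝ) : ℂ) = Φ s := by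
  have h1 := h.real (s : ℂ) (by simpa using hs)
  rw [Complex.conj_ofReal] at h1
  exact Complex.conj_eq_iff_re.1 h1.symm

theorem PWH.laplace_real (h : PWH Φ C0) {s : ℝ} (hs : 0 < s) :
    ∫ u in Ioi (0 : ℝ), pwF Φ u * Real.exp (-(s * u)) = (Φ s).re := by
  have h1 := h.laplace (s := (s : ℂ)) (by simpa using hs)
  rw [← h1]
  have h2 : (fun u : ℝ => ((pwF Φ u : ℝ) : ℂ) * Complex.exp (-((s : ℂ) * u))) =
      fun u : ℝ => ((pwF Φ u * Real.exp (-(s * u)) : ℝ) : ℂ) := by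
    ext u; push_cast; rfl
  rw [h2, integral_complex_ofReal, Complex.ofReal_re]

theorem PWH.lap_real_integrable (h : PWH Φ C0) {s : ℝ} (hs : 0 < s) :
    Integrable fun u : ℝ => pwF Φ u * Real.exp (-(s * u)) :=
  h.dmp_integrable hs

lemma PWH.dmp_sq_integrable (h : PWH Φ C0) {σ : ℝ} (hσ : 0 < σ) :
    Integrable fun u : ℝ => dmp Φ σ u ^ 2 := by
  have hb : ∀ u, |dmp Φ σ u| ≤ C0 / 2 := by
    intro u
    rcases le_or_gt u 0 with hu | hu
    · rw [h.dmp_zero σ hu, abs_zero]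
      have := h.nonneg
      positivity
    · unfold dmp
      rw [abs_mul, abs_of_pos (Real.exp_pos _)]
      have h1 : Real.exp (-(σ * u)) ≤ 1 := Real.exp_le_one_iff.2 (by nlinarith)
      calc |pwF Φ u| * Real.exp (-(σ * u)) ≤ |pwF Φ u| * 1 :=
            mul_le_mul_of_nonneg_left h1 (abs_nonneg _)
        _ ≤ C0 / 2 := by rw [mul_one]; exact h.abs_le_half u
  refine ((h.dmp_integrable hσ).norm.const_mul (C0 / 2)).mono'
    ((h.dmp_continuous σ).pow 2).aestronglyMeasurable (Eventually.of_forall fun u => ?_)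
  rw [Real.norm_of_nonneg (sq_nonneg _), ← sq_abs, sq, Real.norm_eq_abs]
  exact mul_le_mul_of_nonneg_right (hb u) (abs_nonneg _)

/-- Plancherel on the line of abscissa σ > 0. -/
theorem PWH.planch_pos (h : PWH Φ C0) {σ : ℝ} (hσ : 0 < σ) :
    ∫ u : ℝ, dmp Φ σ u ^ 2 = 1 / (2 * Real.pi) * ∫ y : ℝ, ‖Φ ((σ : ℂ) + y * I)‖ ^ 2 := by
  have hD := h.dmp_integrable hσ
  have hP := h.line_int hσ.le
  set F : ℝ × ℝ → ℂ := fun z => ((dmp Φ σ z.1 : ℝ) : ℂ) *
    (Φ ((σ : ℂ) + z.2 * I) * Complex.exp (z.2 * z.1 * I)) with hF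
  have hFi : Integrable F (volume.prod volume) := by
    have h1 : Integrable (fun z : ℝ × ℝ => ((dmp Φ σ z.1 : ℝ) : ℂ) * Φ ((σ : ℂ) + z.2 * I))
        (volume.prod volume) := hD.ofReal.mul_prod hP
    refine h1.norm.mono' ?_ (Eventually.of_forall fun z => ?_)
    · have c1 : Continuous fun z : ℝ × ℝ => ((dmp Φ σ z.1 : ℝ) : ℂ) :=
        Complex.continuous_ofReal.comp ((h.dmp_continuous σ).comp continuous_fst)
      have c2 : Continuous fun z : ℝ × ℝ => Φ ((σ : ℂ) + z.2 * I) :=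
        (h.line_cont hσ.le).comp continuous_snd
      have c3 : Continuous fun z : ℝ × ℝ => Complex.exp (z.2 * z.1 * I) := by fun_prop
      exact (c1.mul (c2.mul c3)).aestronglyMeasurable
    · simp only [hF, norm_mul]
      rw [norm_exp_line, mul_one]
  have hsw : (∫ u : ℝ, ∫ y : ℝ, F (u, y)) = ∫ y : ℝ, ∫ u : ℝ, F (u, y) :=
    integral_integral_swap (f := fun u y => F (u, y)) hFi
  have hL : (∫ u : ℝ, ∫ y : ℝ, F (u, y)) =
      ((2 * Real.pi : ℝ) : ℂ) * ((∫ u : ℝ, dmp Φ σ u ^ 2 : ℝ) : ℂ) := by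
    rw [← integral_complex_ofReal, ← integral_const_mul]
    refine integral_congr_ae (Eventually.of_forall fun u => ?_)
    simp only [hF]
    rw [integral_const_mul]
    have h2 := h.dmp_eq hσ.le u
    have h3 : (∫ y : ℝ, Φ ((σ : ℂ) + y * I) * Complex.exp (y * u * I)) =
        ((2 * Real.pi : ℝ) : ℂ) * ((dmp Φ σ u : ℝ) : ℂ) := by
      rw [h2, ← mul_assoc]
      have : ((2 * Real.pi : ℝ) : ℂ) * (1 / (2 * Real.pi)) = 1 := by
        have := Real.pi_ne_zero
        push_cast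
        field_simp
      rw [this, one_mul]
    rw [h3]
    push_cast
    ring
  have hR : (∫ y : ℝ, ∫ u : ℝ, F (u, y)) = ((∫ y : ℝ, ‖Φ ((σ : ℂ) + y * I)‖ ^ 2 : ℝ) : ℂ) := by
    rw [← integral_complex_ofReal]
    refine integral_congr_ae (Eventually.of_forall fun y => ?_)
    simp only [hF]
    have h1 : (fun u : ℝ => ((dmp Φ σ u : ℝ) : ℂ) *
        (Φ ((σ : ℂ) + y * I) * Complex.exp (y * u * I))) =
        fun u : ℝ => Φ ((σ : ℂ) + y * I) * (((dmp Φ σ u : ℝ) : ℂ) * Complex.exp (y * u * I)) := by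
      ext u; ring
    rw [h1, integral_const_mul]
    have h2 : (∫ u : ℝ, ((dmp Φ σ u : ℝ) : ℂ) * Complex.exp (y * u * I)) =
        (starRingEnd ℂ) (Φ ((σ : ℂ) + y * I)) := by
      rw [← h.laplace_line hσ y, ← integral_conj]
      refine integral_congr_ae (Eventually.of_forall fun u => ?_)
      simp only [map_mul, Complex.conj_ofReal, ← Complex.exp_conj, map_neg, Complex.conj_I]
      congr 2
      ring
    rw [h2, Complex.mul_conj, Complex.normSq_eq_norm_sq]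
  rw [hL, hR] at hsw
  have h4 : 2 * Real.pi * (∫ u : ℝ, dmp Φ σ u ^ 2) = ∫ y : ℝ, ‖Φ ((σ : ℂ) + y * I)‖ ^ 2 := by
    exact_mod_cast hsw
  rw [← h4]
  have := Real.pi_ne_zero
  field_simp

lemma PWH.sq_bd (h : PWH Φ C0) {σ : ℝ} (hσ : 0 ≤ σ) (y : ℝ) :
    ‖Φ ((σ : ℂ) + y * I)‖ ^ 2 ≤ C0 ^ 2 * (1 + y ^ 2)⁻¹ := by
  have h1 := h.line_bd' hσ y
  have h2 : (1 + y ^ 2)⁻¹ ≤ 1 := inv_le_one_of_one_le₀ (by nlinarith [sq_nonneg y])
  have h3 : 0 ≤ (1 + y ^ 2)⁻¹ := by positivity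
  calc ‖Φ ((σ : ℂ) + y * I)‖ ^ 2 ≤ (C0 * (1 + y ^ 2)⁻¹) ^ 2 :=
        pow_le_pow_left₀ (norm_nonneg _) h1 2
    _ = C0 ^ 2 * ((1 + y ^ 2)⁻¹ * (1 + y ^ 2)⁻¹) := by ring
    _ ≤ C0 ^ 2 * ((1 + y ^ 2)⁻¹ * 1) := by gcongr
    _ = C0 ^ 2 * (1 + y ^ 2)⁻¹ := by ring

/-- The L2 norm is finite. -/
theorem PWH.sq_integrable (h : PWH Φ C0) : Integrable fun u : ℝ => pwF Φ u ^ 2 := by
  set σ : ℕ → ℝ := fun k => 1 / ((k : ℝ) + 1) with hσ
  have hσ0 : ∀ k, 0 < σ k := fun k => by positivity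
  have hσl : Tendsto σ atTop (𝓝 0) := tendsto_one_div_add_atTop_nhds_zero_nat
  refine integrable_of_tendsto (G := fun k u => dmp Φ (σ k) u ^ 2) ?_ ?_ ?_
  · refine Eventually.of_forall fun u => ?_
    have h1 : Tendsto (fun k => Real.exp (-(σ k * u))) atTop (𝓝 (Real.exp (-(0 * u)))) :=
      (Real.continuous_exp.tendsto _).comp ((hσl.mul_const u).neg)
    have h2 := (h1.const_mul (pwF Φ u)).pow 2
    simpa [dmp] using h2
  · exact fun k => ((h.dmp_continuous _).pow 2).aestronglyMeasurable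
  · have hB : ∀ k, ∫⁻ u : ℝ, ‖dmp Φ (σ k) u ^ 2‖ₑ ≤
        ENNReal.ofReal (1 / (2 * Real.pi) * ∫ y : ℝ, C0 ^ 2 * (1 + y ^ 2)⁻¹) := by
      intro k
      have h1 := ofReal_integral_norm_eq_lintegral_enorm (h.dmp_sq_integrable (hσ0 k))
      rw [← h1]
      refine ENNReal.ofReal_le_ofReal ?_
      have h2 : (∫ u : ℝ, ‖dmp Φ (σ k) u ^ 2‖) = ∫ u : ℝ, dmp Φ (σ k) u ^ 2 :=
        integral_congr_ae (Eventually.of_forall fun u => Real.norm_of_nonneg (sq_nonneg _))
      rw [h2, h.planch_pos (hσ0 k)]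
      refine mul_le_mul_of_nonneg_left ?_ (by positivity)
      exact integral_mono_of_nonneg (Eventually.of_forall fun y => by positivity)
        (integrable_inv_one_add_sq.const_mul _)
        (Eventually.of_forall fun y => h.sq_bd (hσ0 k).le y)
    refine ne_top_of_le_ne_top (b := ENNReal.ofReal
      (1 / (2 * Real.pi) * ∫ y : ℝ, C0 ^ 2 * (1 + y ^ 2)⁻¹)) ENNReal.ofReal_ne_top ?_
    exact (Filter.liminf_le_liminf (Eventually.of_forall hB)).trans
      (le_of_eq (Filter.liminf_const _))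

/-- Plancherel on the imaginary axis and to the right of it. -/
theorem PWH.planch (h : PWH Φ C0) {σ : ℝ} (hσ : 0 ≤ σ) :
    Integrable (fun u : ℝ => dmp Φ σ u ^ 2) ∧
    ∫ u : ℝ, dmp Φ σ u ^ 2 = 1 / (2 * Real.pi) * ∫ y : ℝ, ‖Φ ((σ : ℂ) + y * I)‖ ^ 2 := by
  rcases hσ.eq_or_lt with h0 | h0
  swap
  · exact ⟨h.dmp_sq_integrable h0, h.planch_pos h0⟩
  subst h0
  have e0 : (fun u : ℝ => dmp Φ 0 u ^ 2) = fun u : ℝ => pwF Φ u ^ 2 := by
    ext u; simp [dmp]
  have hI := h.sq_integrable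
  refine ⟨by rw [e0]; exact hI, ?_⟩
  set σ : ℕ → ℝ := fun k => 1 / ((k : ℝ) + 1) with hσd
  have hσ0 : ∀ k, 0 < σ k := fun k => by positivity
  have hσl : Tendsto σ atTop (𝓝 0) := tendsto_one_div_add_atTop_nhds_zero_nat
  have hL : Tendsto (fun k => ∫ u : ℝ, dmp Φ (σ k) u ^ 2) atTop (𝓝 (∫ u : ℝ, pwF Φ u ^ 2)) := by
    refine tendsto_integral_of_dominated_convergence (fun u => pwF Φ u ^ 2) ?_ hI ?_ ?_
    · exact fun k => ((h.dmp_continuous _).pow 2).aestronglyMeasurable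
    · intro k
      refine Eventually.of_forall fun u => ?_
      rw [Real.norm_of_nonneg (sq_nonneg _)]
      rcases le_or_gt u 0 with hu | hu
      · rw [h.dmp_zero _ hu, h.zero hu]
      · unfold dmp
        have h1 : Real.exp (-(σ k * u)) ≤ 1 :=
          Real.exp_le_one_iff.2 (by nlinarith [mul_pos (hσ0 k) hu])
        have h2 : Real.exp (-(σ k * u)) ^ 2 ≤ 1 := pow_le_one₀ (Real.exp_pos _).le h1
        rw [mul_pow]
        calc pwF Φ u ^ 2 * Real.exp (-(σ k * u)) ^ 2 ≤ pwF Φ u ^ 2 * 1 :=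
              mul_le_mul_of_nonneg_left h2 (sq_nonneg _)
          _ = pwF Φ u ^ 2 := mul_one _
    · refine Eventually.of_forall fun u => ?_
      have h1 : Tendsto (fun k => Real.exp (-(σ k * u))) atTop (𝓝 (Real.exp (-(0 * u)))) :=
        (Real.continuous_exp.tendsto _).comp ((hσl.mul_const u).neg)
      have h2 := (h1.const_mul (pwF Φ u)).pow 2
      simpa [dmp] using h2
  have hR : Tendsto (fun k => ∫ y : ℝ, ‖Φ ((σ k : ℂ) + y * I)‖ ^ 2) atTop
      (𝓝 (∫ y : ℝ, ‖Φ (((0 : ℝ) : ℂ) + y * I)‖ ^ 2)) := by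
    refine tendsto_integral_of_dominated_convergence (fun y => C0 ^ 2 * (1 + y ^ 2)⁻¹) ?_
      (integrable_inv_one_add_sq.const_mul _) ?_ ?_
    · exact fun k => (((h.line_cont (hσ0 k).le).norm).pow 2).aestronglyMeasurable
    · intro k
      refine Eventually.of_forall fun y => ?_
      rw [Real.norm_of_nonneg (sq_nonneg _)]
      exact h.sq_bd (hσ0 k).le y
    · refine Eventually.of_forall fun y => ?_
      have hc : ContinuousWithinAt Φ {s | 0 ≤ s.re} (((0 : ℝ) : ℂ) + y * I) :=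
        h.cont _ (by simp)
      have ht : Tendsto (fun k => ((σ k : ℝ) : ℂ) + y * I) atTop
          (𝓝[{s | 0 ≤ s.re}] (((0 : ℝ) : ℂ) + y * I)) := by
        refine tendsto_nhdsWithin_iff.2 ⟨?_, Eventually.of_forall fun k => ?_⟩
        · exact ((Complex.continuous_ofReal.tendsto 0).comp hσl).add_const _
        · simp [(hσ0 k).le]
      exact ((hc.tendsto.comp ht).norm).pow 2
  have h1 := hR.const_mul (1 / (2 * Real.pi))
  have h2 : (fun k => ∫ u : ℝ, dmp Φ (σ k) u ^ 2) =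
      fun k => 1 / (2 * Real.pi) * ∫ y : ℝ, ‖Φ ((σ k : ℂ) + y * I)‖ ^ 2 := by
    ext k; exact h.planch_pos (hσ0 k)
  rw [h2] at hL
  rw [e0]
  exact tendsto_nhds_unique hL h1

/-- The form used later: integrals over the positive half line. -/
theorem PWH.planch' (h : PWH Φ C0) {σ : ℝ} (hσ : 0 ≤ σ) :
    IntegrableOn (fun u : ℝ => pwF Φ u ^ 2 * Real.exp (-(2 * σ * u))) (Ioi 0) ∧
    ∫ u in Ioi (0 : ℝ), pwF Φ u ^ 2 * Real.exp (-(2 * σ * u)) =
      1 / (2 * Real.pi) * ∫ y : ℝ, ‖Φ ((σ : ℂ) + y * I)‖ ^ 2 := by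
  have h1 : (fun u : ℝ => pwF Φ u ^ 2 * Real.exp (-(2 * σ * u))) = fun u => dmp Φ σ u ^ 2 := by
    ext u
    unfold dmp
    rw [mul_pow, ← Real.exp_nat_mul]
    congr 2
    push_cast
    ring
  rw [h1]
  refine ⟨(h.planch hσ).1.integrableOn, ?_⟩
  rw [setIntegral_Ioi_of_zero fun u hu => by rw [h.dmp_zero σ hu]; simp]
  exact (h.planch hσ).2

end Pool.BLP
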