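import Pool.Agent.Lib.BLP.Props
import Pool.Agent.Lib.BLP.PW

/-! Row R05: the Paley - Wiener lemma in the language of `Defs`. -/

open MeasureTheory Complex Set Filter Topology

namespace Pool.Agent.BLP

lemma PWH.toP {Φ : ℂ → ℂ} {C : ℝ} (h : PWH Φ C) : Pool.BLP.PWH Φ C :=
  ⟨h.cont, h.diff, h.bd, h.conj⟩

lemma exp_comm_line (y u : ℝ) :
    Complex.exp ((u : ℂ) * ((y : ℂ) * I)) = Complex.exp ((y : ℂ) * u * I) := by
  congr 1; ring

lemma gPW_eq {Φ : ℂ → ℂ} {C : ℝ} (h : PWH Φ C) : gPW Φ = Pool.BLP.pwF Φ := by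
  have h' := h.toP
  ext u
  have hi : Integrable fun y : ℝ => Φ ((y : ℂ) * I) * Complex.exp ((y : ℂ) * u * I) := by
    have := h'.line_int_exp le_rfl u
    simpa using this
  unfold gPW Pool.BLP.pwF Pool.BLP.pwC
  have e1 : (fun y : ℝ => (Φ ((y : ℂ) * I) * Complex.exp ((u : ℂ) * ((y : ℂ) * I))).re) =
      fun y : ℝ => (Φ ((y : ℂ) * I) * Complex.exp ((y : ℂ) * u * I)).re := by
    ext y; rw [exp_comm_line]
  rw [e1]
  have e2 : (∫ y : ℝ, (Φ ((y : ℂ) * I) * Complex.exp ((y : ℂ) * u * I)).re) =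
      (∫ y : ℝ, Φ ((y : ℂ) * I) * Complex.exp ((y : ℂ) * u * I)).re := by
    have := integral_re (𝕜 := ℂ) hi
    simpa using this
  rw [e2]
  have e3 : (1 / (2 * Real.pi) : ℂ) = (((2 * Real.pi)⁻¹ : ℝ) : ℂ) := by
    push_cast; rw [one_div]
  rw [e3, Complex.re_ofReal_mul]

theorem pw1 : PW1 := by
  intro Φ C h
  have h' := h.toP
  have hs : ∀ σ : ℝ, 0 ≤ σ → ∀ u : ℝ, ∫ y : ℝ, Φ ((σ : ℂ) + (y : ℂ) * I) *
      Complex.exp ((u : ℂ) * ((σ : ℂ) + (y : ℂ) * I)) =
    ∫ y : ℝ, Φ ((y : ℂ) * I) * Complex.exp ((u : ℂ) * ((y : ℂ) * I)) := by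
    intro σ hσ u
    have e1 : (∫ y : ℝ, Φ ((y : ℂ) * I) * Complex.exp ((u : ℂ) * ((y : ℂ) * I))) =
        ∫ y : ℝ, Φ ((y : ℂ) * I) * Complex.exp ((y : ℂ) * u * I) := by
      refine integral_congr_ae (Eventually.of_forall fun y => ?_)
      simp only
      rw [exp_comm_line]
    rw [e1, h'.shift hσ u, ← integral_const_mul]
    refine integral_congr_ae (Eventually.of_forall fun y => ?_)
    simp only
    rw [mul_left_comm, ← Complex.exp_add]
    congr 2
    ring
  refine ⟨hs, fun u hu => ?_⟩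
  have h1 := h'.ofReal u
  rw [h'.zero hu] at h1
  unfold Pool.BLP.pwC at h1
  have h2 : (1 / (2 * Real.pi) : ℂ) ≠ 0 := by
    have := Real.pi_ne_zero
    simp [this]
  have h3 : (∫ y : ℝ, Φ ((y : ℂ) * I) * Complex.exp ((y : ℂ) * u * I)) = 0 := by
    rcases mul_eq_zero.1 h1.symm with h | h
    · exact absurd h h2
    · exact h
  rw [← h3]
  refine integral_congr_ae (Eventually.of_forall fun y => ?_)
  simp only
  rw [exp_comm_line]

theorem pw2 : PW2 := by
  intro Φ C h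
  have h' := h.toP
  have e := gPW_eq h
  have e3 : (1 / (2 * Real.pi) : ℂ) = (2 * (Real.pi : ℂ))⁻¹ := by rw [one_div]
  constructor
  · rw [e]; exact h'.continuous
  · intro u hu; rw [e]; exact h'.zero hu
  · intro u
    rw [e, h'.ofReal, Pool.BLP.pwC, e3]
    congr 1
    refine integral_congr_ae (Eventually.of_forall fun y => ?_)
    simp only
    rw [exp_comm_line]
  · intro u
    have h1 : |gPW Φ u| = ‖((gPW Φ u : ℝ) : ℂ)‖ := by rw [Complex.norm_real, Real.norm_eq_abs]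
    rw [h1, e, h'.ofReal, Pool.BLP.pwC, norm_mul, Pool.BLP.norm_c, one_div]
    refine mul_le_mul_of_nonneg_left ?_ (by positivity)
    refine (norm_integral_le_integral_norm _).trans (le_of_eq ?_)
    refine integral_congr_ae (Eventually.of_forall fun y => ?_)
    simp only
    rw [norm_mul, Pool.BLP.norm_exp_line, mul_one]
  · intro s hs
    rw [e]
    exact h'.laplace hs
  · rw [e]; exact h'.sq_integrable.integrableOn
  · intro σ hσ
    rw [e, (h'.planch' hσ).2, one_div]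

end Pool.Agent.BLP
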