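import Pool.Agent.Lib.BLP.Props

/-!
Project BLP (MP_ef2672), row R19 (helper82): the decomposition of `S`.
-/

open Complex MeasureTheory Finset Set

namespace Pool.Agent.BLP

open Pool.Agent.KL Pool.Agent.Lib.MP_ef2672_gt_Tauber

noncomputable section

namespace QDaux

lemma line_cont {Φ : ℂ → ℂ} {C : ℝ} (h : PWH Φ C) : Continuous fun y : ℝ => Φ ((y : ℂ) * I) := by
  rw [← continuousOn_univ]
  refine h.cont.comp (by fun_prop) fun y _ => ?_
  simp

lemma line_int {Φ : ℂ → ℂ} {C : ℝ} (h : PWH Φ C) : Integrable fun y : ℝ => Φ ((y : ℂ) * I) := by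
  refine Integrable.mono' (integrable_inv_one_add_sq.const_mul C) (line_cont h).aestronglyMeasurable ?_
  refine ae_of_all _ fun y => ?_
  have h1 := h.bd ((y : ℂ) * I) (by simp)
  have h2 : ‖(y : ℂ) * I‖ ^ 2 = y ^ 2 := by
    rw [norm_mul, norm_I, mul_one, Complex.norm_real, Real.norm_eq_abs, sq_abs]
  rw [h2] at h1
  rw [← div_eq_mul_inv]
  exact h1

lemma b_ne {b : ℝ} (hb : 0 < b) (y : ℝ) : (b : ℂ) - y * I ≠ 0 := by
  intro h
  have := congrArg Complex.re h
  simp at this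
  linarith

lemma b_norm {b : ℝ} (_hb : 0 < b) (y : ℝ) : b ≤ ‖(b : ℂ) - y * I‖ := by
  have := Complex.abs_re_le_norm ((b : ℂ) - y * I)
  simp only [sub_re, ofReal_re, mul_re, I_re, mul_zero, ofReal_im, I_im, mul_one, sub_self,
    sub_zero] at this
  exact (le_abs_self b).trans this

/-- the inner integral -/
lemma inner {b : ℝ} (hb : 0 < b) (z : ℂ) (y u : ℝ) :
    ∫ v in Ioi u, (z * cexp ((v : ℂ) * ((y : ℂ) * I))).re * Real.exp (-(b * v)) =
      (z * (cexp (-(((b : ℂ) - y * I) * u)) / ((b : ℂ) - y * I))).re := by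
  have ha : (-((b : ℂ) - y * I)).re < 0 := by simpa using hb
  have h1 := integral_exp_mul_complex_Ioi ha u
  have hi : IntegrableOn (fun v : ℝ => cexp (-((b : ℂ) - y * I) * v)) (Ioi u) :=
    integrableOn_exp_mul_complex_Ioi ha u
  have h2 : ∀ v : ℝ, (z * cexp ((v : ℂ) * ((y : ℂ) * I))).re * Real.exp (-(b * v)) =
      (z * cexp (-((b : ℂ) - y * I) * v)).re := by
    intro v
    have h3 : cexp (-((b : ℂ) - y * I) * v) =
        cexp ((v : ℂ) * ((y : ℂ) * I)) * ((Real.exp (-(b * v)) : ℝ) : ℂ) := by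
      rw [Complex.ofReal_exp, ← Complex.exp_add]
      congr 1
      push_cast
      ring
    rw [h3, show z * (cexp ((v : ℂ) * ((y : ℂ) * I)) * ((Real.exp (-(b * v)) : ℝ) : ℂ)) =
      z * cexp ((v : ℂ) * ((y : ℂ) * I)) * ((Real.exp (-(b * v)) : ℝ) : ℂ) by ring,
      Complex.re_mul_ofReal]
  simp_rw [h2]
  have h4 : ∫ v in Ioi u, (z * cexp (-((b : ℂ) - y * I) * v)).re =
      (∫ v in Ioi u, z * cexp (-((b : ℂ) - y * I) * v)).re := by
    have := integral_re (hi.const_mul z)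
    simpa using this
  rw [h4, integral_const_mul, h1]
  congr 2
  rw [neg_mul]
  field_simp

/-- the tail integral in frequency space -/
lemma tail {Φ : ℂ → ℂ} {C : ℝ} (h : PWH Φ C) {b : ℝ} (hb : 0 < b) (u : ℝ) :
    ∫ v in Ioi u, gPW Φ v * Real.exp (-(b * v)) = (2 * Real.pi)⁻¹ *
      ∫ y : ℝ, (Φ ((y : ℂ) * I) * (cexp (-(((b : ℂ) - y * I) * u)) / ((b : ℂ) - y * I))).re := by
  have hexp : IntegrableOn (fun v : ℝ => Real.exp (-(b * v))) (Ioi u) := Sn.intOn_exp hb u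
  set F : ℝ → ℝ → ℝ := fun v y =>
    (Φ ((y : ℂ) * I) * cexp ((v : ℂ) * ((y : ℂ) * I))).re * Real.exp (-(b * v)) with hF
  have hcont : Continuous (Function.uncurry F) := by
    have h1 := line_cont h
    have h2 : Continuous fun z : ℝ × ℝ => Φ ((z.2 : ℂ) * I) := h1.comp continuous_snd
    have h3 : Continuous fun z : ℝ × ℝ => cexp ((z.1 : ℂ) * ((z.2 : ℂ) * I)) := by fun_prop
    have h4 : Continuous fun z : ℝ × ℝ => Real.exp (-(b * z.1)) := by fun_prop
    exact (Complex.continuous_re.comp (h2.mul h3)).mul h4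
  have hint : Integrable (Function.uncurry F) ((volume.restrict (Ioi u)).prod volume) := by
    have h1 : Integrable (fun z : ℝ × ℝ => Real.exp (-(b * z.1)) * ‖Φ ((z.2 : ℂ) * I)‖)
        ((volume.restrict (Ioi u)).prod volume) := Integrable.mul_prod hexp (line_int h).norm
    refine Integrable.mono' h1 hcont.aestronglyMeasurable (ae_of_all _ fun z => ?_)
    rw [Function.uncurry, hF]
    simp only
    rw [norm_mul, Real.norm_eq_abs, Real.norm_eq_abs, Real.abs_exp, mul_comm]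
    refine mul_le_mul_of_nonneg_left ?_ (Real.exp_pos _).le
    refine (Complex.abs_re_le_norm _).trans (le_of_eq ?_)
    rw [norm_mul, Complex.norm_exp]
    simp
  have hsw := integral_integral_swap hint
  have hl : ∫ v in Ioi u, gPW Φ v * Real.exp (-(b * v)) =
      (2 * Real.pi)⁻¹ * ∫ v in Ioi u, ∫ y : ℝ, F v y := by
    rw [← integral_const_mul]
    refine integral_congr_ae (ae_of_all _ fun v => ?_)
    simp only [gPW, hF]
    rw [integral_mul_const, mul_assoc]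
  rw [hl, hsw]
  congr 1
  refine integral_congr_ae (ae_of_all _ fun y => ?_)
  exact inner hb _ y u

lemma lapl {Φ : ℂ → ℂ} {C : ℝ} (h : PWH Φ C) (hc : PWC Φ) {b : ℝ} (hb : 0 < b) {u : ℝ} (hu : 0 ≤ u) :
    Sn.AA (gPW Φ) b u = (Φ (b : ℂ)).re - (2 * Real.pi)⁻¹ *
      ∫ y : ℝ, (Φ ((y : ℂ) * I) * (cexp (-(((b : ℂ) - y * I) * u)) / ((b : ℂ) - y * I))).re := by
  have hexp : IntegrableOn (fun v : ℝ => Real.exp (-(b * v))) (Ioi 0) := Sn.intOn_exp hb 0
  have hq : Continuous fun v : ℝ => gPW Φ v * Real.exp (-(b * v)) := Sn.cont_integrand hc.cont b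
  have hi : IntegrableOn (fun v : ℝ => gPW Φ v * Real.exp (-(b * v))) (Ioi 0) := by
    refine Integrable.mono' (hexp.const_mul ((2 * Real.pi)⁻¹ * ∫ y : ℝ, ‖Φ ((y : ℂ) * I)‖))
      hq.aestronglyMeasurable (ae_of_all _ fun v => ?_)
    rw [norm_mul, Real.norm_eq_abs, Real.norm_eq_abs, Real.abs_exp]
    exact mul_le_mul_of_nonneg_right (hc.bd v) (Real.exp_pos _).le
  have h1 := hc.lap (b : ℂ) (by simpa using hb)
  have h2 : ∫ v in Ioi (0 : ℝ), ((gPW Φ v : ℝ) : ℂ) * cexp (-((b : ℂ) * (v : ℂ))) =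
      ((∫ v in Ioi (0 : ℝ), gPW Φ v * Real.exp (-(b * v)) : ℝ) : ℂ) := by
    rw [← integral_complex_ofReal]
    refine integral_congr_ae (ae_of_all _ fun v => ?_)
    push_cast
    rfl
  rw [h2] at h1
  have h3 : ∫ v in Ioi (0 : ℝ), gPW Φ v * Real.exp (-(b * v)) = (Φ (b : ℂ)).re := by
    rw [← h1, ofReal_re]
  have h4 : ∫ v in Ioi (0 : ℝ), gPW Φ v * Real.exp (-(b * v)) =
      Sn.AA (gPW Φ) b u + ∫ v in Ioi u, gPW Φ v * Real.exp (-(b * v)) := by
    have h2 := intervalIntegral.integral_Ioi_sub_Ioi hi hu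
    unfold Sn.AA
    linarith
  rw [← tail h hb u, ← h3, h4]
  ring

/-- the integrand -/
def g (Φ : ℂ → ℂ) (e u y : ℝ) : ℝ :=
  (Φ ((y : ℂ) * I) * kf e ((y : ℂ) * I) * cexp (-((3 * (e : ℂ) - (y : ℂ) * I) * (u : ℂ)))).re

lemma kf_axis {e : ℝ} (he : 0 < e) (y : ℝ) : ‖kf e ((y : ℂ) * I)‖ ≤ 9 / 4 := by
  have h2 := b_norm he y
  have h3 := b_norm (b := 2 * e) (by linarith) y
  push_cast at h3
  have n1 : 0 < ‖(e : ℂ) - y * I‖ := lt_of_lt_of_le he h2
  have n2 : 0 < ‖(2 * e : ℂ) - y * I‖ := lt_of_lt_of_le (by linarith) h3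
  refine (norm_add_le _ _).trans ?_
  rw [norm_div, norm_div]
  have e1 : ‖-(2 * (e : ℂ))‖ = 2 * e := by
    rw [norm_neg, norm_mul, Complex.norm_real, Real.norm_of_nonneg he.le]
    simp
  have e2 : ‖(e : ℂ) / 2‖ = e / 2 := by
    rw [norm_div, Complex.norm_real, Real.norm_of_nonneg he.le]
    simp
  rw [e1, e2]
  have h4 : 2 * e / ‖(e : ℂ) - y * I‖ ≤ 2 := by
    rw [div_le_iff₀ n1]
    linarith
  have h5 : e / 2 / ‖(2 * e : ℂ) - y * I‖ ≤ 1 / 4 := by
    rw [div_le_iff₀ n2]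
    linarith
  linarith

lemma kf_cont {e : ℝ} (he : 0 < e) : Continuous fun y : ℝ => kf e ((y : ℂ) * I) := by
  unfold kf
  have h4 := b_ne he
  have h5 := b_ne (b := 2 * e) (by linarith)
  push_cast at h5
  exact (continuous_const.div (by fun_prop) h4).add (continuous_const.div (by fun_prop) h5)

lemma g_cont {Φ : ℂ → ℂ} {C : ℝ} (h : PWH Φ C) {e : ℝ} (he : 0 < e) (u : ℝ) : Continuous (g Φ e u) := by
  have h1 := line_cont h
  have h2 := kf_cont he
  have h3 : Continuous fun y : ℝ => cexp (-((3 * (e : ℂ) - (y : ℂ) * I) * (u : ℂ))) := by fun_prop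
  exact Complex.continuous_re.comp ((h1.mul h2).mul h3)

lemma g_bound {Φ : ℂ → ℂ} {e : ℝ} (he : 0 < e) (u y : ℝ) :
    |g Φ e u y| ≤ 9 / 4 * Real.exp (-(3 * e * u)) * ‖Φ ((y : ℂ) * I)‖ := by
  refine (Complex.abs_re_le_norm _).trans ?_
  rw [norm_mul, norm_mul, Complex.norm_exp]
  have h1 : (-((3 * (e : ℂ) - (y : ℂ) * I) * (u : ℂ))).re = -(3 * e * u) := by simp
  rw [h1]
  have h2 := kf_axis he y
  calc ‖Φ ((y : ℂ) * I)‖ * ‖kf e ((y : ℂ) * I)‖ * Real.exp (-(3 * e * u)) ≤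
      ‖Φ ((y : ℂ) * I)‖ * (9 / 4) * Real.exp (-(3 * e * u)) := by gcongr
    _ = _ := by ring

lemma g_even {Φ : ℂ → ℂ} {C : ℝ} (h : PWH Φ C) (e u y : ℝ) : g Φ e u (-y) = g Φ e u y := by
  have e1 : ((-y : ℝ) : ℂ) * I = (starRingEnd ℂ) ((y : ℂ) * I) := by
    rw [map_mul, conj_ofReal, conj_I]
    push_cast
    ring
  have h1 : Φ (((-y : ℝ) : ℂ) * I) = (starRingEnd ℂ) (Φ ((y : ℂ) * I)) := by
    rw [e1]
    exact h.conj _ (by simp)
  have h2 : kf e (((-y : ℝ) : ℂ) * I) = (starRingEnd ℂ) (kf e ((y : ℂ) * I)) := by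
    have t2 : (starRingEnd ℂ) (2 : ℂ) = 2 := Complex.conj_ofNat 2
    rw [e1, kf, kf]
    simp only [map_add, map_div₀, map_neg, map_mul, map_sub, conj_ofReal, t2]
  have h3 : cexp (-((3 * (e : ℂ) - ((-y : ℝ) : ℂ) * I) * (u : ℂ))) =
      (starRingEnd ℂ) (cexp (-((3 * (e : ℂ) - (y : ℂ) * I) * (u : ℂ)))) := by
    have t3 : (starRingEnd ℂ) (3 : ℂ) = 3 := Complex.conj_ofNat 3
    rw [← Complex.exp_conj]
    congr 1
    rw [e1]
    simp only [map_neg, map_mul, map_sub, conj_ofReal, t3]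
  rw [g, g, h1, h2, h3, ← map_mul, ← map_mul, conj_re]

lemma g_int {Φ : ℂ → ℂ} {C : ℝ} (h : PWH Φ C) {e : ℝ} (he : 0 < e) (u : ℝ) {m : ℝ → ℝ}
    (hm : Continuous m) (hm1 : ∀ y, |m y| ≤ 1) : Integrable fun y => m y * g Φ e u y := by
  refine Integrable.mono' ((line_int h).norm.const_mul (9 / 4 * Real.exp (-(3 * e * u))))
    (hm.mul (g_cont h he u)).aestronglyMeasurable (ae_of_all _ fun y => ?_)
  rw [norm_mul, Real.norm_eq_abs, Real.norm_eq_abs]
  calc |m y| * |g Φ e u y| ≤ 1 * |g Φ e u y| := mul_le_mul_of_nonneg_right (hm1 y) (abs_nonneg _)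
    _ = |g Φ e u y| := one_mul _
    _ ≤ _ := g_bound he u y

end QDaux

open QDaux

/-- R19. -/
theorem qd (hPW : PW2) : QD := by
  intro Φ C h w hw hw0 hw1 e G he hG u hu
  have hc := hPW Φ C h
  have he2 : 0 < 2 * e := by linarith
  -- integrability
  have hi : ∀ b : ℝ, 0 < b → Integrable fun y : ℝ =>
      (Φ ((y : ℂ) * I) * (cexp (-(((b : ℂ) - y * I) * u)) / ((b : ℂ) - y * I))).re := by
    intro b hb
    have h1 : Integrable fun y : ℝ =>
        Φ ((y : ℂ) * I) * (cexp (-(((b : ℂ) - y * I) * u)) / ((b : ℂ) - y * I)) := by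
      refine Integrable.mono' ((line_int h).norm.mul_const (Real.exp (-(b * u)) / b)) ?_
        (ae_of_all _ fun y => ?_)
      · have h2 : Continuous fun y : ℝ => cexp (-(((b : ℂ) - y * I) * u)) / ((b : ℂ) - y * I) :=
          (by fun_prop : Continuous fun y : ℝ => cexp (-(((b : ℂ) - y * I) * u))).div (by fun_prop)
            (b_ne hb)
        exact ((line_cont h).mul h2).aestronglyMeasurable
      · rw [norm_mul, norm_div, Complex.norm_exp]
        have h3 : (-(((b : ℂ) - y * I) * u)).re = -(b * u) := by simp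
        rw [h3]
        have h4 := b_norm hb y
        gcongr
    exact h1.re
  -- S in frequency space
  have hS : SnF (gPW Φ) e u = 2 * e * Real.exp (-(2 * e * u)) * (Φ (e : ℂ)).re -
      e / 2 * Real.exp (-(e * u)) * (Φ ((2 * e : ℝ) : ℂ)).re + (2 * Real.pi)⁻¹ * ∫ y : ℝ, g Φ e u y := by
    rw [SnF_eq hc.cont]
    rw [lapl h hc he hu, lapl h hc he2 hu]
    have hg : ∀ y : ℝ, g Φ e u y = -(2 * e * Real.exp (-(2 * e * u))) *
        (Φ ((y : ℂ) * I) * (cexp (-(((e : ℂ) - y * I) * u)) / ((e : ℂ) - y * I))).re +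
        (e / 2 * Real.exp (-(e * u))) *
        (Φ ((y : ℂ) * I) * (cexp (-((((2 * e : ℝ) : ℂ) - y * I) * u)) /
          (((2 * e : ℝ) : ℂ) - y * I))).re := by
      intro y
      rw [g, ← Complex.re_ofReal_mul, ← Complex.re_ofReal_mul, ← Complex.add_re]
      congr 1
      have e1 : cexp (-((3 * (e : ℂ) - (y : ℂ) * I) * (u : ℂ))) =
          cexp (-(2 * (e : ℂ) * u)) * cexp (-(((e : ℂ) - y * I) * u)) := by
        rw [← Complex.exp_add]
        congr 1
        ring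
      have e2 : cexp (-((3 * (e : ℂ) - (y : ℂ) * I) * (u : ℂ))) =
          cexp (-((e : ℂ) * u)) * cexp (-((2 * (e : ℂ) - y * I) * u)) := by
        rw [← Complex.exp_add]
        congr 1
        ring
      have n1 := b_ne he y
      have n2 := b_ne he2 y
      push_cast at n2 ⊢
      rw [kf, mul_add, add_mul]
      congr 1
      · rw [e1]
        field_simp
      · rw [e2]
        field_simp
    rw [integral_congr_ae (ae_of_all _ hg), integral_add ((hi e he).const_mul _) ((hi _ he2).const_mul _),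
      integral_const_mul, integral_const_mul]
    ring
  -- the split
  have hwm : ∀ y, |w y| ≤ 1 := fun y => by
    rw [abs_of_nonneg (hw0 y)]
    linarith [hw1 y, hw0 (-y)]
  have hwn : Continuous fun y : ℝ => w (-y) := hw.comp continuous_neg
  have i1 : Integrable fun y => w y * g Φ e u y := g_int h he u hw hwm
  have i2 : Integrable fun y => w (-y) * g Φ e u y := g_int h he u hwn fun y => hwm (-y)
  have i3 : Integrable fun y => (1 - w y - w (-y)) * g Φ e u y := by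
    refine g_int h he u ((continuous_const.sub hw).sub hwn) fun y => ?_
    rw [abs_le]
    constructor <;> linarith [hw1 y, hw0 (-y), hw0 y]
  have hsplit : ∫ y : ℝ, g Φ e u y = (∫ y : ℝ, (1 - w y - w (-y)) * g Φ e u y) +
      2 * ∫ y : ℝ, w y * g Φ e u y := by
    have e1 : ∫ y : ℝ, w (-y) * g Φ e u y = ∫ y : ℝ, w y * g Φ e u y := by
      have := integral_neg_eq_self (fun y : ℝ => w y * g Φ e u y) volume
      rw [← this]
      refine integral_congr_ae (ae_of_all _ fun y => ?_)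
      simp only
      rw [g_even h]
    have e2 : ∫ y : ℝ, g Φ e u y = ∫ y : ℝ, ((1 - w y - w (-y)) * g Φ e u y + w y * g Φ e u y +
        w (-y) * g Φ e u y) := integral_congr_ae (ae_of_all _ fun y => by ring)
    have i31 : Integrable fun y => (1 - w y - w (-y)) * g Φ e u y + w y * g Φ e u y := i3.add i1
    have e4 := integral_add i31 i2
    have e5 := integral_add i3 i1
    rw [e2, e4, e5, e1]
    ring
  have hSJ : SJ w Φ e u = Real.pi⁻¹ * ∫ y : ℝ, w y * g Φ e u y := by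
    rw [SJ]
    congr 1
    refine integral_congr_ae (ae_of_all _ fun y => ?_)
    simp only [g]
    rw [← Complex.re_ofReal_mul]
    congr 1
    ring
  have hR : (2 * Real.pi)⁻¹ * ∫ y : ℝ, (1 - w y - w (-y)) * g Φ e u y ≤
      9 / 4 * G * Real.exp (-(3 * e * u)) := by
    have hpi := Real.pi_pos
    have j1 : Integrable fun y : ℝ => (1 - w y - w (-y)) * ‖Φ ((y : ℂ) * I)‖ := by
      refine Integrable.mono' ((line_int h).norm) ?_ (ae_of_all _ fun y => ?_)
      · exact (((continuous_const.sub hw).sub hwn).mul (line_cont h).norm).aestronglyMeasurable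
      · rw [norm_mul, norm_norm, Real.norm_eq_abs, abs_of_nonneg (by linarith [hw1 y])]
        refine mul_le_of_le_one_left (norm_nonneg _) ?_
        linarith [hw0 y, hw0 (-y)]
    have j2 : ∫ y : ℝ, (1 - w y - w (-y)) * g Φ e u y ≤
        ∫ y : ℝ, 9 / 4 * Real.exp (-(3 * e * u)) * ((1 - w y - w (-y)) * ‖Φ ((y : ℂ) * I)‖) := by
      refine integral_mono i3 (j1.const_mul _) fun y => ?_
      have h1 := (le_abs_self _).trans (g_bound (Φ := Φ) he u y)
      have h2 : 0 ≤ 1 - w y - w (-y) := by linarith [hw1 y]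
      calc (1 - w y - w (-y)) * g Φ e u y ≤ (1 - w y - w (-y)) *
          (9 / 4 * Real.exp (-(3 * e * u)) * ‖Φ ((y : ℂ) * I)‖) := mul_le_mul_of_nonneg_left h1 h2
        _ = _ := by ring
    rw [integral_const_mul] at j2
    calc (2 * Real.pi)⁻¹ * ∫ y : ℝ, (1 - w y - w (-y)) * g Φ e u y ≤ (2 * Real.pi)⁻¹ *
        (9 / 4 * Real.exp (-(3 * e * u)) * ∫ y : ℝ, (1 - w y - w (-y)) * ‖Φ ((y : ℂ) * I)‖) :=
          mul_le_mul_of_nonneg_left j2 (by positivity)
      _ = 9 / 4 * Real.exp (-(3 * e * u)) *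
          ((2 * Real.pi)⁻¹ * ∫ y : ℝ, (1 - w y - w (-y)) * ‖Φ ((y : ℂ) * I)‖) := by ring
      _ ≤ 9 / 4 * Real.exp (-(3 * e * u)) * G := mul_le_mul_of_nonneg_left hG (by positivity)
      _ = _ := by ring
  rw [hS, hsplit, hSJ, mul_add]
  have e3 : (2 * Real.pi)⁻¹ * (2 * ∫ y : ℝ, w y * g Φ e u y) = Real.pi⁻¹ * ∫ y : ℝ, w y * g Φ e u y := by
    rw [mul_inv]
    ring
  rw [e3]
  linarith

end

end Pool.Agent.BLP
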