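import Pool.Agent.Lib.BLP.Props

/-!
Project BLP (MP_ef2672): row R20, the sign (helper84).
-/

namespace Pool.Agent.BLP

theorem sneg : SNEG := by
  intro D G hD hG
  refine ⟨2 * D + 12 * G + 2, by positivity, ?_⟩
  intro n hn S P1 P2 hS hP1 hP2 u hu
  obtain ⟨C, hC⟩ : ∃ C : ℝ, C = 2 * D + 12 * G + 2 := ⟨_, rfl⟩
  rw [← hC] at hu
  have hN : (1 : ℝ) ≤ n := by exact_mod_cast hn
  have hN0 : (0 : ℝ) < n := by linarith
  have hsq : 0 < √(n : ℝ) := Real.sqrt_pos.2 hN0
  have hss : √(n : ℝ) * √(n : ℝ) = n := Real.mul_self_sqrt hN0.le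
  have hsqN : √(n : ℝ) ≤ n := by
    have h1 : (1 : ℝ) ≤ √(n : ℝ) := by
      rw [Real.one_le_sqrt]
      exact hN
    nlinarith
  have he0 : 0 < ee n := by
    unfold ee
    positivity
  have hes : ee n * √(n : ℝ) = 1 := by
    unfold ee
    rw [one_div, inv_mul_cancel₀ hsq.ne']
  have heN : 1 ≤ ee n * n := by
    have h1 : ee n * √(n : ℝ) ≤ ee n * n := mul_le_mul_of_nonneg_left hsqN he0.le
    linarith
  set e := ee n with he
  set N : ℝ := (n : ℝ) with hNdef
  -- the exponentials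
  set a := Real.exp (-(e * u)) with ha
  set b := Real.exp (-(2 * (e * S))) with hb
  have ha0 : 0 < a := Real.exp_pos _
  have hb0 : 0 < b := Real.exp_pos _
  have e2 : Real.exp (-(2 * e * u)) = a ^ 2 := by
    rw [ha, ← Real.exp_nat_mul]
    congr 1
    push_cast
    ring
  have e3 : Real.exp (-(3 * e * u)) = a ^ 3 := by
    rw [ha, ← Real.exp_nat_mul]
    congr 1
    push_cast
    ring
  have e4 : Real.exp (-(2 * e * S) + D) = b * Real.exp D := by
    rw [hb, ← Real.exp_add]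
    congr 1
    ring
  have e5 : Real.exp (-(4 * e * S) - D) = b ^ 2 * Real.exp (-D) := by
    rw [hb, ← Real.exp_nat_mul, ← Real.exp_add]
    congr 1
    push_cast
    ring
  rw [e4] at hP1
  rw [e5] at hP2
  rw [e2, e3]
  -- `a` is small
  have hab : a ≤ b * Real.exp (-C) / N ^ 2 := by
    have h1 : 2 * (e * S) + C + 2 * Real.log N ≤ e * u := by
      have h2 : e * (2 * S + √(n : ℝ) * (C + 2 * Real.log n)) ≤ e * u :=
        mul_le_mul_of_nonneg_left hu he0.le
      have h3 : e * (2 * S + √(n : ℝ) * (C + 2 * Real.log n)) =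
          2 * (e * S) + (e * √(n : ℝ)) * (C + 2 * Real.log n) := by ring
      rw [h3, hes, one_mul] at h2
      linarith
    have h4 : a ≤ Real.exp (-(2 * (e * S)) + -C + -(2 * Real.log N)) := by
      rw [ha]
      apply Real.exp_le_exp.2
      linarith
    refine h4.trans (le_of_eq ?_)
    rw [Real.exp_add, Real.exp_add, Real.exp_neg (2 * Real.log N)]
    have h5 : Real.exp (2 * Real.log N) = N ^ 2 := by
      have h6 : (2 : ℝ) * Real.log N = ((2 : ℕ) : ℝ) * Real.log N := by push_cast; ring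
      rw [h6, Real.exp_nat_mul, Real.exp_log hN0]
    rw [h5]
    rfl
  have hC0 : 0 ≤ Real.exp (-C) := (Real.exp_pos _).le
  have hexp2 : Real.exp (-2) ≤ 3 / 16 := by
    have h1 : (16 / 3 : ℝ) ≤ Real.exp 2 := by
      have h2 := Real.exp_one_gt_d9
      have h3 : Real.exp 2 = Real.exp 1 * Real.exp 1 := by
        rw [← Real.exp_add]
        norm_num
      rw [h3]
      nlinarith
    rw [Real.exp_neg]
    rw [inv_le_comm₀ (Real.exp_pos _) (by norm_num)]
    have h4 : ((3 : ℝ) / 16)⁻¹ = 16 / 3 := by norm_num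
    rw [h4]
    exact h1
  have hC1 : Real.exp (-C) * Real.exp D ≤ 3 / 16 * Real.exp (-D) := by
    have h1 : Real.exp (-C) * Real.exp D = Real.exp (-2) * (Real.exp (-(12 * G)) * Real.exp (-D)) := by
      rw [← Real.exp_add, ← Real.exp_add, ← Real.exp_add, hC]
      congr 1
      ring
    rw [h1]
    have h2 : Real.exp (-(12 * G)) ≤ 1 := Real.exp_le_one_iff.2 (by linarith)
    have h3 : Real.exp (-(12 * G)) * Real.exp (-D) ≤ 1 * Real.exp (-D) :=
      mul_le_mul_of_nonneg_right h2 (Real.exp_pos _).le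
    calc Real.exp (-2) * (Real.exp (-(12 * G)) * Real.exp (-D)) ≤ 3 / 16 * (1 * Real.exp (-D)) :=
          mul_le_mul hexp2 h3 (by positivity) (by norm_num)
      _ = 3 / 16 * Real.exp (-D) := by ring
  have hC2 : 9 / 4 * G * Real.exp (-C) ^ 2 ≤ 3 / 16 * Real.exp (-D) := by
    have h1 : Real.exp (-C) ^ 2 = Real.exp (-(3 * D) - 4) * Real.exp (-(24 * G)) * Real.exp (-D) := by
      rw [← Real.exp_nat_mul, ← Real.exp_add, ← Real.exp_add, hC]
      congr 1
      push_cast
      ring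
    have h2 : Real.exp (-(3 * D) - 4) ≤ 1 := Real.exp_le_one_iff.2 (by linarith)
    have h3 : 12 * G * Real.exp (-(24 * G)) ≤ 1 := by
      rw [Real.exp_neg, mul_inv_le_iff₀ (Real.exp_pos _), one_mul]
      have h4 := Real.add_one_le_exp (24 * G)
      linarith
    have h5 : 0 ≤ G * Real.exp (-(24 * G)) := by positivity
    have h6 : 9 / 4 * G * Real.exp (-C) ^ 2 =
        (Real.exp (-(3 * D) - 4) * (9 / 4 * (G * Real.exp (-(24 * G))))) * Real.exp (-D) := by
      rw [h1]
      ring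
    rw [h6]
    refine mul_le_mul_of_nonneg_right ?_ (Real.exp_pos _).le
    calc Real.exp (-(3 * D) - 4) * (9 / 4 * (G * Real.exp (-(24 * G))))
        ≤ 1 * (9 / 4 * (G * Real.exp (-(24 * G)))) := mul_le_mul_of_nonneg_right h2 (by positivity)
      _ ≤ 3 / 16 := by linarith
  -- first term
  have hx1 : 2 * e * a ^ 2 * P1 ≤ 3 / 16 * (e * a * (b ^ 2 * Real.exp (-D) / N)) := by
    have h1 : 2 * e * a ^ 2 * P1 ≤ 2 * e * a ^ 2 * (1 / 2 * (b * Real.exp D)) :=
      mul_le_mul_of_nonneg_left hP1 (by positivity)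
    have h2 : a * (e * a * b * Real.exp D) ≤ (b * Real.exp (-C) / N ^ 2) * (e * a * b * Real.exp D) :=
      mul_le_mul_of_nonneg_right hab (by positivity)
    have h3 : (b * Real.exp (-C) / N ^ 2) * (e * a * b * Real.exp D) =
        (e * a * b ^ 2 / N ^ 2) * (Real.exp (-C) * Real.exp D) := by
      field_simp
    have h4 : (e * a * b ^ 2 / N ^ 2) * (Real.exp (-C) * Real.exp D) ≤
        (e * a * b ^ 2 / N ^ 2) * (3 / 16 * Real.exp (-D)) :=
      mul_le_mul_of_nonneg_left hC1 (by positivity)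
    have h5 : e * a * b ^ 2 / N ^ 2 ≤ e * a * b ^ 2 / N := by
      apply div_le_div_of_nonneg_left (by positivity) hN0
      nlinarith
    have h6 : (e * a * b ^ 2 / N ^ 2) * (3 / 16 * Real.exp (-D)) ≤
        (e * a * b ^ 2 / N) * (3 / 16 * Real.exp (-D)) :=
      mul_le_mul_of_nonneg_right h5 (by positivity)
    have h7 : (e * a * b ^ 2 / N) * (3 / 16 * Real.exp (-D)) =
        3 / 16 * (e * a * (b ^ 2 * Real.exp (-D) / N)) := by ring
    have h8 : 2 * e * a ^ 2 * (1 / 2 * (b * Real.exp D)) = a * (e * a * b * Real.exp D) := by ring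
    linarith
  -- second term
  have hx2 : 9 / 4 * G * a ^ 3 ≤ 3 / 16 * (e * a * (b ^ 2 * Real.exp (-D) / N)) := by
    have h1 : a ^ 2 ≤ (b * Real.exp (-C) / N ^ 2) ^ 2 := pow_le_pow_left₀ ha0.le hab 2
    have h2 : 9 / 4 * G * a ^ 3 ≤ 9 / 4 * G * a * (b * Real.exp (-C) / N ^ 2) ^ 2 := by
      have h3 : 9 / 4 * G * a ^ 3 = 9 / 4 * G * a * a ^ 2 := by ring
      rw [h3]
      exact mul_le_mul_of_nonneg_left h1 (by positivity)
    have h4 : 9 / 4 * G * a * (b * Real.exp (-C) / N ^ 2) ^ 2 =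
        (a * b ^ 2 / N ^ 4) * (9 / 4 * G * Real.exp (-C) ^ 2) := by
      field_simp
    have h5 : (a * b ^ 2 / N ^ 4) * (9 / 4 * G * Real.exp (-C) ^ 2) ≤
        (a * b ^ 2 / N ^ 4) * (3 / 16 * Real.exp (-D)) :=
      mul_le_mul_of_nonneg_left hC2 (by positivity)
    have h6 : a * b ^ 2 / N ^ 4 ≤ e * a * b ^ 2 / N := by
      rw [div_le_div_iff₀ (by positivity) hN0]
      have h7 : N ≤ e * N ^ 4 := by
        have h8 : 1 ≤ N ^ 3 := one_le_pow₀ hN
        have h9 : N * 1 ≤ (e * N) * N ^ 3 := by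
          have h10 : N * 1 ≤ N ^ 3 := by nlinarith
          nlinarith
        calc N = N * 1 := by ring
          _ ≤ (e * N) * N ^ 3 := h9
          _ = e * N ^ 4 := by ring
      calc a * b ^ 2 * N ≤ a * b ^ 2 * (e * N ^ 4) := mul_le_mul_of_nonneg_left h7 (by positivity)
        _ = e * a * b ^ 2 * N ^ 4 := by ring
    have h11 : (a * b ^ 2 / N ^ 4) * (3 / 16 * Real.exp (-D)) ≤
        (e * a * b ^ 2 / N) * (3 / 16 * Real.exp (-D)) :=
      mul_le_mul_of_nonneg_right h6 (by positivity)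
    have h12 : (e * a * b ^ 2 / N) * (3 / 16 * Real.exp (-D)) =
        3 / 16 * (e * a * (b ^ 2 * Real.exp (-D) / N)) := by ring
    linarith
  have hx3 : e * a * (b ^ 2 * Real.exp (-D) / N) ≤ e * a * P2 :=
    mul_le_mul_of_nonneg_left hP2 (by positivity)
  have hx4 : e / 2 * a * P2 = 1 / 2 * (e * a * P2) := by ring
  have hx5 : e / 8 * a * P2 = 1 / 8 * (e * a * P2) := by ring
  linarith

end Pool.Agent.BLP
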