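import Pool.Agent.Lib.KL.Test
import Pool.Agent.Lib.BLP.Lat

/-!
BLP (MP_ef2672_gt), section 7.3: the theta function of a nearly extremal lattice (helper46).
-/

open MeasureTheory Filter Topology
open scoped Real
open Pool.Agent.KL

namespace Pool.Agent.BLP

noncomputable section

/-- The comparison behind the sign of `S`, with room to spare. -/
theorem neg_quant {e u S0 c Pe P2 : ℝ} {n : ℕ} (hn : 1 ≤ n) (he : e = 1 / √(n : ℝ))
    (hc : 1 ≤ c)
    (h1 : Pe ≤ 1 / 2 * Real.exp (-(2 * e * S0) + 5))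
    (h2 : 1 / (c * n) * Real.exp (-(4 * e * S0) - 12) ≤ P2)
    (hu : 2 * S0 + √(n : ℝ) * (20 + Real.log (c * n)) ≤ u) :
    2 * e * Real.exp (-(2 * e * u)) * Pe + 9 / 4 * Real.exp (-(3 * e * u)) ≤
      e / 4 * Real.exp (-(e * u)) * P2 := by
  have hn1 : (1 : ℝ) ≤ n := by exact_mod_cast hn
  have hsn : 1 ≤ √(n : ℝ) := Real.one_le_sqrt.2 hn1
  have hsn0 : 0 < √(n : ℝ) := by linarith
  have he0 : 0 < e := by rw [he]; positivity
  have hes : e * √(n : ℝ) = 1 := by rw [he]; field_simp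
  have hcn : 1 ≤ c * n := by nlinarith
  have hcn0 : 0 < c * n := by linarith
  have hlog : 0 ≤ Real.log (c * n) := Real.log_nonneg hcn
  obtain ⟨w, hw⟩ : ∃ w, w = u - 2 * S0 := ⟨_, rfl⟩
  have huw : u = 2 * S0 + w := by rw [hw]; ring
  have hw1 : √(n : ℝ) * (20 + Real.log (c * n)) ≤ w := by rw [hw]; linarith
  have hew : 20 + Real.log (c * n) ≤ e * w := by
    have h3 : e * (√(n : ℝ) * (20 + Real.log (c * n))) ≤ e * w := by gcongr
    have h4 : e * (√(n : ℝ) * (20 + Real.log (c * n))) = 20 + Real.log (c * n) := by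
      rw [← mul_assoc, hes, one_mul]
    linarith
  obtain ⟨E, hE⟩ : ∃ E, E = Real.exp (-(e * u)) := ⟨_, rfl⟩
  obtain ⟨G, hG⟩ : ∃ G, G = Real.exp (-(4 * e * S0)) := ⟨_, rfl⟩
  obtain ⟨D, hD⟩ : ∃ D, D = Real.exp (-(e * w)) := ⟨_, rfl⟩
  have hE0 : 0 < E := by rw [hE]; exact Real.exp_pos _
  have hG0 : 0 < G := by rw [hG]; exact Real.exp_pos _
  have hD0 : 0 < D := by rw [hD]; exact Real.exp_pos _
  have hDle : D ≤ Real.exp (-20) / (c * n) := by
    rw [hD, ← Real.exp_log hcn0, ← Real.exp_sub]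
    exact Real.exp_le_exp.2 (by linarith)
  have hne : 1 / (c * n) ≤ e := by
    rw [he]
    apply one_div_le_one_div_of_le hsn0
    have : √(n : ℝ) ≤ n := Real.sqrt_le_self_iff.2 (Or.inr hn1)
    nlinarith
  have t1 : 2 * e * Real.exp (-(2 * e * u)) * Pe ≤ E * G * (e * Real.exp 5 * D) := by
    have e1 : Real.exp (-(2 * e * u)) * Real.exp (-(2 * e * S0) + 5) = E * G * (Real.exp 5 * D) := by
      rw [hE, hG, hD, ← Real.exp_add, ← Real.exp_add, ← Real.exp_add, ← Real.exp_add]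
      congr 1
      rw [huw]
      ring
    calc 2 * e * Real.exp (-(2 * e * u)) * Pe
        ≤ 2 * e * Real.exp (-(2 * e * u)) * (1 / 2 * Real.exp (-(2 * e * S0) + 5)) := by gcongr
      _ = e * (Real.exp (-(2 * e * u)) * Real.exp (-(2 * e * S0) + 5)) := by ring
      _ = _ := by rw [e1]; ring
  have t2 : E * G * (e / 4 * (1 / (c * n)) * Real.exp (-12)) ≤
      e / 4 * Real.exp (-(e * u)) * P2 := by
    have e2 : Real.exp (-(4 * e * S0) - 12) = G * Real.exp (-12) := by
      rw [hG, ← Real.exp_add]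
      congr 1
    rw [← hE]
    calc E * G * (e / 4 * (1 / (c * n)) * Real.exp (-12))
        = e / 4 * E * (1 / (c * n) * Real.exp (-(4 * e * S0) - 12)) := by rw [e2]; ring
      _ ≤ _ := by gcongr
  have t3 : 9 / 4 * Real.exp (-(3 * e * u)) = E * G * (9 / 4 * D * D) := by
    have e3 : Real.exp (-(3 * e * u)) = E * G * (D * D) := by
      rw [hE, hG, hD, ← Real.exp_add, ← Real.exp_add, ← Real.exp_add]
      congr 1
      rw [huw]
      ring
    rw [e3]
    ring
  have hx3 : Real.exp (-3) ≤ 1 / 8 := by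
    have h5 : (2 : ℝ) ≤ Real.exp 1 := by
      have := Real.exp_one_gt_d9
      linarith
    have h6 : Real.exp 3 = Real.exp 1 ^ 3 := by
      rw [← Real.exp_nat_mul]
      norm_num
    have h7 : (8 : ℝ) ≤ Real.exp 3 := by
      rw [h6]
      calc (8 : ℝ) = 2 ^ 3 := by norm_num
        _ ≤ _ := pow_le_pow_left₀ (by norm_num) h5 3
    rw [Real.exp_neg, inv_eq_one_div]
    exact one_div_le_one_div_of_le (by norm_num) h7
  have hx28 : Real.exp (-28) ≤ 1 / 32 := by
    have h8 : Real.exp (-28) ≤ Real.exp (-3) * Real.exp (-3) := by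
      rw [← Real.exp_add]
      exact Real.exp_le_exp.2 (by norm_num)
    have h9 : Real.exp (-3) * Real.exp (-3) ≤ 1 / 8 * (1 / 8) :=
      mul_le_mul hx3 hx3 (Real.exp_pos _).le (by norm_num)
    linarith
  have c1 : e * Real.exp 5 * D ≤ e * (1 / (c * n)) * (Real.exp (-12) * (1 / 8)) := by
    calc e * Real.exp 5 * D ≤ e * Real.exp 5 * (Real.exp (-20) / (c * n)) := by gcongr
      _ = e * (1 / (c * n)) * (Real.exp (-12) * Real.exp (-3)) := by
          have : Real.exp 5 * Real.exp (-20) = Real.exp (-12) * Real.exp (-3) := by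
            rw [← Real.exp_add, ← Real.exp_add]
            norm_num
          rw [div_eq_mul_one_div, mul_assoc, ← mul_assoc (Real.exp 5), this]
          ring
      _ ≤ _ := by gcongr
  have c2 : 9 / 4 * D * D ≤ e * (1 / (c * n)) * (Real.exp (-12) * (1 / 8)) := by
    have h5 : D ≤ Real.exp (-20) * e := by
      refine hDle.trans ?_
      rw [div_eq_mul_one_div]
      gcongr
    calc 9 / 4 * D * D ≤ 9 / 4 * (Real.exp (-20) * e) * (Real.exp (-20) / (c * n)) := by gcongr
      _ = e * (1 / (c * n)) * (Real.exp (-12) * (9 / 4 * Real.exp (-28))) := by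
          have : Real.exp (-20) * Real.exp (-20) = Real.exp (-12) * Real.exp (-28) := by
            rw [← Real.exp_add, ← Real.exp_add]
            norm_num
          rw [div_eq_mul_one_div]
          linear_combination (9 / 4 * e * (1 / (c * n))) * this
      _ ≤ e * (1 / (c * n)) * (Real.exp (-12) * (9 / 4 * (1 / 32))) := by gcongr
      _ ≤ _ := by
          gcongr
          norm_num
  have hfin : E * G * (e * Real.exp 5 * D) + E * G * (9 / 4 * D * D) ≤
      E * G * (e / 4 * (1 / (c * n)) * Real.exp (-12)) := by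
    rw [← mul_add]
    refine mul_le_mul_of_nonneg_left ?_ (by positivity)
    linarith
  rw [t3]
  linarith

/-- The quantitative form of the test function of `Lib/KL`. -/
theorem kl_quant {n : ℕ} (hn : 10 ≤ n) (he : Even n) :
    ∃ F : (Fin (4 * n) → ℝ) → ℝ, PosDef F ∧ F 0 ≤ 3 / (2 * √n) ∧
      ∀ z, 2 / Real.sin (π / (2 * n)) + √n * (23 + Real.log n) ≤ ∑ i, z i ^ 2 →
        (2 * n - 1).factorial * Real.exp (-((∑ i, z i ^ 2) / √n)) ≤
          40 * n * √n * Real.exp (4 * √n + 12) * ((∑ i, z i ^ 2) ^ (2 * n - 1) * -F z) := by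
  have hq1 : ∀ u, 0 ≤ u → |qR (cf n) (zf n) u| ≤ 1 := fun _ hu => qR_abs_le (by omega) he hu
  have hn0 : 0 < n := by omega
  have hnR : (10 : ℝ) ≤ n := by exact_mod_cast hn
  have hsq : 0 < √(n : ℝ) := Real.sqrt_pos.2 (by linarith)
  have hsqsq : √(n : ℝ) * √(n : ℝ) = n := Real.mul_self_sqrt (by linarith)
  have hsq3 : 3 < √(n : ℝ) := by
    rw [Real.lt_sqrt (by norm_num)]; linarith
  set e : ℝ := 1 / √(n : ℝ) with hedef
  have he0 : 0 < e := by positivity
  have he3 : e < 1 / 3 := by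
    rw [hedef]
    exact one_div_lt_one_div_of_lt (by norm_num) hsq3
  have hne : (n : ℝ) * e ^ 2 = 1 := by
    rw [hedef, div_pow, one_pow, Real.sq_sqrt (by linarith)]
    field_simp
  have hen : e * n = √(n : ℝ) := by
    rw [hedef]
    field_simp
    rw [sq, hsqsq]
  set S0 := SS (zf n) with hS0def
  have hS0 : 0 ≤ S0 := SS_zf_nonneg n
  have hS0n : S0 ≤ n := SS_zf_le n
  have heS : e * S0 ≤ √(n : ℝ) := by
    rw [← hen]; exact mul_le_mul_of_nonneg_left hS0n he0.le
  set q := qR (cf n) (zf n) with hqdef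
  set P := PR (cf n) (zf n) with hPdef
  have hq : Continuous q := continuous_qR
  have hP : ∀ s, 0 < s → ∫ u in Set.Ioi (0 : ℝ), q u * Real.exp (-(s * u)) = P s := fun s hs =>
    qR_laplace (by omega) sum_cf_pow Fin.revPerm (fun j => cf_rev j) (fun j => zf_rev j)
      (fun j => zf_re j) hs
  obtain ⟨hSc, hSi, hSb, hSL, hS3⟩ := sn_key he0 hq hq1 hP
  have h1 : P e ≤ 1 / 2 * Real.exp (-(2 * e * S0) + 5) := by
    refine (PR_upper hn0 he he0 (by linarith) ?_).trans ?_
    · have : 2 * e * S0 ≤ 2 * √(n : ℝ) := by nlinarith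
      nlinarith
    · refine mul_le_mul_of_nonneg_left (Real.exp_le_exp.2 ?_) (by norm_num)
      nlinarith
  have hPl : ∀ k : ℝ, 0 < k → k ≤ 3 →
      1 / (3 * π * √n) * Real.exp (-(2 * k * (e * S0) + k ^ 2)) ≤ P (k * e) := by
    intro k hk0 hk3
    have h := PR_lower hn0 he (s := k * e) (by positivity) (by nlinarith)
    have h2 : -(2 * (k * e) * SS (zf n) + n * (k * e) ^ 2) = -(2 * k * (e * S0) + k ^ 2) := by
      rw [← hS0def]
      linear_combination (-k ^ 2) * hne
    rw [h2] at h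
    exact h
  have h2 : 1 / (10 * n) * Real.exp (-(4 * e * S0) - 12) ≤ P (2 * e) := by
    refine le_trans ?_ (hPl 2 (by norm_num) (by norm_num))
    refine mul_le_mul ?_ (Real.exp_le_exp.2 (by linarith)) (Real.exp_pos _).le (by positivity)
    refine one_div_le_one_div_of_le (by positivity) ?_
    have hpi : π < 3.15 := Real.pi_lt_d2
    nlinarith
  obtain ⟨F, hF, hFi, hFS, hF0, hFI⟩ := pos_key_fin (n := n) (by omega)
    (h := hR (cf n) (zf n)) (S := SnF q e) he0
    continuous_hR.measurable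
    (hR_sq_integrable Fin.revPerm (fun j => cf_rev j) (fun j => zf_rev j) (fun j => zf_re j))
    hSc.continuousOn hSi hSb (by
      intro l hl
      rw [hSL l (le_of_lt hl)]
      congr 1
      exact (PR_eq (c := cf n) (ζ := zf n) hn0 Fin.revPerm (fun j => cf_rev j)
        (fun j => zf_rev j) (fun j => zf_re j) (by positivity)).2)
  have hlog : 0 ≤ Real.log n := Real.log_nonneg (by linarith)
  set R : ℝ := 2 * S0 + √(n : ℝ) * (20 + Real.log (10 * n)) with hRdef
  have hlog10 : 0 ≤ Real.log (10 * n) := Real.log_nonneg (by linarith)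
  have hRpos : 0 < R := by
    rw [hRdef]
    have : 0 < √(n : ℝ) * (20 + Real.log (10 * n)) := by positivity
    linarith
  have hRle : R ≤ 2 / Real.sin (π / (2 * n)) + √n * (23 + Real.log n) := by
    have h3 : 2 * S0 = 2 / Real.sin (π / (2 * n)) := by
      rw [hS0def, SS_zf hn0]; ring
    have h4 : Real.log (10 * n) = Real.log 10 + Real.log n :=
      Real.log_mul (by norm_num) (by linarith)
    have h5 : Real.log 10 ≤ 3 := by
      rw [Real.log_le_iff_le_exp (by norm_num)]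
      have h6 : (2.7182818283 : ℝ) < Real.exp 1 := Real.exp_one_gt_d9
      have h7 : Real.exp 3 = Real.exp 1 ^ 3 := by rw [← Real.exp_nat_mul]; norm_num
      rw [h7]
      have : (2.7182818283 : ℝ) ^ 3 < Real.exp 1 ^ 3 := pow_lt_pow_left₀ h6 (by norm_num) (by norm_num)
      norm_num at this ⊢
      linarith
    rw [hRdef, h3, h4]
    have h6 : √(n : ℝ) * (20 + (Real.log 10 + Real.log n)) ≤ √n * (23 + Real.log n) :=
      mul_le_mul_of_nonneg_left (by linarith) hsq.le
    linarith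
  refine ⟨F, hF, ?_, ?_⟩
  · rw [hF0]
    have hh := hR_le_one hn0 he
    have h3 : 3 * e / 2 = 3 / (2 * √n) := by
      rw [hedef]
      field_simp
    rw [← h3]
    have : 0 ≤ 3 * e / 2 := by positivity
    nlinarith
  · intro z hz
    set u : ℝ := ∑ i, z i ^ 2 with hudef
    have hu : R ≤ u := hRle.trans hz
    have hzpos : 0 < u := lt_of_lt_of_le hRpos hu
    have hz0 : z ≠ 0 := by
      rintro rfl
      simp [hudef] at hzpos
    have h3 := hFS z hz0
    rw [← hudef] at h3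
    have h4 := SnF_upper he0 hq hq1 hP hzpos.le
    have h5 := neg_quant (n := n) (by omega) hedef (by norm_num : (1 : ℝ) ≤ 10) h1 h2 hu
    have h6 : e / 4 * Real.exp (-(e * u)) * P (2 * e) ≤ -SnF q e u := by linarith
    have h7 : u ^ (2 * n - 1) * -F z = (2 * n - 1).factorial * -SnF q e u := by
      rw [mul_neg, h3]
      ring
    rw [h7]
    have h8 : e / 4 * Real.exp (-(e * u)) * (1 / (10 * n) * Real.exp (-(4 * e * S0) - 12)) ≤
        -SnF q e u := by
      refine le_trans ?_ h6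
      exact mul_le_mul_of_nonneg_left h2 (by positivity)
    have h9 : Real.exp (-(u / √n)) ≤ 40 * n * √n * Real.exp (4 * √n + 12) *
        (e / 4 * Real.exp (-(e * u)) * (1 / (10 * n) * Real.exp (-(4 * e * S0) - 12))) := by
      have h10 : 40 * n * √n * Real.exp (4 * √n + 12) *
          (e / 4 * Real.exp (-(e * u)) * (1 / (10 * n) * Real.exp (-(4 * e * S0) - 12))) =
          Real.exp (-(u / √n)) * Real.exp (4 * √n - 4 * e * S0) := by
        have h11 : Real.exp (4 * √n - 4 * e * S0) =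
            Real.exp (4 * √n + 12) * Real.exp (-(4 * e * S0) - 12) := by
          rw [← Real.exp_add]
          congr 1
          ring
        rw [h11]
        have h12 : e * u = u / √n := by rw [hedef]; ring
        rw [h12]
        have h13 : e * √n = 1 := by rw [hedef]; field_simp
        field_simp
        linear_combination (40 : ℝ) * h13
      rw [h10]
      have h14 : 1 ≤ Real.exp (4 * √n - 4 * e * S0) := Real.one_le_exp (by nlinarith)
      have h15 := Real.exp_pos (-(u / √n))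
      nlinarith
    calc ((2 * n - 1).factorial : ℝ) * Real.exp (-(u / √n))
        ≤ (2 * n - 1).factorial * (40 * n * √n * Real.exp (4 * √n + 12) * -SnF q e u) := by
          refine mul_le_mul_of_nonneg_left (h9.trans ?_) (by positivity)
          exact mul_le_mul_of_nonneg_left h8 (by positivity)
      _ = _ := by ring

/-- One term. -/
theorem tb_term {k : ℕ} {U s ρ1 K Fz : ℝ} (hU : 0 < U) (hρ : 0 < ρ1) (hρs : ρ1 < s)
    (h : (k.factorial : ℝ) * Real.exp (-(U / s)) ≤ K * (U ^ k * -Fz)) :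
    Real.exp (-(U / ρ1)) ≤ K * ((1 / ρ1 - 1 / s)⁻¹) ^ k * -Fz := by
  have hc : 0 < 1 / ρ1 - 1 / s := by
    have := one_div_lt_one_div_of_lt hρ hρs
    linarith
  obtain ⟨c, hcd⟩ : ∃ c, c = 1 / ρ1 - 1 / s := ⟨_, rfl⟩
  rw [← hcd] at hc ⊢
  have h1 : (c * U) ^ k / (k.factorial : ℝ) ≤ Real.exp (c * U) :=
    Real.pow_div_factorial_le_exp _ (by positivity) k
  have h2 : Real.exp (-(U / ρ1)) * Real.exp (c * U) = Real.exp (-(U / s)) := by
    rw [← Real.exp_add]
    congr 1
    rw [hcd]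
    ring
  have hfac : (0 : ℝ) < k.factorial := by positivity
  rw [div_le_iff₀ hfac] at h1
  have hE := Real.exp_pos (-(U / ρ1))
  have h3 : Real.exp (-(U / ρ1)) * (c * U) ^ k ≤ K * (U ^ k * -Fz) := by
    calc Real.exp (-(U / ρ1)) * (c * U) ^ k ≤
        Real.exp (-(U / ρ1)) * (Real.exp (c * U) * k.factorial) := by gcongr
      _ = k.factorial * Real.exp (-(U / s)) := by rw [← h2]; ring
      _ ≤ _ := h
  rw [mul_pow] at h3
  have hcU : 0 < c ^ k * U ^ k := by positivity
  have h4 : Real.exp (-(U / ρ1)) ≤ K * (U ^ k * -Fz) / (c ^ k * U ^ k) := by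
    rw [le_div_iff₀ hcU]
    exact h3
  refine h4.trans (le_of_eq ?_)
  rw [inv_pow]
  have : U ^ k ≠ 0 := by positivity
  have : c ^ k ≠ 0 := by positivity
  field_simp

/-- R28. -/
theorem tb : TB := by
  intro ρ1 hρ
  refine ⟨24 + 4 * ρ1, max 10 (⌈4 * ρ1 ^ 2⌉₊), by positivity, ?_⟩
  intro n hn he A _ _ hw
  have hn10 : 10 ≤ n := le_trans (le_max_left _ _) hn
  have hnR : (10 : ℝ) ≤ n := by exact_mod_cast hn10
  have hnρ : 4 * ρ1 ^ 2 ≤ n := (Nat.le_ceil _).trans (by exact_mod_cast le_trans (le_max_right _ _) hn)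
  obtain ⟨s, hs⟩ : ∃ s, s = √(n : ℝ) := ⟨_, rfl⟩
  rw [← hs] at hw ⊢
  have hs2 : s ^ 2 = n := by rw [hs]; exact Real.sq_sqrt (by linarith)
  have hs0 : 0 < s := by rw [hs]; exact Real.sqrt_pos.2 (by linarith)
  have hs1 : 1 ≤ s := by nlinarith
  have hρs : 2 * ρ1 ≤ s := by
    by_contra hcon
    push Not at hcon
    nlinarith
  have hρ0 : 0 < ρ1 := by linarith
  obtain ⟨F, hF, hF0, hFq⟩ := kl_quant hn10 he
  have hlog : 0 ≤ Real.log n := Real.log_nonneg (by linarith)
  -- the matrix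
  obtain ⟨a, ha⟩ : ∃ a, a = √(π * ρ1) := ⟨_, rfl⟩
  have ha2 : a ^ 2 = π * ρ1 := by rw [ha]; exact Real.sq_sqrt (by positivity)
  have hsum : ∀ w : Fin (4 * n) → ℤ, ∑ i, (Matrix.mulVec (a • A) (fun j => (w j : ℝ))) i ^ 2 =
      ρ1 * (π * qf A w) := by
    intro w
    have : ∑ i, (Matrix.mulVec (a • A) (fun j => (w j : ℝ))) i ^ 2 =
        a ^ 2 * ∑ i, (Matrix.mulVec A (fun j => (w j : ℝ))) i ^ 2 := by
      rw [Finset.mul_sum]
      refine Finset.sum_congr rfl fun i _ => ?_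
      rw [Matrix.smul_mulVec, Pi.smul_apply, smul_eq_mul, mul_pow]
    rw [this, ha2]
    change π * ρ1 * qf A w = _
    ring
  have hR : ∀ w : Fin (4 * n) → ℤ, w ≠ 0 →
      2 / Real.sin (π / (2 * n)) + √n * (23 + Real.log n) ≤ ρ1 * (π * qf A w) := by
    intro w hw0
    have h1 := hw w hw0
    rw [div_le_iff₀ hρ0] at h1
    have h2 : 2 * S0 n = 2 / Real.sin (π / (2 * n)) := by unfold S0; ring
    rw [← hs, ← h2]
    have h3 : s * (23 + Real.log n) ≤ s * (24 + 4 * ρ1 + 2 * Real.log n) :=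
      mul_le_mul_of_nonneg_left (by linarith) hs0.le
    linarith
  have hsin : 0 < 2 / Real.sin (π / (2 * n)) := by
    refine div_pos two_pos (Real.sin_pos_of_pos_of_lt_pi (by positivity) ?_)
    rw [div_lt_iff₀ (by positivity)]
    nlinarith [Real.pi_pos]
  have hUpos : ∀ w : Fin (4 * n) → ℤ, w ≠ 0 → 0 < ρ1 * (π * qf A w) := by
    intro w hw0
    have h1 := hR w hw0
    rw [← hs] at h1
    have h2 : 0 ≤ s * (23 + Real.log n) := by positivity
    linarith
  obtain ⟨K, hK⟩ : ∃ K, K = 40 * n * s * Real.exp (4 * s + 12) := ⟨_, rfl⟩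
  have hK0 : 0 < K := by rw [hK]; positivity
  have hterm : ∀ w : Fin (4 * n) → ℤ, w ≠ 0 → Real.exp (-(π * qf A w)) ≤
      K * ((1 / ρ1 - 1 / s)⁻¹) ^ (2 * n - 1) *
        -F ((a • A).mulVec fun i => (w i : ℝ)) := by
    intro w hw0
    have h1 := hFq ((a • A).mulVec fun i => (w i : ℝ)) (by rw [hsum]; exact hR w hw0)
    rw [hsum, ← hs, ← hK] at h1
    have h2 := tb_term (hUpos w hw0) hρ0 (by linarith) h1
    have h3 : ρ1 * (π * qf A w) / ρ1 = π * qf A w := by field_simp
    rwa [h3] at h2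
  have hneg : ∀ w : Fin (4 * n) → ℤ, w ≠ 0 → F ((a • A).mulVec fun i => (w i : ℝ)) ≤ 0 := by
    intro w hw0
    have h1 := hFq ((a • A).mulVec fun i => (w i : ℝ)) (by rw [hsum]; exact hR w hw0)
    rw [hsum, ← hs, ← hK] at h1
    by_contra hcon
    push Not at hcon
    have h2 : K * ((ρ1 * (π * qf A w)) ^ (2 * n - 1) *
        -F ((a • A).mulVec fun i => (w i : ℝ))) ≤ 0 := by
      have h3 := hUpos w hw0
      have h4 : 0 < (ρ1 * (π * qf A w)) ^ (2 * n - 1) := by positivity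
      nlinarith [mul_pos h4 hcon, mul_pos hK0 (mul_pos h4 hcon)]
    have h3 : 0 < ((2 * n - 1).factorial : ℝ) * Real.exp (-(ρ1 * (π * qf A w) / s)) := by
      positivity
    linarith
  -- the constant
  obtain ⟨c, hc⟩ : ∃ c, c = (1 / ρ1 - 1 / s)⁻¹ := ⟨_, rfl⟩
  rw [← hc] at hterm
  have hx : ρ1 / s ≤ 1 / 2 := by
    rw [div_le_iff₀ hs0]; linarith
  have hx0 : 0 < ρ1 / s := by positivity
  have hcle : c ≤ ρ1 * Real.exp (2 * (ρ1 / s)) := by
    have h1 : 1 / ρ1 - 1 / s = (1 - ρ1 / s) / ρ1 := by field_simp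
    rw [hc, h1, inv_div, div_le_iff₀ (by linarith)]
    have h2 := Real.add_one_le_exp (2 * (ρ1 / s))
    have h3 : 1 ≤ (2 * (ρ1 / s) + 1) * (1 - ρ1 / s) := by nlinarith
    have h4 : (2 * (ρ1 / s) + 1) * (1 - ρ1 / s) ≤ Real.exp (2 * (ρ1 / s)) * (1 - ρ1 / s) :=
      mul_le_mul_of_nonneg_right h2 (by linarith)
    nlinarith
  have hc0 : 0 < c := by
    rw [hc]
    refine inv_pos.2 ?_
    have := one_div_lt_one_div_of_lt hρ0 (by linarith : ρ1 < s)
    linarith
  have hck : c ^ (2 * n - 1) ≤ ρ1 ^ (2 * n) * Real.exp (4 * ρ1 * s) := by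
    have h1 : c ^ (2 * n - 1) ≤ (ρ1 * Real.exp (2 * (ρ1 / s))) ^ (2 * n - 1) :=
      pow_le_pow_left₀ hc0.le hcle _
    refine h1.trans ?_
    have h2 : 1 ≤ ρ1 * Real.exp (2 * (ρ1 / s)) := by
      have := Real.one_le_exp (x := 2 * (ρ1 / s)) (by positivity)
      nlinarith
    have h3 : (ρ1 * Real.exp (2 * (ρ1 / s))) ^ (2 * n - 1) ≤
        (ρ1 * Real.exp (2 * (ρ1 / s))) ^ (2 * n) := pow_le_pow_right₀ h2 (by omega)
    refine h3.trans (le_of_eq ?_)
    rw [mul_pow, ← Real.exp_nat_mul]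
    congr 2
    push_cast
    rw [← hs2]
    field_simp
    ring
  -- the sum
  have hmain : ∀ X : Finset (Fin (4 * n) → ℤ), ∑ w ∈ X, Real.exp (-(π * qf A w)) ≤
      1 + K * c ^ (2 * n - 1) * (3 / (2 * s)) := by
    intro X
    classical
    have h1 : ∑ w ∈ X, Real.exp (-(π * qf A w)) ≤
        ∑ w ∈ insert 0 (X.erase 0), Real.exp (-(π * qf A w)) := by
      refine Finset.sum_le_sum_of_subset_of_nonneg ?_ fun _ _ _ => (Real.exp_pos _).le
      intro w hw1
      by_cases h : w = 0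
      · simp [h]
      · simp [h, hw1]
    refine h1.trans ?_
    rw [Finset.sum_insert (by simp)]
    have h2 : Real.exp (-(π * qf A (0 : Fin (4 * n) → ℤ))) ≤ 1 := by
      rw [Real.exp_le_one_iff]
      have : 0 ≤ qf A (0 : Fin (4 * n) → ℤ) := by unfold qf nsq; positivity
      nlinarith [Real.pi_pos]
    have h3 : ∑ w ∈ X.erase 0, Real.exp (-(π * qf A w)) ≤
        K * c ^ (2 * n - 1) * ∑ w ∈ X.erase 0, -F ((a • A).mulVec fun i => (w i : ℝ)) := by
      rw [Finset.mul_sum]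
      exact Finset.sum_le_sum fun w hw1 => hterm w (Finset.ne_of_mem_erase hw1)
    have h4 := sum_neg_le hF (a • A) hneg (X.erase 0) (by simp)
    have h5 : K * c ^ (2 * n - 1) * ∑ w ∈ X.erase 0, -F ((a • A).mulVec fun i => (w i : ℝ)) ≤
        K * c ^ (2 * n - 1) * (3 / (2 * s)) := by
      refine mul_le_mul_of_nonneg_left ?_ (by positivity)
      rw [hs]
      exact h4.trans hF0
    linarith
  have hT : TT A ≤ 1 + K * c ^ (2 * n - 1) * (3 / (2 * s)) :=
    tsum_le_of_sum_le' (by positivity) hmain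
  refine hT.trans ?_
  have h1 : K * c ^ (2 * n - 1) * (3 / (2 * s)) ≤
      K * (ρ1 ^ (2 * n) * Real.exp (4 * ρ1 * s)) * (3 / (2 * s)) := by gcongr
  have h2 : K * (ρ1 ^ (2 * n) * Real.exp (4 * ρ1 * s)) * (3 / (2 * s)) =
      ρ1 ^ (2 * n) * (60 * n * (Real.exp (4 * s + 12) * Real.exp (4 * ρ1 * s))) := by
    rw [hK]
    field_simp
    ring
  have h3 : (1 : ℝ) ≤ ρ1 ^ (2 * n) := one_le_pow₀ hρ.le
  have h4 : (60 : ℝ) ≤ Real.exp (5 * s) := by
    have h5 : (2.7182818283 : ℝ) < Real.exp 1 := Real.exp_one_gt_d9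
    have h6 : Real.exp 5 = Real.exp 1 ^ 5 := by rw [← Real.exp_nat_mul]; norm_num
    have h7 : (2.7182818283 : ℝ) ^ 5 < Real.exp 1 ^ 5 := pow_lt_pow_left₀ h5 (by norm_num) (by norm_num)
    have h8 : Real.exp 5 ≤ Real.exp (5 * s) := Real.exp_le_exp.2 (by linarith)
    rw [← h6] at h7
    norm_num at h7
    linarith
  have h5 : (n : ℝ) ≤ Real.exp (2 * s) := by
    have h6 := Real.add_one_le_exp s
    have h7 : Real.exp (2 * s) = Real.exp s ^ 2 := by rw [← Real.exp_nat_mul]; norm_num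
    rw [h7, ← hs2]
    exact pow_le_pow_left₀ hs0.le (by linarith) 2
  have h6 : 60 * n * (Real.exp (4 * s + 12) * Real.exp (4 * ρ1 * s)) ≤
      Real.exp ((23 + 4 * ρ1) * s) := by
    have h7 : Real.exp (4 * s + 12) ≤ Real.exp (16 * s) := Real.exp_le_exp.2 (by linarith)
    calc 60 * n * (Real.exp (4 * s + 12) * Real.exp (4 * ρ1 * s)) ≤
        Real.exp (5 * s) * Real.exp (2 * s) * (Real.exp (16 * s) * Real.exp (4 * ρ1 * s)) := by
          gcongr
      _ = _ := by
          rw [← Real.exp_add, ← Real.exp_add, ← Real.exp_add]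
          congr 1
          ring
  have h7 : 1 + Real.exp ((23 + 4 * ρ1) * s) ≤ Real.exp ((24 + 4 * ρ1) * s) := by
    have h8 : Real.exp ((24 + 4 * ρ1) * s) = Real.exp s * Real.exp ((23 + 4 * ρ1) * s) := by
      rw [← Real.exp_add]
      congr 1
      ring
    have h9 := Real.add_one_le_exp s
    have h10 : 1 ≤ Real.exp ((23 + 4 * ρ1) * s) := Real.one_le_exp (by positivity)
    rw [h8]
    nlinarith
  calc 1 + K * c ^ (2 * n - 1) * (3 / (2 * s)) ≤
      1 + ρ1 ^ (2 * n) * (60 * n * (Real.exp (4 * s + 12) * Real.exp (4 * ρ1 * s))) := by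
        rw [← h2]; linarith
    _ ≤ ρ1 ^ (2 * n) * 1 + ρ1 ^ (2 * n) * Real.exp ((23 + 4 * ρ1) * s) := by
        refine add_le_add (by linarith) ?_
        exact mul_le_mul_of_nonneg_left h6 (by positivity)
    _ = ρ1 ^ (2 * n) * (1 + Real.exp ((23 + 4 * ρ1) * s)) := by ring
    _ ≤ _ := mul_le_mul_of_nonneg_left h7 (by positivity)

end

end Pool.Agent.BLP
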