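import Pool.Agent.Lib.BLP.Rect

/-!
BLP, section 6: the wave packet (6.2), (6.3). The window is abstract here.
-/

namespace Pool.BLP

open MeasureTheory Complex Set

noncomputable section

/-- the kernel `k` -/
def kk (e : ℝ) (s : ℂ) : ℂ := -(2 * e) / (e - s) + (e / 2) / (2 * e - s)

/-- What is needed of the window: `X` is entire, `x` is its restriction to the real line. -/
structure WinH (n : ℕ) (X : ℂ → ℂ) (x : ℝ → ℝ) : Prop where
  diff : Differentiable ℂ X
  real : ∀ y : ℝ, X y = x y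
  nonneg : ∀ y, 0 ≤ x y
  shift : ∀ y t : ℝ, ‖X (y + t * I)‖ ≤ Real.exp (n * t ^ 2 / (2 * (1 / 10 ^ 4) ^ 2)) * x y
  small : ∀ y, y ≤ 0.9975 ∨ 0.9995 ≤ y → x y ≤ Real.exp (-4 * n)
  int : Integrable x
  mass : ∫ y, x y ≤ 1
  tail : ∫ y in (Icc (1 / 2) (3 / 2))ᶜ, x y ≤ Real.exp (-4 * n)

/-- the integrand -/
def ff (X Psi : ℂ → ℂ) (e u : ℝ) (s : ℂ) : ℂ :=
  X (-I * s) * (Psi s * kk e s) * cexp (-(3 * e - s) * u)

lemma ff_axis (X Psi : ℂ → ℂ) (e u y : ℝ) :
    ff X Psi e u (y * I) = X y * (Psi (y * I) * kk e (y * I)) * cexp (-(3 * e - y * I) * u) := by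
  have : -I * ((y : ℂ) * I) = y := by
    rw [show -I * ((y : ℂ) * I) = -(I * I) * y by ring, I_mul_I]
    ring
  rw [ff, this]

lemma kk_axis {e : ℝ} (he : 0 < e) (y : ℝ) : ‖kk e (y * I)‖ ≤ 9 / 4 := by
  have h1 : ∀ b : ℝ, 0 < b → b ≤ ‖(b : ℂ) - y * I‖ := by
    intro b hb
    have := Complex.abs_re_le_norm ((b : ℂ) - y * I)
    simp only [sub_re, ofReal_re, mul_re, I_re, mul_zero, ofReal_im, I_im, mul_one, sub_self,
      sub_zero] at this
    exact (le_abs_self b).trans this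
  have h2 := h1 e he
  have h3 := h1 (2 * e) (by linarith)
  push_cast at h3
  have n1 : 0 < ‖(e : ℂ) - y * I‖ := lt_of_lt_of_le he h2
  have n2 : 0 < ‖(2 * e : ℂ) - y * I‖ := lt_of_lt_of_le (by linarith) h3
  refine (norm_add_le _ _).trans ?_
  rw [norm_div, norm_div]
  have e1 : ‖-(2 * (e : ℂ))‖ = 2 * e := by
    rw [norm_neg, norm_mul, Complex.norm_real, Real.norm_of_nonneg he.le]
    simp
  have e2 : ‖(e : ℂ) / 2‖ = e / 2 := by
    rw [norm_div, Complex.norm_real, Real.norm_of_nonneg he.le]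
    simp
  rw [e1, e2]
  have h4 : 2 * e / ‖(e : ℂ) - y * I‖ ≤ 2 := by
    rw [div_le_iff₀ n1]
    linarith
  have h5 : e / 2 / ‖(2 * e : ℂ) - y * I‖ ≤ 1 / 4 := by
    rw [div_le_iff₀ n2]
    linarith
  linarith

lemma kk_strip {e : ℝ} (he : 0 < e) (he1 : e ≤ 1) {s : ℂ} (hs : 1 / 2 ≤ s.im) : ‖kk e s‖ ≤ 5 := by
  have h1 : ∀ b : ℝ, 1 / 2 ≤ ‖(b : ℂ) - s‖ := by
    intro b
    have := Complex.abs_im_le_norm ((b : ℂ) - s)
    simp only [sub_im, ofReal_im, zero_sub, abs_neg] at this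
    exact (hs.trans (le_abs_self _)).trans this
  have h2 := h1 e
  have h3 := h1 (2 * e)
  push_cast at h3
  refine (norm_add_le _ _).trans ?_
  rw [norm_div, norm_div]
  have e1 : ‖-(2 * (e : ℂ))‖ = 2 * e := by
    rw [norm_neg, norm_mul, Complex.norm_real, Real.norm_of_nonneg he.le]
    simp
  have e2 : ‖(e : ℂ) / 2‖ = e / 2 := by
    rw [norm_div, Complex.norm_real, Real.norm_of_nonneg he.le]
    simp
  rw [e1, e2]
  have h4 : 2 * e / ‖(e : ℂ) - s‖ ≤ 4 := by
    rw [div_le_iff₀ (by linarith)]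
    nlinarith
  have h5 : e / 2 / ‖(2 * e : ℂ) - s‖ ≤ 1 := by
    rw [div_le_iff₀ (by linarith)]
    nlinarith
  linarith

lemma kk_diff {e : ℝ} {s : ℂ} (hs : 0 < s.im) : DifferentiableAt ℂ (kk e) s := by
  have h1 : ∀ b : ℝ, (b : ℂ) - s ≠ 0 := by
    intro b h
    have := congrArg Complex.im h
    simp only [sub_im, ofReal_im, zero_sub, zero_im, neg_eq_zero] at this
    linarith
  have h2 := h1 e
  have h3 := h1 (2 * e)
  push_cast at h3
  unfold kk
  exact ((differentiableAt_const _).div (by fun_prop) h2).add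
    ((differentiableAt_const _).div (by fun_prop) h3)

lemma norm_exp_le {e u : ℝ} (he : 0 < e) (hu : 0 ≤ u) (s : ℂ) :
    ‖cexp (-(3 * e - s) * u)‖ ≤ Real.exp (s.re * u) := by
  rw [Complex.norm_exp]
  have : (-(3 * (e : ℂ) - s) * u).re = -(3 * e) * u + s.re * u := by
    simp
    ring
  rw [this]
  refine Real.exp_le_exp.2 ?_
  have := mul_nonneg he.le hu
  linarith

lemma norm_exp_axis {e u : ℝ} (y : ℝ) : ‖cexp (-(3 * e - y * I) * u)‖ = Real.exp (-(3 * e * u)) := by
  rw [Complex.norm_exp]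
  congr 1
  simp

/-- the integrand on the axis is integrable -/
lemma ff_bound {n : ℕ} {X Psi : ℂ → ℂ} {x : ℝ → ℝ} (hX : WinH n X x) {e u M : ℝ} (he : 0 < e)
    (hP : ∀ y : ℝ, ‖Psi (y * I)‖ ≤ M) (y : ℝ) :
    ‖ff X Psi e u (y * I)‖ ≤ (9 / 4 * M * Real.exp (-(3 * e * u))) * x y := by
  rw [ff_axis, norm_mul, norm_mul, norm_mul, norm_exp_axis, hX.real, Complex.norm_real,
    Real.norm_of_nonneg (hX.nonneg y)]
  have h1 := kk_axis he y
  have h2 := hP y
  have h3 := hX.nonneg y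
  calc x y * (‖Psi (y * I)‖ * ‖kk e (y * I)‖) * Real.exp (-(3 * e * u)) ≤
      x y * (M * (9 / 4)) * Real.exp (-(3 * e * u)) := by
        gcongr
        exact (norm_nonneg _).trans h2
    _ = _ := by ring

/-- (6.2) -/
theorem sj_bound {n : ℕ} {X Psi : ℂ → ℂ} {x : ℝ → ℝ} (hX : WinH n X x) {e u M : ℝ} (he : 0 < e)
    (hP : ∀ y : ℝ, ‖Psi (y * I)‖ ≤ M) :
    ‖∫ y : ℝ, ff X Psi e u (y * I)‖ ≤ 9 / 4 * M * Real.exp (-(3 * e * u)) := by
  have hM : 0 ≤ M := (norm_nonneg _).trans (hP 0)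
  have h1 := norm_integral_le_of_norm_le (hX.int.const_mul (9 / 4 * M * Real.exp (-(3 * e * u))))
    (ae_of_all _ fun y => ff_bound hX he hP y (u := u))
  rw [integral_const_mul] at h1
  refine h1.trans ?_
  have h2 : 0 ≤ 9 / 4 * M * Real.exp (-(3 * e * u)) := by positivity
  calc 9 / 4 * M * Real.exp (-(3 * e * u)) * ∫ y, x y ≤ 9 / 4 * M * Real.exp (-(3 * e * u)) * 1 :=
        mul_le_mul_of_nonneg_left hX.mass h2
    _ = _ := mul_one _

/-- (6.3) -/
theorem sj_small {n : ℕ} {X Psi : ℂ → ℂ} {x : ℝ → ℝ} (hX : WinH n X x) {e u M : ℝ} (he : 0 < e)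
    (he1 : e ≤ 1) (hu : 0 ≤ u) (hun : u ≤ 4.08 * n)
    (hc : ContinuousOn Psi {s | 0 ≤ s.re}) (hd : DifferentiableOn ℂ Psi {s | 0 < s.re})
    (hP : ∀ y : ℝ, ‖Psi (y * I)‖ ≤ M)
    (hS : ∀ s : ℂ, 0 ≤ s.re → s.re ≤ 1 / 10 ^ 10 → 1 / 2 ≤ s.im → s.im ≤ 3 / 2 → ‖Psi s‖ ≤ M)
    (hJ : ∀ y : ℝ, 0.9975 ≤ y → y ≤ 0.9995 →
      ‖Psi ((1 / 10 ^ 10 : ℝ) + y * I)‖ ≤ M * Real.exp (-(4.12 * (1 / 10 ^ 10) * n))) :
    ‖∫ y : ℝ, ff X Psi e u (y * I)‖ ≤ 25 * M * Real.exp (-(35 / 10 ^ 13 * n)) := by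
  have hM : 0 ≤ M := (norm_nonneg _).trans (hP 0)
  have hn0 : (0 : ℝ) ≤ n := Nat.cast_nonneg n
  set κ : ℝ := 1 / 10 ^ 10 with hκ
  have hκ0 : 0 < κ := by rw [hκ]; positivity
  have hκ1 : κ ≤ 1 := by rw [hκ]; norm_num
  set f := ff X Psi e u with hf
  -- integrability on the axis
  have hmeas : AEStronglyMeasurable (fun y : ℝ => f (y * I)) volume := by
    have hline : Continuous fun y : ℝ => (y : ℂ) * I := by fun_prop
    have h1 : Continuous fun y : ℝ => Psi (y * I) := by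
      rw [← continuousOn_univ]
      refine hc.comp hline.continuousOn fun y _ => ?_
      simp
    have h2 : Continuous fun y : ℝ => kk e (y * I) := by
      unfold kk
      have h3 : ∀ b : ℝ, 0 < b → ∀ y : ℝ, (b : ℂ) - y * I ≠ 0 := by
        intro b hb y h
        have := congrArg Complex.re h
        simp at this
        linarith
      have h4 := h3 e he
      have h5 := h3 (2 * e) (by linarith)
      push_cast at h5
      exact (continuous_const.div (by fun_prop) h4).add (continuous_const.div (by fun_prop) h5)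
    have h3 : Continuous fun y : ℝ => X (-I * ((y : ℂ) * I)) := hX.diff.continuous.comp (by fun_prop)
    have h4 : Continuous fun y : ℝ => cexp (-(3 * e - (y : ℂ) * I) * u) := by fun_prop
    exact ((h3.mul (h1.mul h2)).mul h4).aestronglyMeasurable
  have hint : Integrable fun y : ℝ => f (y * I) :=
    Integrable.mono' (hX.int.const_mul (9 / 4 * M * Real.exp (-(3 * e * u)))) hmeas
      (ae_of_all _ fun y => ff_bound hX he hP y)
  have he3 : Real.exp (-(3 * e * u)) ≤ 1 := by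
    rw [Real.exp_le_one_iff]
    have := mul_nonneg he.le hu
    linarith
  -- outside [1/2, 3/2]
  have hout : ‖∫ y in (Icc (1 / 2 : ℝ) (3 / 2))ᶜ, f (y * I)‖ ≤ 9 / 4 * M * Real.exp (-4 * n) := by
    have h1 := norm_integral_le_of_norm_le (μ := volume.restrict (Icc (1 / 2 : ℝ) (3 / 2))ᶜ)
      (hX.int.integrableOn.const_mul (9 / 4 * M * Real.exp (-(3 * e * u))))
      (ae_of_all _ fun y => ff_bound hX he hP y (u := u))
    rw [integral_const_mul] at h1
    refine h1.trans ?_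
    have h3 : 9 / 4 * M * Real.exp (-(3 * e * u)) ≤ 9 / 4 * M := mul_le_of_le_one_right (by positivity) he3
    have h2 : 0 ≤ ∫ y in (Icc (1 / 2 : ℝ) (3 / 2))ᶜ, x y := integral_nonneg fun y => hX.nonneg y
    calc 9 / 4 * M * Real.exp (-(3 * e * u)) * ∫ y in (Icc (1 / 2 : ℝ) (3 / 2))ᶜ, x y
        ≤ 9 / 4 * M * ∫ y in (Icc (1 / 2 : ℝ) (3 / 2))ᶜ, x y := mul_le_mul_of_nonneg_right h3 h2
      _ ≤ _ := mul_le_mul_of_nonneg_left hX.tail (by positivity)
  -- the rectangle
  have hu2 : Real.exp (κ * u) ≤ Real.exp (κ * (4.08 * n)) :=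
    Real.exp_le_exp.2 (mul_le_mul_of_nonneg_left hun hκ0.le)
  have hfs : ∀ t y : ℝ, 0 ≤ t → t ≤ κ → 1 / 2 ≤ y → ∀ m : ℝ, ‖Psi (t + y * I)‖ ≤ m →
      ‖f (t + y * I)‖ ≤ Real.exp (5 / 10 ^ 13 * n) * x y * (m * 5) * Real.exp (κ * (4.08 * n)) := by
    intro t y ht0 htκ hy m hm
    have e1 : -I * ((t : ℂ) + y * I) = y + (-t : ℝ) * I := by
      push_cast
      rw [show -I * ((t : ℂ) + y * I) = -(I * I) * y - t * I by ring, I_mul_I]
      ring
    have h1 : ‖X (-I * ((t : ℂ) + y * I))‖ ≤ Real.exp (5 / 10 ^ 13 * n) * x y := by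
      rw [e1]
      refine (hX.shift y (-t)).trans (mul_le_mul_of_nonneg_right (Real.exp_le_exp.2 ?_) (hX.nonneg y))
      have h2 : (-t) ^ 2 ≤ κ ^ 2 := by nlinarith
      have h3 : (n : ℝ) * (-t) ^ 2 / (2 * (1 / 10 ^ 4) ^ 2) ≤ n * κ ^ 2 / (2 * (1 / 10 ^ 4) ^ 2) := by
        gcongr
      refine h3.trans (le_of_eq ?_)
      rw [hκ]
      ring
    have h2 : ‖kk e ((t : ℂ) + y * I)‖ ≤ 5 := kk_strip he he1 (by simpa using hy)
    have h3 : ‖cexp (-(3 * e - ((t : ℂ) + y * I)) * u)‖ ≤ Real.exp (κ * (4.08 * n)) := by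
      refine (norm_exp_le he hu _).trans ((Real.exp_le_exp.2 ?_).trans hu2)
      simp only [add_re, ofReal_re, mul_re, I_re, mul_zero, ofReal_im, I_im, mul_one, sub_self, add_zero]
      exact mul_le_mul_of_nonneg_right htκ hu
    have hm0 : 0 ≤ m := (norm_nonneg _).trans hm
    rw [hf, ff, norm_mul, norm_mul, norm_mul]
    have h4 : ‖Psi ((t : ℂ) + y * I)‖ * ‖kk e ((t : ℂ) + y * I)‖ ≤ m * 5 :=
      mul_le_mul hm h2 (norm_nonneg _) hm0
    have h5 := hX.nonneg y
    exact mul_le_mul (mul_le_mul h1 h4 (by positivity) (by positivity)) h3 (norm_nonneg _) (by positivity)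
  have hMn : ∀ t y : ℝ, 0 ≤ t → t ≤ κ → 1 / 2 ≤ y → y ≤ 3 / 2 → y ≤ 0.9975 ∨ 0.9995 ≤ y →
      ‖f (t + y * I)‖ ≤ 5 * M * Real.exp (-3 * n) := by
    intro t y ht0 htκ hy hy2 hyJ
    have h1 := hfs t y ht0 htκ hy M (hS _ (by simpa using ht0) (by simpa using htκ) (by simpa using hy)
      (by simpa using hy2))
    refine h1.trans ?_
    have h2 := hX.small y hyJ
    calc Real.exp (5 / 10 ^ 13 * n) * x y * (M * 5) * Real.exp (κ * (4.08 * n)) ≤
        Real.exp (5 / 10 ^ 13 * n) * Real.exp (-4 * n) * (M * 5) * Real.exp (κ * (4.08 * n)) := by gcongr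
      _ = 5 * M * Real.exp (5 / 10 ^ 13 * n + -4 * n + κ * (4.08 * n)) := by
          rw [Real.exp_add, Real.exp_add]
          ring
      _ ≤ 5 * M * Real.exp (-3 * n) := by
          refine mul_le_mul_of_nonneg_left (Real.exp_le_exp.2 ?_) (by positivity)
          rw [hκ]
          linarith
  have hrect := rect_shift (f := f) (κ := κ) (a := 1 / 2) (b := 3 / 2) (M := 5 * M * Real.exp (-3 * n))
    hκ0.le (by norm_num) ?_ ?_ ?_ ?_
  · -- the shifted segment
    have hpt : ∀ y ∈ Icc (1 / 2 : ℝ) (3 / 2), ‖f (κ + y * I)‖ ≤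
        5 * M * Real.exp (-(35 / 10 ^ 13 * n)) * x y + 5 * M * Real.exp (-3 * n) := by
      intro y hy
      by_cases hJ' : 0.9975 ≤ y ∧ y ≤ 0.9995
      · have h1 := hfs κ y hκ0.le le_rfl hy.1 _ (hJ y hJ'.1 hJ'.2)
        have h2 : Real.exp (5 / 10 ^ 13 * n) * x y * (M * Real.exp (-(4.12 * (1 / 10 ^ 10) * n)) * 5) *
            Real.exp (κ * (4.08 * n)) = 5 * M * Real.exp (-(35 / 10 ^ 13 * n)) * x y := by
          have h3 : Real.exp (-(35 / 10 ^ 13 * n)) = Real.exp (5 / 10 ^ 13 * n) *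
              Real.exp (-(4.12 * (1 / 10 ^ 10) * n)) * Real.exp (κ * (4.08 * n)) := by
            rw [← Real.exp_add, ← Real.exp_add]
            congr 1
            rw [hκ]
            ring
          rw [h3]
          ring
        rw [h2] at h1
        have h4 : 0 ≤ 5 * M * Real.exp (-3 * n) := by positivity
        linarith
      · have h1 := hMn κ y hκ0.le le_rfl hy.1 hy.2 (by
          by_contra h
          push Not at h
          exact hJ' ⟨h.1.le, h.2.le⟩)
        have h4 : 0 ≤ 5 * M * Real.exp (-(35 / 10 ^ 13 * n)) * x y := by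
          have := hX.nonneg y
          positivity
        exact h1.trans (le_add_of_nonneg_left h4)
    have hcont : ContinuousOn (fun y : ℝ => f (κ + y * I)) (Icc (1 / 2) (3 / 2)) := by
      have hline : Continuous fun y : ℝ => (κ : ℂ) + (y : ℂ) * I := by fun_prop
      intro y hy
      have h0 : 0 < ((κ : ℂ) + y * I).re := by simpa using hκ0
      have h1 : DifferentiableAt ℂ Psi ((κ : ℂ) + y * I) := by
        refine hd.differentiableAt ((isOpen_lt continuous_const Complex.continuous_re).mem_nhds h0)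
      have h2 : DifferentiableAt ℂ (kk e) ((κ : ℂ) + y * I) := kk_diff (by simpa using (by linarith [hy.1] : (0 : ℝ) < y))
      have h3 : DifferentiableAt ℂ f ((κ : ℂ) + y * I) := by
        rw [hf]
        unfold ff
        have h4 : DifferentiableAt ℂ (fun s : ℂ => X (-I * s)) ((κ : ℂ) + y * I) :=
          (hX.diff _).comp _ (by fun_prop)
        exact (h4.mul (h1.mul h2)).mul (by fun_prop)
      exact (ContinuousAt.comp (f := fun y : ℝ => (κ : ℂ) + y * I) h3.continuousAt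
        hline.continuousAt).continuousWithinAt
    have hseg : ∫ y in (1 / 2 : ℝ)..(3 / 2), ‖f (κ + y * I)‖ ≤
        5 * M * Real.exp (-(35 / 10 ^ 13 * n)) + 5 * M * Real.exp (-3 * n) := by
      rw [intervalIntegral.integral_of_le (by norm_num)]
      have hi1 : IntegrableOn (fun y : ℝ => ‖f (κ + y * I)‖) (Icc (1 / 2) (3 / 2)) :=
        (hcont.norm).integrableOn_compact isCompact_Icc
      have hi2 : IntegrableOn (fun y : ℝ => 5 * M * Real.exp (-(35 / 10 ^ 13 * n)) * x y +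
          5 * M * Real.exp (-3 * n)) (Ioc (1 / 2) (3 / 2)) := by
        refine (hX.int.integrableOn.const_mul _).add ?_
        exact integrableOn_const (by simp) enorm_ne_top
      calc ∫ y in Ioc (1 / 2 : ℝ) (3 / 2), ‖f (κ + y * I)‖ ≤
          ∫ y in Ioc (1 / 2 : ℝ) (3 / 2), (5 * M * Real.exp (-(35 / 10 ^ 13 * n)) * x y +
            5 * M * Real.exp (-3 * n)) := by
            refine setIntegral_mono_on (hi1.mono_set Ioc_subset_Icc_self) hi2 measurableSet_Ioc ?_
            intro y hy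
            exact hpt y (Ioc_subset_Icc_self hy)
        _ = 5 * M * Real.exp (-(35 / 10 ^ 13 * n)) * (∫ y in Ioc (1 / 2 : ℝ) (3 / 2), x y) +
            5 * M * Real.exp (-3 * n) := by
            rw [integral_add (hX.int.integrableOn.const_mul _) (integrableOn_const (by simp) enorm_ne_top),
              integral_const_mul]
            simp
            norm_num
        _ ≤ _ := by
            have h1 : ∫ y in Ioc (1 / 2 : ℝ) (3 / 2), x y ≤ 1 :=
              (setIntegral_le_integral hX.int (ae_of_all _ hX.nonneg)).trans hX.mass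
            have h2 : 0 ≤ 5 * M * Real.exp (-(35 / 10 ^ 13 * n)) := by positivity
            nlinarith
    have hsplit : ∫ y : ℝ, f (y * I) = (∫ y in (1 / 2 : ℝ)..(3 / 2), f (y * I)) +
        ∫ y in (Icc (1 / 2 : ℝ) (3 / 2))ᶜ, f (y * I) := by
      rw [intervalIntegral.integral_of_le (by norm_num), ← integral_Icc_eq_integral_Ioc]
      exact (integral_add_compl measurableSet_Icc hint).symm
    have hexp : Real.exp (-3 * n) ≤ Real.exp (-(35 / 10 ^ 13 * n)) := Real.exp_le_exp.2 (by linarith)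
    have hexp2 : Real.exp (-4 * n) ≤ Real.exp (-(35 / 10 ^ 13 * n)) := Real.exp_le_exp.2 (by linarith)
    have hE0 : 0 < Real.exp (-(35 / 10 ^ 13 * n)) := Real.exp_pos _
    rw [hsplit]
    refine (norm_add_le _ _).trans ?_
    set E1 := Real.exp (-(35 / 10 ^ 13 * n)) with hE1
    set E3 := Real.exp (-3 * n) with hE3
    set E4 := Real.exp (-4 * n) with hE4
    have t1 : M * E3 ≤ M * E1 := mul_le_mul_of_nonneg_left hexp hM
    have t2 : M * E4 ≤ M * E1 := mul_le_mul_of_nonneg_left hexp2 hM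
    have t3 : κ * (M * E3) ≤ M * E1 := by
      have h0 : 0 ≤ M * E3 := by positivity
      nlinarith
    have t4 : 0 ≤ M * E1 := by positivity
    nlinarith
  · -- continuity on the closed rectangle
    intro s hs
    rw [Complex.mem_reProdIm] at hs
    obtain ⟨hs1, hs2⟩ := hs
    have him : 0 < s.im := by linarith [hs2.1]
    have h1 : ContinuousWithinAt Psi (Icc 0 κ ×ℂ Icc (1 / 2) (3 / 2)) s := by
      refine (hc s hs1.1).mono ?_
      intro z hz
      exact (Complex.mem_reProdIm.1 hz).1.1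
    have h2 : ContinuousAt (kk e) s := (kk_diff him).continuousAt
    have h4 : ContinuousAt (fun s : ℂ => X (-I * s)) s :=
      (hX.diff.continuous.comp (by fun_prop : Continuous fun s : ℂ => -I * s)).continuousAt
    have h5 : ContinuousAt (fun s : ℂ => cexp (-(3 * e - s) * u)) s := by fun_prop
    exact (h4.continuousWithinAt.mul (h1.mul h2.continuousWithinAt)).mul h5.continuousWithinAt
  · intro s hs
    rw [Complex.mem_reProdIm] at hs
    obtain ⟨hs1, hs2⟩ := hs
    have him : 0 < s.im := by linarith [hs2.1]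
    have h1 : DifferentiableAt ℂ Psi s :=
      hd.differentiableAt ((isOpen_lt continuous_const Complex.continuous_re).mem_nhds hs1.1)
    have h4 : DifferentiableAt ℂ (fun s : ℂ => X (-I * s)) s := (hX.diff _).comp _ (by fun_prop)
    exact ((h4.mul (h1.mul (kk_diff him))).mul (by fun_prop)).differentiableWithinAt
  · intro t ht
    have := hMn t (1 / 2) ht.1 ht.2 le_rfl (by norm_num) (Or.inl (by norm_num))
    simpa using this
  · intro t ht
    have := hMn t (3 / 2) ht.1 ht.2 (by norm_num) le_rfl (Or.inr (by norm_num))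
    simpa using this

end

end Pool.BLP
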