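import Pool.Agent.Lib.BLP.Props
import Pool.Agent.Lib.BLP.Shift
import Pool.Agent.Lib.BLP.WinW
import Pool.Agent.Lib.BLP.QD

/-!
Project BLP (MP_ef2672), row R21 (helper82): the bounds (6.2), (6.3) for the wave packet.
-/

open Complex MeasureTheory Finset Set

namespace Pool.Agent.BLP

open Pool.Agent.KL Pool.Agent.Lib.MP_ef2672_gt_Tauber

noncomputable section

/-- the window satisfies the hypotheses of `sj_bound` and `sj_small` -/
theorem winH (hW : WIN) {n : ℕ} (hn : 1 ≤ n) : Pool.BLP.WinH n (chip n) (chr n) := by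
  have h := hW n hn
  refine ⟨h.diff, h.real, h.nonneg, ?_, ?_, integrable_chr hn, ?_, ?_⟩
  · intro y t
    have h1 := h.shift (-t) y
    have e1 : (y : ℂ) - ((-t : ℝ) : ℂ) * I = (y : ℂ) + (t : ℂ) * I := by push_cast; ring
    have e2 : (5 * 10 ^ 7 * n * (-t) ^ 2 : ℝ) = n * t ^ 2 / (2 * (1 / 10 ^ 4) ^ 2) := by ring
    rw [e1, e2] at h1
    exact h1
  · intro y hy
    have h1 := h.far y (by norm_num at hy ⊢; exact hy)
    rw [neg_mul]
    exact h1
  · rw [integral_chr hn]
    norm_num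
  · rw [neg_mul]
    exact integral_chr_out' hn

lemma kk_eq (e : ℝ) (s : ℂ) : Pool.BLP.kk e s = kf e s := rfl

/-- `SJ` in terms of the abstract packet -/
theorem abs_SJ_le (hW : WIN) {n : ℕ} (hn : 1 ≤ n) {Ψ : ℂ → ℂ} {C : ℝ} (h : PWH Ψ C) {e : ℝ} (he : 0 < e)
    (u : ℝ) : |SJ (chr n) Ψ e u| ≤
      Real.pi⁻¹ * ‖∫ y : ℝ, Pool.BLP.ff (chip n) Ψ e u (y * I)‖ := by
  have hw := winH hW hn
  have hc : Continuous (chr n) := (hW n hn).cont
  have h0 : ∀ y : ℝ, Pool.BLP.ff (chip n) Ψ e u (y * I) = (chr n y : ℂ) * Ψ ((y : ℂ) * I) *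
      kf e ((y : ℂ) * I) * Complex.exp (-((3 * (e : ℂ) - (y : ℂ) * I) * (u : ℂ))) := by
    intro y
    rw [Pool.BLP.ff_axis, hw.real, kk_eq, neg_mul]
    ring
  have hcont : Continuous fun y : ℝ => (chr n y : ℂ) * Ψ ((y : ℂ) * I) *
      kf e ((y : ℂ) * I) * Complex.exp (-((3 * (e : ℂ) - (y : ℂ) * I) * (u : ℂ))) := by
    have h1 := QDaux.line_cont h
    have h2 := QDaux.kf_cont he
    have h3 : Continuous fun y : ℝ => (chr n y : ℂ) := Complex.continuous_ofReal.comp hc
    have h4 : Continuous fun y : ℝ => cexp (-((3 * (e : ℂ) - (y : ℂ) * I) * (u : ℂ))) := by fun_prop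
    exact ((h3.mul h1).mul h2).mul h4
  have hb : ∀ y : ℝ, ‖Ψ ((y : ℂ) * I)‖ ≤ |C| := by
    intro y
    refine (h.bd _ (by simp)).trans ?_
    have h1 : 0 ≤ ‖(y : ℂ) * I‖ ^ 2 := by positivity
    rw [div_le_iff₀ (by positivity)]
    have h2 := le_abs_self C
    have h3 := abs_nonneg C
    nlinarith
  have hint : Integrable fun y : ℝ => (chr n y : ℂ) * Ψ ((y : ℂ) * I) *
      kf e ((y : ℂ) * I) * Complex.exp (-((3 * (e : ℂ) - (y : ℂ) * I) * (u : ℂ))) := by
    refine Integrable.mono' (hw.int.const_mul (9 / 4 * |C| * Real.exp (-(3 * e * u))))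
      hcont.aestronglyMeasurable (ae_of_all _ fun y => ?_)
    rw [← h0]
    exact Pool.BLP.ff_bound hw he hb y
  have h2 : SJ (chr n) Ψ e u = Real.pi⁻¹ * (∫ y : ℝ, Pool.BLP.ff (chip n) Ψ e u (y * I)).re := by
    rw [SJ, integral_congr_ae (ae_of_all _ h0)]
    congr 1
    exact integral_re hint
  rw [h2, abs_mul, abs_of_pos (inv_pos.2 Real.pi_pos)]
  exact mul_le_mul_of_nonneg_left (Complex.abs_re_le_norm _) (inv_pos.2 Real.pi_pos).le

lemma pi_inv_le : Real.pi⁻¹ ≤ 1 / 3 := by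
  rw [one_div]
  exact inv_anti₀ (by norm_num) Real.pi_gt_three.le

/-- R21. -/
theorem sjb (hW : WIN) (hP : PLS) (hB : BLOW) : SJB := by
  obtain ⟨hB1, n0, hB2⟩ := hB
  refine ⟨max n0 100000000000000, fun n hn hev M C Ψ hM hpw hax hfar => ?_⟩
  have hn0 : n0 ≤ n := (le_max_left _ _).trans hn
  have hn1 : 100000000000000 ≤ n := (le_max_right _ _).trans hn
  have hn2 : 2 ≤ n := by omega
  have hnR : (100000000000000 : ℝ) ≤ n := by exact_mod_cast hn1
  have hn1' : 1 ≤ n := by omega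
  have he : 0 < ee n := by
    unfold ee
    have : (0 : ℝ) < n := by linarith
    positivity
  have he1 : ee n ≤ 1 := by
    unfold ee
    have : (1 : ℝ) ≤ √(n : ℝ) := by
      rw [Real.one_le_sqrt]
      linarith
    rw [div_le_one (by linarith)]
    exact this
  have hw := winH hW hn1'
  have hpl := hP n hn2 hev M C Ψ hM hpw hax hfar
  have hpi := pi_inv_le
  have hpi0 : 0 < Real.pi⁻¹ := inv_pos.2 Real.pi_pos
  refine ⟨fun u _ => ?_, fun u hu hun => ?_⟩
  · refine (abs_SJ_le hW hn1' hpw he u).trans ?_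
    have h1 := Pool.BLP.sj_bound hw (u := u) he hax
    have h2 := Real.exp_pos (-(3 * ee n * u))
    calc Real.pi⁻¹ * ‖∫ y : ℝ, Pool.BLP.ff (chip n) Ψ (ee n) u (y * I)‖ ≤
        1 / 3 * (9 / 4 * (2 * M) * Real.exp (-(3 * ee n * u))) :=
          mul_le_mul hpi h1 (norm_nonneg _) (by norm_num)
      _ = 3 / 2 * (M * Real.exp (-(3 * ee n * u))) := by ring
      _ ≤ 5 * (M * Real.exp (-(3 * ee n * u))) := by
          have : 0 < M * Real.exp (-(3 * ee n * u)) := by positivity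
          linarith
      _ = _ := by ring
  · refine (abs_SJ_le hW hn1' hpw he u).trans ?_
    have h1 := Pool.BLP.sj_small hw (u := u) (M := 11 * M) he he1 hu (by linarith) hpw.cont hpw.diff
      (fun y => (hax y).trans (by linarith)) ?_ ?_
    · calc Real.pi⁻¹ * ‖∫ y : ℝ, Pool.BLP.ff (chip n) Ψ (ee n) u (y * I)‖ ≤
        1 / 3 * (25 * (11 * M) * Real.exp (-(35 / 10 ^ 13 * n))) :=
          mul_le_mul hpi h1 (norm_nonneg _) (by norm_num)
        _ = M * (275 / 3) * Real.exp (-(35 / 10 ^ 13 * n)) := by ring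
        _ ≤ M * Real.exp (15 / 10 ^ 13 * n) * Real.exp (-(35 / 10 ^ 13 * n)) := by
            have h3 : (275 / 3 : ℝ) ≤ Real.exp (15 / 10 ^ 13 * n) := by
              refine le_trans ?_ (Real.add_one_le_exp _)
              linarith
            gcongr
        _ = M * Real.exp (-(2 / 10 ^ 12 * n)) := by
            rw [mul_assoc, ← Real.exp_add]
            congr 2
            ring
    · intro s hs0 hs1 hs2 hs3
      have h2 := hpl s hs0
      have h3 := hB1 n hn2 hev s.re s.im hs0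
      rw [Complex.re_add_im] at h3
      have h4 : 1 ≤ ‖Bf n s‖ ^ 2 := one_le_pow₀ h3
      have h5 : ‖1 + s‖ ≤ 2.6 := by
        refine (Complex.norm_le_abs_re_add_abs_im _).trans ?_
        rw [abs_of_nonneg (by simp; linarith), abs_of_nonneg (by simp; linarith)]
        simp only [add_re, one_re, add_im, one_im]
        norm_num at hs1 ⊢
        linarith
      calc ‖Ψ s‖ = ‖Ψ s‖ * 1 := (mul_one _).symm
        _ ≤ ‖Ψ s‖ * ‖Bf n s‖ ^ 2 := mul_le_mul_of_nonneg_left h4 (norm_nonneg _)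
        _ ≤ 4 * M * ‖1 + s‖ := h2
        _ ≤ 4 * M * 2.6 := mul_le_mul_of_nonneg_left h5 (by linarith)
        _ ≤ 11 * M := by norm_num; linarith
    · intro y hy1 hy2
      set s : ℂ := ((1 / 10 ^ 10 : ℝ) : ℂ) + y * I with hs
      have hre : s.re = 1 / 10 ^ 10 := by
        rw [hs, add_re, ofReal_re]
        simp only [mul_re, ofReal_re, I_re, mul_zero, ofReal_im, I_im, mul_one, sub_self, add_zero]
      have him : s.im = y := by
        rw [hs, add_im, ofReal_im]
        simp only [mul_im, ofReal_re, I_im, mul_one, ofReal_im, I_re, mul_zero, add_zero, zero_add]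
      have h2 := hpl s (by rw [hre]; positivity)
      have h3 := hB2 n hn0 hev y (by norm_num at hy1 ⊢; exact hy1) (by norm_num at hy2 ⊢; exact hy2)
      rw [← hs] at h3
      have h5 : ‖1 + s‖ ≤ 2.6 := by
        refine (Complex.norm_le_abs_re_add_abs_im _).trans ?_
        simp only [add_re, one_re, add_im, one_im, hre, him]
        rw [abs_of_nonneg (by positivity), abs_of_nonneg (by norm_num at hy1 ⊢; linarith)]
        norm_num at hy2 ⊢
        linarith
      have h6 : ‖Ψ s‖ * Real.exp (412 / 10 ^ 12 * n) ≤ 11 * M := by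
        calc ‖Ψ s‖ * Real.exp (412 / 10 ^ 12 * n) ≤ ‖Ψ s‖ * ‖Bf n s‖ ^ 2 :=
              mul_le_mul_of_nonneg_left h3 (norm_nonneg _)
          _ ≤ 4 * M * ‖1 + s‖ := h2
          _ ≤ 4 * M * 2.6 := mul_le_mul_of_nonneg_left h5 (by linarith)
          _ ≤ 11 * M := by norm_num; linarith
      have h7 : Real.exp (-(4.12 * (1 / 10 ^ 10) * n)) = (Real.exp (412 / 10 ^ 12 * n))⁻¹ := by
        rw [← Real.exp_neg]
        congr 1
        ring
      rw [h7, ← div_eq_mul_inv, le_div_iff₀ (Real.exp_pos _)]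
      exact h6

end

end Pool.Agent.BLP
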