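import Pool.Agent.Lib.BLP.CLA

/-!
Project BLP (MP_ef2672), row R24: the baseline (helper25).
-/

set_option autoImplicit false

open Complex MeasureTheory Finset Set Filter Topology

namespace Pool.Agent.BLP

open Pool.Agent.KL

noncomputable section

namespace BASaux

lemma norm_bd {n : ℕ} (hn : 2 ≤ n) {Ψ : ℂ → ℂ} (b1 : ∀ y : ℝ, ‖Ψ ((y : ℂ) * I)‖ ≤ 2)
    (far : ∀ s : ℂ, 0 ≤ s.re → s ≠ 0 → ‖Ψ s‖ ≤ (‖s‖ ^ (2 * n - 1))⁻¹) (y : ℝ) :
    ‖Ψ ((y : ℂ) * I)‖ ≤ 8 * (1 + y ^ 2)⁻¹ := by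
  rcases le_total (|y|) 1 with h | h
  · have h3 : y ^ 2 ≤ 1 := by
      rw [← sq_abs]
      nlinarith [abs_nonneg y]
    refine (b1 y).trans ?_
    rw [← div_eq_mul_inv, le_div_iff₀ (by positivity)]
    linarith
  · have hy0 : ((y : ℂ) * I) ≠ 0 := by
      intro h0
      have h1 : ‖(y : ℂ) * I‖ = 0 := by rw [h0, norm_zero]
      rw [norm_mul, Complex.norm_I, Complex.norm_real, Real.norm_eq_abs, mul_one] at h1
      linarith
    have h1 := far ((y : ℂ) * I) (by simp) hy0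
    rw [norm_mul, Complex.norm_I, Complex.norm_real, Real.norm_eq_abs, mul_one] at h1
    have h2 : |y| ^ 2 ≤ |y| ^ (2 * n - 1) := pow_le_pow_right₀ h (by omega)
    have hy2 : 1 ≤ y ^ 2 := by
      rw [← sq_abs]
      nlinarith
    rw [sq_abs] at h2
    have h3 : (|y| ^ (2 * n - 1))⁻¹ ≤ (y ^ 2)⁻¹ := inv_anti₀ (by linarith) h2
    have h4 : (y ^ 2)⁻¹ ≤ 8 * (1 + y ^ 2)⁻¹ := by
      rw [← div_eq_mul_inv, le_div_iff₀ (by positivity), inv_mul_le_iff₀ (by linarith)]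
      linarith
    exact (h1.trans h3).trans h4

lemma G_bd {n : ℕ} (hn : 2 ≤ n) {Ψ : ℂ → ℂ} (b1 : ∀ y : ℝ, ‖Ψ ((y : ℂ) * I)‖ ≤ 2)
    (far : ∀ s : ℂ, 0 ≤ s.re → s ≠ 0 → ‖Ψ s‖ ≤ (‖s‖ ^ (2 * n - 1))⁻¹) :
    (2 * Real.pi)⁻¹ * (∫ y : ℝ, (1 - (0 : ℝ) - 0) * ‖Ψ ((y : ℂ) * I)‖) ≤ 4 := by
  have h1 : ∫ y : ℝ, (1 - (0 : ℝ) - 0) * ‖Ψ ((y : ℂ) * I)‖ ≤ ∫ y : ℝ, 8 * (1 + y ^ 2)⁻¹ := by
    refine integral_mono_of_nonneg (Eventually.of_forall fun y => ?_)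
      (integrable_inv_one_add_sq.const_mul 8) (Eventually.of_forall fun y => ?_)
    · simp
    · have := norm_bd hn b1 far y
      simpa using this
  have h2 : ∫ y : ℝ, 8 * (1 + y ^ 2)⁻¹ = 8 * Real.pi := by
    rw [integral_const_mul, integral_univ_inv_one_add_sq]
  rw [h2] at h1
  have hpi := Real.pi_pos
  calc _ ≤ (2 * Real.pi)⁻¹ * (8 * Real.pi) := mul_le_mul_of_nonneg_left h1 (by positivity)
    _ = 4 := by
      field_simp
      norm_num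

end BASaux

/-- **The baseline.** -/
theorem bas (hqd : QD) (hsn : SNEG) (hb1 : BND1) (hb2 : BND2) : BAS := by
  intro p hp
  obtain ⟨ε1, hε1, H1⟩ := hb1 p hp
  obtain ⟨D, n1, hD, H2⟩ := hb2 p hp.zero hp.one.le
  obtain ⟨C, hC, H3⟩ := hsn D 4 hD (by norm_num)
  refine ⟨C, max 4 n1, hC, ?_⟩
  intro n hn hev h Ψ hΨ u hu
  have m1 : 4 ≤ n := (le_max_left _ _).trans hn
  have m2 : n1 ≤ n := (le_max_right _ _).trans hn
  have hn1 : 1 ≤ n := by omega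
  have hn' : (0 : ℝ) < n := by exact_mod_cast hn1
  obtain ⟨C0, hC0⟩ := hΨ.pw
  obtain ⟨B1, -⟩ := H1 0 le_rfl hε1.le n m1 hev h Ψ hΨ
  have B1' : ∀ y : ℝ, ‖Ψ ((y : ℂ) * I)‖ ≤ 2 := fun y => by
    have := B1 y
    simpa using this
  have hS1 := CLAaux.le_S0 hn1
  have hS : 0 ≤ S0 n := le_trans (by positivity) hS1
  obtain ⟨P1, P2, -⟩ := H2 0 le_rfl zero_le_one n m2 hev h Ψ hΨ (by simpa using hS)
  have he : 0 < ee n := by
    unfold ee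
    positivity
  have hlog : 0 ≤ Real.log n := Real.log_nonneg (by exact_mod_cast hn1)
  have hu0 : 0 ≤ u := by
    refine le_trans ?_ hu
    positivity
  have G := BASaux.G_bd (by omega) B1' hΨ.far
  have Q := hqd Ψ C0 hC0 (fun _ => 0) continuous_const (fun _ => le_rfl) (fun _ => by norm_num)
    (ee n) 4 he G u hu0
  have hz : S0 n - n * 0 * p.coeff 1 = S0 n := by ring
  rw [hz] at P1 P2
  have N := H3 n hn1 (S0 n) _ _ hS P1 P2 u hu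
  have hJ : SJ (fun _ => 0) Ψ (ee n) u = 0 := by
    unfold SJ
    simp
  rw [hJ] at Q
  linarith

end

end Pool.Agent.BLP
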