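import Pool.Agent.Lib.BLP.Props

/-!
# Row EST2: the exponent near the imaginary axis
-/

set_option autoImplicit false

namespace Pool.Agent.BLP

open Complex Polynomial Finset

noncomputable section

/-- differences of powers in the unit disc -/
lemma est2_pow_sub {a b : ℂ} (ha : ‖a‖ ≤ 1) (hb : ‖b‖ ≤ 1) (k : ℕ) : ‖a ^ k - b ^ k‖ ≤ k * ‖a - b‖ := by
  induction k with
  | zero => simp
  | succ k ih =>
    have h1 : a ^ (k + 1) - b ^ (k + 1) = a * (a ^ k - b ^ k) + (a - b) * b ^ k := by ring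
    rw [h1]
    refine (norm_add_le _ _).trans ?_
    rw [norm_mul, norm_mul, norm_pow]
    have h2 : ‖a‖ * ‖a ^ k - b ^ k‖ ≤ 1 * (k * ‖a - b‖) := mul_le_mul ha ih (norm_nonneg _) zero_le_one
    have h3 : ‖a - b‖ * ‖b‖ ^ k ≤ ‖a - b‖ * 1 :=
      mul_le_mul_of_nonneg_left (pow_le_one₀ (norm_nonneg _) hb) (norm_nonneg _)
    push_cast
    linarith

/-- second differences of powers in the unit disc -/
lemma est2_second {a b c : ℂ} (ha : ‖a‖ ≤ 1) (hb : ‖b‖ ≤ 1) (hc : ‖c‖ ≤ 1) {X : ℝ} (hX : 0 ≤ X)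
    (h1 : ‖a + b - 2 * c‖ ≤ 6 * X) (h2 : ‖a - c‖ ^ 2 ≤ 3 * X) (h3 : ‖b - c‖ ^ 2 ≤ 3 * X) (k : ℕ) :
    ‖a ^ k + b ^ k - 2 * c ^ k‖ ≤ 6 * (k : ℝ) ^ 2 * X := by
  induction k with
  | zero =>
    simp only [pow_zero]
    norm_num
  | succ k ih =>
    have e1 : a ^ (k + 1) + b ^ (k + 1) - 2 * c ^ (k + 1) =
        c * (a ^ k + b ^ k - 2 * c ^ k) + ((a - c) * (a ^ k - c ^ k) + (b - c) * (b ^ k - c ^ k)) +
        (a + b - 2 * c) * c ^ k := by ring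
    rw [e1]
    refine (norm_add_le _ _).trans ?_
    have n1 : ‖c * (a ^ k + b ^ k - 2 * c ^ k)‖ ≤ 6 * (k : ℝ) ^ 2 * X := by
      rw [norm_mul]
      calc ‖c‖ * ‖a ^ k + b ^ k - 2 * c ^ k‖ ≤ 1 * (6 * (k : ℝ) ^ 2 * X) :=
            mul_le_mul hc ih (norm_nonneg _) zero_le_one
        _ = _ := one_mul _
    have n2 : ‖(a - c) * (a ^ k - c ^ k)‖ ≤ k * (3 * X) := by
      rw [norm_mul]
      have := est2_pow_sub ha hc k
      calc ‖a - c‖ * ‖a ^ k - c ^ k‖ ≤ ‖a - c‖ * (k * ‖a - c‖) := mul_le_mul_of_nonneg_left this (norm_nonneg _)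
        _ = k * ‖a - c‖ ^ 2 := by ring
        _ ≤ k * (3 * X) := mul_le_mul_of_nonneg_left h2 (Nat.cast_nonneg k)
    have n3 : ‖(b - c) * (b ^ k - c ^ k)‖ ≤ k * (3 * X) := by
      rw [norm_mul]
      have := est2_pow_sub hb hc k
      calc ‖b - c‖ * ‖b ^ k - c ^ k‖ ≤ ‖b - c‖ * (k * ‖b - c‖) := mul_le_mul_of_nonneg_left this (norm_nonneg _)
        _ = k * ‖b - c‖ ^ 2 := by ring
        _ ≤ k * (3 * X) := mul_le_mul_of_nonneg_left h3 (Nat.cast_nonneg k)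
    have n4 : ‖(a + b - 2 * c) * c ^ k‖ ≤ 6 * X := by
      rw [norm_mul, norm_pow]
      calc ‖a + b - 2 * c‖ * ‖c‖ ^ k ≤ (6 * X) * 1 :=
            mul_le_mul h1 (pow_le_one₀ (norm_nonneg _) hc) (by positivity) (by positivity)
        _ = _ := mul_one _
    have n5 := norm_add_le (c * (a ^ k + b ^ k - 2 * c ^ k))
      ((a - c) * (a ^ k - c ^ k) + (b - c) * (b ^ k - c ^ k))
    have n6 := norm_add_le ((a - c) * (a ^ k - c ^ k)) ((b - c) * (b ^ k - c ^ k))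
    push_cast
    nlinarith [mul_nonneg (Nat.cast_nonneg (α := ℝ) k) hX]

/-- the denominators -/
lemma est2_den (r : ℝ) : ‖(1 + (r : ℂ) * I : ℂ)‖ ^ 2 = 1 + r ^ 2 := by
  rw [← Complex.normSq_eq_norm_sq, Complex.normSq_apply]
  simp
  ring

lemma est2_den_ge (r : ℝ) : 1 ≤ ‖(1 + (r : ℂ) * I : ℂ)‖ := by
  have h := est2_den r
  nlinarith [sq_nonneg r, norm_nonneg (1 + (r : ℂ) * I : ℂ)]

lemma est2_den_ne (r : ℝ) : (1 + (r : ℂ) * I : ℂ) ≠ 0 := by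
  intro h
  have := est2_den_ge r
  rw [h, norm_zero] at this
  linarith

lemma est2_frac {y : ℝ} (hy : |y| ≤ 1) (r : ℝ) : ‖(y : ℂ) * I / (1 + (r : ℂ) * I)‖ ≤ 1 := by
  rw [norm_div, norm_mul, Complex.norm_I, mul_one, Complex.norm_real, Real.norm_eq_abs]
  exact (div_le_one (by have := est2_den_ge r; linarith)).2 (hy.trans (est2_den_ge r))

lemma est2_diff {y : ℝ} (hy : |y| ≤ 1) (t : ℝ) :
    ‖(y : ℂ) * I / (1 + ((y + t : ℝ) : ℂ) * I) - (y : ℂ) * I / (1 + (y : ℂ) * I)‖ ^ 2 ≤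
      3 * (t ^ 2 / (1 + t ^ 2)) := by
  have h1 := est2_den_ne (y + t)
  have h2 := est2_den_ne y
  have e1 : (y : ℂ) * I / (1 + ((y + t : ℝ) : ℂ) * I) - (y : ℂ) * I / (1 + (y : ℂ) * I) =
      ((y * t : ℝ) : ℂ) / ((1 + ((y + t : ℝ) : ℂ) * I) * (1 + (y : ℂ) * I)) := by
    rw [div_sub_div _ _ h1 h2]
    congr 1
    push_cast
    linear_combination (-(y : ℂ) * t) * I_sq
  rw [e1, norm_div, norm_mul, Complex.norm_real, Real.norm_eq_abs, div_pow, mul_pow, est2_den, est2_den, sq_abs,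
    ← mul_div_assoc, div_le_div_iff₀ (by positivity) (by positivity)]
  have hy2 : y ^ 2 ≤ 1 := by
    rw [← sq_abs]
    nlinarith [abs_nonneg y]
  have h3 : 1 + t ^ 2 ≤ 3 * (1 + (y + t) ^ 2) := by nlinarith [sq_nonneg (t + 2 * y), sq_nonneg (t + y)]
  calc (y * t) ^ 2 * (1 + t ^ 2) = y ^ 2 * (t ^ 2 * (1 + t ^ 2)) := by ring
    _ ≤ 1 * (t ^ 2 * (1 + t ^ 2)) := mul_le_mul_of_nonneg_right hy2 (by positivity)
    _ ≤ 1 * (t ^ 2 * (3 * (1 + (y + t) ^ 2))) := by gcongr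
    _ = 3 * t ^ 2 * ((1 + (y + t) ^ 2) * 1) := by ring
    _ ≤ 3 * t ^ 2 * ((1 + (y + t) ^ 2) * (1 + y ^ 2)) := by
        have : 1 ≤ 1 + y ^ 2 := by nlinarith [sq_nonneg y]
        gcongr

lemma est2_sum {y : ℝ} (hy : |y| ≤ 1) (t : ℝ) :
    ‖(y : ℂ) * I / (1 + ((y + t : ℝ) : ℂ) * I) + (y : ℂ) * I / (1 + ((y - t : ℝ) : ℂ) * I) -
      2 * ((y : ℂ) * I / (1 + (y : ℂ) * I))‖ ≤ 6 * (t ^ 2 / (1 + t ^ 2)) := by
  have h1 := est2_den_ne (y + t)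
  have h1' := est2_den_ne (y - t)
  have h2 := est2_den_ne y
  have e1 : (y : ℂ) * I / (1 + ((y + t : ℝ) : ℂ) * I) + (y : ℂ) * I / (1 + ((y - t : ℝ) : ℂ) * I) -
      2 * ((y : ℂ) * I / (1 + (y : ℂ) * I)) =
      (y : ℂ) * I * ((-(2 * t ^ 2) : ℝ) : ℂ) /
        ((1 + ((y + t : ℝ) : ℂ) * I) * (1 + ((y - t : ℝ) : ℂ) * I) * (1 + (y : ℂ) * I)) := by
    have g : ∀ c P M Z : ℂ, P ≠ 0 → M ≠ 0 → Z ≠ 0 →
        c / P + c / M - 2 * (c / Z) = c * ((M + P) * Z - 2 * (P * M)) / (P * M * Z) := by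
      intro c P M Z hP hM hZ
      field_simp
    rw [g _ _ _ _ h1 h1' h2]
    congr 2
    push_cast
    linear_combination (2 * (t : ℂ) ^ 2) * I_sq
  rw [e1, norm_div, norm_mul, norm_mul, norm_mul, norm_mul, Complex.norm_I, mul_one, Complex.norm_real,
    Complex.norm_real, Real.norm_eq_abs, Real.norm_eq_abs]
  set P := ‖(1 + ((y + t : ℝ) : ℂ) * I : ℂ)‖ with hP
  set M := ‖(1 + ((y - t : ℝ) : ℂ) * I : ℂ)‖ with hM
  set Z := ‖(1 + (y : ℂ) * I : ℂ)‖ with hZ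
  have hP1 : 1 ≤ P := est2_den_ge _
  have hM1 : 1 ≤ M := est2_den_ge _
  have hZ1 : 1 ≤ Z := est2_den_ge _
  have hP2 : P ^ 2 = 1 + (y + t) ^ 2 := est2_den _
  have hM2 : M ^ 2 = 1 + (y - t) ^ 2 := est2_den _
  have hy2 : y ^ 2 ≤ 1 := by
    rw [← sq_abs]
    nlinarith [abs_nonneg y]
  have h3 : 1 + t ^ 2 ≤ 3 * P ^ 2 := by rw [hP2]; nlinarith [sq_nonneg (t + 2 * y), sq_nonneg (t + y)]
  have h4 : 1 + t ^ 2 ≤ 3 * M ^ 2 := by rw [hM2]; nlinarith [sq_nonneg (t - 2 * y), sq_nonneg (t - y)]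
  have h5 : 1 + t ^ 2 ≤ 3 * (P * M) := by
    have h6 : (1 + t ^ 2) ^ 2 ≤ (3 * (P * M)) ^ 2 := by
      calc (1 + t ^ 2) ^ 2 = (1 + t ^ 2) * (1 + t ^ 2) := by ring
        _ ≤ (3 * P ^ 2) * (3 * M ^ 2) := mul_le_mul h3 h4 (by positivity) (by positivity)
        _ = _ := by ring
    exact abs_le_of_sq_le_sq' h6 (by positivity) |>.2
  have h7 : |(-(2 * t ^ 2) : ℝ)| = 2 * t ^ 2 := by
    rw [abs_neg, abs_of_nonneg (by positivity)]
  rw [h7, ← mul_div_assoc, div_le_div_iff₀ (by positivity) (by positivity)]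
  have hPM : 0 < P * M := by positivity
  calc |y| * (2 * t ^ 2) * (1 + t ^ 2) ≤ 1 * (2 * t ^ 2) * (3 * (P * M)) := by gcongr
    _ = 6 * t ^ 2 * (P * M * 1) := by ring
    _ ≤ 6 * t ^ 2 * (P * M * Z) := by gcongr

theorem est2 : EST2 := by
  intro p hp
  refine ⟨∑ k ∈ range (p.natDegree + 1), |p.coeff k| * (6 * (k : ℝ) ^ 2),
    Finset.sum_nonneg fun _ _ => by positivity, fun y t hy => ?_⟩
  set X : ℝ := t ^ 2 / (1 + t ^ 2) with hX
  have hX0 : 0 ≤ X := by positivity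
  set a : ℂ := (y : ℂ) * I / (1 + ((y + t : ℝ) : ℂ) * I) with ha
  set b : ℂ := (y : ℂ) * I / (1 + ((y - t : ℝ) : ℂ) * I) with hb
  set c : ℂ := (y : ℂ) * I / (1 + (y : ℂ) * I) with hc
  have ea : (y : ℂ) * I / (1 + (y : ℂ) * I + (t : ℂ) * I) = a := by
    rw [ha]
    congr 1
    push_cast
    ring
  have eb : (y : ℂ) * I / (1 + (y : ℂ) * I - (t : ℂ) * I) = b := by
    rw [hb]
    congr 1
    push_cast
    ring
  have na : ‖a‖ ≤ 1 := est2_frac hy _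
  have nb : ‖b‖ ≤ 1 := est2_frac hy _
  have nc : ‖c‖ ≤ 1 := est2_frac hy _
  have h1 : ‖a + b - 2 * c‖ ≤ 6 * X := est2_sum hy t
  have h2 : ‖a - c‖ ^ 2 ≤ 3 * X := est2_diff hy t
  have h3 : ‖b - c‖ ^ 2 ≤ 3 * X := by
    have := est2_diff hy (-t)
    rw [neg_sq] at this
    exact this
  have h4 : eF p ((y : ℂ) * I) t - 2 * (aeval c p : ℂ) =
      ∑ k ∈ range (p.natDegree + 1), (p.coeff k : ℂ) * (a ^ k + b ^ k - 2 * c ^ k) := by
    unfold eF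
    rw [ea, eb, aeval_eq_sum_range, aeval_eq_sum_range, aeval_eq_sum_range, ← Finset.sum_add_distrib,
      Finset.mul_sum, ← Finset.sum_sub_distrib]
    refine Finset.sum_congr rfl fun k _ => ?_
    rw [Complex.real_smul, Complex.real_smul, Complex.real_smul]
    ring
  have h5 : ‖eF p ((y : ℂ) * I) t - 2 * (aeval c p : ℂ)‖ ≤
      (∑ k ∈ range (p.natDegree + 1), |p.coeff k| * (6 * (k : ℝ) ^ 2)) * X := by
    rw [h4, Finset.sum_mul]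
    refine norm_sum_le_of_le _ fun k _ => ?_
    rw [norm_mul, Complex.norm_real, Real.norm_eq_abs, mul_assoc]
    exact mul_le_mul_of_nonneg_left (est2_second na nb nc hX0 h1 h2 h3 k) (abs_nonneg _)
  have h6 := Complex.re_le_norm (eF p ((y : ℂ) * I) t - 2 * (aeval c p : ℂ))
  have h7 : (eF p ((y : ℂ) * I) t - 2 * (aeval c p : ℂ)).re =
      (eF p ((y : ℂ) * I) t).re - 2 * (aeval c p : ℂ).re := by
    simp
  rw [h7] at h6
  linarith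

end

end Pool.Agent.BLP
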