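import Pool.Agent.Lib.BLP.RealBounds
import Pool.Agent.Lib.BLP.EST2
import Pool.Agent.Lib.KL.Formula

/-!
# Row BND1: the bounds on the imaginary axis
-/

set_option autoImplicit false

namespace Pool.Agent.BLP

open Complex Polynomial MeasureTheory Finset
open scoped Real
open Pool.Agent.KL

noncomputable section

lemma bnd1_frac (y : ℝ) : ‖(y : ℂ) * I / (1 + (y : ℂ) * I)‖ ≤ 1 := by
  rw [norm_div, norm_mul, Complex.norm_I, mul_one, Complex.norm_real, Real.norm_eq_abs]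
  have h1 := est2_den_ge y
  refine (div_le_one (by linarith)).2 ?_
  have h2 := Complex.abs_im_le_norm (1 + (y : ℂ) * I)
  simpa using h2

lemma bnd1_Ef {n : ℕ} (hn : 2 ≤ n) (he : Even n) {ε : ℝ} (hε : 0 ≤ ε) {p : ℝ[X]} {A2 : ℝ}
    (hest : ∀ y t : ℝ, |y| ≤ 1 → (eF p ((y : ℂ) * I) t).re ≤
      2 * (Polynomial.aeval ((y : ℂ) * I / (1 + (y : ℂ) * I)) p : ℂ).re + A2 * (t ^ 2 / (1 + t ^ 2)))
    (hεA : ε * A2 ≤ 1 / 2) {y m : ℝ} (hy : y ^ (2 * n) ≤ 1 / 2) (hy1 : |y| ≤ 1)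
    (hm : (Polynomial.aeval ((y : ℂ) * I / (1 + (y : ℂ) * I)) p : ℂ).re ≤ m) (t : ℝ) :
    ‖Ef n ε p ((y : ℂ) * I) t‖ ≤ 2 * Real.exp (2 * n * ε * m) * (1 + t ^ 2)⁻¹ := by
  obtain ⟨k, hk⟩ := he
  have he : Even n := ⟨k, hk⟩
  have hT0 : 0 < 1 + t ^ 2 := by positivity
  have hT1 : 1 ≤ 1 + t ^ 2 := by nlinarith [sq_nonneg t]
  have h1 := le_norm_prod_im (n := n) (by omega) he y t
  rw [mul_comm I (y : ℂ)] at h1
  have h2 : (1 : ℝ) ≤ (1 + t ^ 2) ^ n := one_le_pow₀ hT1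
  have h3 : (1 + t ^ 2) ^ n / 2 ≤ ‖∏ j ∈ range n, ((1 - zt n j * ((y : ℂ) * I)) ^ 2 + (t : ℂ) ^ 2)‖ := by
    linarith
  have hX : t ^ 2 / (1 + t ^ 2) ≤ Real.log (1 + t ^ 2) := by
    have h4 := Real.one_sub_inv_le_log_of_pos hT0
    have h5 : t ^ 2 / (1 + t ^ 2) = 1 - (1 + t ^ 2)⁻¹ := by field_simp; ring
    rw [h5]
    exact h4
  have hX0 : 0 ≤ t ^ 2 / (1 + t ^ 2) := by positivity
  have hlog : 0 ≤ Real.log (1 + t ^ 2) := Real.log_nonneg hT1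
  have h6 : (n : ℝ) * ε * (eF p ((y : ℂ) * I) t).re ≤ 2 * n * ε * m + k * Real.log (1 + t ^ 2) := by
    have h7 := hest y t hy1
    have h8 : (n : ℝ) * ε * (eF p ((y : ℂ) * I) t).re ≤ n * ε * (2 * m + A2 * (t ^ 2 / (1 + t ^ 2))) :=
      mul_le_mul_of_nonneg_left (by linarith) (by positivity)
    have h9 : ε * A2 * (t ^ 2 / (1 + t ^ 2)) ≤ 1 / 2 * Real.log (1 + t ^ 2) :=
      (mul_le_mul_of_nonneg_right hεA hX0).trans (mul_le_mul_of_nonneg_left hX (by norm_num))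
    have h10 : (n : ℝ) = 2 * k := by
      rw [hk]
      push_cast
      ring
    have h11 : (n : ℝ) * (ε * A2 * (t ^ 2 / (1 + t ^ 2))) ≤ n * (1 / 2 * Real.log (1 + t ^ 2)) :=
      mul_le_mul_of_nonneg_left h9 (Nat.cast_nonneg n)
    have h12 : (n : ℝ) * (1 / 2 * Real.log (1 + t ^ 2)) = k * Real.log (1 + t ^ 2) := by
      rw [h10]
      ring
    nlinarith
  have h7 : ‖Complex.exp ((n : ℂ) * (ε : ℂ) * eF p ((y : ℂ) * I) t)‖ ≤
      Real.exp (2 * n * ε * m) * (1 + t ^ 2) ^ k := by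
    rw [Complex.norm_exp]
    have h8 : ((n : ℂ) * (ε : ℂ) * eF p ((y : ℂ) * I) t).re = n * ε * (eF p ((y : ℂ) * I) t).re := by
      rw [show (n : ℂ) * (ε : ℂ) = ((n * ε : ℝ) : ℂ) by push_cast; rfl, Complex.re_ofReal_mul]
    rw [h8]
    refine (Real.exp_le_exp.2 h6).trans (le_of_eq ?_)
    rw [Real.exp_add, Real.exp_nat_mul, Real.exp_log hT0]
  unfold Ef
  rw [norm_div]
  have hk1 : 1 ≤ k := by omega
  calc ‖Complex.exp ((n : ℂ) * (ε : ℂ) * eF p ((y : ℂ) * I) t)‖ /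
        ‖∏ j ∈ range n, ((1 - zt n j * ((y : ℂ) * I)) ^ 2 + (t : ℂ) ^ 2)‖
      ≤ (Real.exp (2 * n * ε * m) * (1 + t ^ 2) ^ k) / ((1 + t ^ 2) ^ n / 2) :=
        div_le_div₀ (by positivity) h7 (by positivity) h3
    _ = 2 * Real.exp (2 * n * ε * m) * ((1 + t ^ 2) ^ k)⁻¹ := by
        rw [hk, pow_add]
        field_simp
    _ ≤ 2 * Real.exp (2 * n * ε * m) * (1 + t ^ 2)⁻¹ := by
        refine mul_le_mul_of_nonneg_left (inv_anti₀ hT0 (le_self_pow₀ hT1 (by omega))) (by positivity)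

lemma bnd1_Psi2 {n : ℕ} (hn : 2 ≤ n) (he : Even n) {ε : ℝ} (hε : 0 ≤ ε) {p : ℝ[X]} {A2 : ℝ}
    (hest : ∀ y t : ℝ, |y| ≤ 1 → (eF p ((y : ℂ) * I) t).re ≤
      2 * (Polynomial.aeval ((y : ℂ) * I / (1 + (y : ℂ) * I)) p : ℂ).re + A2 * (t ^ 2 / (1 + t ^ 2)))
    (hεA : ε * A2 ≤ 1 / 2) {y m : ℝ} (hy : y ^ (2 * n) ≤ 1 / 2) (hy1 : |y| ≤ 1)
    (hm : (Polynomial.aeval ((y : ℂ) * I / (1 + (y : ℂ) * I)) p : ℂ).re ≤ m) :
    ‖Psi2 n ε p ((y : ℂ) * I)‖ ≤ Real.exp (2 * n * ε * m) := by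
  have hI : ‖∫ t : ℝ, Ef n ε p ((y : ℂ) * I) t‖ ≤ 2 * Real.exp (2 * n * ε * m) * π := by
    refine (norm_integral_le_of_norm_le (integrable_inv_one_add_sq.const_mul (2 * Real.exp (2 * n * ε * m)))
      (Filter.Eventually.of_forall (bnd1_Ef hn he hε hest hεA hy hy1 hm))).trans (le_of_eq ?_)
    rw [integral_const_mul, integral_univ_inv_one_add_sq]
  unfold Psi2
  have h5 : ‖((2 * (π : ℂ))⁻¹ : ℂ)‖ = (2 * π)⁻¹ := by
    rw [show ((2 * (π : ℂ))⁻¹ : ℂ) = (((2 * π)⁻¹ : ℝ) : ℂ) by push_cast; rfl, Complex.norm_real,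
      Real.norm_of_nonneg (by positivity)]
  rw [norm_mul, h5, inv_mul_le_iff₀ (by positivity)]
  linarith

theorem bnd1 : BND1 := by
  intro p hp
  obtain ⟨A2, hA2, hest⟩ := est2 p hp.zero
  refine ⟨1 / (2 * (A2 + 1)), by positivity, fun ε hε hε1 n hn he h Ψ H => ?_⟩
  have hεA : ε * A2 ≤ 1 / 2 := by
    calc ε * A2 ≤ 1 / (2 * (A2 + 1)) * (A2 + 1) := mul_le_mul hε1 (by linarith) hA2 (by positivity)
      _ = 1 / 2 := by field_simp
  have key : ∀ y m : ℝ, 0 ≤ m → (Polynomial.aeval ((y : ℂ) * I / (1 + (y : ℂ) * I)) p : ℂ).re ≤ m →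
      ‖Ψ ((y : ℂ) * I)‖ ≤ 2 * Real.exp (2 * n * ε * m) := by
    intro y m hm0 hm
    have hexp : 1 ≤ Real.exp (2 * n * ε * m) := Real.one_le_exp (by positivity)
    have hny : ‖(y : ℂ) * I‖ = |y| := by
      rw [norm_mul, Complex.norm_I, mul_one, Complex.norm_real, Real.norm_eq_abs]
    rcases le_or_gt (y ^ (2 * n)) (1 / 2) with hy | hy
    · have hlt : |y| < 1 := by
        by_contra hge
        have h1 : (1 : ℝ) ≤ |y| ^ (2 * n) := one_le_pow₀ (not_lt.1 hge)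
        rw [(even_two_mul n).pow_abs] at h1
        linarith
      rw [H.near _ (by simp) (by rw [hny]; exact hlt)]
      have := bnd1_Psi2 (by omega) he hε hest hεA hy hlt.le hm
      linarith
    · have hy0 : y ≠ 0 := by
        rintro rfl
        rw [zero_pow (by omega)] at hy
        linarith
      have hyp : 0 < |y| := abs_pos.2 hy0
      have h1 := H.far ((y : ℂ) * I) (by simp) (mul_ne_zero (by exact_mod_cast hy0) I_ne_zero)
      rw [hny] at h1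
      have h2 : (|y| ^ (2 * n - 1))⁻¹ ≤ 2 := by
        rw [inv_le_comm₀ (by positivity) (by norm_num)]
        rcases le_or_gt 1 |y| with h3 | h3
        · have := one_le_pow₀ h3 (n := 2 * n - 1)
          linarith
        · rw [← (even_two_mul n).pow_abs] at hy
          have h4 : |y| ^ (2 * n) ≤ |y| ^ (2 * n - 1) := pow_le_pow_of_le_one hyp.le h3.le (by omega)
          linarith
      linarith
  refine ⟨fun y => ?_, fun y hy => ?_⟩
  · refine key y (coefA p) (coefA_nonneg p) ?_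
    have h1 := norm_aeval_le hp.zero (bnd1_frac y)
    have h2 := Complex.re_le_norm (Polynomial.aeval ((y : ℂ) * I / (1 + (y : ℂ) * I)) p : ℂ)
    have h3 := mul_le_of_le_one_right (coefA_nonneg p) (bnd1_frac y)
    linarith
  · have h1 := key y 0 le_rfl (hp.sign y hy)
    rwa [mul_zero, Real.exp_zero, mul_one] at h1

end

end Pool.Agent.BLP
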