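import Mathlib
import Pool.Agent.Lib.KL.Roots
import Pool.Agent.Lib.KL.Sn
import Pool.Agent.Lib.KL.LP

/-!
Project BLP (MP_ef2672, beyond the linear programming limit): definitions (helper76).
Text: /team-store/tt8_MP_ef2672_gt_h76.md
-/

open Complex MeasureTheory Finset Set

namespace Pool.Agent.BLP

open Pool.Agent.KL

noncomputable section

/-! ## Lattices -/

/-- squared length -/
def nsq {N : ℕ} (x : Fin N → ℝ) : ℝ := ∑ i, x i ^ 2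

/-- scalar product -/
def dt {N : ℕ} (x y : Fin N → ℝ) : ℝ := ∑ i, x i * y i

/-- the lattice vector `A w` -/
def lv {N : ℕ} (A : Matrix (Fin N) (Fin N) ℝ) (w : Fin N → ℤ) : Fin N → ℝ :=
  Matrix.mulVec A fun j => (w j : ℝ)

/-- a basis of the dual lattice -/
def dual {N : ℕ} (A : Matrix (Fin N) (Fin N) ℝ) : Matrix (Fin N) (Fin N) ℝ :=
  (A⁻¹).transpose

/-- `|A w|²` -/
def qf {N : ℕ} (A : Matrix (Fin N) (Fin N) ℝ) (w : Fin N → ℤ) : ℝ := nsq (lv A w)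

/-- theta function -/
def th {N : ℕ} (A : Matrix (Fin N) (Fin N) ℝ) (t : ℂ) : ℂ :=
  ∑' w : Fin N → ℤ, Complex.exp (-(Real.pi * t * (qf A w : ℝ)))

/-- `T = Theta(1)` -/
def TT {N : ℕ} (A : Matrix (Fin N) (Fin N) ℝ) : ℝ :=
  ∑' w : Fin N → ℤ, Real.exp (-(Real.pi * qf A w))

/-! ## Paley-Wiener -/

/-- the class of functions on the closed right half plane -/
structure PWH (Φ : ℂ → ℂ) (C : ℝ) : Prop where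
  cont : ContinuousOn Φ {z : ℂ | 0 ≤ z.re}
  diff : DifferentiableOn ℂ Φ {z : ℂ | 0 < z.re}
  bd : ∀ z : ℂ, 0 ≤ z.re → ‖Φ z‖ ≤ C / (1 + ‖z‖ ^ 2)
  conj : ∀ z : ℂ, 0 ≤ z.re → Φ ((starRingEnd ℂ) z) = (starRingEnd ℂ) (Φ z)

/-- inverse Laplace transform -/
def gPW (Φ : ℂ → ℂ) (u : ℝ) : ℝ :=
  (2 * Real.pi)⁻¹ * ∫ y : ℝ, (Φ ((y : ℂ) * I) * Complex.exp ((u : ℂ) * ((y : ℂ) * I))).re

/-! ## The polynomial -/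

/-- sum of the absolute values of the coefficients -/
def coefA (p : Polynomial ℝ) : ℝ := ∑ k ∈ range (p.natDegree + 1), |p.coeff k|

/-- the properties of the polynomial of section 3 -/
structure HP (p : Polynomial ℝ) : Prop where
  zero : p.coeff 0 = 0
  one : 0 < p.coeff 1
  sign : ∀ y : ℝ, (|y| ≤ 998 / 1000 ∨ 999 / 1000 ≤ |y|) →
    (Polynomial.aeval ((y : ℂ) * I / (1 + (y : ℂ) * I)) p : ℂ).re ≤ 0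

/-! ## K, W, Psi -/

/-- `K(z) = e^(n eps p(1/(z+1))) / Q(z)` -/
def Kf (n : ℕ) (ε : ℝ) (p : Polynomial ℝ) (z : ℂ) : ℂ :=
  Complex.exp ((n : ℂ) * (ε : ℂ) * (Polynomial.aeval (1 / (z + 1)) p : ℂ)) /
    ∏ j ∈ range n, (z - zt n j)

/-- `e(s,t)` -/
def eF (p : Polynomial ℝ) (s : ℂ) (t : ℝ) : ℂ :=
  (Polynomial.aeval (s / (1 + s + (t : ℂ) * I)) p : ℂ) +
    (Polynomial.aeval (s / (1 + s - (t : ℂ) * I)) p : ℂ)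

/-- the integrand of `Psi2` -/
def Ef (n : ℕ) (ε : ℝ) (p : Polynomial ℝ) (s : ℂ) (t : ℝ) : ℂ :=
  Complex.exp ((n : ℂ) * (ε : ℂ) * eF p s t) /
    ∏ j ∈ range n, ((1 - zt n j * s) ^ 2 + (t : ℂ) ^ 2)

/-- `Psi2(s)` -/
def Psi2 (n : ℕ) (ε : ℝ) (p : Polynomial ℝ) (s : ℂ) : ℂ :=
  (2 * (Real.pi : ℂ))⁻¹ * ∫ t : ℝ, Ef n ε p s t

/-- Laplace transform of `h^2` -/
def Wf (h : ℝ → ℝ) (μ : ℂ) : ℂ :=
  ∫ v in Ioi (0 : ℝ), ((h v ^ 2 : ℝ) : ℂ) * Complex.exp (-(μ * (v : ℂ)))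

/-- `Psi1(s)` -/
def Psi1 (n : ℕ) (h : ℝ → ℝ) (s : ℂ) : ℂ := (s ^ (2 * n - 1))⁻¹ * Wf h (2 / s)

/-- the interface: what sections 3 and 4 deliver -/
structure PsiH (n : ℕ) (ε : ℝ) (p : Polynomial ℝ) (h : ℝ → ℝ) (Ψ : ℂ → ℂ) : Prop where
  pw : ∃ C : ℝ, PWH Ψ C
  hc : Continuous h
  hi : IntegrableOn (fun v => h v ^ 2) (Ioi 0)
  h1 : ∫ v in Ioi (0 : ℝ), h v ^ 2 ≤ 1
  lap : ∀ s : ℝ, 0 < s → Ψ s =
    (((s ^ (2 * n - 1))⁻¹ * ∫ v in Ioi (0 : ℝ), h v ^ 2 * Real.exp (-(2 / s * v)) : ℝ) : ℂ)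
  far : ∀ s : ℂ, 0 ≤ s.re → s ≠ 0 → ‖Ψ s‖ ≤ (‖s‖ ^ (2 * n - 1))⁻¹
  near : ∀ s : ℂ, 0 ≤ s.re → ‖s‖ < 1 → Ψ s = Psi2 n ε p s

/-- `B(s)` -/
def Bf (n : ℕ) (s : ℂ) : ℂ := ∏ j ∈ range n, (1 - zt n j * s)

/-- `S` -/
def S0 (n : ℕ) : ℝ := 1 / Real.sin (Real.pi / (2 * n))

/-- the small parameter `n^(-1/2)` -/
def ee (n : ℕ) : ℝ := 1 / √(n : ℝ)

/-! ## The window -/

/-- the window, real -/
def chr (n : ℕ) (y : ℝ) : ℝ := √(n * (5 * 10 ^ 7) / Real.pi) *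
  ∫ y0 in (9978 / 10000 : ℝ)..(9992 / 10000 : ℝ), Real.exp (-(5 * 10 ^ 7 * n * (y - y0) ^ 2))

/-- the window, complex -/
def chip (n : ℕ) (z : ℂ) : ℂ := ((√(n * (5 * 10 ^ 7) / Real.pi) : ℝ) : ℂ) *
  ∫ y0 in (9978 / 10000 : ℝ)..(9992 / 10000 : ℝ),
    Complex.exp (-(5 * 10 ^ 7 * (n : ℂ) * (z - (y0 : ℂ)) ^ 2))

/-- `k(s)` -/
def kf (e : ℝ) (s : ℂ) : ℂ := -(2 * (e : ℂ)) / (e - s) + (e : ℂ) / 2 / (2 * e - s)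

/-- `S_J` for a weight `w` -/
def SJ (w : ℝ → ℝ) (Ψ : ℂ → ℂ) (e u : ℝ) : ℝ :=
  Real.pi⁻¹ * ∫ y : ℝ, ((w y : ℂ) * Ψ ((y : ℂ) * I) * kf e ((y : ℂ) * I) *
    Complex.exp (-((3 * (e : ℂ) - (y : ℂ) * I) * (u : ℂ)))).re

/-- `theta(u)` -/
def thet (n : ℕ) (u : ℝ) : ℝ :=
  u ^ (2 * n - 1) / (2 * n - 2).factorial *
    ∫ r in (0 : ℝ)..(495 / 1000 : ℝ), r ^ (2 * n - 2) * Real.exp (-(r * u))

end

end Pool.Agent.BLP
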