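import Pool.Agent.Lib.BLP.Props
import Pool.Agent.Lib.LPX.RateDens

/-!
Project BLP (MP_ef2672): the strict upper bound for the density of lattice packings.
-/

open MeasureTheory Metric Filter Real

namespace Pool.Agent.BLP

open Pool.Agent.Lib.MP_ef2672_gt_Tauber

/-- The largest density of a lattice packing in dimension `n`, `δ_n = ω_n (γ_n / 4)^(n/2)`, is
exponentially smaller than `2 ^ (-(κ n))`, `κ = log₂ (2 π / e) / 2`. -/
theorem dens (h : FIN3) : ∃ ε : ℝ, 0 < ε ∧ ∀ᶠ n : ℕ in atTop,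
    volume.real (ball (0 : EuclideanSpace ℝ (Fin n)) 1) * (gamma n / 4) ^ ((n : ℝ) / 2) ≤
      (2 : ℝ) ^ (-((logb 2 (2 * π / exp 1) / 2 + ε) * n)) := by
  obtain ⟨ε0, hε0, -, h2⟩ := h
  have hpi := Real.pi_pos
  set ε1 : ℝ := min ε0 (1 / (2 * π ^ 2)) with hε1
  have h10 : 0 < ε1 := lt_min hε0 (by positivity)
  have h11 : ε1 ≤ 1 / (2 * π ^ 2) := min_le_right _ _
  have h12 : ε1 ≤ ε0 := min_le_left _ _
  have hq : π ^ 2 * ε1 ≤ 1 / 2 := by
    calc π ^ 2 * ε1 ≤ π ^ 2 * (1 / (2 * π ^ 2)) := mul_le_mul_of_nonneg_left h11 (by positivity)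
      _ = 1 / 2 := by field_simp
  set q : ℝ := 1 - π ^ 2 * ε1 with hqd
  have hq0 : 0 < q := by rw [hqd]; linarith
  have hq1 : q < 1 := by
    rw [hqd]
    have : 0 < π ^ 2 * ε1 := by positivity
    linarith
  have hlq : logb 2 q < 0 := Real.logb_neg (by norm_num) hq0 hq1
  refine ⟨-(logb 2 q) / 2, by linarith, ?_⟩
  filter_upwards [h2, eventually_gt_atTop 0] with n hn hn0
  have hnR : (0 : ℝ) < n := by exact_mod_cast hn0
  have hg0 : 0 ≤ gamma n := gamma_nonneg n
  have hg : gamma n ≤ (1 / π ^ 2 - ε1) * n := by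
    rw [c, div_le_iff₀ hnR] at hn
    refine hn.trans (mul_le_mul_of_nonneg_right ?_ hnR.le)
    linarith
  have hv := Pool.Agent.LPX.vol_le hn0
  have hbase : (2 * π * exp 1 / n) * (gamma n / 4) ≤ exp 1 / (2 * π) * q := by
    calc (2 * π * exp 1 / n) * (gamma n / 4)
        ≤ (2 * π * exp 1 / n) * ((1 / π ^ 2 - ε1) * n / 4) := by
          refine mul_le_mul_of_nonneg_left ?_ (by positivity)
          linarith
      _ = exp 1 / (2 * π) * q := by
          rw [hqd]
          field_simp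
          ring
  have h5 : volume.real (ball (0 : EuclideanSpace ℝ (Fin n)) 1) * (gamma n / 4) ^ ((n : ℝ) / 2) ≤
      (exp 1 / (2 * π) * q) ^ ((n : ℝ) / 2) := by
    calc volume.real (ball (0 : EuclideanSpace ℝ (Fin n)) 1) * (gamma n / 4) ^ ((n : ℝ) / 2)
        ≤ (2 * π * exp 1 / n) ^ ((n : ℝ) / 2) * (gamma n / 4) ^ ((n : ℝ) / 2) :=
          mul_le_mul_of_nonneg_right hv (by positivity)
      _ = ((2 * π * exp 1 / n) * (gamma n / 4)) ^ ((n : ℝ) / 2) :=
          (Real.mul_rpow (by positivity) (by positivity)).symm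
      _ ≤ _ := Real.rpow_le_rpow (by positivity) hbase (by positivity)
  refine h5.trans (le_of_eq ?_)
  have hb : exp 1 / (2 * π) * q = (2 : ℝ) ^ (-(logb 2 (2 * π / exp 1)) + logb 2 q) := by
    rw [Real.rpow_add (by norm_num), Real.rpow_logb (by norm_num) (by norm_num) hq0,
      Real.rpow_neg (by norm_num), Real.rpow_logb (by norm_num) (by norm_num) (by positivity),
      inv_div]
  rw [hb, ← Real.rpow_mul (by norm_num)]
  congr 1
  ring

end Pool.Agent.BLP
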