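import Pool.Agent.Lib.BLP.RealBounds

/-!
# Row EST3
-/

set_option autoImplicit false

namespace Pool.Agent.BLP

open Complex Polynomial

theorem est3 : EST3 := by
  intro p hp
  refine ⟨2 * coefA p, by have := coefA_nonneg p; positivity, fun s t hs hs1 => ?_⟩
  rw [eF_real, ← Complex.ofReal_sub, Complex.norm_real, Real.norm_eq_abs]
  exact eR_bound hp hs hs1 t

end Pool.Agent.BLP
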