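import Pool.Agent.Lib.BLP.Props
import Pool.Agent.Lib.MP_ef2672_gt_Tauber.Counts

/-!
BLP project, row R30: from lattices of determinant one to Hermite's constant (helper17).
-/

namespace Pool.Agent.BLP

open Pool.Agent.Lib.MP_ef2672_gt_Tauber

theorem fin2 : FIN1 → FIN2 := by
  rintro ⟨δ, n0, hδ, H⟩
  have hpi := Real.pi_pos
  refine ⟨δ / Real.pi ^ 2, max n0 1, by positivity, fun n hn he => ?_⟩
  have hn1 : n0 ≤ n := le_trans (le_max_left _ _) hn
  have hn2 : 1 ≤ n := le_trans (le_max_right _ _) hn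
  have hn0 : (0 : ℝ) < n := by exact_mod_cast hn2
  have hg : gamma (4 * n) ≤ (1 - δ) * (4 * n) / Real.pi ^ 2 := by
    refine le_of_forall_gt_imp_ge_of_dense fun r hr => ?_
    refine gamma_le_of_short (by omega) fun A hA => ?_
    obtain ⟨w, hw, h1⟩ := H n hn1 he A hA
    refine ⟨w, hw, lt_of_le_of_lt ?_ hr⟩
    have h2 : qf A w ≤ (1 - δ) * (4 * n) / Real.pi ^ 2 := by
      rw [le_div_iff₀ (by positivity)]
      have h3 : Real.pi * (Real.pi * qf A w) ≤ Real.pi * ((1 - δ) * (4 / Real.pi) * n) :=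
        mul_le_mul_of_nonneg_left h1 hpi.le
      have h4 : Real.pi * ((1 - δ) * (4 / Real.pi) * n) = (1 - δ) * (4 * n) := by
        field_simp
      rw [h4] at h3
      calc qf A w * Real.pi ^ 2 = Real.pi * (Real.pi * qf A w) := by ring
        _ ≤ _ := h3
    exact h2
  unfold c
  have h5 : ((4 * n : ℕ) : ℝ) = 4 * n := by push_cast; ring
  rw [h5, div_le_iff₀ (by positivity)]
  refine hg.trans (le_of_eq ?_)
  ring

end Pool.Agent.BLP
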