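import Pool.Agent.Lib.BLP.Props
import Pool.Agent.Lib.KL.Limit

/-!
BLP project, row R31: from the dimensions `4n`, `n` even, to all dimensions.
-/

namespace Pool.Agent.BLP

open Filter Topology Pool.Agent.Lib.MP_ef2672_gt_Tauber

theorem fin3 : FIN2 → FIN3 := by
  rintro ⟨ε, n0, hε, H⟩
  have hd : ∀ᶠ d : ℕ in atTop, c d ≤ 1 / Real.pi ^ 2 - ε / 2 := by
    obtain ⟨e, he, h1⟩ := slow_decrease (ε / 2) (by linarith)
    obtain ⟨m0, h3⟩ := exists_nat_gt (7 / e)
    filter_upwards [eventually_ge_atTop (4 * n0 + m0 + 1)] with d hd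
    obtain ⟨k, m, hm, hk⟩ : ∃ k m : ℕ, m ≤ 7 ∧ d + m = 8 * k :=
      ⟨(d + 7) / 8, 8 * ((d + 7) / 8) - d, by omega, by omega⟩
    have h4 := H (2 * k) (by omega) (even_two_mul k)
    have h5 := h1 d m (by omega) (by
      have h6 : (m : ℝ) ≤ 7 := by exact_mod_cast hm
      have h7 : (m0 : ℝ) ≤ d := by exact_mod_cast (by omega : m0 ≤ d)
      rw [div_lt_iff₀ he] at h3
      nlinarith)
    rw [hk] at h5
    rw [show 4 * (2 * k) = 8 * k by ring] at h4
    linarith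
  refine ⟨ε / 2, half_pos hε, limsup_le_of_le ?_ hd, hd⟩
  exact isCoboundedUnder_le_of_le atTop (x := 0) fun n => c_nonneg n

end Pool.Agent.BLP
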