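import Mathlib
import Pool.Agent.Lib.CMH.PoiGauss
import Pool.Agent.Lib.BLP.Props

/-!
Poisson summation for shifted Gaussians over a lattice, and the consequences used for the
incoherence lemma (BLP project, helper70).
-/

set_option autoImplicit false

open MeasureTheory Set Filter Topology

namespace Pool.Agent.BLP

open Pool.CMH.Poi hiding sq

namespace Poi

variable {N : ℕ}

lemma poi_sq (x : Fin N → ℝ) : Pool.CMH.Poi.sq x = nsq x := rfl

lemma nsq_eq_dt (x : Fin N → ℝ) : nsq x = dt x x := by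
  unfold nsq dt
  exact Finset.sum_congr rfl fun i _ => by ring

lemma dt_comm (x y : Fin N → ℝ) : dt x y = dt y x := by
  unfold dt
  exact Finset.sum_congr rfl fun i _ => by ring

lemma dt_add (x y z : Fin N → ℝ) : dt x (y + z) = dt x y + dt x z := by
  unfold dt
  rw [← Finset.sum_add_distrib]
  exact Finset.sum_congr rfl fun i _ => by rw [Pi.add_apply]; ring

lemma dt_neg (x y : Fin N → ℝ) : dt x (-y) = -dt x y := by
  unfold dt
  rw [← Finset.sum_neg_distrib]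
  exact Finset.sum_congr rfl fun i _ => by rw [Pi.neg_apply]; ring

lemma dt_smul (t : ℝ) (x y : Fin N → ℝ) : dt x (t • y) = t * dt x y := by
  unfold dt
  rw [Finset.mul_sum]
  exact Finset.sum_congr rfl fun i _ => by rw [Pi.smul_apply, smul_eq_mul]; ring

lemma smul_dt (t : ℝ) (x y : Fin N → ℝ) : dt (t • x) y = t * dt x y := by
  rw [dt_comm, dt_smul, dt_comm]

lemma nsq_add (x y : Fin N → ℝ) : nsq (x + y) = nsq x + 2 * dt x y + nsq y := by
  unfold nsq dt
  rw [Finset.mul_sum, ← Finset.sum_add_distrib, ← Finset.sum_add_distrib]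
  exact Finset.sum_congr rfl fun i _ => by rw [Pi.add_apply]; ring

lemma nsq_sub (x y : Fin N → ℝ) : nsq (x - y) = nsq x - 2 * dt x y + nsq y := by
  unfold nsq dt
  rw [Finset.mul_sum, ← Finset.sum_sub_distrib, ← Finset.sum_add_distrib]
  exact Finset.sum_congr rfl fun i _ => by rw [Pi.sub_apply]; ring

lemma nsq_smul (t : ℝ) (x : Fin N → ℝ) : nsq (t • x) = t ^ 2 * nsq x := by
  unfold nsq
  rw [Finset.mul_sum]
  exact Finset.sum_congr rfl fun i _ => by rw [Pi.smul_apply, smul_eq_mul]; ring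

lemma nsq_neg (x : Fin N → ℝ) : nsq (-x) = nsq x := by
  unfold nsq
  exact Finset.sum_congr rfl fun i _ => by rw [Pi.neg_apply]; ring

lemma lv_iv (A : Matrix (Fin N) (Fin N) ℝ) (m : Fin N → ℤ) : lv A m = A.mulVec (iv m) := rfl

lemma lv_add (A : Matrix (Fin N) (Fin N) ℝ) (m n : Fin N → ℤ) : lv A (m + n) = lv A m + lv A n := by
  rw [lv_iv, lv_iv, lv_iv, iv_add, Matrix.mulVec_add]

lemma lv_neg (A : Matrix (Fin N) (Fin N) ℝ) (m : Fin N → ℤ) : lv A (-m) = -lv A m := by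
  have : iv (-m) = -iv m := by
    funext i
    simp [iv]
  rw [lv_iv, lv_iv, this, Matrix.mulVec_neg]

lemma lv_sub (A : Matrix (Fin N) (Fin N) ℝ) (m n : Fin N → ℤ) : lv A (m - n) = lv A m - lv A n := by
  rw [sub_eq_add_neg, lv_add, lv_neg, sub_eq_add_neg]

lemma dual_mul (A : Matrix (Fin N) (Fin N) ℝ) (hA : A.det ≠ 0) (x : Fin N → ℝ) :
    (dual A).mulVec (A.transpose.mulVec x) = x := by
  have hu : IsUnit A.det := isUnit_iff_ne_zero.2 hA
  rw [Matrix.mulVec_mulVec, dual, ← Matrix.transpose_mul, Matrix.mul_nonsing_inv _ hu,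
    Matrix.transpose_one, Matrix.one_mulVec]

lemma dual_det (A : Matrix (Fin N) (Fin N) ℝ) : (dual A).det = A.det⁻¹ := by
  rw [dual, Matrix.det_transpose, Matrix.det_nonsing_inv, Ring.inverse_eq_inv']

lemma dual_dual (A : Matrix (Fin N) (Fin N) ℝ) (hA : A.det ≠ 0) : dual (dual A) = A := by
  have hu : IsUnit A.det := isUnit_iff_ne_zero.2 hA
  rw [dual, dual, ← Matrix.transpose_nonsing_inv, Matrix.transpose_transpose,
    Matrix.nonsing_inv_nonsing_inv _ hu]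

/-- complex mulVec of a real vector -/
lemma map_mulVec (M : Matrix (Fin N) (Fin N) ℝ) (v : Fin N → ℝ) (i : Fin N) :
    (M.map (fun r : ℝ => (r : ℂ))).mulVec (fun j => ((v j : ℝ) : ℂ)) i = ((M.mulVec v i : ℝ) : ℂ) := by
  simp only [Matrix.mulVec, dotProduct, Matrix.map_apply]
  push_cast
  rfl

/-- the linear form of the shifted Gaussian -/
noncomputable def lf (A : Matrix (Fin N) (Fin N) ℝ) (c : ℝ) (b y : Fin N → ℝ) : Fin N → ℂ :=
  fun j => -Complex.I * ((A.transpose.mulVec (c • b) j : ℝ) : ℂ) - ((A.transpose.mulVec y j : ℝ) : ℂ)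

lemma sum_transpose (A : Matrix (Fin N) (Fin N) ℝ) (b x : Fin N → ℝ) :
    ∑ j, A.transpose.mulVec b j * x j = dt (A.mulVec x) b := by
  have h : ∑ j, A.transpose.mulVec b j * x j = dotProduct (A.transpose.mulVec b) x := rfl
  rw [h, dotProduct_comm, Matrix.dotProduct_mulVec, Matrix.vecMul_transpose]
  rfl

/-- The shifted Gaussian with a character, at the lattice point `x`. -/
noncomputable def sg (c : ℝ) (b y x : Fin N → ℝ) : ℂ :=
  Complex.exp (-Real.pi * c * ((nsq (x - b) : ℝ) : ℂ) - 2 * Real.pi * Complex.I * ((dt x y : ℝ) : ℂ))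

/-- The dual term. -/
noncomputable def dg (c : ℝ) (b y w : Fin N → ℝ) : ℂ :=
  Complex.exp (-Real.pi / c * ((nsq (y + w) : ℝ) : ℂ) - 2 * Real.pi * Complex.I * ((dt b (y + w) : ℝ) : ℂ))

lemma norm_sg (c : ℝ) (b y x : Fin N → ℝ) : ‖sg c b y x‖ = Real.exp (-(Real.pi * c * nsq (x - b))) := by
  unfold sg
  rw [Complex.norm_exp]
  congr 1
  have : (-(Real.pi : ℂ) * c * ((nsq (x - b) : ℝ) : ℂ) - 2 * Real.pi * Complex.I * ((dt x y : ℝ) : ℂ)) =
    ((-(Real.pi * c * nsq (x - b)) : ℝ) : ℂ) - ((2 * Real.pi * dt x y : ℝ) : ℂ) * Complex.I := by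
    push_cast
    ring
  rw [this, Complex.sub_re, Complex.ofReal_re, Complex.re_ofReal_mul, Complex.I_re]
  ring

lemma norm_dg (c : ℝ) (b y w : Fin N → ℝ) : ‖dg c b y w‖ = Real.exp (-(Real.pi / c * nsq (y + w))) := by
  unfold dg
  rw [Complex.norm_exp]
  congr 1
  have : (-(Real.pi : ℂ) / c * ((nsq (y + w) : ℝ) : ℂ) - 2 * Real.pi * Complex.I * ((dt b (y + w) : ℝ) : ℂ)) =
    ((-(Real.pi / c * nsq (y + w)) : ℝ) : ℂ) - ((2 * Real.pi * dt b (y + w) : ℝ) : ℂ) * Complex.I := by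
    push_cast
    ring
  rw [this, Complex.sub_re, Complex.ofReal_re, Complex.re_ofReal_mul, Complex.I_re]
  ring

lemma sg_eq (A : Matrix (Fin N) (Fin N) ℝ) {c : ℝ} (hc : 0 < c) (b y x : Fin N → ℝ) :
    sg c b y (A.mulVec x) = ((Real.exp (-(Real.pi * c * nsq b)) : ℝ) : ℂ) *
      gau (Real.sqrt c • A) (lf A c b y) x := by
  unfold sg gau
  rw [Complex.ofReal_exp, ← Complex.exp_add]
  congr 1
  have h1 : nsq ((Real.sqrt c • A).mulVec x) = c * nsq (A.mulVec x) := by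
    rw [Matrix.smul_mulVec, nsq_smul, Real.sq_sqrt hc.le]
  have h2 : ∑ i, lf A c b y i * ((x i : ℝ) : ℂ) =
      -Complex.I * ((c * dt (A.mulVec x) b : ℝ) : ℂ) - ((dt (A.mulVec x) y : ℝ) : ℂ) := by
    rw [← dt_smul, ← sum_transpose A (c • b) x, ← sum_transpose A y x]
    push_cast
    rw [Finset.mul_sum, ← Finset.sum_sub_distrib]
    refine Finset.sum_congr rfl fun i _ => ?_
    unfold lf
    ring
  rw [poi_sq, h1, h2, nsq_sub]
  push_cast
  linear_combination (2 * Real.pi * (c * dt (A.mulVec x) b)) * Complex.I_sq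

lemma summable_sg (A : Matrix (Fin N) (Fin N) ℝ) (hA : A.det ≠ 0) {c : ℝ} (hc : 0 < c)
    (b y : Fin N → ℝ) : Summable fun m : Fin N → ℤ => sg c b y (lv A m) := by
  have hs : 0 < Real.sqrt c := Real.sqrt_pos.2 hc
  have hd : (Real.sqrt c • A).det ≠ 0 := by
    rw [Matrix.det_smul]
    exact mul_ne_zero (pow_ne_zero _ hs.ne') hA
  have h1 := (per_summable (gau_lus (Real.sqrt c • A) hd (lf A c b y)) 0).mul_left
    (((Real.exp (-(Real.pi * c * nsq b)) : ℝ) : ℂ))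
  refine h1.congr fun m => ?_
  rw [zero_add]
  exact (sg_eq A hc b y (iv m)).symm

lemma key_term (A : Matrix (Fin N) (Fin N) ℝ) (hA : A.det ≠ 0) {c : ℝ} (hc : 0 < c)
    (b y : Fin N → ℝ) (k : Fin N → ℤ) :
    (((Real.sqrt c ^ N * |A.det|)⁻¹ : ℝ) : ℂ) * dg c b y (lv (dual A) k) =
      ((Real.exp (-(Real.pi * c * nsq b)) : ℝ) : ℂ) * gauD (Real.sqrt c • A) (lf A c b y) k := by
  have hs : 0 < Real.sqrt c := Real.sqrt_pos.2 hc
  have hcc : (c : ℂ) ≠ 0 := Complex.ofReal_ne_zero.2 hc.ne'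
  have hu : IsUnit A.det := isUnit_iff_ne_zero.2 hA
  unfold gauD dg
  have hdet : |(Real.sqrt c • A).det| = Real.sqrt c ^ N * |A.det| := by
    rw [Matrix.det_smul, abs_mul, Fintype.card_fin, abs_of_pos (pow_pos hs N)]
  have hinv : ((Real.sqrt c • A)⁻¹).transpose = (Real.sqrt c)⁻¹ • dual A := by
    have : Invertible (Real.sqrt c) := invertibleOfNonzero hs.ne'
    rw [Matrix.inv_smul _ _ hu, invOf_eq_inv, Matrix.transpose_smul, dual]
  rw [hdet, mul_left_comm, Complex.ofReal_exp, ← Complex.exp_add]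
  congr 2
  have h3 : ∀ i, (((Real.sqrt c • A)⁻¹.transpose).map (fun r : ℝ => (r : ℂ))).mulVec
      (fun j => lf A c b y j - (k j : ℂ)) i =
      (((Real.sqrt c)⁻¹ : ℝ) : ℂ) * (-Complex.I * ((c * b i : ℝ) : ℂ) - ((y i + lv (dual A) k i : ℝ) : ℂ)) := by
    intro i
    rw [hinv]
    have e1 : ((((Real.sqrt c)⁻¹ • dual A)).map (fun r : ℝ => (r : ℂ))).mulVec
        (fun j => lf A c b y j - (k j : ℂ)) i =
        (((Real.sqrt c)⁻¹ : ℝ) : ℂ) * (((dual A).map (fun r : ℝ => (r : ℂ))).mulVec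
        (fun j => lf A c b y j - (k j : ℂ)) i) := by
      simp only [Matrix.mulVec, dotProduct, Matrix.map_apply, Matrix.smul_apply, smul_eq_mul]
      rw [Finset.mul_sum]
      refine Finset.sum_congr rfl fun j _ => ?_
      push_cast
      ring
    rw [e1]
    congr 1
    have e2 : (fun j => lf A c b y j - (k j : ℂ)) =
        (-Complex.I) • (fun j => ((A.transpose.mulVec (c • b) j : ℝ) : ℂ)) -
        (fun j => ((A.transpose.mulVec y j : ℝ) : ℂ)) - (fun j => ((iv k j : ℝ) : ℂ)) := by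
      funext j
      simp only [lf, Pi.sub_apply, Pi.smul_apply, smul_eq_mul, iv]
      push_cast
      ring
    rw [e2, Matrix.mulVec_sub, Matrix.mulVec_sub, Matrix.mulVec_smul]
    simp only [Pi.sub_apply, Pi.smul_apply, smul_eq_mul]
    rw [map_mulVec, map_mulVec, map_mulVec, dual_mul A hA, dual_mul A hA]
    simp only [Pi.smul_apply, smul_eq_mul, lv_iv]
    push_cast
    ring
  simp_rw [h3]
  have h4 : ∀ i, ((((Real.sqrt c)⁻¹ : ℝ) : ℂ) * (-Complex.I * ((c * b i : ℝ) : ℂ) -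
      ((y i + lv (dual A) k i : ℝ) : ℂ))) ^ 2 =
      ((-(c * b i ^ 2) + (y i + lv (dual A) k i) ^ 2 / c : ℝ) : ℂ) +
        2 * Complex.I * ((b i * (y i + lv (dual A) k i) : ℝ) : ℂ) := by
    intro i
    have e1 : (((Real.sqrt c)⁻¹ : ℝ) : ℂ) ^ 2 = (c : ℂ)⁻¹ := by
      rw [← Complex.ofReal_pow, inv_pow, Real.sq_sqrt hc.le, Complex.ofReal_inv]
    rw [mul_pow, e1]
    push_cast
    field_simp
    linear_combination (c ^ 2 * b i ^ 2 : ℂ) * Complex.I_sq
  simp_rw [h4]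
  rw [Finset.sum_add_distrib, ← Finset.mul_sum, ← Complex.ofReal_sum, ← Complex.ofReal_sum]
  have h5 : ∑ i, (-(c * b i ^ 2) + (y i + lv (dual A) k i) ^ 2 / c) =
      -(c * nsq b) + nsq (y + lv (dual A) k) / c := by
    unfold nsq
    rw [Finset.mul_sum, Finset.sum_div, ← Finset.sum_neg_distrib, ← Finset.sum_add_distrib]
    rfl
  have h6 : ∑ i, b i * (y i + lv (dual A) k i) = dt b (y + lv (dual A) k) := rfl
  rw [h5, h6]
  push_cast
  field_simp
  ring


/-- **Poisson summation for a shifted Gaussian with a character over a lattice.** -/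
theorem poisson_sg (A : Matrix (Fin N) (Fin N) ℝ) (hA : A.det ≠ 0) {c : ℝ} (hc : 0 < c)
    (b y : Fin N → ℝ) :
    HasSum (fun k : Fin N → ℤ => (((Real.sqrt c ^ N * |A.det|)⁻¹ : ℝ) : ℂ) * dg c b y (lv (dual A) k))
      (∑' m : Fin N → ℤ, sg c b y (lv A m)) := by
  have hs : 0 < Real.sqrt c := Real.sqrt_pos.2 hc
  have hcc : (c : ℂ) ≠ 0 := Complex.ofReal_ne_zero.2 hc.ne'
  have hu : IsUnit A.det := isUnit_iff_ne_zero.2 hA
  have hd : (Real.sqrt c • A).det ≠ 0 := by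
    rw [Matrix.det_smul]
    exact mul_ne_zero (pow_ne_zero _ hs.ne') hA
  have h1 := (poisson_gau (Real.sqrt c • A) hd (lf A c b y)).mul_left
    (((Real.exp (-(Real.pi * c * nsq b)) : ℝ) : ℂ))
  have h2 : (((Real.exp (-(Real.pi * c * nsq b)) : ℝ) : ℂ)) *
      ∑' m : Fin N → ℤ, gau (Real.sqrt c • A) (lf A c b y) (iv m) =
      ∑' m : Fin N → ℤ, sg c b y (lv A m) := by
    rw [← tsum_mul_left]
    exact tsum_congr fun m => (sg_eq A hc b y (iv m)).symm
  rw [h2] at h1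
  have key : ∀ k : Fin N → ℤ, (((Real.sqrt c ^ N * |A.det|)⁻¹ : ℝ) : ℂ) * dg c b y (lv (dual A) k) =
      ((Real.exp (-(Real.pi * c * nsq b)) : ℝ) : ℂ) * gauD (Real.sqrt c • A) (lf A c b y) k := by
    intro k
    exact key_term A hA hc b y k
  rw [show (fun k : Fin N → ℤ => (((Real.sqrt c ^ N * |A.det|)⁻¹ : ℝ) : ℂ) * dg c b y (lv (dual A) k)) =
    fun k => ((Real.exp (-(Real.pi * c * nsq b)) : ℝ) : ℂ) * gauD (Real.sqrt c • A) (lf A c b y) k
    from funext key]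
  exact h1

/-- The shifted theta sum with real parameter. -/
noncomputable def Gs (A : Matrix (Fin N) (Fin N) ℝ) (s : ℝ) (y : Fin N → ℝ) : ℝ :=
  ∑' m : Fin N → ℤ, Real.exp (-(Real.pi * s * nsq (lv A m - y)))

/-- The theta sum with real parameter. -/
noncomputable def Th (A : Matrix (Fin N) (Fin N) ℝ) (s : ℝ) : ℝ :=
  ∑' m : Fin N → ℤ, Real.exp (-(Real.pi * s * nsq (lv A m)))

lemma Gs_zero (A : Matrix (Fin N) (Fin N) ℝ) (s : ℝ) : Gs A s 0 = Th A s := by
  unfold Gs Th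
  simp only [sub_zero]

lemma summable_Gs (A : Matrix (Fin N) (Fin N) ℝ) (hA : A.det ≠ 0) {s : ℝ} (hs : 0 < s)
    (y : Fin N → ℝ) :
    Summable fun m : Fin N → ℤ => Real.exp (-(Real.pi * s * nsq (lv A m - y))) :=
  (summable_sg A hA hs y 0).norm.congr fun m => norm_sg s y 0 (lv A m)

lemma summable_Th (A : Matrix (Fin N) (Fin N) ℝ) (hA : A.det ≠ 0) {s : ℝ} (hs : 0 < s) :
    Summable fun m : Fin N → ℤ => Real.exp (-(Real.pi * s * nsq (lv A m))) :=
  (summable_Gs A hA hs 0).congr fun m => by rw [sub_zero]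

lemma dual_det_ne (A : Matrix (Fin N) (Fin N) ℝ) (hA : A.det ≠ 0) : (dual A).det ≠ 0 := by
  rw [dual_det]
  exact inv_ne_zero hA

lemma Gs_dual (B : Matrix (Fin N) (Fin N) ℝ) (c : ℝ) (y : Fin N → ℝ) :
    ∑' k : Fin N → ℤ, Real.exp (-(Real.pi / c * nsq (y + lv B k))) = Gs B (1 / c) y := by
  unfold Gs
  rw [← (Equiv.neg (Fin N → ℤ)).tsum_eq]
  refine tsum_congr fun k => ?_
  rw [Equiv.neg_apply, lv_neg, ← sub_eq_add_neg, ← nsq_neg, neg_sub]
  congr 2
  ring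

/-- (P), norm version. -/
theorem norm_tsum_sg_le (A : Matrix (Fin N) (Fin N) ℝ) (hA : A.det ≠ 0) {c : ℝ} (hc : 0 < c)
    (b y : Fin N → ℝ) :
    ‖∑' m : Fin N → ℤ, sg c b y (lv A m)‖ ≤ (Real.sqrt c ^ N * |A.det|)⁻¹ * Gs (dual A) (1 / c) y := by
  have h1 := poisson_sg A hA hc b y
  have hs : 0 < Real.sqrt c := Real.sqrt_pos.2 hc
  have hp : 0 ≤ (Real.sqrt c ^ N * |A.det|)⁻¹ := by positivity
  have h2 : ∀ k : Fin N → ℤ, ‖(((Real.sqrt c ^ N * |A.det|)⁻¹ : ℝ) : ℂ) * dg c b y (lv (dual A) k)‖ =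
      (Real.sqrt c ^ N * |A.det|)⁻¹ * Real.exp (-(Real.pi / c * nsq (y + lv (dual A) k))) := by
    intro k
    rw [norm_mul, norm_dg, Complex.norm_real, Real.norm_of_nonneg hp]
  rw [← h1.tsum_eq]
  refine (norm_tsum_le_tsum_norm h1.summable.norm).trans (le_of_eq ?_)
  simp_rw [h2]
  rw [tsum_mul_left, Gs_dual]

lemma sg_zero (s : ℝ) (x : Fin N → ℝ) : sg s 0 0 x = ((Real.exp (-(Real.pi * s * nsq x)) : ℝ) : ℂ) := by
  have h : dt x (0 : Fin N → ℝ) = 0 := by
    unfold dt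
    simp
  unfold sg
  rw [Complex.ofReal_exp, h, sub_zero]
  congr 1
  push_cast
  ring

lemma sg_zero_right (s : ℝ) (b x : Fin N → ℝ) :
    sg s b 0 x = ((Real.exp (-(Real.pi * s * nsq (x - b))) : ℝ) : ℂ) := by
  have h : dt x (0 : Fin N → ℝ) = 0 := by
    unfold dt
    simp
  unfold sg
  rw [Complex.ofReal_exp, h]
  congr 1
  push_cast
  ring

lemma dg_zero (s : ℝ) (x : Fin N → ℝ) : dg s 0 0 x = ((Real.exp (-(Real.pi / s * nsq x)) : ℝ) : ℂ) := by
  have h : dt (0 : Fin N → ℝ) (0 + x) = 0 := by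
    unfold dt
    simp
  unfold dg
  rw [Complex.ofReal_exp, h, zero_add]
  congr 1
  push_cast
  ring

/-- The functional equation of the theta sum. -/
theorem Th_eq (A : Matrix (Fin N) (Fin N) ℝ) (hA : A.det ≠ 0) {s : ℝ} (hs : 0 < s) :
    Th A s = (Real.sqrt s ^ N * |A.det|)⁻¹ * Th (dual A) (1 / s) := by
  have h1 := (poisson_sg A hA hs 0 0).tsum_eq
  simp only [sg_zero, dg_zero] at h1
  have h2 : ((Th A s : ℝ) : ℂ) = (((Real.sqrt s ^ N * |A.det|)⁻¹ * Th (dual A) (1 / s) : ℝ) : ℂ) := by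
    unfold Th
    rw [Complex.ofReal_tsum, ← h1, Complex.ofReal_mul, Complex.ofReal_tsum, ← tsum_mul_left]
    refine tsum_congr fun k => ?_
    rw [show Real.pi * (1 / s) = Real.pi / s by ring]
  exact Complex.ofReal_injective h2

lemma nsq_nonneg (x : Fin N → ℝ) : 0 ≤ nsq x := Finset.sum_nonneg fun _ _ => sq_nonneg _

lemma Th_anti (A : Matrix (Fin N) (Fin N) ℝ) (hA : A.det ≠ 0) {s t : ℝ} (hs : 0 < s) (hst : s ≤ t) :
    Th A t ≤ Th A s := by
  refine Summable.tsum_le_tsum (fun m => ?_) (summable_Th A hA (hs.trans_le hst)) (summable_Th A hA hs)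
  refine Real.exp_le_exp.2 (neg_le_neg ?_)
  exact mul_le_mul_of_nonneg_right (mul_le_mul_of_nonneg_left hst Real.pi_pos.le) (nsq_nonneg _)

lemma Gs_anti (A : Matrix (Fin N) (Fin N) ℝ) (hA : A.det ≠ 0) {s t : ℝ} (hs : 0 < s) (hst : s ≤ t)
    (y : Fin N → ℝ) : Gs A t y ≤ Gs A s y := by
  refine Summable.tsum_le_tsum (fun m => ?_) (summable_Gs A hA (hs.trans_le hst) y)
    (summable_Gs A hA hs y)
  refine Real.exp_le_exp.2 (neg_le_neg ?_)
  exact mul_le_mul_of_nonneg_right (mul_le_mul_of_nonneg_left hst Real.pi_pos.le) (nsq_nonneg _)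

lemma Th_pos (A : Matrix (Fin N) (Fin N) ℝ) (hA : A.det ≠ 0) {s : ℝ} (hs : 0 < s) : 0 < Th A s :=
  (summable_Th A hA hs).tsum_pos (fun _ => (Real.exp_pos _).le) 0 (Real.exp_pos _)

lemma Gs_nonneg (A : Matrix (Fin N) (Fin N) ℝ) (s : ℝ) (y : Fin N → ℝ) : 0 ≤ Gs A s y :=
  tsum_nonneg fun _ => (Real.exp_pos _).le

section unimodular

variable {A : Matrix (Fin N) (Fin N) ℝ}

lemma det_ne_of_abs (h1 : |A.det| = 1) : A.det ≠ 0 := by
  intro h
  rw [h, abs_zero] at h1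
  exact zero_ne_one h1

lemma dual_det_abs (h1 : |A.det| = 1) : |(dual A).det| = 1 := by
  rw [dual_det, abs_inv, h1, inv_one]

/-- (P1) at one. -/
lemma Th_dual_one (h1 : |A.det| = 1) : Th (dual A) 1 = Th A 1 := by
  have h := Th_eq A (det_ne_of_abs h1) one_pos
  rw [h1, Real.sqrt_one, one_pow, one_mul, inv_one, one_mul, div_one] at h
  exact h.symm

/-- (P1), upper bound. -/
lemma Th_le (h1 : |A.det| = 1) {s : ℝ} (hs : 0 < s) (hs1 : s ≤ 1) :
    Th A s ≤ (Real.sqrt s ^ N)⁻¹ * Th A 1 := by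
  have hA := det_ne_of_abs h1
  rw [Th_eq A hA hs, h1, mul_one, ← Th_dual_one h1]
  refine mul_le_mul_of_nonneg_left (Th_anti (dual A) (dual_det_ne A hA) one_pos ?_) (by positivity)
  rw [le_div_iff₀ hs]
  linarith

lemma Th_dual_le (h1 : |A.det| = 1) {s : ℝ} (hs : 0 < s) (hs1 : s ≤ 1) :
    Th (dual A) s ≤ (Real.sqrt s ^ N)⁻¹ * Th A 1 := by
  rw [← Th_dual_one h1]
  exact Th_le (dual_det_abs h1) hs hs1

/-- (P2). -/
lemma Gs_le_one (h1 : |A.det| = 1) (y : Fin N → ℝ) : Gs A 1 y ≤ Th A 1 := by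
  have hA := det_ne_of_abs h1
  have h := norm_tsum_sg_le A hA one_pos y 0
  rw [h1, Real.sqrt_one, one_pow, one_mul, inv_one, one_mul, div_one, Gs_zero, Th_dual_one h1] at h
  simp_rw [sg_zero_right] at h
  rw [← Complex.ofReal_tsum, Complex.norm_real] at h
  exact (le_abs_self _).trans h

lemma Gs_le (h1 : |A.det| = 1) {s : ℝ} (hs : 1 ≤ s) (y : Fin N → ℝ) : Gs A s y ≤ Th A 1 :=
  (Gs_anti A (det_ne_of_abs h1) one_pos hs y).trans (Gs_le_one h1 y)

end unimodular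

lemma sqrt_pow_inv {c : ℝ} (hc : 0 < c) : (Real.sqrt c ^ N)⁻¹ = c ^ (-((N : ℝ) / 2)) := by
  rw [Real.sqrt_eq_rpow, ← Real.rpow_natCast, ← Real.rpow_mul hc.le, ← Real.rpow_neg hc.le]
  congr 1
  ring

lemma TT_eq (A : Matrix (Fin N) (Fin N) ℝ) : TT A = Th A 1 := by
  unfold TT Th qf
  simp only [mul_one]

lemma lv_zero (A : Matrix (Fin N) (Fin N) ℝ) : lv A 0 = 0 := by
  have : iv (0 : Fin N → ℤ) = 0 := by
    funext i
    simp [iv]
  rw [lv_iv, this, Matrix.mulVec_zero]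

lemma qf_zero (A : Matrix (Fin N) (Fin N) ℝ) : qf A 0 = 0 := by
  rw [qf, lv_zero]
  simp [nsq]

lemma sum_sub (A : Matrix (Fin N) (Fin N) ℝ) (hA : A.det ≠ 0) {c : ℝ} (hc : 0 < c)
    (b : Fin N → ℝ) :
    Summable fun w : Fin N → ℤ => Real.exp (-(Real.pi * c * nsq (lv A w - b))) :=
  summable_Gs A hA hc b

end Poi

open Poi

/-- R01. -/
theorem poi : POI := by
  intro N A hA c hc b y
  refine ⟨summable_Gs A hA hc b, ?_⟩
  have h1 := (poisson_sg A hA hc b y).tsum_eq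
  rw [tsum_mul_left] at h1
  have e1 : ∀ w : Fin N → ℤ, Complex.exp (-((Real.pi * c * nsq (lv A w - b) : ℝ) : ℂ) -
      2 * Real.pi * Complex.I * (dt (lv A w) y : ℝ)) = sg c b y (lv A w) := by
    intro w
    unfold sg
    congr 1
    push_cast
    ring
  have e2 : ∀ m : Fin N → ℤ, Complex.exp (-((Real.pi / c * nsq (lv (dual A) m + y) : ℝ) : ℂ) -
      2 * Real.pi * Complex.I * (dt b (lv (dual A) m + y) : ℝ)) = dg c b y (lv (dual A) m) := by
    intro m
    unfold dg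
    rw [add_comm (lv (dual A) m) y]
    congr 1
    push_cast
    ring
  simp_rw [e1, e2]
  rw [← h1]
  congr 2
  rw [mul_inv, sqrt_pow_inv hc, mul_comm]

/-- R02. -/
theorem pfr : PFR := by
  intro N A h1
  have hA := det_ne_of_abs h1
  have hsum : ∀ c : ℝ, 0 < c → ∀ b : Fin N → ℝ,
    Summable fun w : Fin N → ℤ => Real.exp (-(Real.pi * c * nsq (lv A w - b))) :=
    fun c hc b => summable_Gs A hA hc b
  have hp1 : ∀ s : ℝ, 0 < s → s ≤ 1 →
      ∑' w : Fin N → ℤ, Real.exp (-(Real.pi * s * qf A w)) ≤ s ^ (-((N : ℝ) / 2)) * TT A := by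
    intro s hs hs1
    rw [← sqrt_pow_inv hs, TT_eq]
    exact Th_le h1 hs hs1
  refine ⟨hsum, fun c hc b => summable_Gs (dual A) (dual_det_ne A hA) hc b, ?_, hp1, ?_, ?_, ?_, ?_⟩
  · rw [TT_eq]
    have h := (summable_Th A hA one_pos).le_tsum (0 : Fin N → ℤ) (fun j _ => (Real.exp_pos _).le)
    have h0 : nsq (lv A 0) = 0 := qf_zero A
    rw [h0, mul_zero, neg_zero, Real.exp_zero] at h
    exact h
  · intro s hs hs1
    rw [← sqrt_pow_inv hs, TT_eq]
    exact Th_dual_le h1 hs hs1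
  · intro y
    have h := Gs_le_one (dual_det_abs h1) y
    rw [Th_dual_one h1] at h
    rw [TT_eq]
    unfold Gs at h
    simp only [mul_one] at h
    exact h
  · intro τ hτ v a
    have h2τ : 0 < 2 * τ := by linarith
    have h := norm_tsum_sg_le A hA h2τ ((1 / 2 : ℝ) • a) (v • a)
    rw [h1, mul_one, sqrt_pow_inv h2τ] at h
    have e1 : ∀ w : Fin N → ℤ, Complex.exp (-((2 * Real.pi * τ * nsq (lv A w - (1 / 2 : ℝ) • a) : ℝ) : ℂ) -
      2 * Real.pi * Complex.I * (v * dt (lv A w) a : ℝ)) = sg (2 * τ) ((1 / 2 : ℝ) • a) (v • a) (lv A w) := by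
      intro w
      unfold sg
      rw [dt_smul]
      congr 1
      push_cast
      ring
    simp_rw [e1]
    refine h.trans (le_of_eq ?_)
    unfold Gs
    congr 1
    refine tsum_congr fun m => ?_
    congr 2
    ring
  · intro τ v hτ hτ1
    refine le_trans ?_ (hp1 τ hτ hτ1)
    have e1 : ∀ w : Fin N → ℤ, ‖Complex.exp (-(Real.pi * ((τ : ℂ) + (v : ℂ) * Complex.I) * (qf A w : ℝ)))‖ =
        Real.exp (-(Real.pi * τ * qf A w)) := by
      intro w
      rw [Complex.norm_exp]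
      congr 1
      rw [Complex.neg_re, Complex.re_mul_ofReal, Complex.re_ofReal_mul]
      simp
    have hs : Summable fun w : Fin N → ℤ => Real.exp (-(Real.pi * τ * qf A w)) := summable_Th A hA hτ
    unfold th
    have hs2 : Summable fun w : Fin N → ℤ =>
        ‖Complex.exp (-(Real.pi * ((τ : ℂ) + (v : ℂ) * Complex.I) * (qf A w : ℝ)))‖ :=
      hs.congr fun w => (e1 w).symm
    refine (norm_tsum_le_tsum_norm hs2).trans (le_of_eq ?_)
    exact tsum_congr e1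

end Pool.Agent.BLP
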