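import Mathlib
import Pool.Agent.Lib.BLP.Poisson

/-!
R03. The incoherence lemma for the theta function of a unimodular lattice with large minimum
(BLP project; text of helper76, simplification of helper46, typed by helper70).
-/

set_option autoImplicit false

open MeasureTheory Set Filter Topology

namespace Pool.Agent.BLP

open Poi

variable {N : ℕ}

namespace Incx

/-- The change of variables `(a, x) ↦ (x, x - a)`. -/
def eqv (N : ℕ) : ((Fin N → ℤ) × (Fin N → ℤ)) ≃ ((Fin N → ℤ) × (Fin N → ℤ)) where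
  toFun p := (p.2, p.2 - p.1)
  invFun p := (p.1 - p.2, p.1)
  left_inv p := by simp
  right_inv p := by simp

/-- The term of the theta sum. -/
noncomputable def ph (A : Matrix (Fin N) (Fin N) ℝ) (τ v : ℝ) (z : Fin N → ℤ) : ℂ :=
  Complex.exp (-(Real.pi * ((τ : ℂ) + (v : ℂ) * Complex.I) * (qf A z : ℝ)))

/-- The constant factor of the inner sum. -/
noncomputable def ca (τ v : ℝ) (a : Fin N → ℝ) : ℂ :=
  Complex.exp (((-(Real.pi * (τ / 2) * nsq a) : ℝ) : ℂ) + ((Real.pi * v * nsq a : ℝ) : ℂ) * Complex.I)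

lemma norm_ca (τ v : ℝ) (a : Fin N → ℝ) : ‖ca τ v a‖ = Real.exp (-(Real.pi * (τ / 2) * nsq a)) := by
  unfold ca
  rw [Complex.norm_exp, Complex.add_re, Complex.ofReal_re, Complex.re_ofReal_mul, Complex.I_re,
    mul_zero, add_zero]

lemma norm_ph (A : Matrix (Fin N) (Fin N) ℝ) (τ v : ℝ) (z : Fin N → ℤ) :
    ‖ph A τ v z‖ = Real.exp (-(Real.pi * τ * nsq (lv A z - 0))) := by
  unfold ph
  rw [Complex.norm_exp, sub_zero]
  congr 1
  rw [Complex.neg_re, Complex.re_mul_ofReal, Complex.re_ofReal_mul]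
  simp [qf]

/-- The term of the inner sum, as in `PF.p3`. -/
noncomputable def tg (A : Matrix (Fin N) (Fin N) ℝ) (τ v : ℝ) (a : Fin N → ℝ) (w : Fin N → ℤ) : ℂ :=
  Complex.exp (-((2 * Real.pi * τ * nsq (lv A w - (1 / 2 : ℝ) • a) : ℝ) : ℂ) -
      2 * Real.pi * Complex.I * (v * dt (lv A w) a : ℝ))

lemma term_eq (A : Matrix (Fin N) (Fin N) ℝ) (τ v : ℝ) (a x : Fin N → ℤ) :
    ph A τ v x * (starRingEnd ℂ) (ph A τ v (x - a)) = ca τ v (lv A a) * tg A τ v (lv A a) x := by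
  unfold ph ca tg qf
  rw [← Complex.exp_conj, ← Complex.exp_add, ← Complex.exp_add]
  congr 1
  have h1 : nsq (lv A (x - a)) = nsq (lv A x) - 2 * dt (lv A x) (lv A a) + nsq (lv A a) := by
    rw [lv_sub, nsq_sub]
  have h2 : nsq (lv A x - (1 / 2 : ℝ) • lv A a) = nsq (lv A x) - dt (lv A x) (lv A a) +
      nsq (lv A a) / 4 := by
    rw [nsq_sub, dt_smul, nsq_smul]
    ring
  rw [h1, h2]
  simp only [map_mul, map_neg, map_add, Complex.conj_ofReal, Complex.conj_I]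
  push_cast
  ring

/-- The dual sum. -/
noncomputable def fd (A : Matrix (Fin N) (Fin N) ℝ) (τ v : ℝ) (a : Fin N → ℝ) : ℝ :=
  ∑' m : Fin N → ℤ, Real.exp (-(Real.pi / (2 * τ) * nsq (lv (dual A) m - v • a)))

lemma fd_nonneg (A : Matrix (Fin N) (Fin N) ℝ) (τ v : ℝ) (a : Fin N → ℝ) : 0 ≤ fd A τ v a :=
  tsum_nonneg fun _ => (Real.exp_pos _).le

lemma fd_le {A : Matrix (Fin N) (Fin N) ℝ} (hP : PF A) {τ v : ℝ} (hτ : 0 < τ) (hτ1 : τ ≤ 1 / 2)
    (a : Fin N → ℝ) {D : ℝ} (hD : ∀ m, D ≤ nsq (lv (dual A) m - v • a)) :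
    fd A τ v a ≤ Real.exp (-(Real.pi * (1 / (2 * τ) - 1) * D)) * TT A := by
  have h2τ : 0 < 2 * τ := by linarith
  have hc : 0 ≤ 1 / (2 * τ) - 1 := by
    rw [sub_nonneg, le_div_iff₀ h2τ]
    linarith
  have hs1 : Summable fun m : Fin N → ℤ =>
      Real.exp (-(Real.pi / (2 * τ) * nsq (lv (dual A) m - v • a))) := by
    refine (hP.sumd (1 / (2 * τ)) (by positivity) (v • a)).congr fun m => ?_
    congr 2
    ring
  have hs2 : Summable fun m : Fin N → ℤ =>
      Real.exp (-(Real.pi * nsq (lv (dual A) m - v • a))) := by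
    refine (hP.sumd 1 one_pos (v • a)).congr fun m => ?_
    rw [mul_one]
  have h1 : fd A τ v a ≤ ∑' m : Fin N → ℤ, Real.exp (-(Real.pi * (1 / (2 * τ) - 1) * D)) *
      Real.exp (-(Real.pi * nsq (lv (dual A) m - v • a))) := by
    refine Summable.tsum_le_tsum (fun m => ?_) hs1 (hs2.mul_left _)
    rw [← Real.exp_add]
    refine Real.exp_le_exp.2 ?_
    have h3 := mul_le_mul_of_nonneg_left (hD m) (mul_nonneg Real.pi_pos.le hc)
    have h4 : Real.pi / (2 * τ) * nsq (lv (dual A) m - v • a) =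
        Real.pi * (1 / (2 * τ) - 1) * nsq (lv (dual A) m - v • a) +
          Real.pi * nsq (lv (dual A) m - v • a) := by ring
    linarith
  rw [tsum_mul_left] at h1
  exact h1.trans (mul_le_mul_of_nonneg_left (hP.p2 (v • a)) (Real.exp_pos _).le)

lemma summable_main {A : Matrix (Fin N) (Fin N) ℝ} (hP : PF A) {τ v : ℝ} (hτ : 0 < τ)
    (hτ1 : τ ≤ 1 / 2) :
    Summable (fun z : Fin N → ℤ => Real.exp (-(Real.pi * (τ / 2) * nsq (lv A z))) *
      fd A τ v (lv A z)) := by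
  have hs : Summable fun z : Fin N → ℤ => Real.exp (-(Real.pi * (τ / 2) * nsq (lv A z))) :=
    (hP.sum (τ / 2) (half_pos hτ) 0).congr fun z => by rw [sub_zero]
  refine Summable.of_nonneg_of_le (fun z => mul_nonneg (Real.exp_pos _).le (fd_nonneg _ _ _ _))
    (fun z => ?_) (hs.mul_right (TT A))
  refine mul_le_mul_of_nonneg_left ?_ (Real.exp_pos _).le
  have h := fd_le hP (v := v) hτ hτ1 (lv A z) (D := 0) (fun m => nsq_nonneg _)
  rwa [mul_zero, neg_zero, Real.exp_zero, one_mul] at h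

/-- The expansion of the square of the theta function. -/
lemma sq_le {A : Matrix (Fin N) (Fin N) ℝ} (hP : PF A) {τ v : ℝ} (hτ : 0 < τ) (hτ1 : τ ≤ 1 / 2) :
    ‖th A ((τ : ℂ) + (v : ℂ) * Complex.I)‖ ^ 2 ≤ (2 * τ) ^ (-((N : ℝ) / 2)) *
      ∑' z : Fin N → ℤ, Real.exp (-(Real.pi * (τ / 2) * nsq (lv A z))) * fd A τ v (lv A z) := by
  have h2τ : 0 < 2 * τ := by linarith
  have hs : Summable fun z => ‖ph A τ v z‖ :=
    (hP.sum τ hτ 0).congr fun z => (norm_ph A τ v z).symm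
  have hs' : Summable fun z => ‖(starRingEnd ℂ) (ph A τ v z)‖ :=
    hs.congr fun z => (Complex.norm_conj _).symm
  have hT := summable_main hP (v := v) hτ hτ1
  have e0 : th A ((τ : ℂ) + (v : ℂ) * Complex.I) = ∑' z, ph A τ v z := rfl
  have e1 : (∑' z, ph A τ v z) * (starRingEnd ℂ) (∑' z, ph A τ v z) =
      ∑' p : (Fin N → ℤ) × (Fin N → ℤ), ph A τ v p.1 * (starRingEnd ℂ) (ph A τ v p.2) := by
    rw [← tsum_mul_tsum_of_summable_norm hs hs', Complex.conj_tsum]
  have hsp : Summable fun p : (Fin N → ℤ) × (Fin N → ℤ) =>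
      ph A τ v p.1 * (starRingEnd ℂ) (ph A τ v p.2) :=
    summable_mul_of_summable_norm hs hs'
  have hsp2 : Summable fun p : (Fin N → ℤ) × (Fin N → ℤ) =>
      ph A τ v p.2 * (starRingEnd ℂ) (ph A τ v (p.2 - p.1)) :=
    ((eqv N).summable_iff (f := fun p : (Fin N → ℤ) × (Fin N → ℤ) =>
      ph A τ v p.1 * (starRingEnd ℂ) (ph A τ v p.2))).2 hsp
  have e2 : ∑' p : (Fin N → ℤ) × (Fin N → ℤ), ph A τ v p.1 * (starRingEnd ℂ) (ph A τ v p.2) =
      ∑' a : Fin N → ℤ, ∑' x : Fin N → ℤ, ph A τ v x * (starRingEnd ℂ) (ph A τ v (x - a)) := by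
    rw [← (eqv N).tsum_eq (fun p : (Fin N → ℤ) × (Fin N → ℤ) =>
      ph A τ v p.1 * (starRingEnd ℂ) (ph A τ v p.2))]
    exact hsp2.tsum_prod
  have e3 : ∀ a : Fin N → ℤ, ∑' x : Fin N → ℤ, ph A τ v x * (starRingEnd ℂ) (ph A τ v (x - a)) =
      ca τ v (lv A a) * ∑' x : Fin N → ℤ, tg A τ v (lv A a) x := by
    intro a
    rw [← tsum_mul_left]
    exact tsum_congr fun x => term_eq A τ v a x
  have e4 : ∀ a : Fin N → ℤ,
      ‖∑' x : Fin N → ℤ, ph A τ v x * (starRingEnd ℂ) (ph A τ v (x - a))‖ ≤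
      (2 * τ) ^ (-((N : ℝ) / 2)) * (Real.exp (-(Real.pi * (τ / 2) * nsq (lv A a))) *
        fd A τ v (lv A a)) := by
    intro a
    rw [e3, norm_mul, norm_ca]
    have h := hP.p3 τ hτ v (lv A a)
    calc _ ≤ Real.exp (-(Real.pi * (τ / 2) * nsq (lv A a))) * ((2 * τ) ^ (-((N : ℝ) / 2)) *
          fd A τ v (lv A a)) := mul_le_mul_of_nonneg_left h (Real.exp_pos _).le
      _ = _ := by ring
  have e5 : ‖∑' z, ph A τ v z‖ ^ 2 =
      ‖∑' a : Fin N → ℤ, ∑' x : Fin N → ℤ, ph A τ v x * (starRingEnd ℂ) (ph A τ v (x - a))‖ := by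
    rw [← e2, ← e1, norm_mul, Complex.norm_conj, pow_two]
  rw [e0, e5, ← tsum_mul_left]
  have hb := hT.mul_left ((2 * τ) ^ (-((N : ℝ) / 2)))
  have hn : Summable fun a : Fin N → ℤ =>
      ‖∑' x : Fin N → ℤ, ph A τ v x * (starRingEnd ℂ) (ph A τ v (x - a))‖ :=
    Summable.of_nonneg_of_le (fun _ => norm_nonneg _) e4 hb
  exact (norm_tsum_le_tsum_norm hn).trans (hn.tsum_le_tsum e4 hb)

/-- A nearest point of the dual lattice. -/
lemma exists_nearest {A : Matrix (Fin N) (Fin N) ℝ} (hP : PF A) (y : Fin N → ℝ) :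
    ∃ k : Fin N → ℤ, ∀ k' : Fin N → ℤ, nsq (lv (dual A) k - y) ≤ nsq (lv (dual A) k' - y) := by
  have hs := (hP.sumd 1 one_pos y).tendsto_cofinite_zero
  have hev : ∀ᶠ k in cofinite, Real.exp (-(Real.pi * 1 * nsq (lv (dual A) k - y))) <
      Real.exp (-(Real.pi * 1 * nsq (lv (dual A) 0 - y))) :=
    hs.eventually_lt_const (Real.exp_pos _)
  have hfin : {k : Fin N → ℤ | nsq (lv (dual A) k - y) ≤ nsq (lv (dual A) 0 - y)}.Finite := by
    have hf : {k : Fin N → ℤ | ¬ (Real.exp (-(Real.pi * 1 * nsq (lv (dual A) k - y))) <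
      Real.exp (-(Real.pi * 1 * nsq (lv (dual A) 0 - y))))}.Finite := hev
    refine hf.subset fun k hk => ?_
    change ¬ (Real.exp (-(Real.pi * 1 * nsq (lv (dual A) k - y))) <
      Real.exp (-(Real.pi * 1 * nsq (lv (dual A) 0 - y))))
    rw [not_lt]
    refine Real.exp_le_exp.2 (neg_le_neg ?_)
    exact mul_le_mul_of_nonneg_left hk (by positivity)
  obtain ⟨k, hk, hmin⟩ := Set.exists_min_image _ (fun k => nsq (lv (dual A) k - y)) hfin
    ⟨0, le_refl (nsq (lv (dual A) 0 - y))⟩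
  refine ⟨k, fun k' => ?_⟩
  by_cases h : nsq (lv (dual A) k' - y) ≤ nsq (lv (dual A) 0 - y)
  · exact hmin k' h
  · have hk' : nsq (lv (dual A) k - y) ≤ nsq (lv (dual A) 0 - y) := hk
    linarith

lemma young (x y : Fin N → ℝ) {d : ℝ} (hd : 0 < d) :
    nsq (x + y) ≤ (1 + d) * nsq x + (1 + 1 / d) * nsq y := by
  unfold nsq
  rw [Finset.mul_sum, Finset.mul_sum, ← Finset.sum_add_distrib]
  refine Finset.sum_le_sum fun i _ => ?_
  rw [Pi.add_apply]
  have h : 0 ≤ (d * x i - y i) ^ 2 / d := div_nonneg (sq_nonneg _) hd.le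
  have h2 : (1 + d) * x i ^ 2 + (1 + 1 / d) * y i ^ 2 - (x i + y i) ^ 2 = (d * x i - y i) ^ 2 / d := by
    field_simp
    ring
  linarith

lemma rpow_sq_neg {g : ℝ} (hg : 0 < g) : (g ^ 2) ^ (-((N : ℝ) / 2)) = (g ^ N)⁻¹ := by
  rw [← Real.rpow_natCast g 2, ← Real.rpow_mul hg.le, ← Real.rpow_natCast g N, ← Real.rpow_neg hg.le]
  congr 1
  push_cast
  ring

/-- The near and far parts. -/
lemma sum_le {A : Matrix (Fin N) (Fin N) ℝ} (hP : PF A) {τ v d m : ℝ} (hτ : 0 < τ) (hτ1 : τ ≤ 1 / 2)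
    (hv : 1 / 2 ≤ v) (hd : 0 < d) (hd2 : d ≤ 1 / 2) (hm : 0 ≤ m)
    (hmin : ∀ w : Fin N → ℤ, w ≠ 0 → m ≤ qf A w) :
    ∑' z : Fin N → ℤ, Real.exp (-(Real.pi * (τ / 2) * nsq (lv A z))) * fd A τ v (lv A z) ≤
      (τ / 2) ^ (-((N : ℝ) / 2)) * TT A ^ 2 *
        (Real.exp (-(Real.pi * (1 / (2 * τ) - 1) * (d ^ 2 * v ^ 2 * m))) + (v * (1 + d)) ^ N) := by
  have hT1 : 0 ≤ TT A := zero_le_one.trans hP.one_le
  have h2τ : 0 < 2 * τ := by linarith
  have hc : 0 ≤ 1 / (2 * τ) - 1 := by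
    rw [sub_nonneg, le_div_iff₀ h2τ]
    linarith
  have hv0 : 0 < v := by linarith
  set g : ℝ := v * (1 + d) with hg
  have hg0 : 0 < g := by positivity
  have hg2 : 1 / 2 ≤ g := by
    rw [hg]
    nlinarith
  set s : ℝ := τ / 2 / g ^ 2 with hs
  have hs0 : 0 < s := by positivity
  have hs1 : s ≤ 1 := by
    rw [hs, div_le_one (by positivity)]
    nlinarith
  choose k hk using fun z : Fin N → ℤ => exists_nearest hP (v • lv A z)
  have hsA : Summable fun z : Fin N → ℤ => Real.exp (-(Real.pi * (τ / 2) * qf A z)) :=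
    (hP.sum (τ / 2) (half_pos hτ) 0).congr fun z => by rw [sub_zero, qf]
  have hsB : Summable fun z : Fin N → ℤ => Real.exp (-(Real.pi * s * qf (dual A) z)) :=
    (hP.sumd s hs0 0).congr fun z => by rw [sub_zero, qf]
  set E : ℝ := Real.exp (-(Real.pi * (1 / (2 * τ) - 1) * (d ^ 2 * v ^ 2 * m))) with hE
  have hE0 : 0 < E := Real.exp_pos _
  -- far terms
  have hfar : ∀ z : Fin N → ℤ, d ^ 2 * v ^ 2 * m ≤ nsq (lv (dual A) (k z) - v • lv A z) →
      Real.exp (-(Real.pi * (τ / 2) * nsq (lv A z))) * fd A τ v (lv A z) ≤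
        E * TT A * Real.exp (-(Real.pi * (τ / 2) * qf A z)) := by
    intro z hz
    have h := fd_le hP (v := v) hτ hτ1 (lv A z) (D := d ^ 2 * v ^ 2 * m) (fun m' => hz.trans (hk z m'))
    rw [mul_comm (E * TT A)]
    exact mul_le_mul_of_nonneg_left h (Real.exp_pos _).le
  -- near terms
  have hnear : ∀ z : Fin N → ℤ, ¬ (d ^ 2 * v ^ 2 * m ≤ nsq (lv (dual A) (k z) - v • lv A z)) →
      Real.exp (-(Real.pi * (τ / 2) * nsq (lv A z))) * fd A τ v (lv A z) ≤
        TT A * Real.exp (-(Real.pi * s * qf (dual A) (k z))) := by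
    intro z hz
    rw [not_le] at hz
    have h := fd_le hP (v := v) hτ hτ1 (lv A z) (D := 0) (fun m => nsq_nonneg _)
    rw [mul_zero, neg_zero, Real.exp_zero, one_mul] at h
    have h3 : nsq (lv (dual A) (k z) - v • lv A z) ≤ d ^ 2 * v ^ 2 * nsq (lv A z) := by
      by_cases hz0 : z = 0
      · have h4 := hk z 0
        rw [hz0, lv_zero, lv_zero, smul_zero, sub_zero] at h4
        rw [hz0, lv_zero, smul_zero, sub_zero]
        refine h4.trans (le_of_eq ?_)
        simp [nsq]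
      · refine hz.le.trans (mul_le_mul_of_nonneg_left (hmin z hz0) (by positivity))
    have h5 : nsq (lv (dual A) (k z)) ≤ g ^ 2 * nsq (lv A z) := by
      have h6 := young (v • lv A z) (lv (dual A) (k z) - v • lv A z) hd
      rw [add_sub_cancel, nsq_smul] at h6
      have h7 : (1 + 1 / d) * nsq (lv (dual A) (k z) - v • lv A z) ≤
          (1 + 1 / d) * (d ^ 2 * v ^ 2 * nsq (lv A z)) :=
        mul_le_mul_of_nonneg_left h3 (by positivity)
      have h8 : (1 + d) * (v ^ 2 * nsq (lv A z)) + (1 + 1 / d) * (d ^ 2 * v ^ 2 * nsq (lv A z)) =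
          g ^ 2 * nsq (lv A z) := by
        rw [hg]
        field_simp
        ring
      linarith
    have h9 : Real.exp (-(Real.pi * (τ / 2) * nsq (lv A z))) ≤
        Real.exp (-(Real.pi * s * qf (dual A) (k z))) := by
      refine Real.exp_le_exp.2 (neg_le_neg ?_)
      rw [qf]
      have h10 : s * nsq (lv (dual A) (k z)) ≤ τ / 2 * nsq (lv A z) := by
        calc s * nsq (lv (dual A) (k z)) ≤ s * (g ^ 2 * nsq (lv A z)) :=
              mul_le_mul_of_nonneg_left h5 hs0.le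
          _ = τ / 2 * nsq (lv A z) := by
              rw [hs]
              field_simp
      rw [mul_assoc, mul_assoc]
      exact mul_le_mul_of_nonneg_left h10 Real.pi_pos.le
    calc _ ≤ Real.exp (-(Real.pi * s * qf (dual A) (k z))) * TT A :=
          mul_le_mul h9 h (fd_nonneg _ _ _ _) (Real.exp_pos _).le
      _ = _ := mul_comm _ _
  -- injectivity
  have hinj : ∀ z z' : Fin N → ℤ, ¬ (d ^ 2 * v ^ 2 * m ≤ nsq (lv (dual A) (k z) - v • lv A z)) →
      ¬ (d ^ 2 * v ^ 2 * m ≤ nsq (lv (dual A) (k z') - v • lv A z')) → k z = k z' → z = z' := by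
    intro z z' hz hz' hkk
    rw [not_le] at hz hz'
    by_contra hne
    have h1 : z - z' ≠ 0 := sub_ne_zero.2 hne
    have h2 := hmin _ h1
    rw [qf, lv_sub] at h2
    have h3 : v • (lv A z - lv A z') = (lv (dual A) (k z') - v • lv A z') +
        -(lv (dual A) (k z) - v • lv A z) := by
      rw [hkk, smul_sub]
      abel
    have h4 : nsq (v • (lv A z - lv A z')) ≤ 2 * nsq (lv (dual A) (k z') - v • lv A z') +
        2 * nsq (lv (dual A) (k z) - v • lv A z) := by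
      rw [h3]
      have h5 := young (lv (dual A) (k z') - v • lv A z') (-(lv (dual A) (k z) - v • lv A z)) one_pos
      rw [nsq_neg] at h5
      linarith
    rw [nsq_smul] at h4
    have h6 : v ^ 2 * m ≤ v ^ 2 * nsq (lv A z - lv A z') := mul_le_mul_of_nonneg_left h2 (by positivity)
    have h7 : 4 * (d ^ 2 * v ^ 2 * m) ≤ v ^ 2 * m := by
      have h8 : 0 ≤ v ^ 2 * m := by positivity
      have h9 : 4 * d ^ 2 ≤ 1 := by nlinarith
      nlinarith
    linarith
  -- finite sums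
  have hT := summable_main hP (v := v) hτ hτ1
  have hSA : ∑' z : Fin N → ℤ, Real.exp (-(Real.pi * (τ / 2) * qf A z)) ≤
      (τ / 2) ^ (-((N : ℝ) / 2)) * TT A := hP.p1 (τ / 2) (half_pos hτ) (by linarith)
  have hSB : ∑' z : Fin N → ℤ, Real.exp (-(Real.pi * s * qf (dual A) z)) ≤
      (τ / 2) ^ (-((N : ℝ) / 2)) * g ^ N * TT A := by
    have h := hP.p1d s hs0 hs1
    rw [hs, Real.div_rpow (by positivity) (by positivity), rpow_sq_neg hg0, div_inv_eq_mul, ← hs] at h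
    exact h
  refine hT.tsum_le_of_sum_le fun F => ?_
  classical
  rw [← Finset.sum_filter_add_sum_filter_not F
    (fun z => d ^ 2 * v ^ 2 * m ≤ nsq (lv (dual A) (k z) - v • lv A z))]
  have hF1 : ∑ z ∈ F with d ^ 2 * v ^ 2 * m ≤ nsq (lv (dual A) (k z) - v • lv A z),
      Real.exp (-(Real.pi * (τ / 2) * nsq (lv A z))) * fd A τ v (lv A z) ≤
      E * TT A * ((τ / 2) ^ (-((N : ℝ) / 2)) * TT A) := by
    refine (Finset.sum_le_sum fun z hz => hfar z (Finset.mem_filter.1 hz).2).trans ?_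
    rw [← Finset.mul_sum]
    refine mul_le_mul_of_nonneg_left ?_ (by positivity)
    exact (hsA.sum_le_tsum _ fun z _ => (Real.exp_pos _).le).trans hSA
  have hF2 : ∑ z ∈ F with ¬ (d ^ 2 * v ^ 2 * m ≤ nsq (lv (dual A) (k z) - v • lv A z)),
      Real.exp (-(Real.pi * (τ / 2) * nsq (lv A z))) * fd A τ v (lv A z) ≤
      TT A * ((τ / 2) ^ (-((N : ℝ) / 2)) * g ^ N * TT A) := by
    refine (Finset.sum_le_sum fun z hz => hnear z (Finset.mem_filter.1 hz).2).trans ?_
    rw [← Finset.mul_sum]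
    refine mul_le_mul_of_nonneg_left ?_ hT1
    have hi : Set.InjOn k (F.filter fun z =>
        ¬ (d ^ 2 * v ^ 2 * m ≤ nsq (lv (dual A) (k z) - v • lv A z)) : Finset (Fin N → ℤ)) := by
      intro z hz z' hz' hkk
      exact hinj z z' (Finset.mem_filter.1 hz).2 (Finset.mem_filter.1 hz').2 hkk
    rw [← Finset.sum_image (f := fun y => Real.exp (-(Real.pi * s * qf (dual A) y))) hi]
    exact (hsB.sum_le_tsum _ fun z _ => (Real.exp_pos _).le).trans hSB
  refine (add_le_add hF1 hF2).trans (le_of_eq ?_)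
  ring

end Incx

open Incx

/-- R03. **The incoherence lemma.** -/
theorem inc : INC := by
  intro τ0 v0 m0 hτ0 hτ02 hv0 hv01 hm0
  set d : ℝ := (1 / v0 - 1) / 2 with hd
  have hv0p : 0 < v0 := by linarith
  have hd0 : 0 < d := by
    rw [hd]
    have : 1 < 1 / v0 := by
      rw [lt_div_iff₀ hv0p]
      linarith
    linarith
  have hd2 : d ≤ 1 / 2 := by
    rw [hd]
    have : 1 / v0 ≤ 2 := by
      rw [div_le_iff₀ hv0p]
      linarith
    linarith
  set c0 : ℝ := 1 / (2 * τ0) - 1 with hc0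
  have hc0p : 0 < c0 := by
    rw [hc0, sub_pos, lt_div_iff₀ (by linarith)]
    linarith
  set g0 : ℝ := (1 + v0) / 2 with hg0
  have hg0p : 0 < g0 := by rw [hg0]; linarith
  have hg01 : g0 < 1 := by rw [hg0]; linarith
  have hlog : 0 < -Real.log g0 := neg_pos.2 (Real.log_neg hg0p hg01)
  have hpi := Real.pi_pos
  refine ⟨min 1 (min (Real.pi * c0 * d ^ 2 * m0 / 4) (-Real.log g0)),
    lt_min one_pos (lt_min (by positivity) hlog), min_le_left _ _, ?_⟩
  set κ : ℝ := min 1 (min (Real.pi * c0 * d ^ 2 * m0 / 4) (-Real.log g0)) with hκ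
  have hκ1 : κ ≤ Real.pi * c0 * d ^ 2 * m0 / 4 := (min_le_right _ _).trans (min_le_left _ _)
  have hκ2 : κ ≤ -Real.log g0 := (min_le_right _ _).trans (min_le_right _ _)
  intro N A hN hP hmin τ v hτ hττ0 hv hvv0
  have hτ1 : τ ≤ 1 / 2 := by linarith
  have hvp : 0 < v := by linarith
  have hNp : (0 : ℝ) ≤ N := Nat.cast_nonneg N
  have h1 := sq_le hP (v := v) hτ hτ1
  have h2 := sum_le hP (v := v) (m := m0 * N) hτ hτ1 hv hd0 hd2 (by positivity) hmin
  have hfar : Real.exp (-(Real.pi * (1 / (2 * τ) - 1) * (d ^ 2 * v ^ 2 * (m0 * N)))) ≤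
      Real.exp (-(κ * N)) := by
    refine Real.exp_le_exp.2 (neg_le_neg ?_)
    have e1 : c0 ≤ 1 / (2 * τ) - 1 := by
      rw [hc0]
      have : 1 / (2 * τ0) ≤ 1 / (2 * τ) := one_div_le_one_div_of_le (by linarith) (by linarith)
      linarith
    have e2 : (1 / 4 : ℝ) ≤ v ^ 2 := by nlinarith
    calc κ * N ≤ Real.pi * c0 * d ^ 2 * m0 / 4 * N := mul_le_mul_of_nonneg_right hκ1 hNp
      _ = Real.pi * c0 * (d ^ 2 * (1 / 4) * (m0 * N)) := by ring
      _ ≤ Real.pi * (1 / (2 * τ) - 1) * (d ^ 2 * v ^ 2 * (m0 * N)) := by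
          refine mul_le_mul (mul_le_mul_of_nonneg_left e1 hpi.le) ?_ (by positivity)
            (mul_nonneg hpi.le (hc0p.le.trans e1))
          exact mul_le_mul_of_nonneg_right (mul_le_mul_of_nonneg_left e2 (sq_nonneg d)) (by positivity)
  have hnear : (v * (1 + d)) ^ N ≤ Real.exp (-(κ * N)) := by
    have e1 : v * (1 + d) ≤ g0 := by
      calc v * (1 + d) ≤ v0 * (1 + d) := mul_le_mul_of_nonneg_right hvv0 (by linarith)
        _ = g0 := by
          rw [hd, hg0]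
          field_simp
          ring
    calc (v * (1 + d)) ^ N ≤ g0 ^ N := pow_le_pow_left₀ (by positivity) e1 N
      _ = Real.exp (-(-Real.log g0 * N)) := by
          rw [neg_mul, neg_neg, mul_comm, Real.exp_nat_mul, Real.exp_log hg0p]
      _ ≤ Real.exp (-(κ * N)) := Real.exp_le_exp.2 (neg_le_neg (mul_le_mul_of_nonneg_right hκ2 hNp))
  have h3 : ‖th A ((τ : ℂ) + (v : ℂ) * Complex.I)‖ ^ 2 ≤ (2 * τ) ^ (-((N : ℝ) / 2)) *
      ((τ / 2) ^ (-((N : ℝ) / 2)) * TT A ^ 2 * (Real.exp (-(κ * N)) + Real.exp (-(κ * N)))) := by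
    refine h1.trans (mul_le_mul_of_nonneg_left (h2.trans ?_) (by positivity))
    exact mul_le_mul_of_nonneg_left (add_le_add hfar hnear) (by positivity)
  refine h3.trans (le_of_eq ?_)
  have h4 : (2 * τ) ^ (-((N : ℝ) / 2)) * (τ / 2) ^ (-((N : ℝ) / 2)) = (τ ^ N)⁻¹ := by
    rw [← Real.mul_rpow (by positivity) (by positivity), show 2 * τ * (τ / 2) = τ ^ 2 by ring,
      rpow_sq_neg hτ]
  calc _ = ((2 * τ) ^ (-((N : ℝ) / 2)) * (τ / 2) ^ (-((N : ℝ) / 2))) * TT A ^ 2 *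
        (2 * Real.exp (-(κ * N))) := by ring
    _ = _ := by
        rw [h4]
        ring

end Pool.Agent.BLP
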