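import Pool.Agent.Lib.BLP.NearFar

/-!
# The incoherence lemma, with constants
-/

set_option autoImplicit false

namespace Pool.Agent.BLP

open Real
open scoped ENNReal

/-- The weights of the near pairs. -/
theorem near_weight {τ v v0 c c0 b l0 s1 s2 : ℝ} (hτ : 0 < τ) (hτ2 : τ ≤ 1 / 2)
    (hv : 1 / 2 ≤ v) (hv0 : v ≤ v0) (hl0 : l0 = -log v0) (hc0 : 0 < c0)
    (hc : c0 ≤ c) (hb0 : 0 < b) (hb1 : b ≤ 1 / 2) (hb2 : b ≤ c0 / 8) (hb3 : b ≤ c0 * l0 / 8)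
    (hs2 : s2 = b * (τ / 2 / v ^ 2)) (hs1 : s1 = τ / 2 - v ^ 2 * s2 * c / (c - s2)) :
    0 < s1 ∧ s1 / (1 - b) ≤ 1 ∧ 0 < s2 ∧ s2 / b ≤ 1 ∧ s2 < c ∧
      τ / 2 * exp (b * l0) ≤ (s1 / (1 - b)) ^ (1 - b) * (s2 / b) ^ b := by
  have hvp : 0 < v := by linarith
  have hv2 : 0 < v ^ 2 := by positivity
  have hcp : 0 < c := by linarith
  have hτ2v : τ / 2 / v ^ 2 ≤ 1 := by
    rw [div_le_one hv2]
    nlinarith
  have hs2p : 0 < s2 := by rw [hs2]; positivity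
  have hs2b : s2 ≤ b := by
    rw [hs2]
    calc b * (τ / 2 / v ^ 2) ≤ b * 1 := by gcongr
      _ = b := mul_one b
  have hcs : s2 < c := by linarith
  have hcs2 : c / 2 ≤ c - s2 := by linarith
  have hcsp : 0 < c - s2 := by linarith
  have h1b : 0 < 1 - b := by linarith
  -- the ratio
  have hs1' : s1 = τ / 2 * ((1 - b) - b * s2 / (c - s2)) := by
    have h3 : v ^ 2 * s2 = τ / 2 * b := by
      rw [hs2]; field_simp
    rw [hs1, h3]
    field_simp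
    ring
  set ρ : ℝ := 1 - b * s2 / (c - s2) / (1 - b) with hρ
  have hs1ρ : s1 / (1 - b) = τ / 2 * ρ := by
    rw [hs1', hρ]; field_simp
  have hy : b * s2 / (c - s2) / (1 - b) ≤ 4 * b ^ 2 / c0 := by
    have h4 : b * s2 / (c - s2) ≤ b * b / (c0 / 2) := by
      apply div_le_div₀ (by positivity) (by gcongr) (by positivity) (by linarith)
    have h5 : b * s2 / (c - s2) / (1 - b) ≤ b * b / (c0 / 2) / (1 / 2) := by
      apply div_le_div₀ (by positivity) h4 (by norm_num) (by linarith)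
    refine h5.trans (le_of_eq ?_)
    field_simp
    ring
  have hy0 : 0 ≤ b * s2 / (c - s2) / (1 - b) := by positivity
  set y : ℝ := 4 * b ^ 2 / c0 with hy'
  have hyle : y ≤ 1 / 4 := by
    rw [hy', div_le_iff₀ hc0]
    nlinarith
  have hyl : 2 * y ≤ b * l0 := by
    rw [hy', ← mul_div_assoc, div_le_iff₀ hc0]
    nlinarith
  have hρ1 : ρ ≤ 1 := by rw [hρ]; linarith
  have hρy : 1 - y ≤ ρ := by rw [hρ]; linarith
  have hρ0 : 0 < ρ := by linarith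
  have hy00 : 0 ≤ y := hy0.trans hy
  have hexp : exp (-(b * l0)) ≤ ρ := by
    have h6 : exp (-(2 * y)) ≤ 1 - y := by
      have h7 : (1 + 2 * y) * exp (-(2 * y)) ≤ 1 := by
        have h8 := add_one_le_exp (2 * y)
        have h9 : exp (2 * y) * exp (-(2 * y)) = 1 := by
          rw [← exp_add, add_neg_cancel, exp_zero]
        calc (1 + 2 * y) * exp (-(2 * y)) ≤ exp (2 * y) * exp (-(2 * y)) := by
              gcongr; linarith
          _ = 1 := h9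
      have h10 : 0 < 1 + 2 * y := by linarith
      have h11 : (1 + 2 * y) * exp (-(2 * y)) ≤ (1 + 2 * y) * (1 - y) := by
        refine h7.trans ?_
        nlinarith
      exact le_of_mul_le_mul_left h11 h10
    calc exp (-(b * l0)) ≤ exp (-(2 * y)) := by
          rw [exp_le_exp]; linarith
      _ ≤ 1 - y := h6
      _ ≤ ρ := hρy
  have hs2' : s2 / b = τ / 2 * (1 / v ^ 2) := by
    rw [hs2]; field_simp
  refine ⟨?_, ?_, hs2p, ?_, hcs, ?_⟩
  · have : 0 < s1 / (1 - b) := by rw [hs1ρ]; positivity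
    exact (div_pos_iff_of_pos_right h1b).1 this
  · rw [hs1ρ]; nlinarith
  · rw [hs2]
    calc b * (τ / 2 / v ^ 2) / b = τ / 2 / v ^ 2 := by field_simp
      _ ≤ 1 := hτ2v
  · rw [hs1ρ, hs2', mul_rpow (by positivity) hρ0.le, mul_rpow (by positivity) (by positivity)]
    have h12 : (τ / 2) ^ (1 - b) * (τ / 2) ^ b = τ / 2 := by
      rw [← rpow_add (by positivity), sub_add_cancel, rpow_one]
    have h13 : ρ ≤ ρ ^ (1 - b) := by
      calc ρ = ρ ^ (1 : ℝ) := (rpow_one ρ).symm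
        _ ≤ ρ ^ (1 - b) := rpow_le_rpow_of_exponent_ge hρ0 hρ1 (by linarith)
    have h14 : exp (2 * b * l0) ≤ (1 / v ^ 2) ^ b := by
      rw [rpow_def_of_pos (by positivity), exp_le_exp, one_div, log_inv, log_pow]
      have h15 : log v ≤ log v0 := log_le_log hvp hv0
      push_cast
      nlinarith
    calc τ / 2 * exp (b * l0) = τ / 2 * (exp (-(b * l0)) * exp (2 * b * l0)) := by
          rw [← exp_add]; congr 2; ring
      _ ≤ τ / 2 * (ρ ^ (1 - b) * (1 / v ^ 2) ^ b) := by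
          gcongr
          exact hexp.trans h13
      _ = ((τ / 2) ^ (1 - b) * (τ / 2) ^ b) * (ρ ^ (1 - b) * (1 / v ^ 2) ^ b) := by rw [h12]
      _ = _ := by ring

/-- **The incoherence lemma, double sum.** -/
theorem incoherence_sum {τ0 v0 m0 : ℝ} (hτ0 : 0 < τ0) (hτ0' : τ0 < 1 / 2) (hv0 : 1 / 2 ≤ v0)
    (hv0' : v0 < 1) (hm0 : 0 < m0) :
    ∃ κ₀ : ℝ, 0 < κ₀ ∧ ∀ (N : ℝ), 0 ≤ N → ∀ (E ι κ : Type) [NormedAddCommGroup E]
      [InnerProductSpace ℝ E] (x : ι → E) (η : κ → E) (T : ℝ≥0∞), 1 ≤ T →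
      (∀ s, 0 < s → s ≤ 1 →
        ∑' a, ENNReal.ofReal (s ^ (N / 2) * exp (-π * (s * ‖x a‖ ^ 2))) ≤ T) →
      (∀ s, 0 < s → s ≤ 1 →
        ∑' k, ENNReal.ofReal (s ^ (N / 2) * exp (-π * (s * ‖η k‖ ^ 2))) ≤ T) →
      (∀ y, ∑' k, ENNReal.ofReal (exp (-π * ‖η k - y‖ ^ 2)) ≤ T) →
      ∀ m, m0 * N ≤ m → (∀ a a', a ≠ a' → m ≤ ‖x a - x a'‖ ^ 2) →
      ∀ τ v, 0 < τ → τ ≤ τ0 → 1 / 2 ≤ v → v ≤ v0 →
      ∑' a, ∑' k, ENNReal.ofReal
          (exp (-π * (τ / 2 * ‖x a‖ ^ 2 + ‖η k - v • x a‖ ^ 2 / (2 * τ)))) ≤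
        ENNReal.ofReal (2 * exp (-κ₀ * N) * (τ / 2) ^ (-N / 2)) * T ^ 2 := by
  have hv0p : 0 < v0 := by linarith
  set c0 : ℝ := 1 / (2 * τ0) - 1 with hc0
  have hc0p : 0 < c0 := by
    rw [hc0, sub_pos, lt_div_iff₀ (by positivity)]; linarith
  set l0 : ℝ := -log v0 with hl0
  have hl0p : 0 < l0 := by
    rw [hl0, neg_pos]; exact log_neg hv0p hv0'
  set b : ℝ := min (1 / 2) (min (c0 / 8) (c0 * l0 / 8)) with hb
  have hb0 : 0 < b := by
    rw [hb]; exact lt_min (by norm_num) (lt_min (by positivity) (by positivity))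
  have hb1 : b ≤ 1 / 2 := min_le_left _ _
  have hb2 : b ≤ c0 / 8 := (min_le_right _ _).trans (min_le_left _ _)
  have hb3 : b ≤ c0 * l0 / 8 := (min_le_right _ _).trans (min_le_right _ _)
  refine ⟨min (π * c0 * m0 / 16) (b * l0 / 2), lt_min (by positivity) (by positivity), ?_⟩
  set κ₀ : ℝ := min (π * c0 * m0 / 16) (b * l0 / 2) with hκ
  have hκ1 : κ₀ ≤ π * c0 * m0 / 16 := min_le_left _ _
  have hκ2 : κ₀ ≤ b * l0 / 2 := min_le_right _ _
  intro N hN E ι κ _ _ x η T hT hx hη hη2 m hm hsep τ v hτ hττ0 hv hvv0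
  set c : ℝ := 1 / (2 * τ) - 1 with hc
  have hcc : c0 ≤ c := by
    rw [hc0, hc]
    gcongr
  have hvp : 0 < v := by linarith
  have hcp : 0 < c := hc0p.trans_le hcc
  obtain ⟨s2, hs2⟩ : ∃ s2, s2 = b * (τ / 2 / v ^ 2) := ⟨_, rfl⟩
  obtain ⟨s1, hs1⟩ : ∃ s1, s1 = τ / 2 - v ^ 2 * s2 * c / (c - s2) := ⟨_, rfl⟩
  obtain ⟨h1, h2, h3, h4, h5, h6⟩ := near_weight
    hτ (by linarith) hv hvv0 hl0 hc0p hcc hb0 hb1 hb2 hb3 hs2 hs1
  have key := near_far_sum x η (N := N) hT hx hη hη2 (m := m) (v := v) (τ := τ) (c := c) (b := b)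
    hvp hsep hτ (by linarith) (by linarith) hb0 (by linarith) hs1 h1 h2 h3 h4 h5
  have h1b : 0 < 1 - b := by linarith
  have hC : 0 ≤ ((s1 / (1 - b)) ^ (1 - b) * (s2 / b) ^ b) ^ (-N / 2) := by
    have g1 : 0 < s1 / (1 - b) := by positivity
    have g2 : 0 < s2 / b := by positivity
    positivity
  have e1 : ∀ a k, τ / 2 * ‖x a‖ ^ 2 + ‖η k - v • x a‖ ^ 2 / (2 * τ) =
      τ / 2 * ‖x a‖ ^ 2 + (1 + c) * ‖η k - v • x a‖ ^ 2 := by
    intro a k
    rw [hc]; ring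
  simp only [e1]
  refine key.trans ?_
  gcongr
  rw [← ENNReal.ofReal_add (by positivity) hC]
  apply ENNReal.ofReal_le_ofReal
  have f1 : exp (-π * (c * (v ^ 2 * m / 4))) ≤ exp (-κ₀ * N) := by
    rw [exp_le_exp]
    have hπ := Real.pi_pos
    have g1 : c0 * (1 / 4 * (m0 * N) / 4) ≤ c * (v ^ 2 * m / 4) := by
      have hv2 : (1 : ℝ) / 4 ≤ v ^ 2 := by nlinarith
      have hmN : 0 ≤ m0 * N := by positivity
      gcongr
    have g2 : κ₀ * N ≤ π * c0 * m0 / 16 * N := by gcongr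
    have g3 : π * (c0 * (1 / 4 * (m0 * N) / 4)) ≤ π * (c * (v ^ 2 * m / 4)) := by gcongr
    nlinarith
  have f2 : ((s1 / (1 - b)) ^ (1 - b) * (s2 / b) ^ b) ^ (-N / 2) ≤
      (τ / 2) ^ (-N / 2) * exp (-κ₀ * N) := by
    refine (rpow_le_rpow_of_nonpos (by positivity) h6 (by linarith)).trans ?_
    rw [mul_rpow (by positivity) (by positivity), ← exp_mul]
    have g2 : κ₀ * N ≤ b * l0 / 2 * N := by gcongr
    have g3 : b * l0 * (-N / 2) ≤ -κ₀ * N := by nlinarith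
    gcongr
  calc (τ / 2) ^ (-N / 2) * exp (-π * (c * (v ^ 2 * m / 4))) + _
      ≤ (τ / 2) ^ (-N / 2) * exp (-κ₀ * N) + (τ / 2) ^ (-N / 2) * exp (-κ₀ * N) := by
        gcongr
    _ = 2 * exp (-κ₀ * N) * (τ / 2) ^ (-N / 2) := by ring

end Pool.Agent.BLP
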