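import Pool.Agent.Lib.BLP.Poly
import Pool.Agent.Lib.BLP.Props

/-!
# Row PHI
-/

set_option autoImplicit false

namespace Pool.Agent.BLP

open Complex Polynomial

theorem phi : PHI := by
  obtain ⟨p, h0, h1, hs⟩ := poly_exists (b1 := 1000 / 999) (b2 := 1000 / 998) (by norm_num) (by norm_num)
  refine ⟨p, h0, h1, fun y hy => ?_⟩
  rcases eq_or_ne y 0 with rfl | hy0
  · have h2 : (((0 : ℝ) : ℂ) * I / (1 + ((0 : ℝ) : ℂ) * I)) = 0 := by simp
    rw [h2, Polynomial.aeval_def, Polynomial.eval₂_at_zero, h0]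
    simp
  · have h3 := hs (-(1 / y)) (by
      rw [abs_neg, abs_div, abs_one]
      have hy1 : 0 < |y| := abs_pos.2 hy0
      rcases hy with hy | hy
      · right
        rw [le_div_iff₀ hy1]
        linarith
      · left
        rw [div_le_iff₀ hy1]
        linarith)
    have h4 : (1 : ℂ) / (1 + ((-(1 / y) : ℝ) : ℂ) * I) = (y : ℂ) * I / (1 + (y : ℂ) * I) := by
      have hyc : (y : ℂ) ≠ 0 := by exact_mod_cast hy0
      have e1 : (1 + ((-(1 / y) : ℝ) : ℂ) * I) ≠ 0 := wP_ne _
      have e2 : (1 + (y : ℂ) * I) ≠ 0 := wP_ne _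
      rw [div_eq_div_iff e1 e2]
      push_cast
      field_simp
      linear_combination I_sq
    rw [h4] at h3
    exact h3

end Pool.Agent.BLP
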