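import Pool.Agent.Lib.BLP.Poisson
import Pool.Agent.Lib.BLP.Inc
import Pool.Agent.Lib.BLP.PHI
import Pool.Agent.Lib.BLP.PW2
import Pool.Agent.Lib.BLP.KPW
import Pool.Agent.Lib.BLP.W0B
import Pool.Agent.Lib.BLP.LAPW
import Pool.Agent.Lib.BLP.P2AN
import Pool.Agent.Lib.BLP.EQS
import Pool.Agent.Lib.BLP.GLUE
import Pool.Agent.Lib.BLP.BND1
import Pool.Agent.Lib.BLP.BND2
import Pool.Agent.Lib.BLP.PL
import Pool.Agent.Lib.BLP.Bgrow
import Pool.Agent.Lib.BLP.WinW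
import Pool.Agent.Lib.BLP.QD
import Pool.Agent.Lib.BLP.SNEG
import Pool.Agent.Lib.BLP.Window
import Pool.Agent.Lib.BLP.CLA
import Pool.Agent.Lib.BLP.Lat
import Pool.Agent.Lib.BLP.TEST
import Pool.Agent.Lib.BLP.LatSum
import Pool.Agent.Lib.BLP.Tbound
import Pool.Agent.Lib.BLP.FIN1
import Pool.Agent.Lib.BLP.FIN2
import Pool.Agent.Lib.BLP.FIN3

/-!
Project BLP (MP_ef2672): Hermite's constant is strictly below the linear programming limit.
-/

namespace Pool.Agent.BLP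

/-- **The strict upper bound.** -/
theorem main : FIN3 :=
  fin3 (fin2 (fin1 pfr inc phi (glue pw2 kpw w0b lapw p2an (eqs pw2 kpw)) bnd1 bnd2
    (cla win (qd pw2) sneg (sjb win pls blow) the bnd1 bnd2) lps (test pw2) sumb tb))

end Pool.Agent.BLP
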