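import Mathlib

/-!
# The incoherence lemma, core inequality (near and far pairs)
-/

set_option autoImplicit false

namespace Pool.Agent.BLP

open Real
open scoped ENNReal

/-- the elementary inequality between the quadratic forms -/
theorem quad_ineq {E : Type} [NormedAddCommGroup E] [InnerProductSpace ℝ E] (x η : E)
    {c v s : ℝ} (hcs : 0 < c - s) (τ : ℝ) :
    (τ / 2 - v ^ 2 * s * c / (c - s)) * ‖x‖ ^ 2 + s * ‖η‖ ^ 2 ≤
      τ / 2 * ‖x‖ ^ 2 + c * ‖η - v • x‖ ^ 2 := by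
  have h1 : ‖η - v • x‖ ^ 2 = ‖η‖ ^ 2 - 2 * v * inner ℝ η x + v ^ 2 * ‖x‖ ^ 2 := by
    rw [norm_sub_sq_real, inner_smul_right, norm_smul, mul_pow, Real.norm_eq_abs, sq_abs]
    ring
  have h2 : 0 ≤ ‖(c - s) • η - (v * c) • x‖ ^ 2 := by positivity
  have h3 : ‖(c - s) • η - (v * c) • x‖ ^ 2 =
      (c - s) ^ 2 * ‖η‖ ^ 2 - 2 * (c - s) * (v * c) * inner ℝ η x + (v * c) ^ 2 * ‖x‖ ^ 2 := by
    rw [norm_sub_sq_real, inner_smul_left, inner_smul_right, norm_smul, norm_smul, mul_pow,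
      mul_pow, Real.norm_eq_abs, Real.norm_eq_abs, sq_abs, sq_abs]
    simp only [conj_trivial]
    ring
  rw [h3] at h2
  rw [h1]
  have h4 : τ / 2 * ‖x‖ ^ 2 + c * (‖η‖ ^ 2 - 2 * v * inner ℝ η x + v ^ 2 * ‖x‖ ^ 2) -
      ((τ / 2 - v ^ 2 * s * c / (c - s)) * ‖x‖ ^ 2 + s * ‖η‖ ^ 2) =
      ((c - s) ^ 2 * ‖η‖ ^ 2 - 2 * (c - s) * (v * c) * inner ℝ η x + (v * c) ^ 2 * ‖x‖ ^ 2) /
        (c - s) := by
    field_simp
    ring
  have h5 := div_nonneg h2 hcs.le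
  rw [← h4] at h5
  linarith

/-- the weights -/
theorem weight_ineq {b s1 s2 N X2 Y2 : ℝ} (hb0 : 0 < b) (hb1 : b < 1) (hs1 : 0 < s1)
    (hs2 : 0 < s2) :
    exp (-π * (s1 * X2 + s2 * Y2)) ≤
      ((s1 / (1 - b)) ^ (1 - b) * (s2 / b) ^ b) ^ (-N / 2) *
      ((1 - b) * ((s1 / (1 - b)) ^ (N / 2) * exp (-π * (s1 / (1 - b) * X2))) +
        b * ((s2 / b) ^ (N / 2) * exp (-π * (s2 / b * Y2)))) := by
  have h1b : 0 < 1 - b := by linarith
  have hg1 : 0 < s1 / (1 - b) := by positivity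
  have hg2 : 0 < s2 / b := by positivity
  set g1 := s1 / (1 - b) with hg1'
  set g2 := s2 / b with hg2'
  have e1 : s1 = (1 - b) * g1 := by rw [hg1']; field_simp
  have e2 : s2 = b * g2 := by rw [hg2']; field_simp
  have hX : 0 ≤ g1 ^ (N / 2) * exp (-π * (g1 * X2)) := by positivity
  have hY : 0 ≤ g2 ^ (N / 2) * exp (-π * (g2 * Y2)) := by positivity
  have h2 := Real.geom_mean_le_arith_mean2_weighted h1b.le hb0.le hX hY (by ring)
  refine le_trans (le_of_eq ?_) (mul_le_mul_of_nonneg_left h2 (by positivity))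
  rw [mul_rpow (by positivity) (by positivity), mul_rpow (by positivity) (by positivity),
    mul_rpow (by positivity) (by positivity), ← rpow_mul hg1.le, ← rpow_mul hg2.le,
    ← rpow_mul hg1.le, ← rpow_mul hg2.le, ← exp_mul, ← exp_mul]
  have e3 : g1 ^ ((1 - b) * (-N / 2)) * g1 ^ (N / 2 * (1 - b)) = 1 := by
    rw [← rpow_add hg1, show (1 - b) * (-N / 2) + N / 2 * (1 - b) = 0 by ring, rpow_zero]
  have e4 : g2 ^ (b * (-N / 2)) * g2 ^ (N / 2 * b) = 1 := by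
    rw [← rpow_add hg2, show b * (-N / 2) + N / 2 * b = 0 by ring, rpow_zero]
  have e5 : exp (-π * (s1 * X2 + s2 * Y2)) =
      exp (-π * (g1 * X2) * (1 - b)) * exp (-π * (g2 * Y2) * b) := by
    rw [← exp_add, e1, e2]; congr 1; ring
  rw [e5]
  calc exp (-π * (g1 * X2) * (1 - b)) * exp (-π * (g2 * Y2) * b)
      = (g1 ^ ((1 - b) * (-N / 2)) * g1 ^ (N / 2 * (1 - b))) *
        (g2 ^ (b * (-N / 2)) * g2 ^ (N / 2 * b)) *
        (exp (-π * (g1 * X2) * (1 - b)) * exp (-π * (g2 * Y2) * b)) := by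
        rw [e3, e4]; ring
    _ = _ := by ring

/-- at most one lattice point is near -/
theorem near_unique {E ι : Type} [NormedAddCommGroup E] [InnerProductSpace ℝ E] (x : ι → E)
    {m v : ℝ} (hv : 0 < v) (hsep : ∀ a a', a ≠ a' → m ≤ ‖x a - x a'‖ ^ 2) (y : E) {a a' : ι}
    (ha : ‖y - v • x a‖ ^ 2 < v ^ 2 * m / 4) (ha' : ‖y - v • x a'‖ ^ 2 < v ^ 2 * m / 4) :
    a = a' := by
  by_contra h
  have h1 := hsep a a' h
  have h2 : v • x a - v • x a' = (y - v • x a') - (y - v • x a) := by abel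
  have h3 : ‖v • x a - v • x a'‖ ^ 2 = v ^ 2 * ‖x a - x a'‖ ^ 2 := by
    rw [← smul_sub, norm_smul, mul_pow, Real.norm_eq_abs, sq_abs]
  have h4 : ‖(y - v • x a') - (y - v • x a)‖ ^ 2 ≤
      2 * ‖y - v • x a'‖ ^ 2 + 2 * ‖y - v • x a‖ ^ 2 := by
    have h5 := norm_sub_le (y - v • x a') (y - v • x a)
    have h6 : ‖(y - v • x a') - (y - v • x a)‖ ^ 2 ≤
        (‖y - v • x a'‖ + ‖y - v • x a‖) ^ 2 := by
      gcongr
    nlinarith [sq_nonneg (‖y - v • x a'‖ - ‖y - v • x a‖)]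
  rw [← h2, h3] at h4
  have h7 : v ^ 2 * m ≤ v ^ 2 * ‖x a - x a'‖ ^ 2 := by gcongr
  linarith

/-- **The core inequality of the incoherence lemma.** -/
theorem near_far_sum {E ι κ : Type} [NormedAddCommGroup E] [InnerProductSpace ℝ E] (x : ι → E)
    (η : κ → E) {N : ℝ} {T : ℝ≥0∞} (hT : 1 ≤ T)
    (hx : ∀ s, 0 < s → s ≤ 1 →
      ∑' a, ENNReal.ofReal (s ^ (N / 2) * exp (-π * (s * ‖x a‖ ^ 2))) ≤ T)
    (hη : ∀ s, 0 < s → s ≤ 1 →
      ∑' k, ENNReal.ofReal (s ^ (N / 2) * exp (-π * (s * ‖η k‖ ^ 2))) ≤ T)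
    (hη2 : ∀ y, ∑' k, ENNReal.ofReal (exp (-π * ‖η k - y‖ ^ 2)) ≤ T)
    {m v τ c b s1 s2 : ℝ} (hv : 0 < v) (hsep : ∀ a a', a ≠ a' → m ≤ ‖x a - x a'‖ ^ 2)
    (hτ : 0 < τ) (hτ2 : τ ≤ 1) (hc : 0 < c) (hb0 : 0 < b) (hb1 : b < 1)
    (hs1 : s1 = τ / 2 - v ^ 2 * s2 * c / (c - s2)) (hs1p : 0 < s1) (hs11 : s1 / (1 - b) ≤ 1)
    (hs2p : 0 < s2) (hs22 : s2 / b ≤ 1) (hcs : s2 < c) :
    ∑' a, ∑' k, ENNReal.ofReal
        (exp (-π * (τ / 2 * ‖x a‖ ^ 2 + (1 + c) * ‖η k - v • x a‖ ^ 2))) ≤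
      (ENNReal.ofReal ((τ / 2) ^ (-N / 2) * exp (-π * (c * (v ^ 2 * m / 4)))) +
        ENNReal.ofReal (((s1 / (1 - b)) ^ (1 - b) * (s2 / b) ^ b) ^ (-N / 2))) * T ^ 2 := by
  classical
  set C : ℝ := ((s1 / (1 - b)) ^ (1 - b) * (s2 / b) ^ b) ^ (-N / 2) with hC
  set A : ℝ := (τ / 2) ^ (-N / 2) * exp (-π * (c * (v ^ 2 * m / 4))) with hA
  have h1b : 0 < 1 - b := by linarith
  have hg1 : 0 < s1 / (1 - b) := by positivity
  have hg2 : 0 < s2 / b := by positivity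
  have hC0 : 0 ≤ C := by positivity
  have hA0 : 0 ≤ A := by positivity
  -- the pointwise bound
  have key : ∀ a k, ENNReal.ofReal
        (exp (-π * (τ / 2 * ‖x a‖ ^ 2 + (1 + c) * ‖η k - v • x a‖ ^ 2))) ≤
      (ENNReal.ofReal A * ENNReal.ofReal ((τ / 2) ^ (N / 2) * exp (-π * (τ / 2 * ‖x a‖ ^ 2))) *
          ENNReal.ofReal (exp (-π * ‖η k - v • x a‖ ^ 2)) +
        ENNReal.ofReal (C * (1 - b)) *
          ENNReal.ofReal ((s1 / (1 - b)) ^ (N / 2) * exp (-π * (s1 / (1 - b) * ‖x a‖ ^ 2))) *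
          ENNReal.ofReal (exp (-π * ‖η k - v • x a‖ ^ 2))) +
        ENNReal.ofReal (C * b) *
          (ENNReal.ofReal ((s2 / b) ^ (N / 2) * exp (-π * (s2 / b * ‖η k‖ ^ 2))) *
          (if ‖η k - v • x a‖ ^ 2 < v ^ 2 * m / 4 then 1 else 0)) := by
    intro a k
    have hR : exp (-π * ‖η k - v • x a‖ ^ 2) ≤ 1 := by
      rw [exp_le_one_iff]
      have := Real.pi_pos
      have h3 : 0 ≤ ‖η k - v • x a‖ ^ 2 := by positivity
      nlinarith
    split_ifs with hnear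
    · -- near
      refine le_trans ?_ (add_le_add_left (le_add_self) _)
      rw [mul_one, ← ENNReal.ofReal_mul (by positivity), ← ENNReal.ofReal_mul (by positivity),
        ← ENNReal.ofReal_mul (by positivity), ← ENNReal.ofReal_add (by positivity) (by positivity)]
      apply ENNReal.ofReal_le_ofReal
      have h3 := quad_ineq (x a) (η k) (v := v) (sub_pos.2 hcs) τ
      rw [← hs1] at h3
      have h4 := weight_ineq (N := N) (X2 := ‖x a‖ ^ 2) (Y2 := ‖η k‖ ^ 2) hb0 hb1 hs1p hs2p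
      rw [← hC] at h4
      have h5 : exp (-π * (τ / 2 * ‖x a‖ ^ 2 + (1 + c) * ‖η k - v • x a‖ ^ 2)) ≤
          exp (-π * (s1 * ‖x a‖ ^ 2 + s2 * ‖η k‖ ^ 2)) * exp (-π * ‖η k - v • x a‖ ^ 2) := by
        rw [← exp_add, exp_le_exp]
        have := Real.pi_pos
        nlinarith
      refine h5.trans ?_
      have hX : 0 ≤ (s1 / (1 - b)) ^ (N / 2) * exp (-π * (s1 / (1 - b) * ‖x a‖ ^ 2)) := by
        positivity
      have hY : 0 ≤ (s2 / b) ^ (N / 2) * exp (-π * (s2 / b * ‖η k‖ ^ 2)) := by positivity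
      have hR0 : 0 ≤ exp (-π * ‖η k - v • x a‖ ^ 2) := by positivity
      calc exp (-π * (s1 * ‖x a‖ ^ 2 + s2 * ‖η k‖ ^ 2)) * exp (-π * ‖η k - v • x a‖ ^ 2)
          ≤ (C * ((1 - b) * ((s1 / (1 - b)) ^ (N / 2) *
              exp (-π * (s1 / (1 - b) * ‖x a‖ ^ 2))) +
              b * ((s2 / b) ^ (N / 2) * exp (-π * (s2 / b * ‖η k‖ ^ 2))))) *
              exp (-π * ‖η k - v • x a‖ ^ 2) := mul_le_mul_of_nonneg_right h4 hR0
        _ = C * (1 - b) * ((s1 / (1 - b)) ^ (N / 2) *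
              exp (-π * (s1 / (1 - b) * ‖x a‖ ^ 2))) * exp (-π * ‖η k - v • x a‖ ^ 2) +
            C * b * ((s2 / b) ^ (N / 2) * exp (-π * (s2 / b * ‖η k‖ ^ 2))) *
              exp (-π * ‖η k - v • x a‖ ^ 2) := by ring
        _ ≤ C * (1 - b) * ((s1 / (1 - b)) ^ (N / 2) *
              exp (-π * (s1 / (1 - b) * ‖x a‖ ^ 2))) * exp (-π * ‖η k - v • x a‖ ^ 2) +
            C * b * ((s2 / b) ^ (N / 2) * exp (-π * (s2 / b * ‖η k‖ ^ 2))) * 1 := by
            gcongr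
        _ = _ := by ring
    · -- far
      refine le_trans ?_ (le_trans (le_self_add) (le_self_add))
      rw [← ENNReal.ofReal_mul (by positivity), ← ENNReal.ofReal_mul (by positivity)]
      apply ENNReal.ofReal_le_ofReal
      have h3 : (τ / 2) ^ (-N / 2) * (τ / 2) ^ (N / 2) = 1 := by
        rw [← rpow_add (by positivity), show -N / 2 + N / 2 = 0 by ring, rpow_zero]
      have h4 : A * ((τ / 2) ^ (N / 2) * exp (-π * (τ / 2 * ‖x a‖ ^ 2))) *
          exp (-π * ‖η k - v • x a‖ ^ 2) = exp (-π * (c * (v ^ 2 * m / 4))) *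
          exp (-π * (τ / 2 * ‖x a‖ ^ 2)) * exp (-π * ‖η k - v • x a‖ ^ 2) := by
        rw [hA]
        calc _ = ((τ / 2) ^ (-N / 2) * (τ / 2) ^ (N / 2)) * (exp (-π * (c * (v ^ 2 * m / 4))) *
          exp (-π * (τ / 2 * ‖x a‖ ^ 2)) * exp (-π * ‖η k - v • x a‖ ^ 2)) := by ring
          _ = _ := by rw [h3, one_mul]
      rw [h4, ← exp_add, ← exp_add, exp_le_exp]
      have h5 : c * (v ^ 2 * m / 4) ≤ c * ‖η k - v • x a‖ ^ 2 := by
        gcongr
        exact not_lt.1 hnear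
      have := Real.pi_pos
      nlinarith
  -- summation
  have hnearsum : ∀ k, ∑' a, (if ‖η k - v • x a‖ ^ 2 < v ^ 2 * m / 4 then (1 : ℝ≥0∞) else 0) ≤
      1 := by
    intro k
    by_cases hex : ∃ a, ‖η k - v • x a‖ ^ 2 < v ^ 2 * m / 4
    · obtain ⟨a₀, ha₀⟩ := hex
      rw [tsum_eq_single a₀]
      · rw [if_pos ha₀]
      · intro a ha
        rw [if_neg]
        intro h
        exact ha (near_unique x hv hsep (η k) h ha₀)
    · push Not at hex
      have : ∀ a, (if ‖η k - v • x a‖ ^ 2 < v ^ 2 * m / 4 then (1 : ℝ≥0∞) else 0) = 0 :=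
        fun a => if_neg (not_lt.2 (hex a))
      simp only [this, tsum_zero]
      exact zero_le_one
  refine (ENNReal.tsum_le_tsum fun a => ENNReal.tsum_le_tsum fun k => key a k).trans ?_
  simp only [ENNReal.tsum_add, ENNReal.tsum_mul_left]
  have hS1 : ∑' a, ENNReal.ofReal A *
      ENNReal.ofReal ((τ / 2) ^ (N / 2) * exp (-π * (τ / 2 * ‖x a‖ ^ 2))) *
        ∑' k, ENNReal.ofReal (exp (-π * ‖η k - v • x a‖ ^ 2)) ≤ ENNReal.ofReal A * T ^ 2 := by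
    calc _ ≤ ∑' a, ENNReal.ofReal A *
      ENNReal.ofReal ((τ / 2) ^ (N / 2) * exp (-π * (τ / 2 * ‖x a‖ ^ 2))) * T :=
          ENNReal.tsum_le_tsum fun a => by gcongr; exact hη2 _
      _ = ENNReal.ofReal A * (∑' a, ENNReal.ofReal ((τ / 2) ^ (N / 2) *
            exp (-π * (τ / 2 * ‖x a‖ ^ 2)))) * T := by
          rw [ENNReal.tsum_mul_right, ENNReal.tsum_mul_left]
      _ ≤ ENNReal.ofReal A * T * T := by
          gcongr
          exact hx _ (by positivity) (by linarith)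
      _ = ENNReal.ofReal A * T ^ 2 := by ring
  have hS2 : ∑' a, ENNReal.ofReal (C * (1 - b)) *
      ENNReal.ofReal ((s1 / (1 - b)) ^ (N / 2) * exp (-π * (s1 / (1 - b) * ‖x a‖ ^ 2))) *
        ∑' k, ENNReal.ofReal (exp (-π * ‖η k - v • x a‖ ^ 2)) ≤
      ENNReal.ofReal (C * (1 - b)) * T ^ 2 := by
    calc _ ≤ ∑' a, ENNReal.ofReal (C * (1 - b)) *
      ENNReal.ofReal ((s1 / (1 - b)) ^ (N / 2) * exp (-π * (s1 / (1 - b) * ‖x a‖ ^ 2))) * T :=
          ENNReal.tsum_le_tsum fun a => by gcongr; exact hη2 _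
      _ = ENNReal.ofReal (C * (1 - b)) * (∑' a, ENNReal.ofReal ((s1 / (1 - b)) ^ (N / 2) *
            exp (-π * (s1 / (1 - b) * ‖x a‖ ^ 2)))) * T := by
          rw [ENNReal.tsum_mul_right, ENNReal.tsum_mul_left]
      _ ≤ ENNReal.ofReal (C * (1 - b)) * T * T := by
          gcongr
          exact hx _ hg1 hs11
      _ = ENNReal.ofReal (C * (1 - b)) * T ^ 2 := by ring
  have hS3 : ENNReal.ofReal (C * b) * ∑' a, ∑' k,
      ENNReal.ofReal ((s2 / b) ^ (N / 2) * exp (-π * (s2 / b * ‖η k‖ ^ 2))) *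
          (if ‖η k - v • x a‖ ^ 2 < v ^ 2 * m / 4 then 1 else 0) ≤
      ENNReal.ofReal (C * b) * T ^ 2 := by
    gcongr
    rw [ENNReal.tsum_comm]
    calc _ = ∑' k, ENNReal.ofReal ((s2 / b) ^ (N / 2) * exp (-π * (s2 / b * ‖η k‖ ^ 2))) *
          ∑' a, (if ‖η k - v • x a‖ ^ 2 < v ^ 2 * m / 4 then (1 : ℝ≥0∞) else 0) := by
          refine tsum_congr fun k => ?_
          rw [ENNReal.tsum_mul_left]
      _ ≤ ∑' k, ENNReal.ofReal ((s2 / b) ^ (N / 2) * exp (-π * (s2 / b * ‖η k‖ ^ 2))) * 1 :=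
          ENNReal.tsum_le_tsum fun k => by gcongr; exact hnearsum k
      _ ≤ T := by
          simp only [mul_one]
          exact hη _ hg2 hs22
      _ ≤ T ^ 2 := by
          calc T = T * 1 := (mul_one T).symm
            _ ≤ T * T := by gcongr
            _ = T ^ 2 := by ring
  refine (add_le_add (add_le_add hS1 hS2) hS3).trans (le_of_eq ?_)
  have h6 : ENNReal.ofReal C = ENNReal.ofReal (C * (1 - b)) + ENNReal.ofReal (C * b) := by
    rw [← ENNReal.ofReal_add (by positivity) (by positivity)]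
    congr 1; ring
  rw [h6]
  ring

end Pool.Agent.BLP
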