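import Mathlib

/-! Analytic dependence of an integral on a complex parameter, and two elementary bounds. -/

open MeasureTheory Complex Set Filter Topology

namespace Pool.BLP

/-- An integral of analytic functions with an integrable majorant is analytic. -/
theorem par_diff {U : Set ℂ} (hU : IsOpen U) {F : ℂ → ℝ → ℂ} {b : ℝ → ℝ} (hb : Integrable b)
    (hm : ∀ s ∈ U, AEStronglyMeasurable (F s)) (hd : ∀ t, DifferentiableOn ℂ (fun s => F s t) U)
    (hB : ∀ s ∈ U, ∀ t, ‖F s t‖ ≤ b t) : DifferentiableOn ℂ (fun s => ∫ t, F s t) U := by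
  intro s hs
  obtain ⟨R, hR, hball⟩ := Metric.isOpen_iff.1 hU s hs
  obtain ⟨r, hr, hrR⟩ : ∃ r : ℝ, 0 < r ∧ 2 * r < R := ⟨R / 4, by linarith, by linarith⟩
  have hsub : ∀ x ∈ Metric.ball s r, Metric.closedBall x r ⊆ U := by
    intro x hx y hy
    refine hball ?_
    rw [Metric.mem_ball] at hx ⊢
    rw [Metric.mem_closedBall] at hy
    have := dist_triangle y x s
    linarith
  have hdat : ∀ t, ∀ x ∈ U, DifferentiableAt ℂ (fun s => F s t) x := fun t x hx =>
    (hd t x hx).differentiableAt (hU.mem_nhds hx)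
  refine (hasDerivAt_integral_of_dominated_loc_of_deriv_le (μ := volume) (F := F)
    (F' := fun x t => deriv (fun s => F s t) x) (bound := fun t => b t / r)
    (Metric.ball_mem_nhds s hr) ?_ ?_ ?_ ?_ ?_ ?_).2.differentiableAt.differentiableWithinAt
  · filter_upwards [hU.mem_nhds hs] with x hx using hm x hx
  · exact hb.mono' (hm s hs) (Eventually.of_forall fun t => hB s hs t)
  · have hk : ∀ k : ℕ, s + ((r / ((k : ℝ) + 1) : ℝ) : ℂ) ∈ U := by
      intro k
      refine hsub s (Metric.mem_ball_self hr) ?_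
      rw [Metric.mem_closedBall, dist_eq_norm, add_sub_cancel_left, Complex.norm_real,
        Real.norm_of_nonneg (by positivity)]
      exact div_le_self hr.le (by linarith [(Nat.cast_nonneg k : (0 : ℝ) ≤ k)])
    have h0 : Tendsto (fun k : ℕ => ((r / ((k : ℝ) + 1) : ℝ) : ℂ)) atTop (𝓝[≠] 0) := by
      refine tendsto_nhdsWithin_iff.2 ⟨?_, Eventually.of_forall fun k => ?_⟩
      · have h1 : Tendsto (fun k : ℕ => r * (1 / ((k : ℝ) + 1))) atTop (𝓝 (r * 0)) :=
          tendsto_one_div_add_atTop_nhds_zero_nat.const_mul r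
        have h2 : Tendsto (fun k : ℕ => r / ((k : ℝ) + 1)) atTop (𝓝 0) := by
          simpa [div_eq_mul_inv] using h1
        exact (Complex.continuous_ofReal.tendsto 0).comp h2
      · have : r / ((k : ℝ) + 1) ≠ 0 := by positivity
        exact Complex.ofReal_ne_zero.2 this
    refine aestronglyMeasurable_of_tendsto_ae atTop (f := fun (k : ℕ) (t : ℝ) =>
      ((r / ((k : ℝ) + 1) : ℝ) : ℂ)⁻¹ • (F (s + ((r / ((k : ℝ) + 1) : ℝ) : ℂ)) t - F s t)) ?_ ?_
    · intro k
      have := ((hm _ (hk k)).sub (hm s hs)).const_smul (((r / ((k : ℝ) + 1) : ℝ) : ℂ)⁻¹)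
      exact this
    · refine Eventually.of_forall fun t => ?_
      have h1 := (hdat t s hs).hasDerivAt
      rw [hasDerivAt_iff_tendsto_slope_zero] at h1
      exact h1.comp h0
  · refine Eventually.of_forall fun t x hx => ?_
    refine Complex.norm_deriv_le_of_forall_mem_sphere_norm_le hr ?_ ?_
    · refine ((hd t).mono ?_).diffContOnCl
      rw [closure_ball x hr.ne']
      exact hsub x hx
    · intro z hz
      exact hB z (hsub x hx (Metric.sphere_subset_closedBall hz)) t
  · exact hb.div_const r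
  · refine Eventually.of_forall fun t x hx => ?_
    exact (hdat t x (hsub x hx (Metric.mem_closedBall_self hr.le))).hasDerivAt

/-- A quadratic factor is bounded below. -/
lemma fac_low {a : ℂ} {δ : ℝ} (hδ : 0 < δ) (hδ1 : δ ≤ 1) (ha : δ ≤ a.re) (ha2 : ‖a‖ ≤ 2)
    (t : ℝ) : δ ^ 2 * (1 + t ^ 2) / 17 ≤ ‖a ^ 2 + (t : ℂ) ^ 2‖ := by
  have him := (Complex.abs_im_le_norm a).trans ha2
  have him1 := (abs_le.1 him).1
  have him2 := (abs_le.1 him).2
  have key : ∀ y x : ℝ, -2 ≤ y → y ≤ 2 → δ ≤ x → δ ^ 2 * (1 + t ^ 2) / 17 ≤ x ^ 2 + (y + t) ^ 2 := by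
    intro y x hy1 hy2 hx
    have h1 : δ ^ 2 ≤ x ^ 2 := pow_le_pow_left₀ hδ.le hx 2
    have h2 : δ ^ 2 ≤ 1 := pow_le_one₀ hδ.le hδ1
    have h0 : 0 < δ ^ 2 := by positivity
    rcases le_or_gt (|t|) 4 with ht | ht
    · have h3 : t ^ 2 ≤ 16 := by
        have := abs_le.1 ht
        nlinarith [this.1, this.2]
      nlinarith [sq_nonneg (y + t)]
    · have h3 : t ^ 2 / 4 ≤ (y + t) ^ 2 := by
        rcases le_or_gt 0 t with h | h
        · rw [abs_of_nonneg h] at ht
          nlinarith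
        · rw [abs_of_neg h] at ht
          nlinarith
      have h4 : (16 : ℝ) ≤ t ^ 2 := by
        rcases le_or_gt 0 t with h | h
        · rw [abs_of_nonneg h] at ht; nlinarith
        · rw [abs_of_neg h] at ht; nlinarith
      nlinarith [mul_nonneg (sub_nonneg.2 h2) (by positivity : (0 : ℝ) ≤ 1 + t ^ 2)]
  have e : a ^ 2 + (t : ℂ) ^ 2 = (a + t * I) * (a - t * I) := by
    ring_nf
    rw [Complex.I_sq]
    ring
  rw [e, norm_mul]
  have n1 : δ ^ 2 * (1 + t ^ 2) / 17 ≤ ‖a + t * I‖ ^ 2 := by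
    rw [← Complex.normSq_eq_norm_sq, Complex.normSq_apply]
    have := key a.im a.re him1 him2 ha
    simp
    nlinarith
  have n2 : δ ^ 2 * (1 + t ^ 2) / 17 ≤ ‖a - t * I‖ ^ 2 := by
    rw [← Complex.normSq_eq_norm_sq, Complex.normSq_apply]
    have := key (-a.im) a.re (by linarith) (by linarith) ha
    simp
    nlinarith
  have h0 : 0 ≤ δ ^ 2 * (1 + t ^ 2) / 17 := by positivity
  refine le_of_sq_le_sq ?_ (by positivity)
  rw [mul_pow, sq (δ ^ 2 * (1 + t ^ 2) / 17)]
  exact mul_le_mul n1 n2 h0 (by positivity)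

end Pool.BLP
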