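import Pool.Agent.Lib.BLP.Props
import Pool.Agent.Lib.MP_ef2672_gt_Tauber.Upper

/-!
BLP project: periodic packings with at most `exp (c d)` translates (helper70; question of helper44).
-/

set_option autoImplicit false

namespace Pool.Agent.BLP

open Filter Topology Pool.Agent.Lib.MP_ef2672_gt_Tauber

/-- Periodic packings with few translates: the union of the `k` translates `A ℤ^d + v i` of a
lattice, with all squared distances at least `m`. -/
def PER : Prop := ∃ ε b : ℝ, 0 < ε ∧ 0 < b ∧ ∀ᶠ d : ℕ in atTop,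
  ∀ (A : Matrix (Fin d) (Fin d) ℝ), A.det ≠ 0 → ∀ (k : ℕ) (v : Fin k → Fin d → ℝ), 1 ≤ k →
  (k : ℝ) ≤ Real.exp (b * d) → ∀ m : ℝ,
  (∀ (w : Fin d → ℤ) (i j : Fin k), (w ≠ 0 ∨ i ≠ j) → m ≤ nsq (lv A w + v i - v j)) →
  m * (k / |A.det|) ^ ((2 : ℝ) / d) ≤ (1 / Real.pi ^ 2 - ε) * d

theorem per : FIN3 → PER := by
  rintro ⟨ε, hε, -, H⟩
  have hpi := Real.pi_pos
  -- choice of the constants
  set ε' : ℝ := min ε (1 / (2 * Real.pi ^ 2)) with hε'
  have hε'0 : 0 < ε' := lt_min hε (by positivity)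
  have hq : 0 < 1 / Real.pi ^ 2 - ε' := by
    have h1 : ε' ≤ 1 / (2 * Real.pi ^ 2) := min_le_right _ _
    have h2 : 1 / (2 * Real.pi ^ 2) < 1 / Real.pi ^ 2 := by
      rw [div_lt_div_iff₀ (by positivity) (by positivity)]
      nlinarith [sq_pos_of_pos hpi]
    linarith
  have hr : 1 < (1 / Real.pi ^ 2 - ε' / 2) / (1 / Real.pi ^ 2 - ε') := by
    rw [lt_div_iff₀ hq]
    linarith
  set b : ℝ := Real.log ((1 / Real.pi ^ 2 - ε' / 2) / (1 / Real.pi ^ 2 - ε')) / 2 with hb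
  have hb0 : 0 < b := div_pos (Real.log_pos hr) two_pos
  refine ⟨ε' / 2, b, half_pos hε'0, hb0, ?_⟩
  filter_upwards [H, eventually_ge_atTop 1] with d hd hd1
  intro A hA k v hk hkb m hm
  have hd0 : (0 : ℝ) < d := by exact_mod_cast hd1
  have hdet : 0 < |A.det| := abs_pos.2 hA
  have hk0 : (0 : ℝ) < k := by exact_mod_cast hk
  -- the lattice itself
  have hne : Nonempty {w : Fin d → ℤ // w ≠ 0} := by
    refine ⟨⟨fun _ => 1, fun h => ?_⟩⟩
    have := congrFun h ⟨0, hd1⟩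
    simp at this
  have h1 : m ≤ minSq A := by
    refine le_ciInf fun w => ?_
    have h := hm w.1 ⟨0, hk⟩ ⟨0, hk⟩ (Or.inl w.2)
    rw [add_sub_cancel_right] at h
    exact h
  have h2 : inv A ≤ (1 / Real.pi ^ 2 - ε') * d := by
    have h3 := inv_le_gamma hd1 A hA
    have h4 : gamma d ≤ (1 / Real.pi ^ 2 - ε) * d := by
      unfold c at hd
      rwa [div_le_iff₀ hd0] at hd
    have h5 : (1 / Real.pi ^ 2 - ε) * d ≤ (1 / Real.pi ^ 2 - ε') * d :=
      mul_le_mul_of_nonneg_right (by linarith [min_le_left ε (1 / (2 * Real.pi ^ 2))]) hd0.le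
    linarith
  have h6 : m ≤ (1 / Real.pi ^ 2 - ε') * d * |A.det| ^ ((2 : ℝ) / d) := by
    unfold inv at h2
    rw [div_le_iff₀ (Real.rpow_pos_of_pos hdet _)] at h2
    exact h1.trans h2
  have h7 : (k : ℝ) ^ ((2 : ℝ) / d) ≤ (1 / Real.pi ^ 2 - ε' / 2) / (1 / Real.pi ^ 2 - ε') := by
    calc (k : ℝ) ^ ((2 : ℝ) / d) ≤ (Real.exp (b * d)) ^ ((2 : ℝ) / d) :=
          Real.rpow_le_rpow hk0.le hkb (by positivity)
      _ = Real.exp (2 * b) := by
          rw [← Real.exp_mul]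
          congr 1
          field_simp
      _ = (1 / Real.pi ^ 2 - ε' / 2) / (1 / Real.pi ^ 2 - ε') := by
          rw [hb, mul_div_cancel₀ _ two_ne_zero, Real.exp_log (by linarith)]
  rw [Real.div_rpow hk0.le hdet.le]
  have hD : 0 < |A.det| ^ ((2 : ℝ) / d) := Real.rpow_pos_of_pos hdet _
  calc m * ((k : ℝ) ^ ((2 : ℝ) / d) / |A.det| ^ ((2 : ℝ) / d))
      ≤ ((1 / Real.pi ^ 2 - ε') * d * |A.det| ^ ((2 : ℝ) / d)) *
        ((k : ℝ) ^ ((2 : ℝ) / d) / |A.det| ^ ((2 : ℝ) / d)) :=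
        mul_le_mul_of_nonneg_right h6 (by positivity)
    _ = (1 / Real.pi ^ 2 - ε') * d * (k : ℝ) ^ ((2 : ℝ) / d) := by
        field_simp
    _ ≤ (1 / Real.pi ^ 2 - ε') * d *
        ((1 / Real.pi ^ 2 - ε' / 2) / (1 / Real.pi ^ 2 - ε')) :=
        mul_le_mul_of_nonneg_left h7 (by positivity)
    _ = (1 / Real.pi ^ 2 - ε') * ((1 / Real.pi ^ 2 - ε' / 2) / (1 / Real.pi ^ 2 - ε')) * d := by ring
    _ = _ := by rw [mul_div_cancel₀ _ hq.ne']

end Pool.Agent.BLP
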