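import Mathlib

/-!
# The perturbing polynomial

For `0 < b1 < b2` there is a real polynomial `p` with `p 0 = 0`, `p' 0 > 0` and
`Re p (1 / (1 + i Y)) ≤ 0` for all real `Y` with `|Y| ≤ b1` or `|Y| ≥ b2`.
-/

set_option autoImplicit false

namespace Pool.Agent.BLP

open Complex Polynomial MeasureTheory Filter Topology

/-- the point `1 / (1 + i Y)` -/
noncomputable def wP (Y : ℝ) : ℂ := 1 / (1 + (Y : ℂ) * I)

/-- its real part -/
noncomputable def cP (Y : ℝ) : ℝ := 1 / (1 + Y ^ 2)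

lemma wP_ne (Y : ℝ) : (1 + (Y : ℂ) * I) ≠ 0 := by
  intro h
  have := congrArg Complex.re h
  simp at this

lemma cP_pos (Y : ℝ) : 0 < cP Y := by
  unfold cP
  positivity

lemma cP_le_one (Y : ℝ) : cP Y ≤ 1 := by
  unfold cP
  rw [div_le_one (by positivity)]
  nlinarith [sq_nonneg Y]

lemma wP_eq (Y : ℝ) : wP Y = (cP Y : ℂ) * (1 - Y * I) := by
  have h1 := wP_ne Y
  have h2 : (1 + (Y : ℂ) ^ 2) ≠ 0 := by
    have : (0 : ℝ) < 1 + Y ^ 2 := by positivity
    exact_mod_cast this.ne'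
  unfold wP cP
  push_cast
  rw [div_mul_eq_mul_div, one_mul, div_eq_div_iff h1 h2]
  linear_combination ((Y : ℂ) ^ 2) * I_sq

lemma wP_re (Y : ℝ) : (wP Y).re = cP Y := by
  rw [wP_eq]
  simp

lemma wP_sq (Y : ℝ) : wP Y ^ 2 = 2 * (cP Y : ℂ) * wP Y - (cP Y : ℂ) := by
  have h2 : (1 + (Y : ℂ) ^ 2) ≠ 0 := by
    have : (0 : ℝ) < 1 + Y ^ 2 := by positivity
    exact_mod_cast this.ne'
  have h3 : (cP Y : ℂ) * (1 + (Y : ℂ) ^ 2) = 1 := by
    unfold cP
    push_cast
    field_simp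
  rw [wP_eq]
  linear_combination ((cP Y : ℂ) ^ 2 * (Y : ℂ) ^ 2) * I_sq - (cP Y : ℂ) * h3

lemma norm_wP_sq (Y : ℝ) : ‖wP Y‖ ^ 2 = cP Y := by
  rw [← Complex.normSq_eq_norm_sq, wP_eq, map_mul, Complex.normSq_ofReal, Complex.normSq_apply]
  have h2 : (1 + Y ^ 2) ≠ 0 := by positivity
  simp only [sub_re, one_re, mul_re, ofReal_re, I_re, mul_zero, ofReal_im, I_im, mul_one, sub_self, sub_zero,
    sub_im, one_im, mul_im, add_zero, zero_sub]
  unfold cP
  field_simp

lemma norm_wP_le_one (Y : ℝ) : ‖wP Y‖ ≤ 1 := by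
  have h1 := norm_wP_sq Y
  have h2 := cP_le_one Y
  nlinarith [norm_nonneg (wP Y)]

/-- the real part of `p (1 / (1 + i Y))` -/
noncomputable def evP (p : ℝ[X]) (Y : ℝ) : ℝ := (aeval (wP Y) p).re

lemma evP_add (p q : ℝ[X]) (Y : ℝ) : evP (p + q) Y = evP p Y + evP q Y := by
  simp [evP]

lemma evP_C_mul (a : ℝ) (p : ℝ[X]) (Y : ℝ) : evP (C a * p) Y = a * evP p Y := by
  simp [evP]

lemma evP_X_pow (k : ℕ) (Y : ℝ) : evP (X ^ k) Y = (wP Y ^ k).re := by
  simp [evP]

/-- `c Re w^(k+1)` is `Re p w` -/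
lemma exists_mul_pow (k : ℕ) : ∃ p : ℝ[X], p.coeff 0 = 0 ∧ ∀ Y : ℝ, evP p Y = cP Y * (wP Y ^ (k + 1)).re := by
  induction k with
  | zero =>
    refine ⟨C (1 / 2) * X ^ 2 + C (1 / 2) * X ^ 1, by simp, fun Y => ?_⟩
    rw [evP_add, evP_C_mul, evP_C_mul, evP_X_pow, evP_X_pow, wP_sq, zero_add, pow_one]
    have h1 : (2 * (cP Y : ℂ) * wP Y - (cP Y : ℂ)).re = 2 * cP Y * (wP Y).re - cP Y := by simp
    rw [h1, wP_re]
    ring
  | succ k ih =>
    obtain ⟨p, hp, hpe⟩ := ih
    refine ⟨C (1 / 2) * X ^ (k + 3) + C (1 / 2) * p, by simp [hp], fun Y => ?_⟩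
    rw [evP_add, evP_C_mul, evP_C_mul, evP_X_pow, hpe]
    have h1 : wP Y ^ (k + 3) = ((2 * cP Y : ℝ) : ℂ) * wP Y ^ (k + 1 + 1) - ((cP Y : ℝ) : ℂ) * wP Y ^ (k + 1) := by
      push_cast
      linear_combination (wP Y ^ (k + 1)) * wP_sq Y
    rw [h1, sub_re, re_ofReal_mul, re_ofReal_mul]
    ring

/-- multiplication by `c` -/
lemma exists_mul (q : ℝ[X]) : ∃ p : ℝ[X], p.coeff 0 = 0 ∧ ∀ Y : ℝ, evP p Y = cP Y * evP (X * q) Y := by
  induction q using Polynomial.induction_on' with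
  | add q r hq hr =>
    obtain ⟨p, hp, hpe⟩ := hq
    obtain ⟨p', hp', hpe'⟩ := hr
    refine ⟨p + p', by rw [coeff_add, hp, hp', add_zero], fun Y => ?_⟩
    rw [evP_add, hpe, hpe', mul_add X, evP_add]
    ring
  | monomial n a =>
    obtain ⟨p, hp, hpe⟩ := exists_mul_pow n
    refine ⟨C a * p, by rw [coeff_C_mul, hp, mul_zero], fun Y => ?_⟩
    have h1 : X * monomial n a = C a * X ^ (n + 1) := by
      rw [← C_mul_X_pow_eq_monomial]
      ring
    rw [evP_C_mul, hpe, h1, evP_C_mul, evP_X_pow]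
    ring

lemma exists_pow (k : ℕ) : ∃ p : ℝ[X], p.coeff 0 = 0 ∧ ∀ Y : ℝ, evP p Y = cP Y ^ (k + 1) := by
  induction k with
  | zero =>
    refine ⟨X, by simp, fun Y => ?_⟩
    have := evP_X_pow 1 Y
    rw [pow_one, pow_one] at this
    rw [this, wP_re]
    ring
  | succ k ih =>
    obtain ⟨p, hp, hpe⟩ := ih
    have h1 : p = X * p.divX := by
      have := (X_mul_divX_add p)
      rw [hp, map_zero, add_zero] at this
      exact this.symm
    obtain ⟨p', hp', hpe'⟩ := exists_mul p.divX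
    refine ⟨p', hp', fun Y => ?_⟩
    rw [hpe', ← h1, hpe]
    ring

/-- every polynomial in `c` without constant term is `Re p w` -/
lemma exists_poly (q : ℝ[X]) : ∃ p : ℝ[X], p.coeff 0 = 0 ∧ ∀ Y : ℝ, evP p Y = cP Y * q.eval (cP Y) := by
  induction q using Polynomial.induction_on' with
  | add q r hq hr =>
    obtain ⟨p, hp, hpe⟩ := hq
    obtain ⟨p', hp', hpe'⟩ := hr
    refine ⟨p + p', by rw [coeff_add, hp, hp', add_zero], fun Y => ?_⟩
    rw [evP_add, hpe, hpe', eval_add]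
    ring
  | monomial n a =>
    obtain ⟨p, hp, hpe⟩ := exists_pow n
    refine ⟨C a * p, by rw [coeff_C_mul, hp, mul_zero], fun Y => ?_⟩
    rw [evP_C_mul, hpe, eval_monomial]
    ring

/-! ### The integral -/

lemma cP_eq (Y : ℝ) : cP Y = (1 + Y ^ 2)⁻¹ := one_div _

lemma integrable_cP : Integrable cP := by
  have h : cP = fun Y => (1 + Y ^ 2)⁻¹ := funext cP_eq
  rw [h]
  exact integrable_inv_one_add_sq

lemma integral_cP : ∫ Y, cP Y = Real.pi := by
  have h : cP = fun Y => (1 + Y ^ 2)⁻¹ := funext cP_eq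
  rw [h]
  exact integral_univ_inv_one_add_sq

lemma continuous_cP : Continuous cP := by
  unfold cP
  exact continuous_const.div (by fun_prop) fun Y => by positivity

lemma continuous_wP : Continuous wP := by
  unfold wP
  exact continuous_const.div (by fun_prop) wP_ne

lemma hasDerivAt_wP (Y : ℝ) : HasDerivAt wP (-I * wP Y ^ 2) Y := by
  have h1 : HasDerivAt (fun Y : ℝ => 1 + (Y : ℂ) * I) I Y := by
    have := ((Complex.ofRealCLM.hasDerivAt (x := Y)).mul_const I).const_add 1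
    simpa using this
  have h2 := h1.inv (wP_ne Y)
  have h3 : wP = fun Y : ℝ => (1 + (Y : ℂ) * I)⁻¹ := by
    funext Y
    rw [wP, one_div]
  rw [h3]
  refine HasDerivAt.congr_deriv (f := fun Y : ℝ => (1 + (Y : ℂ) * I)⁻¹) h2 ?_
  rw [inv_pow, div_eq_mul_inv]

lemma tendsto_wP (l : Filter ℝ) (hl : Tendsto (fun Y : ℝ => |Y|) l atTop) : Tendsto wP l (𝓝 0) := by
  rw [tendsto_zero_iff_norm_tendsto_zero]
  have h1 : Tendsto (fun Y : ℝ => |Y|⁻¹) l (𝓝 0) := tendsto_inv_atTop_zero.comp hl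
  refine squeeze_zero' (Eventually.of_forall fun Y => norm_nonneg _) ?_ h1
  filter_upwards [hl.eventually_gt_atTop 0] with Y hY
  unfold wP
  rw [norm_div, norm_one, one_div]
  refine inv_anti₀ hY ?_
  have h2 := Complex.abs_im_le_norm (1 + (Y : ℂ) * I)
  simpa using h2

lemma integrable_wP_pow (k : ℕ) : Integrable (fun Y => wP Y ^ (k + 2)) := by
  refine Integrable.mono' integrable_cP (continuous_wP.pow _).aestronglyMeasurable
    (Eventually.of_forall fun Y => ?_)
  rw [norm_pow, pow_add, norm_wP_sq]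
  have h1 : ‖wP Y‖ ^ k ≤ 1 := pow_le_one₀ (norm_nonneg _) (norm_wP_le_one Y)
  nlinarith [cP_pos Y]

lemma integral_wP_pow (k : ℕ) : ∫ Y, wP Y ^ (k + 2) = 0 := by
  have hk : ((k : ℂ) + 1) ≠ 0 := by exact_mod_cast Nat.succ_ne_zero k
  have h1 : ∀ Y : ℝ, HasDerivAt (fun Y => I / ((k : ℂ) + 1) * wP Y ^ (k + 1)) (wP Y ^ (k + 2)) Y := by
    intro Y
    have h2 := ((hasDerivAt_wP Y).pow (k + 1)).const_mul (I / ((k : ℂ) + 1))
    refine HasDerivAt.congr_deriv (f := fun Y => I / ((k : ℂ) + 1) * wP Y ^ (k + 1)) h2 ?_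
    rw [Nat.add_sub_cancel]
    push_cast
    field_simp
    linear_combination (-(wP Y ^ (k + 2))) * I_sq
  have h2 : ∀ l : Filter ℝ, Tendsto (fun Y : ℝ => |Y|) l atTop →
      Tendsto (fun Y => I / ((k : ℂ) + 1) * wP Y ^ (k + 1)) l (𝓝 0) := by
    intro l hl
    have h3 := ((tendsto_wP l hl).pow (k + 1)).const_mul (I / ((k : ℂ) + 1))
    simpa using h3
  have h3 := integral_of_hasDerivAt_of_tendsto h1 (integrable_wP_pow k) (h2 atBot tendsto_abs_atBot_atTop)
    (h2 atTop tendsto_abs_atTop_atTop)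
  rw [h3, sub_zero]

lemma integral_evP (q : ℝ[X]) : Integrable (evP (X * q)) ∧ ∫ Y, evP (X * q) Y = Real.pi * q.coeff 0 := by
  induction q using Polynomial.induction_on' with
  | add q r hq hr =>
    have h1 : evP (X * (q + r)) = fun Y => evP (X * q) Y + evP (X * r) Y := by
      funext Y
      rw [mul_add, evP_add]
    rw [h1]
    refine ⟨hq.1.add hr.1, ?_⟩
    rw [integral_add hq.1 hr.1, hq.2, hr.2, coeff_add]
    ring
  | monomial n a =>
    have h1 : X * monomial n a = C a * X ^ (n + 1) := by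
      rw [← C_mul_X_pow_eq_monomial]
      ring
    have h2 : evP (X * monomial n a) = fun Y => a * (wP Y ^ (n + 1)).re := by
      funext Y
      rw [h1, evP_C_mul, evP_X_pow]
    rw [h2]
    rcases n with _ | n
    · have h3 : (fun Y => a * (wP Y ^ (0 + 1)).re) = fun Y => a * cP Y := by
        funext Y
        rw [zero_add, pow_one, wP_re]
      rw [h3]
      refine ⟨integrable_cP.const_mul a, ?_⟩
      rw [integral_const_mul, integral_cP, coeff_monomial]
      simp
      ring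
    · have h4 : ∫ Y, (wP Y ^ (n + 2)).re = 0 := by
        have := integral_re (integrable_wP_pow n)
        simp only [RCLike.re_to_complex] at this
        rw [this, integral_wP_pow]
        rfl
      refine ⟨((integrable_wP_pow n).re).const_mul a, ?_⟩
      rw [integral_const_mul]
      have h5 : (fun Y => (wP Y ^ (n + 1 + 1)).re) = fun Y => (wP Y ^ (n + 2)).re := rfl
      rw [h5, h4, coeff_monomial]
      simp

/-- the perturbing polynomial -/
theorem poly_exists {b1 b2 : ℝ} (h1 : 0 < b1) (h2 : b1 < b2) :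
    ∃ p : ℝ[X], p.coeff 0 = 0 ∧ 0 < p.coeff 1 ∧
      ∀ Y : ℝ, (|Y| ≤ b1 ∨ b2 ≤ |Y|) → (aeval (1 / (1 + (Y : ℂ) * I)) p).re ≤ 0 := by
  set Y0 : ℝ := (b1 + b2) / 2 with hY0
  set c0 : ℝ := cP Y0 with hc0
  have hlo : 1 / (1 + b2 ^ 2) < c0 := by
    rw [hc0, cP]
    apply one_div_lt_one_div_of_lt (by positivity)
    have : Y0 < b2 := by rw [hY0]; linarith
    have h0 : 0 < Y0 := by rw [hY0]; linarith
    nlinarith
  have hhi : c0 < 1 / (1 + b1 ^ 2) := by
    rw [hc0, cP]
    apply one_div_lt_one_div_of_lt (by positivity)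
    have : b1 < Y0 := by rw [hY0]; linarith
    nlinarith
  set ρ : ℝ := min (c0 - 1 / (1 + b2 ^ 2)) (1 / (1 + b1 ^ 2) - c0) with hρ
  have hρ0 : 0 < ρ := lt_min (by linarith) (by linarith)
  have hc01 : c0 ≤ 1 := cP_le_one _
  have hc00 : 0 < c0 := cP_pos _
  have hρ1 : ρ < 1 := by
    have h3 : ρ ≤ c0 - 1 / (1 + b2 ^ 2) := min_le_left _ _
    have h4 : 0 < 1 / (1 + b2 ^ 2) := by positivity
    linarith
  set d0 : ℝ := 1 - ρ ^ 2 with hd0
  set d1 : ℝ := 1 - ρ ^ 2 / 4 with hd1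
  have hd0p : 0 < d0 := by rw [hd0]; nlinarith
  have hd01 : d0 < d1 := by rw [hd0, hd1]; nlinarith
  -- the set where the peak is
  set E : Set ℝ := {Y | |cP Y - c0| < ρ / 2} with hE
  have hEo : IsOpen E := isOpen_lt (by have := continuous_cP; fun_prop) continuous_const
  have hEY : Y0 ∈ E := by
    change |cP Y0 - c0| < ρ / 2
    rw [← hc0, sub_self, abs_zero]
    linarith
  have hEm : MeasurableSet E := hEo.measurableSet
  have hη : 0 < ∫ Y in E, cP Y := by
    rw [setIntegral_pos_iff_support_of_nonneg_ae (Eventually.of_forall fun Y => (cP_pos Y).le)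
      integrable_cP.integrableOn]
    have h3 : Function.support cP ∩ E = E := by
      rw [Set.inter_eq_right]
      intro Y _
      exact (cP_pos Y).ne'
    rw [h3]
    exact hEo.measure_pos _ ⟨Y0, hEY⟩
  set η : ℝ := ∫ Y in E, cP Y with hηd
  -- choice of the exponent
  obtain ⟨M, hM⟩ : ∃ M : ℕ, Real.pi / η < (d1 / d0) ^ M :=
    pow_unbounded_of_one_lt _ (by rw [one_lt_div hd0p]; exact hd01)
  have hM' : Real.pi * d0 ^ M < η * d1 ^ M := by
    rw [div_pow, div_lt_div_iff₀ hη (by positivity)] at hM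
    linarith
  obtain ⟨p, hp0, hpe⟩ := exists_poly ((C 1 - (X - C c0) ^ 2) ^ M - C (d0 ^ M))
  have hpe' : ∀ Y, evP p Y = cP Y * ((1 - (cP Y - c0) ^ 2) ^ M - d0 ^ M) := by
    intro Y
    rw [hpe]
    simp
  have hf0 : ∀ Y, 0 ≤ 1 - (cP Y - c0) ^ 2 := by
    intro Y
    have h3 := cP_pos Y
    have h4 := cP_le_one Y
    have h5 : |cP Y - c0| ≤ 1 := by
      rw [abs_le]
      constructor <;> linarith
    have h6 := (sq_le_one_iff_abs_le_one _).2 h5
    linarith
  refine ⟨p, hp0, ?_, fun Y hY => ?_⟩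
  · have hpX : p = X * p.divX := by
      have := (X_mul_divX_add p)
      rw [hp0, map_zero, add_zero] at this
      exact this.symm
    have hI := integral_evP p.divX
    rw [← hpX, coeff_divX, zero_add] at hI
    -- the integral is positive
    have hint1 : Integrable (fun Y => cP Y * (1 - (cP Y - c0) ^ 2) ^ M) := by
      refine Integrable.mono' integrable_cP ?_ (Eventually.of_forall fun Y => ?_)
      · have := continuous_cP
        exact (by fun_prop : Continuous fun Y => cP Y * (1 - (cP Y - c0) ^ 2) ^ M).aestronglyMeasurable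
      · rw [Real.norm_eq_abs, abs_mul, abs_of_pos (cP_pos Y), abs_of_nonneg (pow_nonneg (hf0 Y) M)]
        have h3 : (1 - (cP Y - c0) ^ 2) ^ M ≤ 1 :=
          pow_le_one₀ (hf0 Y) (by nlinarith [sq_nonneg (cP Y - c0)])
        nlinarith [cP_pos Y]
    have hint2 : ∫ Y, evP p Y = (∫ Y, cP Y * (1 - (cP Y - c0) ^ 2) ^ M) - Real.pi * d0 ^ M := by
      have h3 : evP p = fun Y => cP Y * (1 - (cP Y - c0) ^ 2) ^ M - cP Y * d0 ^ M := by
        funext Y
        rw [hpe' Y]
        ring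
      rw [h3, integral_sub hint1 (integrable_cP.mul_const _), integral_mul_const, integral_cP]
    have hlow : η * d1 ^ M ≤ ∫ Y, cP Y * (1 - (cP Y - c0) ^ 2) ^ M := by
      calc η * d1 ^ M = ∫ Y in E, cP Y * d1 ^ M := by rw [integral_mul_const]
        _ ≤ ∫ Y in E, cP Y * (1 - (cP Y - c0) ^ 2) ^ M := by
            refine setIntegral_mono_on (integrable_cP.mul_const _).integrableOn hint1.integrableOn hEm
              fun Y hY => ?_
            refine mul_le_mul_of_nonneg_left (pow_le_pow_left₀ (by linarith) ?_ M) (cP_pos Y).le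
            have h3 : |cP Y - c0| < ρ / 2 := hY
            have h4 : (cP Y - c0) ^ 2 ≤ (ρ / 2) ^ 2 := by
              rw [← sq_abs]
              exact pow_le_pow_left₀ (abs_nonneg _) h3.le 2
            rw [hd1]
            nlinarith
        _ ≤ ∫ Y, cP Y * (1 - (cP Y - c0) ^ 2) ^ M :=
            setIntegral_le_integral hint1 (Eventually.of_forall fun Y =>
              mul_nonneg (cP_pos Y).le (pow_nonneg (hf0 Y) M))
    have hpos : 0 < Real.pi * p.coeff 1 := by
      rw [← hI.2, hint2]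
      linarith
    exact (mul_pos_iff_of_pos_left Real.pi_pos).1 hpos
  · change evP p Y ≤ 0
    rw [hpe']
    refine mul_nonpos_of_nonneg_of_nonpos (cP_pos Y).le (sub_nonpos.2 (pow_le_pow_left₀ (hf0 Y) ?_ M))
    have h3 : ρ ≤ |cP Y - c0| := by
      rcases hY with hY | hY
      · have h4 : 1 / (1 + b1 ^ 2) ≤ cP Y := by
          unfold cP
          apply one_div_le_one_div_of_le (by positivity)
          rw [← sq_abs Y]
          nlinarith [abs_nonneg Y]
        calc ρ ≤ 1 / (1 + b1 ^ 2) - c0 := min_le_right _ _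
          _ ≤ cP Y - c0 := by linarith
          _ ≤ _ := le_abs_self _
      · have h4 : cP Y ≤ 1 / (1 + b2 ^ 2) := by
          unfold cP
          apply one_div_le_one_div_of_le (by positivity)
          rw [← sq_abs Y]
          nlinarith [abs_nonneg Y]
        calc ρ ≤ c0 - 1 / (1 + b2 ^ 2) := min_le_left _ _
          _ ≤ -(cP Y - c0) := by linarith
          _ ≤ _ := neg_le_abs _
    have h4 : ρ ^ 2 ≤ (cP Y - c0) ^ 2 := by
      rw [← sq_abs (cP Y - c0)]
      exact pow_le_pow_left₀ hρ0.le h3 2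
    rw [hd0]
    linarith

end Pool.Agent.BLP
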