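import Pool.Agent.Lib.KL.Imag
import Pool.Agent.Lib.KL.Real
import Pool.Agent.Lib.BLP.Props

/-!
# Bounds for the perturbed function `Psi` on the real axis (section 5.3)
-/

set_option autoImplicit false

namespace Pool.Agent.BLP

open Complex Polynomial MeasureTheory Finset
open scoped Real
open Pool.Agent.KL

noncomputable section

lemma coefA_nonneg (p : ℝ[X]) : 0 ≤ coefA p := Finset.sum_nonneg fun _ _ => abs_nonneg _

lemma norm_aeval_le {p : ℝ[X]} (hp : p.coeff 0 = 0) {w : ℂ} (hw : ‖w‖ ≤ 1) :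
    ‖aeval w p‖ ≤ coefA p * ‖w‖ := by
  rw [aeval_eq_sum_range, coefA, Finset.sum_mul]
  refine norm_sum_le_of_le _ fun k _ => ?_
  rw [norm_smul, Real.norm_eq_abs, norm_pow]
  rcases k with _ | k
  · rw [hp]
    simp
  · exact mul_le_mul_of_nonneg_left (pow_le_of_le_one (norm_nonneg _) hw (Nat.succ_ne_zero k)) (abs_nonneg _)

/-- the exponent for real `s` -/
def eR (p : ℝ[X]) (s t : ℝ) : ℝ := 2 * (aeval ((s : ℂ) / (1 + s + t * I)) p).re

lemma eF_real (p : ℝ[X]) (s t : ℝ) : eF p s t = (eR p s t : ℂ) := by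
  unfold eF eR
  have h : (s : ℂ) / (1 + s - t * I) = (starRingEnd ℂ) ((s : ℂ) / (1 + s + t * I)) := by
    rw [map_div₀, map_add, map_add, map_mul, conj_ofReal, conj_ofReal, conj_I, map_one]
    congr 1
    ring
  rw [h, Polynomial.aeval_conj, Complex.add_conj]

lemma norm_den_ge {s : ℝ} (hs : 0 ≤ s) (t : ℝ) : 1 ≤ ‖(1 + s + t * I : ℂ)‖ := by
  have h := Complex.abs_re_le_norm (1 + s + t * I : ℂ)
  have h2 : (1 + s + t * I : ℂ).re = 1 + s := by simp
  rw [h2, abs_of_nonneg (by linarith)] at h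
  linarith

lemma den_ne {s : ℝ} (hs : 0 ≤ s) (t : ℝ) : (1 + s + t * I : ℂ) ≠ 0 := by
  intro h
  have := norm_den_ge hs t
  rw [h, norm_zero] at this
  linarith

lemma norm_w_le {s : ℝ} (hs : 0 ≤ s) (t : ℝ) : ‖(s : ℂ) / (1 + s + t * I)‖ ≤ s := by
  rw [norm_div, Complex.norm_real, Real.norm_of_nonneg hs]
  exact div_le_self hs (norm_den_ge hs t)

lemma w_re {s : ℝ} (t : ℝ) :
    ((s : ℂ) / (1 + s + t * I)).re = s * (1 + s) / ((1 + s) ^ 2 + t ^ 2) := by
  rw [Complex.div_re, Complex.normSq_apply]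
  simp
  ring

lemma eR_bound {p : ℝ[X]} (hp : p.coeff 0 = 0) {s : ℝ} (hs : 0 ≤ s) (hs1 : s ≤ 1) (t : ℝ) :
    |eR p s t - 2 * p.coeff 1 * s / (1 + t ^ 2)| ≤ 2 * coefA p * s ^ 2 := by
  set w : ℂ := (s : ℂ) / (1 + s + t * I) with hw
  have hwn : ‖w‖ ≤ s := norm_w_le hs t
  have h1 : (aeval w p).re = ∑ k ∈ range (p.natDegree + 1), p.coeff k * (w ^ k).re := by
    rw [aeval_eq_sum_range, Complex.re_sum]
    exact Finset.sum_congr rfl fun k _ => by rw [Complex.real_smul, Complex.re_ofReal_mul]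
  have h2 : p.coeff 1 * (s / (1 + t ^ 2)) =
      ∑ k ∈ range (p.natDegree + 1), p.coeff k * (if k = 1 then s / (1 + t ^ 2) else 0) := by
    simp only [mul_ite, mul_zero]
    rw [Finset.sum_ite_eq']
    split_ifs with h
    · rfl
    · have : p.coeff 1 = 0 := by
        apply Polynomial.coeff_eq_zero_of_natDegree_lt
        rw [mem_range] at h
        omega
      rw [this, zero_mul]
  have h3 : (aeval w p).re - p.coeff 1 * (s / (1 + t ^ 2)) =
      ∑ k ∈ range (p.natDegree + 1), p.coeff k * ((w ^ k).re - (if k = 1 then s / (1 + t ^ 2) else 0)) := by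
    rw [h1, h2, ← Finset.sum_sub_distrib]
    exact Finset.sum_congr rfl fun k _ => by ring
  have h4 : |(aeval w p).re - p.coeff 1 * (s / (1 + t ^ 2))| ≤ coefA p * s ^ 2 := by
    rw [h3, coefA, Finset.sum_mul]
    refine (Finset.abs_sum_le_sum_abs _ _).trans (Finset.sum_le_sum fun k _ => ?_)
    rw [abs_mul]
    rcases k with _ | _ | k
    · rw [hp]
      simp
    · refine mul_le_mul_of_nonneg_left ?_ (abs_nonneg _)
      rw [if_pos (by norm_num), zero_add, pow_one, hw, w_re]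
      have hT : 0 < 1 + t ^ 2 := by positivity
      have hT2 : 0 < (1 + s) ^ 2 + t ^ 2 := by positivity
      have e1 : s * (1 + s) / ((1 + s) ^ 2 + t ^ 2) - s / (1 + t ^ 2) =
          s ^ 2 * ((t ^ 2 - 1 - s) / (((1 + s) ^ 2 + t ^ 2) * (1 + t ^ 2))) := by
        field_simp
        ring
      rw [e1, abs_mul, abs_of_nonneg (sq_nonneg s)]
      refine mul_le_of_le_one_right (sq_nonneg s) ?_
      rw [abs_div, abs_of_pos (mul_pos hT2 hT), div_le_one (mul_pos hT2 hT)]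
      have e2 : |t ^ 2 - 1 - s| ≤ t ^ 2 + 1 + s := by
        rw [abs_le]
        constructor <;> nlinarith [sq_nonneg t]
      refine e2.trans ?_
      nlinarith [sq_nonneg t, mul_nonneg (sq_nonneg t) hs, mul_nonneg (sq_nonneg t) (sq_nonneg s),
        sq_nonneg (t ^ 2), mul_nonneg hs hs]
    · refine mul_le_mul_of_nonneg_left ?_ (abs_nonneg _)
      rw [if_neg (by omega), sub_zero]
      calc |(w ^ (k + 1 + 1)).re| ≤ ‖w ^ (k + 1 + 1)‖ := Complex.abs_re_le_norm _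
        _ = ‖w‖ ^ (k + 2) := by rw [norm_pow]
        _ ≤ s ^ (k + 2) := pow_le_pow_left₀ (norm_nonneg _) hwn _
        _ = s ^ k * s ^ 2 := pow_add _ _ _
        _ ≤ 1 * s ^ 2 := mul_le_mul_of_nonneg_right (pow_le_one₀ hs hs1) (sq_nonneg _)
        _ = s ^ 2 := one_mul _
  have h5 : eR p s t - 2 * p.coeff 1 * s / (1 + t ^ 2) =
      2 * ((aeval w p).re - p.coeff 1 * (s / (1 + t ^ 2))) := by
    rw [eR]
    ring
  rw [h5, abs_mul, abs_two]
  linarith

lemma eR_continuous (p : ℝ[X]) {s : ℝ} (hs : 0 ≤ s) : Continuous (fun t => eR p s t) := by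
  unfold eR
  have h : Continuous fun t : ℝ => (s : ℂ) / (1 + s + t * I) :=
    continuous_const.div (by fun_prop) fun t => den_ne hs t
  exact continuous_const.mul (Complex.continuous_re.comp ((p.continuous_aeval).comp h))

section real

variable {n : ℕ} {ζ : Fin n → ℂ}

/-- the upper bound of `RR` with the factor `1 / (1 + t^2)` in the exponent -/
theorem RR_le' (h1 : ∀ j, ‖ζ j‖ = 1) {s : ℝ} (t : ℝ) :
    RR ζ s t ≤ (1 + t ^ 2) ^ n * Real.exp ((2 * s * SS ζ + n * s ^ 2) / (1 + t ^ 2)) := by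
  have hT0 : 0 < 1 + t ^ 2 := by positivity
  have h3 : ∀ j, ‖(1 - ζ j * s) ^ 2 + (t : ℂ) ^ 2‖ ≤
      (1 + t ^ 2) * Real.exp ((2 * (-(ζ j).re) * s + s ^ 2) / (1 + t ^ 2)) := by
    intro j
    refine (fac_upper (h1 j) s t).trans ?_
    have h4 := Real.add_one_le_exp ((2 * (-(ζ j).re) * s + s ^ 2) / (1 + t ^ 2))
    calc (1 + t ^ 2) + (2 * (-(ζ j).re) * s + s ^ 2) =
        (1 + t ^ 2) * ((2 * (-(ζ j).re) * s + s ^ 2) / (1 + t ^ 2) + 1) := by field_simp; ring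
      _ ≤ _ := mul_le_mul_of_nonneg_left h4 hT0.le
  calc RR ζ s t ≤ ∏ j, ((1 + t ^ 2) * Real.exp ((2 * (-(ζ j).re) * s + s ^ 2) / (1 + t ^ 2))) :=
        Finset.prod_le_prod (fun _ _ => norm_nonneg _) fun j _ => h3 j
    _ = (1 + t ^ 2) ^ n * Real.exp ((2 * s * SS ζ + n * s ^ 2) / (1 + t ^ 2)) := by
        rw [Finset.prod_mul_distrib, Finset.prod_const, Finset.card_univ, Fintype.card_fin,
          ← Real.exp_sum, ← Finset.sum_div, Finset.sum_add_distrib, Finset.sum_const, Finset.card_univ,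
          Fintype.card_fin, SS, Finset.mul_sum, nsmul_eq_mul]
        congr 4
        exact Finset.sum_congr rfl fun j _ => by ring

variable (h1 : ∀ j, ‖ζ j‖ = 1) (h2 : ∀ j, (ζ j).re ≤ 0)

/-- the integrand for real `s` -/
def gR (n : ℕ) (ζ : Fin n → ℂ) (ε : ℝ) (p : ℝ[X]) (s t : ℝ) : ℝ := Real.exp (n * ε * eR p s t) / RR ζ s t

include h1 h2

lemma gR_integrable {ε : ℝ} (hε : 0 ≤ ε) {p : ℝ[X]} (hp : p.coeff 0 = 0) {s : ℝ} (hs : 0 ≤ s) (hs1 : s ≤ 1)
    (hn : 1 ≤ n) : Integrable (fun t => gR n ζ ε p s t) := by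
  have hc : Continuous (fun t => gR n ζ ε p s t) := by
    unfold gR
    exact (Real.continuous_exp.comp (continuous_const.mul (eR_continuous p hs))).div (RR_continuous s)
      fun t => (RR_pos h1 h2 hs hs1 t).ne'
  refine ((RR_integrable h1 h2 hs hs1 hn).const_mul (Real.exp (n * ε * (2 * coefA p)))).mono'
    hc.aestronglyMeasurable (Filter.Eventually.of_forall fun t => ?_)
  have h3 := RR_pos h1 h2 hs hs1 t
  have h4 : eR p s t ≤ 2 * coefA p := by
    unfold eR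
    have h5 := norm_aeval_le hp ((norm_w_le hs t).trans hs1)
    have h6 := Complex.re_le_norm (aeval ((s : ℂ) / (1 + s + t * I)) p)
    have h7 := (norm_w_le hs t).trans hs1
    have h8 := coefA_nonneg p
    nlinarith [norm_nonneg ((s : ℂ) / (1 + s + t * I))]
  rw [Real.norm_eq_abs, gR, abs_of_pos (div_pos (Real.exp_pos _) h3), div_eq_mul_one_div]
  refine mul_le_mul_of_nonneg_right (Real.exp_le_exp.2 ?_) (one_div_pos.2 h3).le
  exact mul_le_mul_of_nonneg_left h4 (by positivity)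

/-- the lower bound for real `s` -/
theorem psi2_lower {ε : ℝ} (hε : 0 ≤ ε) {p : ℝ[X]} (hp : p.coeff 0 = 0) {s : ℝ} (hs : 0 ≤ s) (hs1 : s ≤ 1)
    (hn : 1 ≤ n) (hS : 0 ≤ SS ζ - n * ε * p.coeff 1) :
    Real.exp (-(2 * s * (SS ζ - n * ε * p.coeff 1) + (1 + 2 * (ε * coefA p)) * n * s ^ 2)) *
      ∫ t : ℝ, 1 / (1 + t ^ 2) ^ n ≤ ∫ t, gR n ζ ε p s t := by
  rw [← integral_const_mul]
  refine integral_mono_of_nonneg (Filter.Eventually.of_forall fun t => by positivity)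
    (gR_integrable h1 h2 hε hp hs hs1 hn) (Filter.Eventually.of_forall fun t => ?_)
  have hT0 : 0 < 1 + t ^ 2 := by positivity
  have hT1 : 1 ≤ 1 + t ^ 2 := by nlinarith [sq_nonneg t]
  have h3 := RR_le' h1 (s := s) t
  have h4 := RR_pos h1 h2 hs hs1 t
  have h5 := one_div_le_one_div_of_le h4 h3
  have h6 := (abs_le.1 (eR_bound hp hs hs1 t)).1
  have h7 : 1 / (1 + t ^ 2) ≤ 1 := by rw [div_le_one hT0]; exact hT1
  have h8 : 0 ≤ 1 / (1 + t ^ 2) := by positivity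
  simp only
  rw [gR, div_eq_mul_one_div (Real.exp _) (RR ζ s t)]
  have h9 : -(2 * s * (SS ζ - n * ε * p.coeff 1) + (1 + 2 * (ε * coefA p)) * n * s ^ 2) ≤
      n * ε * eR p s t - (2 * s * SS ζ + n * s ^ 2) / (1 + t ^ 2) := by
    have e1 : (n : ℝ) * ε * (2 * p.coeff 1 * s / (1 + t ^ 2) - 2 * coefA p * s ^ 2) ≤ n * ε * eR p s t :=
      mul_le_mul_of_nonneg_left (by linarith) (by positivity)
    have e2 : 2 * s * (SS ζ - n * ε * p.coeff 1) * (1 / (1 + t ^ 2)) ≤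
        2 * s * (SS ζ - n * ε * p.coeff 1) * 1 := mul_le_mul_of_nonneg_left h7 (by positivity)
    have e3 : (n : ℝ) * s ^ 2 * (1 / (1 + t ^ 2)) ≤ n * s ^ 2 * 1 := mul_le_mul_of_nonneg_left h7 (by positivity)
    have e4 : (2 * s * SS ζ + n * s ^ 2) / (1 + t ^ 2) =
        2 * s * (SS ζ - n * ε * p.coeff 1) * (1 / (1 + t ^ 2)) + n * s ^ 2 * (1 / (1 + t ^ 2)) +
        n * ε * (2 * p.coeff 1 * s / (1 + t ^ 2)) := by ring
    rw [e4]
    nlinarith [e1, e2, e3]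
  calc Real.exp (-(2 * s * (SS ζ - n * ε * p.coeff 1) + (1 + 2 * (ε * coefA p)) * n * s ^ 2)) *
        (1 / (1 + t ^ 2) ^ n)
      ≤ Real.exp (n * ε * eR p s t - (2 * s * SS ζ + n * s ^ 2) / (1 + t ^ 2)) * (1 / (1 + t ^ 2) ^ n) :=
        mul_le_mul_of_nonneg_right (Real.exp_le_exp.2 h9) (by positivity)
    _ = Real.exp (n * ε * eR p s t) *
        (1 / ((1 + t ^ 2) ^ n * Real.exp ((2 * s * SS ζ + n * s ^ 2) / (1 + t ^ 2)))) := by
        rw [Real.exp_sub]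
        field_simp
    _ ≤ _ := mul_le_mul_of_nonneg_left h5 (Real.exp_pos _).le

/-- the upper bound for real `s` -/
theorem psi2_upper {ε : ℝ} (hε : 0 ≤ ε) {p : ℝ[X]} (hp : p.coeff 0 = 0) {s : ℝ} (hs : 0 ≤ s) (hs1 : s ≤ 1)
    (hn : 1 ≤ n) (hS : 0 ≤ SS ζ - n * ε * p.coeff 1) (hS' : 2 * s * (SS ζ - n * ε * p.coeff 1) ≤ n - 1) :
    ∫ t, gR n ζ ε p s t ≤ Real.pi * Real.exp (-(2 * s * (SS ζ - n * ε * p.coeff 1)) +
      (3 + 2 * (ε * coefA p)) * n * s ^ 2) := by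
  set S' : ℝ := SS ζ - n * ε * p.coeff 1 with hS'd
  have hA : 0 ≤ 2 * s * S' := by positivity
  have hint : ∫ t : ℝ, Real.exp (-(2 * s * S') + (3 + 2 * (ε * coefA p)) * n * s ^ 2) * (1 + t ^ 2)⁻¹ =
      Real.pi * Real.exp (-(2 * s * S') + (3 + 2 * (ε * coefA p)) * n * s ^ 2) := by
    rw [integral_const_mul, integral_univ_inv_one_add_sq, mul_comm]
  rw [← hint]
  refine integral_mono (gR_integrable h1 h2 hε hp hs hs1 hn) (integrable_inv_one_add_sq.const_mul _)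
    fun t => ?_
  have hT1 : 1 ≤ 1 + t ^ 2 := by nlinarith [sq_nonneg t]
  have hT0 : 0 < 1 + t ^ 2 := by linarith
  have h3 := RR_ge h1 h2 hs hs1 t
  have h3' := RR_pos h1 h2 hs hs1 t
  have h6 := (abs_le.1 (eR_bound hp hs hs1 t)).2
  -- `exp(A/T) T^n ≥ exp(A) T`
  have h4 : Real.exp (2 * s * S') * (1 + t ^ 2) ≤ (1 + t ^ 2) ^ n * Real.exp (2 * s * S' / (1 + t ^ 2)) := by
    have h5 : 1 - 1 / (1 + t ^ 2) ≤ Real.log (1 + t ^ 2) := by
      have := Real.one_sub_inv_le_log_of_pos hT0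
      rwa [one_div]
    have h6 : (1 + t ^ 2) ^ n = Real.exp (n * Real.log (1 + t ^ 2)) := by
      rw [Real.exp_nat_mul, Real.exp_log hT0]
    have hl : 0 ≤ Real.log (1 + t ^ 2) := Real.log_nonneg hT1
    have h66 : Real.exp (2 * s * S') * (1 + t ^ 2) =
        Real.exp (2 * s * S' + Real.log (1 + t ^ 2)) := by
      rw [Real.exp_add, Real.exp_log hT0]
    rw [h6, ← Real.exp_add, h66]
    apply Real.exp_le_exp.2
    have h7 : 2 * s * S' * (1 - 1 / (1 + t ^ 2)) ≤ (n - 1) * Real.log (1 + t ^ 2) := by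
      calc _ ≤ 2 * s * S' * Real.log (1 + t ^ 2) := by gcongr
        _ ≤ _ := by gcongr
    have h8 : 2 * s * S' / (1 + t ^ 2) = 2 * s * S' * (1 / (1 + t ^ 2)) := by ring
    rw [h8]
    linarith
  have h10 : n * ε * eR p s t ≤ 2 * s * SS ζ / (1 + t ^ 2) - 2 * s * S' / (1 + t ^ 2) +
      2 * (ε * coefA p) * n * s ^ 2 := by
    have e1 : n * ε * eR p s t ≤ n * ε * (2 * p.coeff 1 * s / (1 + t ^ 2) + 2 * coefA p * s ^ 2) :=
      mul_le_mul_of_nonneg_left (by linarith) (by positivity)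
    refine e1.trans (le_of_eq ?_)
    rw [hS'd]
    field_simp
    ring
  change gR n ζ ε p s t ≤ _
  rw [gR, div_le_iff₀ h3']
  refine (Real.exp_le_exp.2 h10).trans ?_
  refine le_trans ?_ (mul_le_mul_of_nonneg_left h3
    (by positivity : 0 ≤ Real.exp (-(2 * s * S') + (3 + 2 * (ε * coefA p)) * n * s ^ 2) * (1 + t ^ 2)⁻¹))
  have e1 : Real.exp (2 * s * SS ζ / (1 + t ^ 2) - 2 * s * S' / (1 + t ^ 2) + 2 * (ε * coefA p) * n * s ^ 2) =
      Real.exp (2 * s * SS ζ / (1 + t ^ 2)) * (Real.exp (2 * s * S' / (1 + t ^ 2)))⁻¹ *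
        Real.exp (2 * (ε * coefA p) * n * s ^ 2) := by
    rw [Real.exp_add, Real.exp_sub, div_eq_mul_inv]
  have e2 : Real.exp (-(2 * s * S') + (3 + 2 * (ε * coefA p)) * n * s ^ 2) * (1 + t ^ 2)⁻¹ *
      ((1 + t ^ 2) ^ n * Real.exp (2 * s * SS ζ / (1 + t ^ 2) - 3 * n * s ^ 2)) =
      Real.exp (2 * s * SS ζ / (1 + t ^ 2)) * ((Real.exp (2 * s * S') * (1 + t ^ 2))⁻¹ * (1 + t ^ 2) ^ n) *
        Real.exp (2 * (ε * coefA p) * n * s ^ 2) := by
    rw [show -(2 * s * S') + (3 + 2 * (ε * coefA p)) * n * s ^ 2 =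
      -(2 * s * S') + (2 * (ε * coefA p) * n * s ^ 2 + 3 * n * s ^ 2) by ring, Real.exp_add, Real.exp_add,
      Real.exp_sub, Real.exp_neg, mul_inv]
    have := Real.exp_pos (3 * n * s ^ 2)
    field_simp
  rw [e1, e2]
  refine mul_le_mul_of_nonneg_right (mul_le_mul_of_nonneg_left ?_ (Real.exp_pos _).le) (Real.exp_pos _).le
  rw [inv_mul_eq_div, le_div_iff₀ (by positivity), inv_mul_le_iff₀ (by positivity)]
  linarith

end real

end

end Pool.Agent.BLP
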