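import Mathlib

/-!
BLP: shift of a vertical segment to the right.
-/

namespace Pool.BLP

open MeasureTheory Complex Set

/-- Cauchy on the rectangle `[0, κ] + i [a, b]`. -/
theorem rect_shift {f : ℂ → ℂ} {κ a b M : ℝ} (hκ : 0 ≤ κ) (hab : a ≤ b)
    (hc : ContinuousOn f (Icc 0 κ ×ℂ Icc a b)) (hd : DifferentiableOn ℂ f (Ioo 0 κ ×ℂ Ioo a b))
    (hM1 : ∀ x ∈ Icc 0 κ, ‖f (x + a * I)‖ ≤ M) (hM2 : ∀ x ∈ Icc 0 κ, ‖f (x + b * I)‖ ≤ M) :
    ‖∫ y in a..b, f (y * I)‖ ≤ (∫ y in a..b, ‖f (κ + y * I)‖) + 2 * κ * M := by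
  have h := Complex.integral_boundary_rect_eq_zero_of_continuousOn_of_differentiableOn f
    ((0 : ℝ) + a * I) (κ + b * I) (by simpa [uIcc_of_le hκ, uIcc_of_le hab] using hc)
    (by simpa [min_eq_left hκ, max_eq_right hκ, min_eq_left hab, max_eq_right hab] using hd)
  simp only [add_re, ofReal_re, mul_re, I_re, mul_zero, ofReal_im, I_im, mul_one, sub_self, add_zero,
    add_im, mul_im, zero_add, ofReal_zero] at h
  set P := ∫ x in (0 : ℝ)..κ, f (x + a * I) with hP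
  set Q := ∫ x in (0 : ℝ)..κ, f (x + b * I) with hQ
  set V := ∫ y in a..b, f (κ + y * I) with hV
  have e1 : I • (∫ y in a..b, f (y * I)) = P - Q + I • V := by
    rw [sub_eq_zero] at h
    exact h.symm
  have h1 : ‖∫ y in a..b, f (y * I)‖ = ‖P - Q + I • V‖ := by
    rw [← e1, norm_smul, Complex.norm_I, one_mul]
  have h2 : ‖P‖ ≤ M * κ := by
    have := intervalIntegral.norm_integral_le_of_norm_le_const (a := (0 : ℝ)) (b := κ) (C := M)
      (f := fun x : ℝ => f (x + a * I)) (fun x hx => hM1 x ?_)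
    · rwa [sub_zero, abs_of_nonneg hκ] at this
    · rw [uIoc_of_le hκ] at hx
      exact ⟨hx.1.le, hx.2⟩
  have h3 : ‖Q‖ ≤ M * κ := by
    have := intervalIntegral.norm_integral_le_of_norm_le_const (a := (0 : ℝ)) (b := κ) (C := M)
      (f := fun x : ℝ => f (x + b * I)) (fun x hx => hM2 x ?_)
    · rwa [sub_zero, abs_of_nonneg hκ] at this
    · rw [uIoc_of_le hκ] at hx
      exact ⟨hx.1.le, hx.2⟩
  have h4 : ‖V‖ ≤ ∫ y in a..b, ‖f (κ + y * I)‖ := intervalIntegral.norm_integral_le_integral_norm hab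
  rw [h1]
  calc ‖P - Q + I • V‖ ≤ ‖P - Q‖ + ‖I • V‖ := norm_add_le _ _
    _ ≤ (‖P‖ + ‖Q‖) + ‖V‖ := by
        rw [norm_smul, Complex.norm_I, one_mul]
        exact add_le_add_left (norm_sub_le _ _) _
    _ ≤ _ := by linarith

end Pool.BLP
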