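import Mathlib

/-!
# BEYOND LP, section 6: the Gaussian window

`kg = 1 / 10 ^ 4`, `gp n = n / (2 kg ^ 2)`, `J = (0.9978, 0.9992)`;
`chiC n w = sqrt (gp n / pi) * integral over J of exp (- gp n (w - x) ^ 2) dx`, `w` complex,
and `chiP n y` is the same for real `y`.
-/

namespace Pool.BLP

open MeasureTheory Complex Set

/-- the Gaussian exponent `n / (2 kg ^ 2)`, `kg = 1 / 10 ^ 4` -/
noncomputable def gp (n : ℕ) : ℝ := 50000000 * n

/-- the window, complex argument -/
noncomputable def chiC (n : ℕ) (w : ℂ) : ℂ :=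
  (Real.sqrt (gp n / Real.pi) : ℝ) *
    ∫ x in (9978 / 10000 : ℝ)..(9992 / 10000), cexp (-(gp n : ℂ) * (w - x) ^ 2)

/-- the window, real argument -/
noncomputable def chiP (n : ℕ) (y : ℝ) : ℝ :=
  Real.sqrt (gp n / Real.pi) *
    ∫ x in (9978 / 10000 : ℝ)..(9992 / 10000), Real.exp (-(gp n) * (y - x) ^ 2)

theorem gp_pos {n : ℕ} (hn : 1 ≤ n) : 0 < gp n := by
  have : (1 : ℝ) ≤ n := by exact_mod_cast hn
  unfold gp; positivity

theorem gp_nonneg (n : ℕ) : 0 ≤ gp n := by unfold gp; positivity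

theorem continuous_chiC_aux (n : ℕ) :
    Continuous (fun p : ℂ × ℝ => cexp (-(gp n : ℂ) * (p.1 - p.2) ^ 2)) := by
  fun_prop

theorem hasDerivAt_chiC_aux (n : ℕ) (x : ℝ) (w : ℂ) :
    HasDerivAt (fun w : ℂ => cexp (-(gp n : ℂ) * (w - x) ^ 2))
      (cexp (-(gp n : ℂ) * (w - x) ^ 2) * (-(gp n : ℂ) * (2 * (w - x)))) w := by
  have h1 : HasDerivAt (fun w : ℂ => (w - x)) 1 w := (hasDerivAt_id w).sub_const _
  have h2 := (h1.pow 2).const_mul (-(gp n : ℂ))
  have h3 := h2.cexp
  convert! h3 using 1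
  simp

theorem differentiable_chiC (n : ℕ) : Differentiable ℂ (chiC n) := by
  intro w0
  have hcont : Continuous (fun p : ℂ × ℝ =>
      cexp (-(gp n : ℂ) * (p.1 - p.2) ^ 2) * (-(gp n : ℂ) * (2 * (p.1 - p.2)))) := by fun_prop
  obtain ⟨C, hC⟩ := (((isCompact_closedBall w0 1).prod
    (isCompact_Icc (a := (9978 / 10000 : ℝ)) (b := 9992 / 10000))).exists_bound_of_continuousOn
      hcont.continuousOn)
  have hmem : Metric.ball w0 1 ∈ nhds w0 := Metric.ball_mem_nhds w0 one_pos
  have key := intervalIntegral.hasDerivAt_integral_of_dominated_loc_of_deriv_le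
    (μ := volume) (a := (9978 / 10000 : ℝ)) (b := 9992 / 10000)
    (F := fun (w : ℂ) (x : ℝ) => cexp (-(gp n : ℂ) * (w - x) ^ 2))
    (F' := fun (w : ℂ) (x : ℝ) =>
      cexp (-(gp n : ℂ) * (w - x) ^ 2) * (-(gp n : ℂ) * (2 * (w - x))))
    (x₀ := w0) (bound := fun _ => C) hmem
    (Filter.Eventually.of_forall fun w =>
      ((continuous_chiC_aux n).comp (Continuous.prodMk continuous_const
        continuous_id)).aestronglyMeasurable)
    (((continuous_chiC_aux n).comp (Continuous.prodMk continuous_const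
        continuous_id)).intervalIntegrable _ _)
    ((hcont.comp (Continuous.prodMk continuous_const continuous_id)).aestronglyMeasurable)
    (Filter.Eventually.of_forall fun x hx w hw => by
      have hx' : x ∈ Icc (9978 / 10000 : ℝ) (9992 / 10000) := by
        rw [uIoc_of_le (by norm_num)] at hx
        exact ⟨hx.1.le, hx.2⟩
      exact hC (w, x) ⟨Metric.ball_subset_closedBall hw, hx'⟩)
    (by simp)
    (Filter.Eventually.of_forall fun x _ w _ => hasDerivAt_chiC_aux n x w)
  exact (key.2.differentiableAt.const_mul _)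

theorem chiC_ofReal (n : ℕ) (y : ℝ) : chiC n (y : ℂ) = (chiP n y : ℂ) := by
  unfold chiC chiP
  rw [Complex.ofReal_mul, ← intervalIntegral.integral_ofReal]
  congr 1
  refine intervalIntegral.integral_congr fun x _ => ?_
  push_cast
  rfl

theorem continuous_chiP (n : ℕ) : Continuous (chiP n) := by
  have h : chiP n = fun y : ℝ => (chiC n (y : ℂ)).re := by
    funext y; rw [chiC_ofReal]; simp
  rw [h]
  exact Complex.continuous_re.comp ((differentiable_chiC n).continuous.comp
    Complex.continuous_ofReal)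

theorem chiP_nonneg (n : ℕ) (y : ℝ) : 0 ≤ chiP n y := by
  unfold chiP
  refine mul_nonneg (Real.sqrt_nonneg _) (intervalIntegral.integral_nonneg (by norm_num) ?_)
  intro x _
  positivity

/-- the Gaussian of total mass one -/
noncomputable def gau1 (a : ℝ) (x : ℝ) : ℝ := Real.sqrt (a / Real.pi) * Real.exp (-a * x ^ 2)

theorem gau1_nonneg (a x : ℝ) : 0 ≤ gau1 a x := by unfold gau1; positivity

theorem integrable_gau1 {a : ℝ} (ha : 0 < a) : Integrable (gau1 a) :=
  (integrable_exp_neg_mul_sq ha).const_mul _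

theorem integral_gau1 {a : ℝ} (ha : 0 < a) : ∫ x, gau1 a x = 1 := by
  unfold gau1
  rw [integral_const_mul, integral_gaussian, ← Real.sqrt_mul (by positivity)]
  have : a / Real.pi * (Real.pi / a) = 1 := by
    field_simp
  rw [this, Real.sqrt_one]

theorem integrable_gau1_sub {a : ℝ} (ha : 0 < a) (y : ℝ) :
    Integrable (fun x => gau1 a (y - x)) := (integrable_gau1 ha).comp_sub_left y

theorem integral_gau1_sub {a : ℝ} (ha : 0 < a) (y : ℝ) : ∫ x, gau1 a (y - x) = 1 := by
  rw [integral_sub_left_eq_self (gau1 a) volume y, integral_gau1 ha]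

theorem chiP_eq (n : ℕ) (y : ℝ) :
    chiP n y = ∫ x in Ioc (9978 / 10000 : ℝ) (9992 / 10000), gau1 (gp n) (y - x) := by
  unfold chiP gau1
  rw [intervalIntegral.integral_of_le (by norm_num), ← integral_const_mul]

/-- a tail of the Gaussian: on `S` the point `y` is at distance at least `d` further than `c`. -/
theorem tail_le {a : ℝ} (ha : 0 < a) {S : Set ℝ} (hS : MeasurableSet S) {y c d : ℝ}
    (h : ∀ x ∈ S, d ^ 2 + (c - x) ^ 2 ≤ (y - x) ^ 2) :
    ∫ x in S, gau1 a (y - x) ≤ Real.exp (-a * d ^ 2) := by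
  have h1 : ∫ x in S, gau1 a (y - x) ≤ ∫ x in S, Real.exp (-a * d ^ 2) * gau1 a (c - x) := by
    refine setIntegral_mono_on (integrable_gau1_sub ha y).integrableOn
      ((integrable_gau1_sub ha c).const_mul _).integrableOn hS ?_
    intro x hx
    unfold gau1
    have h2 : Real.exp (-a * (y - x) ^ 2) ≤
        Real.exp (-a * d ^ 2) * Real.exp (-a * (c - x) ^ 2) := by
      rw [← Real.exp_add]
      apply Real.exp_le_exp.mpr
      have := h x hx
      nlinarith
    calc Real.sqrt (a / Real.pi) * Real.exp (-a * (y - x) ^ 2)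
        ≤ Real.sqrt (a / Real.pi) * (Real.exp (-a * d ^ 2) * Real.exp (-a * (c - x) ^ 2)) :=
          mul_le_mul_of_nonneg_left h2 (Real.sqrt_nonneg _)
      _ = _ := by ring
  have h3 : ∫ x in S, Real.exp (-a * d ^ 2) * gau1 a (c - x) ≤
      ∫ x, Real.exp (-a * d ^ 2) * gau1 a (c - x) := by
    refine setIntegral_le_integral ((integrable_gau1_sub ha c).const_mul _) ?_
    exact Filter.Eventually.of_forall fun x => mul_nonneg (Real.exp_pos _).le (gau1_nonneg _ _)
  have h4 : ∫ x, Real.exp (-a * d ^ 2) * gau1 a (c - x) = Real.exp (-a * d ^ 2) := by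
    rw [integral_const_mul, integral_gau1_sub ha, mul_one]
  exact h1.trans (h3.trans_eq h4)

theorem chiP_neg_eq (n : ℕ) (y : ℝ) :
    chiP n (-y) = ∫ x in Ioc (-(9992 / 10000) : ℝ) (-(9978 / 10000)), gau1 (gp n) (y - x) := by
  rw [chiP_eq, ← intervalIntegral.integral_of_le (by norm_num),
    ← intervalIntegral.integral_of_le (by norm_num)]
  have := intervalIntegral.integral_comp_neg (a := (9978 / 10000 : ℝ)) (b := 9992 / 10000)
    (fun x => gau1 (gp n) (y - x))
  rw [← this]
  refine intervalIntegral.integral_congr fun x _ => ?_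
  unfold gau1
  congr 2
  ring

theorem chiP_add_neg_le_one {n : ℕ} (hn : 1 ≤ n) (y : ℝ) : chiP n y + chiP n (-y) ≤ 1 := by
  have ha := gp_pos hn
  rw [chiP_neg_eq, chiP_eq, ← setIntegral_union _ measurableSet_Ioc
    (integrable_gau1_sub ha y).integrableOn (integrable_gau1_sub ha y).integrableOn]
  · rw [← integral_gau1_sub ha y]
    exact setIntegral_le_integral (integrable_gau1_sub ha y)
      (Filter.Eventually.of_forall fun x => gau1_nonneg _ _)
  · rw [Set.disjoint_left]
    intro x hx hx'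
    have h1 := hx.1
    have h2 := hx'.2
    linarith

theorem chiP_le_one {n : ℕ} (hn : 1 ≤ n) (y : ℝ) : chiP n y ≤ 1 := by
  have h1 := chiP_add_neg_le_one hn y
  have h2 := chiP_nonneg n (-y)
  linarith

theorem one_sub_chiP_le {n : ℕ} (hn : 1 ≤ n) {y : ℝ} (h1 : 998 / 1000 ≤ y)
    (h2 : y ≤ 999 / 1000) : 1 - chiP n y ≤ 2 * Real.exp (-(2 * n)) := by
  have ha := gp_pos hn
  have hn' : (1 : ℝ) ≤ n := by exact_mod_cast hn
  have hsplit : ∫ x, gau1 (gp n) (y - x) =
      (∫ x in Iic (9978 / 10000 : ℝ), gau1 (gp n) (y - x)) +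
      ((∫ x in Ioc (9978 / 10000 : ℝ) (9992 / 10000), gau1 (gp n) (y - x)) +
      ∫ x in Ioi (9992 / 10000 : ℝ), gau1 (gp n) (y - x)) := by
    rw [← setIntegral_union _ measurableSet_Ioi (integrable_gau1_sub ha y).integrableOn
      (integrable_gau1_sub ha y).integrableOn, Ioc_union_Ioi_eq_Ioi (by norm_num),
      ← setIntegral_union _ measurableSet_Ioi (integrable_gau1_sub ha y).integrableOn
      (integrable_gau1_sub ha y).integrableOn, Iic_union_Ioi, setIntegral_univ]
    · rw [Set.disjoint_left]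
      intro x hx hx'
      have e1 : x ≤ 9978 / 10000 := hx
      have e2 : 9978 / 10000 < x := hx'
      linarith
    · rw [Set.disjoint_left]
      intro x hx hx'
      have e1 : x ≤ 9992 / 10000 := hx.2
      have e2 : 9992 / 10000 < x := hx'
      linarith
  rw [integral_gau1_sub ha, ← chiP_eq] at hsplit
  have t1 : ∫ x in Iic (9978 / 10000 : ℝ), gau1 (gp n) (y - x) ≤
      Real.exp (-(gp n) * (2 / 10000) ^ 2) := by
    refine tail_le ha measurableSet_Iic (c := 9978 / 10000) ?_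
    intro x hx
    have hx' : x ≤ 9978 / 10000 := hx
    nlinarith
  have t2 : ∫ x in Ioi (9992 / 10000 : ℝ), gau1 (gp n) (y - x) ≤
      Real.exp (-(gp n) * (2 / 10000) ^ 2) := by
    refine tail_le ha measurableSet_Ioi (c := 9992 / 10000) ?_
    intro x hx
    have hx' : 9992 / 10000 < x := hx
    nlinarith
  have he : -(gp n) * (2 / 10000) ^ 2 = -(2 * (n : ℝ)) := by
    unfold gp; ring
  rw [he] at t1 t2
  linarith

/-- outside `J1 = [0.9975, 0.9995]`, left side -/
theorem chiP_le_left {n : ℕ} (hn : 1 ≤ n) {y : ℝ} (h : y ≤ 9975 / 10000) :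
    chiP n y ≤ Real.exp (-(gp n) * (9978 / 10000 - y) ^ 2) := by
  rw [chiP_eq]
  refine tail_le (gp_pos hn) measurableSet_Ioc (c := 9978 / 10000) ?_
  intro x hx
  have hx' : 9978 / 10000 < x := hx.1
  nlinarith

/-- outside `J1 = [0.9975, 0.9995]`, right side -/
theorem chiP_le_right {n : ℕ} (hn : 1 ≤ n) {y : ℝ} (h : 9995 / 10000 ≤ y) :
    chiP n y ≤ Real.exp (-(gp n) * (y - 9992 / 10000) ^ 2) := by
  rw [chiP_eq]
  refine tail_le (gp_pos hn) measurableSet_Ioc (c := 9992 / 10000) ?_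
  intro x hx
  have hx' : x ≤ 9992 / 10000 := hx.2
  nlinarith

theorem chiP_le_out {n : ℕ} (hn : 1 ≤ n) {y : ℝ} (h : y ≤ 9975 / 10000 ∨ 9995 / 10000 ≤ y) :
    chiP n y ≤ Real.exp (-(4 * n)) := by
  have hn' : (1 : ℝ) ≤ n := by exact_mod_cast hn
  have hgp : gp n = 50000000 * n := rfl
  rcases h with h | h
  · refine (chiP_le_left hn h).trans (Real.exp_le_exp.mpr ?_)
    have : (3 / 10000 : ℝ) ^ 2 ≤ (9978 / 10000 - y) ^ 2 := by
      apply pow_le_pow_left₀ (by norm_num); linarith
    rw [hgp]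
    nlinarith
  · refine (chiP_le_right hn h).trans (Real.exp_le_exp.mpr ?_)
    have : (3 / 10000 : ℝ) ^ 2 ≤ (y - 9992 / 10000) ^ 2 := by
      apply pow_le_pow_left₀ (by norm_num); linarith
    rw [hgp]
    nlinarith

theorem norm_chiC_le (n : ℕ) (y t : ℝ) :
    ‖chiC n (y + t * I)‖ ≤ Real.exp (gp n * t ^ 2) * chiP n y := by
  unfold chiC chiP
  rw [norm_mul, Complex.norm_real, Real.norm_of_nonneg (Real.sqrt_nonneg _)]
  have h1 : ‖∫ x in (9978 / 10000 : ℝ)..(9992 / 10000),
      cexp (-(gp n : ℂ) * (((y : ℂ) + t * I) - x) ^ 2)‖ ≤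
      ∫ x in (9978 / 10000 : ℝ)..(9992 / 10000),
        Real.exp (gp n * t ^ 2) * Real.exp (-(gp n) * (y - x) ^ 2) := by
    refine (intervalIntegral.norm_integral_le_integral_norm (by norm_num)).trans (le_of_eq ?_)
    refine intervalIntegral.integral_congr fun x _ => ?_
    change ‖cexp (-(gp n : ℂ) * (((y : ℂ) + t * I) - x) ^ 2)‖ =
      Real.exp (gp n * t ^ 2) * Real.exp (-(gp n) * (y - x) ^ 2)
    rw [Complex.norm_exp, ← Real.exp_add]
    congr 1
    have : (-(gp n : ℂ) * (((y : ℂ) + t * I) - x) ^ 2) =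
        (((gp n * t ^ 2 + -(gp n) * (y - x) ^ 2 : ℝ) : ℂ) +
          ((-(gp n) * (2 * (y - x) * t) : ℝ) : ℂ) * I) := by
      push_cast
      ring_nf
      rw [Complex.I_sq]
      ring
    rw [this, Complex.add_re, Complex.ofReal_re, Complex.re_ofReal_mul, Complex.I_re]
    ring
  rw [intervalIntegral.integral_const_mul] at h1
  calc Real.sqrt (gp n / Real.pi) * ‖∫ x in (9978 / 10000 : ℝ)..(9992 / 10000),
      cexp (-(gp n : ℂ) * (((y : ℂ) + t * I) - x) ^ 2)‖
      ≤ Real.sqrt (gp n / Real.pi) * (Real.exp (gp n * t ^ 2) *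
        ∫ x in (9978 / 10000 : ℝ)..(9992 / 10000), Real.exp (-(gp n) * (y - x) ^ 2)) :=
        mul_le_mul_of_nonneg_left h1 (Real.sqrt_nonneg _)
    _ = _ := by ring

end Pool.BLP
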