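import Pool.Agent.Lib.BLP.Win

/-!
# BEYOND LP, section 6: integrals of the window
-/

namespace Pool.BLP

open MeasureTheory Complex Set

theorem chiP_conv (n : ℕ) : chiP n =
    MeasureTheory.convolution (indicator (Ioc (9978 / 10000 : ℝ) (9992 / 10000))
      (fun _ => (1 : ℝ))) (gau1 (gp n)) (ContinuousLinearMap.mul ℝ ℝ) volume := by
  funext y
  rw [chiP_eq, MeasureTheory.convolution_def, ← integral_indicator measurableSet_Ioc]
  refine integral_congr_ae (Filter.Eventually.of_forall fun x => ?_)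
  simp only [ContinuousLinearMap.mul_apply', indicator_apply]
  split_ifs <;> simp

theorem integrable_ind : Integrable (indicator (Ioc (9978 / 10000 : ℝ) (9992 / 10000))
    (fun _ => (1 : ℝ))) := by
  rw [integrable_indicator_iff measurableSet_Ioc]
  exact integrableOn_const (by simp) (by simp)

theorem integrable_chiP {n : ℕ} (hn : 1 ≤ n) : Integrable (chiP n) := by
  rw [chiP_conv]
  exact integrable_ind.integrable_convolution _ (integrable_gau1 (gp_pos hn))

theorem integral_chiP {n : ℕ} (hn : 1 ≤ n) : ∫ y, chiP n y = 14 / 10000 := by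
  rw [chiP_conv, integral_convolution _ integrable_ind (integrable_gau1 (gp_pos hn)),
    integral_gau1 (gp_pos hn), integral_indicator measurableSet_Ioc]
  simp
  norm_num

theorem integrable_norm_chiC {n : ℕ} (hn : 1 ≤ n) (t : ℝ) :
    Integrable (fun y : ℝ => chiC n (y + t * I)) := by
  refine ((integrable_chiP hn).const_mul (Real.exp (gp n * t ^ 2))).mono' ?_
    (Filter.Eventually.of_forall fun y => norm_chiC_le n y t)
  exact ((differentiable_chiC n).continuous.comp (by fun_prop)).aestronglyMeasurable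

theorem sqrt_small {n : ℕ} (hn : 1 ≤ n) : Real.sqrt (Real.pi / (gp n / 9)) ≤ 1 / 2 := by
  have hn' : (1 : ℝ) ≤ n := by exact_mod_cast hn
  have hg := gp_pos hn
  rw [show (1 / 2 : ℝ) = Real.sqrt (1 / 4) by
    rw [show (1 / 4 : ℝ) = (1 / 2) ^ 2 by norm_num, Real.sqrt_sq (by norm_num)]]
  apply Real.sqrt_le_sqrt
  rw [div_le_iff₀ (by positivity)]
  have h1 := Real.pi_lt_d2
  unfold gp
  nlinarith

theorem gaussian_shift (a c : ℝ) :
    ∫ y, Real.exp (-a * (c - y) ^ 2) = Real.sqrt (Real.pi / a) := by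
  rw [integral_sub_left_eq_self (fun x => Real.exp (-a * x ^ 2)) volume c, integral_gaussian]

theorem integral_chiP_left {n : ℕ} (hn : 1 ≤ n) :
    ∫ y in Iic (9975 / 10000 : ℝ), chiP n y ≤ Real.exp (-(4 * n)) / 2 := by
  have hn' : (1 : ℝ) ≤ n := by exact_mod_cast hn
  have ha := gp_pos hn
  have hint : Integrable (fun y : ℝ => Real.exp (-(4 * (n : ℝ))) *
      Real.exp (-(gp n / 9) * (9978 / 10000 - y) ^ 2)) := by
    refine Integrable.const_mul ?_ _
    exact (integrable_exp_neg_mul_sq (show 0 < gp n / 9 by positivity)).comp_sub_left _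
  have h1 : ∫ y in Iic (9975 / 10000 : ℝ), chiP n y ≤
      ∫ y in Iic (9975 / 10000 : ℝ), Real.exp (-(4 * (n : ℝ))) *
        Real.exp (-(gp n / 9) * (9978 / 10000 - y) ^ 2) := by
    refine setIntegral_mono_on (integrable_chiP hn).integrableOn hint.integrableOn
      measurableSet_Iic ?_
    intro y hy
    have hy' : y ≤ 9975 / 10000 := hy
    refine (chiP_le_left hn hy').trans ?_
    rw [← Real.exp_add]
    apply Real.exp_le_exp.mpr
    have : (3 / 10000 : ℝ) ^ 2 ≤ (9978 / 10000 - y) ^ 2 := by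
      apply pow_le_pow_left₀ (by norm_num); linarith
    have h2 : gp n * (3 / 10000 : ℝ) ^ 2 ≤ gp n * (9978 / 10000 - y) ^ 2 :=
      mul_le_mul_of_nonneg_left this ha.le
    have h3 : gp n * (3 / 10000 : ℝ) ^ 2 = 9 / 2 * n := by unfold gp; ring
    nlinarith
  have h2 : ∫ y in Iic (9975 / 10000 : ℝ), Real.exp (-(4 * (n : ℝ))) *
        Real.exp (-(gp n / 9) * (9978 / 10000 - y) ^ 2) ≤
      ∫ y, Real.exp (-(4 * (n : ℝ))) * Real.exp (-(gp n / 9) * (9978 / 10000 - y) ^ 2) :=
    setIntegral_le_integral hint (Filter.Eventually.of_forall fun y => by positivity)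
  have h3 : ∫ y, Real.exp (-(4 * (n : ℝ))) * Real.exp (-(gp n / 9) * (9978 / 10000 - y) ^ 2) =
      Real.exp (-(4 * (n : ℝ))) * Real.sqrt (Real.pi / (gp n / 9)) := by
    rw [integral_const_mul, gaussian_shift]
  have h4 := sqrt_small hn
  have h5 := Real.exp_pos (-(4 * (n : ℝ)))
  nlinarith

theorem integral_chiP_right {n : ℕ} (hn : 1 ≤ n) :
    ∫ y in Ici (9995 / 10000 : ℝ), chiP n y ≤ Real.exp (-(4 * n)) / 2 := by
  have hn' : (1 : ℝ) ≤ n := by exact_mod_cast hn
  have ha := gp_pos hn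
  have hint : Integrable (fun y : ℝ => Real.exp (-(4 * (n : ℝ))) *
      Real.exp (-(gp n / 9) * (9992 / 10000 - y) ^ 2)) := by
    refine Integrable.const_mul ?_ _
    exact (integrable_exp_neg_mul_sq (show 0 < gp n / 9 by positivity)).comp_sub_left _
  have h1 : ∫ y in Ici (9995 / 10000 : ℝ), chiP n y ≤
      ∫ y in Ici (9995 / 10000 : ℝ), Real.exp (-(4 * (n : ℝ))) *
        Real.exp (-(gp n / 9) * (9992 / 10000 - y) ^ 2) := by
    refine setIntegral_mono_on (integrable_chiP hn).integrableOn hint.integrableOn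
      measurableSet_Ici ?_
    intro y hy
    have hy' : 9995 / 10000 ≤ y := hy
    refine (chiP_le_right hn hy').trans ?_
    rw [← Real.exp_add]
    apply Real.exp_le_exp.mpr
    have : (3 / 10000 : ℝ) ^ 2 ≤ (y - 9992 / 10000) ^ 2 := by
      apply pow_le_pow_left₀ (by norm_num); linarith
    have h2 : gp n * (3 / 10000 : ℝ) ^ 2 ≤ gp n * (y - 9992 / 10000) ^ 2 :=
      mul_le_mul_of_nonneg_left this ha.le
    have h3 : gp n * (3 / 10000 : ℝ) ^ 2 = 9 / 2 * n := by unfold gp; ring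
    nlinarith
  have h2 : ∫ y in Ici (9995 / 10000 : ℝ), Real.exp (-(4 * (n : ℝ))) *
        Real.exp (-(gp n / 9) * (9992 / 10000 - y) ^ 2) ≤
      ∫ y, Real.exp (-(4 * (n : ℝ))) * Real.exp (-(gp n / 9) * (9992 / 10000 - y) ^ 2) :=
    setIntegral_le_integral hint (Filter.Eventually.of_forall fun y => by positivity)
  have h3 : ∫ y, Real.exp (-(4 * (n : ℝ))) * Real.exp (-(gp n / 9) * (9992 / 10000 - y) ^ 2) =
      Real.exp (-(4 * (n : ℝ))) * Real.sqrt (Real.pi / (gp n / 9)) := by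
    rw [integral_const_mul, gaussian_shift]
  have h4 := sqrt_small hn
  have h5 := Real.exp_pos (-(4 * (n : ℝ)))
  nlinarith

/-- the mass of the window outside `J1 = [0.9975, 0.9995]` -/
theorem integral_chiP_out {n : ℕ} (hn : 1 ≤ n) :
    ∫ y in (Icc (9975 / 10000 : ℝ) (9995 / 10000))ᶜ, chiP n y ≤ Real.exp (-(4 * n)) := by
  have hsub : (Icc (9975 / 10000 : ℝ) (9995 / 10000))ᶜ ⊆
      Iic (9975 / 10000 : ℝ) ∪ Ici (9995 / 10000 : ℝ) := by
    intro y hy
    by_contra h
    rw [mem_union, not_or] at h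
    have h1 : 9975 / 10000 < y := not_le.mp h.1
    have h2 : y < 9995 / 10000 := not_le.mp h.2
    exact hy ⟨h1.le, h2.le⟩
  have h1 : ∫ y in (Icc (9975 / 10000 : ℝ) (9995 / 10000))ᶜ, chiP n y ≤
      ∫ y in Iic (9975 / 10000 : ℝ) ∪ Ici (9995 / 10000 : ℝ), chiP n y :=
    setIntegral_mono_set (integrable_chiP hn).integrableOn
      (Filter.Eventually.of_forall fun y => chiP_nonneg n y)
      (Filter.Eventually.of_forall hsub)
  rw [setIntegral_union _ measurableSet_Ici (integrable_chiP hn).integrableOn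
    (integrable_chiP hn).integrableOn] at h1
  · have h2 := integral_chiP_left hn
    have h3 := integral_chiP_right hn
    linarith
  · rw [Set.disjoint_left]
    intro x hx hx'
    have e1 : x ≤ 9975 / 10000 := hx
    have e2 : 9995 / 10000 ≤ x := hx'
    linarith

/-- the symmetric window on the real line -/
noncomputable def chi (n : ℕ) (y : ℝ) : ℝ := chiP n y + chiP n (-y)

theorem chi_nonneg (n : ℕ) (y : ℝ) : 0 ≤ chi n y :=
  add_nonneg (chiP_nonneg _ _) (chiP_nonneg _ _)

theorem chi_le_one {n : ℕ} (hn : 1 ≤ n) (y : ℝ) : chi n y ≤ 1 := chiP_add_neg_le_one hn y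

theorem chi_neg (n : ℕ) (y : ℝ) : chi n (-y) = chi n y := by
  unfold chi; rw [neg_neg, add_comm]

theorem continuous_chi (n : ℕ) : Continuous (chi n) :=
  (continuous_chiP n).add ((continuous_chiP n).comp continuous_neg)

theorem integrable_chi {n : ℕ} (hn : 1 ≤ n) : Integrable (chi n) :=
  (integrable_chiP hn).add (integrable_chiP hn).comp_neg

theorem integral_chi {n : ℕ} (hn : 1 ≤ n) : ∫ y, chi n y = 28 / 10000 := by
  unfold chi
  rw [integral_add (integrable_chiP hn) (integrable_chiP hn).comp_neg,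
    integral_neg_eq_self (chiP n) volume, integral_chiP hn]
  norm_num

theorem one_sub_chi_le {n : ℕ} (hn : 1 ≤ n) {y : ℝ} (h1 : 998 / 1000 ≤ |y|)
    (h2 : |y| ≤ 999 / 1000) : 1 - chi n y ≤ 2 * Real.exp (-(2 * n)) := by
  rcases le_total 0 y with h | h
  · rw [abs_of_nonneg h] at h1 h2
    have := one_sub_chiP_le hn h1 h2
    have := chiP_nonneg n (-y)
    unfold chi
    linarith
  · rw [abs_of_nonpos h] at h1 h2
    have := one_sub_chiP_le hn h1 h2
    have := chiP_nonneg n y
    unfold chi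
    linarith

/-- pointwise bound for the part of the integral that the window leaves -/
theorem one_sub_chi_mul_le {n : ℕ} (hn : 1 ≤ n) {P : ℝ → ℝ} (h0 : ∀ y, 0 ≤ P y)
    (h1 : ∀ y, |y| ≤ 1 → ¬ (998 / 1000 < |y| ∧ |y| < 999 / 1000) → P y ≤ 4)
    (h2 : ∀ y, 998 / 1000 < |y| → |y| < 999 / 1000 → P y ≤ 2 * Real.exp (2 * n))
    (h3 : ∀ y, 1 ≤ |y| → P y ≤ 4 / y ^ 2) (y : ℝ) :
    (1 - chi n y) * P y ≤ 8 / (1 + y ^ 2) := by
  have hc0 := chi_nonneg n y
  have hc1 := chi_le_one hn y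
  have hP := h0 y
  have hy2 : |y| ^ 2 = y ^ 2 := sq_abs y
  rcases le_total |y| 1 with h | h
  · have hle : (4 : ℝ) ≤ 8 / (1 + y ^ 2) := by
      rw [le_div_iff₀ (by positivity)]
      have : |y| ^ 2 ≤ 1 := by
        have := abs_nonneg y
        nlinarith
      nlinarith
    refine le_trans ?_ hle
    by_cases hJ : 998 / 1000 < |y| ∧ |y| < 999 / 1000
    · have e1 := one_sub_chi_le hn hJ.1.le hJ.2.le
      have e2 := h2 y hJ.1 hJ.2
      calc (1 - chi n y) * P y ≤ (2 * Real.exp (-(2 * n))) * (2 * Real.exp (2 * n)) :=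
            mul_le_mul e1 e2 hP (by positivity)
        _ = 4 * (Real.exp (-(2 * n)) * Real.exp (2 * n)) := by ring
        _ = 4 := by rw [← Real.exp_add]; simp
    · have e2 := h1 y h hJ
      nlinarith
  · have hypos : 0 < y ^ 2 := by
      rw [← hy2]; positivity
    have hle : 4 / y ^ 2 ≤ 8 / (1 + y ^ 2) := by
      rw [div_le_div_iff₀ hypos (by positivity)]
      have : 1 ≤ |y| ^ 2 := by nlinarith
      nlinarith
    refine le_trans ?_ hle
    have e2 := h3 y h
    nlinarith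

theorem integrable_cauchy8 : Integrable (fun y : ℝ => 8 / (1 + y ^ 2)) := by
  simpa [div_eq_mul_inv] using (integrable_inv_one_add_sq).const_mul 8

theorem integral_cauchy8 : ∫ y : ℝ, 8 / (1 + y ^ 2) = 8 * Real.pi := by
  simp only [div_eq_mul_inv]
  rw [integral_const_mul, integral_univ_inv_one_add_sq]

/-- section 6: `integral of (1 - chi) P <= 8 pi`, so `|q_r| <= 4` -/
theorem integral_one_sub_chi_le {n : ℕ} (hn : 1 ≤ n) {P : ℝ → ℝ} (h0 : ∀ y, 0 ≤ P y)
    (h1 : ∀ y, |y| ≤ 1 → ¬ (998 / 1000 < |y| ∧ |y| < 999 / 1000) → P y ≤ 4)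
    (h2 : ∀ y, 998 / 1000 < |y| → |y| < 999 / 1000 → P y ≤ 2 * Real.exp (2 * n))
    (h3 : ∀ y, 1 ≤ |y| → P y ≤ 4 / y ^ 2) :
    ∫ y, (1 - chi n y) * P y ≤ 8 * Real.pi := by
  rw [← integral_cauchy8]
  refine integral_mono_of_nonneg (Filter.Eventually.of_forall fun y => ?_) integrable_cauchy8
    (Filter.Eventually.of_forall fun y => one_sub_chi_mul_le hn h0 h1 h2 h3 y)
  have := chi_le_one hn y
  exact mul_nonneg (by linarith) (h0 y)

end Pool.BLP
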